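import Pool.Agent.Lib_helper11.PLM.F.WDefs


open Set Filter Topology
open scoped Manifold

namespace Pool.Agent.Lib_helper11.PLM

/-- a connected open neighbourhood with compact closure inside a given open set -/
theorem arn_nhd {X : Type*} [TopologicalSpace X] [T2Space X] [LocallyCompactSpace X]
    [LocallyConnectedSpace X] (x : X) (U : Set X) (hU : IsOpen U) (hx : x ∈ U) :
    ∃ C : Set X, IsOpen C ∧ x ∈ C ∧ IsConnected C ∧ IsCompact (closure C) ∧ closure C ⊆ U := by
  obtain ⟨L, hL, hxL, hLU⟩ := exists_compact_subset hU hx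
  have hb := (locallyConnectedSpace_iff_hasBasis_isOpen_isConnected.1
    (inferInstance : LocallyConnectedSpace X)) x
  obtain ⟨C, ⟨hC1, hC2, hC3⟩, hCL⟩ := hb.mem_iff.1 (isOpen_interior.mem_nhds hxL)
  have h1 : closure C ⊆ L := closure_minimal (Set.Subset.trans hCL interior_subset) hL.isClosed
  exact ⟨C, hC1, hC2, hC3, hL.of_isClosed_subset isClosed_closure h1, h1.trans hLU⟩

theorem arn_key {X : Type*} [TopologicalSpace X] [T2Space X] [LocallyCompactSpace X]
    [LocallyConnectedSpace X] {G : Type*} [TopologicalSpace G] (ι : G → X ≃ₜ X)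
    (hι : ∀ K U : Set X, IsCompact K → IsOpen U → IsOpen {g : G | MapsTo (ι g) K U})
    (K U : Set X) (hK : IsCompact K) (hU : IsOpen U) :
    IsOpen {g : G | MapsTo (ι g).symm K U} := by
  rw [isOpen_iff_mem_nhds]
  intro g0 hg0
  have hg0' : MapsTo (ι g0).symm K U := hg0
  show ∀ᶠ g in 𝓝 g0, MapsTo (ι g).symm K U
  refine hK.induction_on (p := fun S => ∀ᶠ g in 𝓝 g0, MapsTo (ι g).symm S U) ?_ ?_ ?_ ?_
  · exact Eventually.of_forall fun g => mapsTo_empty _ _
  · intro S T hST hT
    filter_upwards [hT] with g hg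
    exact hg.mono_left hST
  · intro S T hS hT
    filter_upwards [hS, hT] with g hg hg'
    exact hg.union hg'
  · intro y hy
    set x := (ι g0).symm y with hx
    have hxU : x ∈ U := hg0' hy
    obtain ⟨C, hC1, hC2, hC3, hC4, hC5⟩ := arn_nhd x U hU hxU
    have hyC : y ∈ (ι g0) '' C := ⟨x, hC2, by rw [hx]; exact (ι g0).apply_symm_apply y⟩
    obtain ⟨B, hB1, hB2, hB3, hB4, hB5⟩ := arn_nhd y ((ι g0) '' C)
      ((ι g0).isOpenMap C hC1) hyC
    refine ⟨B, mem_nhdsWithin_of_mem_nhds (hB1.mem_nhds hB2), ?_⟩
    have hfr : IsCompact (frontier C) :=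
      hC4.of_isClosed_subset isClosed_frontier frontier_subset_closure
    have o1 := hι {x} B isCompact_singleton hB1
    have o2 := hι (frontier C) (closure B)ᶜ hfr isClosed_closure.isOpen_compl
    have m1 : g0 ∈ {g : G | MapsTo (ι g) {x} B} := by
      intro z hz
      rw [mem_singleton_iff] at hz
      rw [hz, hx, (ι g0).apply_symm_apply]
      exact hB2
    have m2 : g0 ∈ {g : G | MapsTo (ι g) (frontier C) (closure B)ᶜ} := by
      intro z hz hzB
      obtain ⟨w, hw, hwz⟩ := hB5 hzB
      have := (ι g0).injective hwz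
      rw [this] at hw
      rw [hC1.frontier_eq] at hz
      exact hz.2 hw
    filter_upwards [o1.mem_nhds m1, o2.mem_nhds m2] with g hg1 hg2
    have hg1' : MapsTo (ι g) {x} B := hg1
    have hg2' : MapsTo (ι g) (frontier C) (closure B)ᶜ := hg2
    have hsub : B ⊆ (ι g) '' C := by
      apply hB3.isPreconnected.subset_left_of_subset_union ((ι g).isOpenMap C hC1)
        (((ι g).isClosedMap _ isClosed_closure).isOpen_compl) (v := ((ι g) '' closure C)ᶜ)
      · rw [disjoint_compl_right_iff_subset]
        exact image_mono subset_closure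
      · intro z hz
        by_cases hzc : z ∈ (ι g) '' closure C
        · left
          obtain ⟨w, hw, rfl⟩ := hzc
          by_cases hwC : w ∈ C
          · exact ⟨w, hwC, rfl⟩
          · exfalso
            have : w ∈ frontier C := by
              rw [hC1.frontier_eq]
              exact ⟨hw, hwC⟩
            exact hg2' this (subset_closure hz)
        · right
          exact hzc
      · exact ⟨(ι g) x, hg1' (mem_singleton x), ⟨x, hC2, rfl⟩⟩
    intro z hz
    obtain ⟨w, hw, hwz⟩ := hsub hz
    have : (ι g).symm z = w := by rw [← hwz]; exact (ι g).symm_apply_apply w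
    rw [this]
    exact hC5 (subset_closure hw)

section manifold

variable {n : ℕ} {M : Type*} [TopologicalSpace M] [T2Space M] [ChartedSpace (E n) M]
  [HasGroupoid M (plGroupoid n)]

/-- ARN: Arens -/
theorem coTop_group : @IsTopologicalGroup (PLHomeo n M) (coTop n M) _ := by
  haveI : LocallyCompactSpace M := ChartedSpace.locallyCompactSpace (E n) M
  haveI : LocallyConnectedSpace M := ChartedSpace.locallyConnectedSpace (E n) M
  letI : TopologicalSpace (PLHomeo n M) := coTop n M
  have hind : Continuous (fun f : PLHomeo n M =>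
      (⟨(f : M ≃ₜ M), (f : M ≃ₜ M).continuous⟩ : C(M, M))) := continuous_induced_dom
  have hι : ∀ K U : Set M, IsCompact K → IsOpen U →
      IsOpen {g : PLHomeo n M | MapsTo (g : M ≃ₜ M) K U} := by
    intro K U hK hU
    exact (ContinuousMap.isOpen_setOf_mapsTo hK hU).preimage hind
  refine { continuous_mul := ?_, continuous_inv := ?_ }
  · rw [continuous_induced_rng]
    have h1 : Continuous (fun p : PLHomeo n M × PLHomeo n M =>
        ((⟨(p.1 : M ≃ₜ M), (p.1 : M ≃ₜ M).continuous⟩ : C(M, M)).comp
          (⟨(p.2 : M ≃ₜ M), (p.2 : M ≃ₜ M).continuous⟩ : C(M, M)))) :=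
      ContinuousMap.continuous_comp'.comp ((hind.comp continuous_snd).prodMk
        (hind.comp continuous_fst))
    exact h1
  · rw [continuous_induced_rng, ContinuousMap.continuous_compactOpen]
    intro K hK U hU
    exact arn_key (fun g : PLHomeo n M => (g : M ≃ₜ M)) hι K U hK hU

end manifold

end Pool.Agent.Lib_helper11.PLM
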