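import Pool.Agent.Lib_helper11.PLM.F.WDefs


open Set Filter Topology
open scoped Manifold

namespace Pool.Agent.Lib_helper11.PLM

/-- dilation followed by translation -/
noncomputable def chtHomeo (n : ℕ) (ρ : ℝ) (hρ : ρ ≠ 0) (c : E n) : E n ≃ₜ E n where
  toFun x := ρ • (x - c)
  invFun y := ρ⁻¹ • y + c
  left_inv x := by
    simp [smul_smul, inv_mul_cancel₀ hρ]
  right_inv y := by
    simp [smul_smul, mul_inv_cancel₀ hρ]
  continuous_toFun := by fun_prop
  continuous_invFun := by fun_prop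

theorem cht_locPL_affine {n : ℕ} (f : E n → E n) (a : E n →ᵃ[ℝ] E n) (hf : Continuous f)
    (h : ∀ x, f x = a x) (s : Set (E n)) : LocPL f s := by
  refine ⟨hf.continuousOn, fun x _ => ⟨univ, isOpen_univ, mem_univ x, {a}, finite_singleton _,
    fun y _ => ⟨a, rfl, h y⟩⟩⟩

theorem cht_mem {n : ℕ} (ρ : ℝ) (hρ : ρ ≠ 0) (c : E n) :
    (chtHomeo n ρ hρ c).toOpenPartialHomeomorph ∈ plGroupoid n := by
  rw [plGroupoid, mem_groupoid_of_pregroupoid]
  constructor
  · refine cht_locPL_affine _ (ρ • (AffineMap.id ℝ (E n) - AffineMap.const ℝ (E n) c)) ?_ ?_ _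
    · exact (chtHomeo n ρ hρ c).continuous
    · intro x
      simp [chtHomeo]
  · refine cht_locPL_affine _ (ρ⁻¹ • (AffineMap.id ℝ (E n)) + AffineMap.const ℝ (E n) c) ?_ ?_ _
    · exact (chtHomeo n ρ hρ c).symm.continuous
    · intro x
      simp [chtHomeo]

section manifold

variable {n : ℕ} {M : Type*} [TopologicalSpace M] [T2Space M] [ChartedSpace (E n) M]
  [HasGroupoid M (plGroupoid n)]

/-- CHT -/
theorem exists_chart (p : M) (O : Set M) (hO : IsOpen O) (hp : p ∈ O) :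
    ∃ e ∈ (plGroupoid n).maximalAtlas M, Metric.closedBall 0 10 ⊆ e.target ∧
      (∀ y ∈ Metric.closedBall (0 : E n) 10, e.symm y ∈ O) ∧ p ∈ e.source ∧ e p = 0 := by
  obtain ⟨φ, hφ⟩ : ∃ φ, φ = chartAt (E n) p := ⟨_, rfl⟩
  have hφa : φ ∈ atlas (E n) M := by rw [hφ]; exact chart_mem_atlas _ p
  have hps : p ∈ φ.source := by rw [hφ]; exact mem_chart_source _ p
  have h1 : IsOpen (φ.target ∩ φ.symm ⁻¹' O) := φ.isOpen_inter_preimage_symm hO
  have h2 : φ p ∈ φ.target ∩ φ.symm ⁻¹' O := by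
    refine ⟨φ.map_source hps, ?_⟩
    show φ.symm (φ p) ∈ O
    rw [φ.left_inv hps]
    exact hp
  obtain ⟨ρ, hρ, h3⟩ := Metric.nhds_basis_closedBall.mem_iff.mp (h1.mem_nhds h2)
  have hρ' : (10 / ρ : ℝ) ≠ 0 := by positivity
  obtain ⟨a, ha⟩ : ∃ a, a = (chtHomeo n (10 / ρ) hρ' (φ p)).toOpenPartialHomeomorph := ⟨_, rfl⟩
  have hag : a ∈ plGroupoid n := by rw [ha]; exact cht_mem _ _ _
  have hag' : a.symm ∈ plGroupoid n := (plGroupoid n).symm hag
  have hasymm : ∀ y, a.symm y = (10 / ρ)⁻¹ • y + φ p := by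
    intro y
    rw [ha]
    rfl
  have haap : ∀ x, a x = (10 / ρ) • (x - φ p) := by
    intro x
    rw [ha]
    rfl
  have hball : ∀ y ∈ Metric.closedBall (0 : E n) 10, a.symm y ∈ φ.target ∩ φ.symm ⁻¹' O := by
    intro y hy
    apply h3
    rw [mem_closedBall_iff_norm, hasymm y]
    rw [mem_closedBall_zero_iff] at hy
    rw [add_sub_cancel_right, norm_smul, Real.norm_eq_abs, abs_of_pos (by positivity), inv_div]
    calc ρ / 10 * ‖y‖ ≤ ρ / 10 * 10 := by gcongr
      _ = ρ := by ring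
  refine ⟨φ ≫ₕ a, ?_, ?_, ?_, ?_, ?_⟩
  · rw [mem_maximalAtlas_iff]
    intro e' he'
    constructor
    · have h4 : φ.symm ≫ₕ e' ∈ plGroupoid n := HasGroupoid.compatible hφa he'
      have h5 : (φ ≫ₕ a).symm ≫ₕ e' = a.symm ≫ₕ (φ.symm ≫ₕ e') := by
        rw [OpenPartialHomeomorph.trans_symm_eq_symm_trans_symm,
          OpenPartialHomeomorph.trans_assoc]
      rw [h5]
      exact (plGroupoid n).trans hag' h4
    · have h4 : e'.symm ≫ₕ φ ∈ plGroupoid n := HasGroupoid.compatible he' hφa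
      have h5 : e'.symm ≫ₕ (φ ≫ₕ a) = (e'.symm ≫ₕ φ) ≫ₕ a := by
        rw [OpenPartialHomeomorph.trans_assoc]
      rw [h5]
      exact (plGroupoid n).trans h4 hag
  · intro y hy
    rw [OpenPartialHomeomorph.trans_target]
    refine ⟨?_, (hball y hy).1⟩
    rw [ha]
    exact mem_univ _
  · intro y hy
    have h4 := (hball y hy).2
    exact h4
  · rw [OpenPartialHomeomorph.trans_source]
    refine ⟨hps, ?_⟩
    rw [ha]
    exact mem_univ _
  · show a (φ p) = 0
    rw [haap]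
    simp

end manifold

end Pool.Agent.Lib_helper11.PLM
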