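import Pool.Agent.Lib_helper11.PLM.F.WDefs
import Pool.Agent.Lib_helper11.PLM.F.ARN
import Pool.Agent.Lib_helper11.PLM.F.CHT


open Set Filter Topology
open scoped Manifold

namespace Pool.Agent.Lib_helper11.PLM

section manifold

variable {n : ℕ} {M : Type*} [TopologicalSpace M] [T2Space M] [ChartedSpace (E n) M]
  [HasGroupoid M (plGroupoid n)]

/-- BCH -/
theorem exists_bad_chart (t : TopologicalSpace (PLHomeo n M))
    (ht : @IsTopologicalGroup (PLHomeo n M) t _) (hle : coTop n M ≤ t) (hne : t ≠ coTop n M) :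
    ∃ e ∈ (plGroupoid n).maximalAtlas M, Metric.closedBall 0 10 ⊆ e.target ∧
      ∀ N ∈ @nhds _ t 1, ∃ f ∈ N, ∃ x ∈ e.symm '' Metric.ball 0 1,
        (f : M ≃ₜ M) x ∉ e.symm '' Metric.closedBall 0 10 := by
  by_contra hcon
  push Not at hcon
  apply hne
  apply IsTopologicalGroup.ext ht coTop_group
  apply le_antisymm
  · have hmain : Tendsto (fun f : PLHomeo n M =>
        (⟨(f : M ≃ₜ M), (f : M ≃ₜ M).continuous⟩ : C(M, M))) (@nhds _ t 1)
        (𝓝 (⟨((1 : PLHomeo n M) : M ≃ₜ M), ((1 : PLHomeo n M) : M ≃ₜ M).continuous⟩ : C(M, M))) := by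
      rw [ContinuousMap.tendsto_nhds_compactOpen]
      intro K hK U hU hKU
      have hKU' : K ⊆ U := fun x hx => hKU hx
      have hex : ∀ p : K, ∃ e ∈ (plGroupoid n).maximalAtlas M,
          Metric.closedBall 0 10 ⊆ e.target ∧
          (∀ y ∈ Metric.closedBall (0 : E n) 10, e.symm y ∈ U) ∧ (p : M) ∈ e.source ∧ e p = 0 :=
        fun p => exists_chart (p : M) U hU (hKU' p.2)
      choose e he hb hyU hps hp0 using hex
      have hN : ∀ p : K, ∃ N ∈ @nhds _ t 1, ∀ f ∈ N, ∀ x ∈ (e p).symm '' Metric.ball 0 1,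
          (f : M ≃ₜ M) x ∈ (e p).symm '' Metric.closedBall 0 10 := by
        intro p
        exact hcon (e p) (he p) (hb p)
      choose N hN1 hN2 using hN
      have hopen : ∀ p : K, IsOpen ((e p).symm '' Metric.ball 0 1) := fun p =>
        (e p).symm.isOpen_image_of_subset_source Metric.isOpen_ball
          ((Metric.ball_subset_closedBall.trans
            (Metric.closedBall_subset_closedBall (by norm_num))).trans (hb p))
      have hcov : K ⊆ ⋃ p : K, (e p).symm '' Metric.ball 0 1 := by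
        intro x hx
        refine mem_iUnion.mpr ⟨⟨x, hx⟩, 0, Metric.mem_ball_self one_pos, ?_⟩
        have := (e ⟨x, hx⟩).left_inv (hps ⟨x, hx⟩)
        rw [hp0] at this
        exact this
      obtain ⟨s, hs⟩ := hK.elim_finite_subcover _ hopen hcov
      have hinter : (⋂ p ∈ s, N p) ∈ @nhds _ t 1 := by
        rw [Filter.biInter_finset_mem]
        exact fun p _ => hN1 p
      filter_upwards [hinter] with f hf x hx
      obtain ⟨p, hp, hxp⟩ := mem_iUnion₂.mp (hs hx)
      obtain ⟨y, hy, hy2⟩ := hN2 p f (mem_iInter₂.mp hf p hp) x hxp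
      show (f : M ≃ₜ M) x ∈ U
      rw [← hy2]
      exact hyU p y hy
    have h2 : @nhds _ (coTop n M) 1 = comap (fun f : PLHomeo n M =>
        (⟨(f : M ≃ₜ M), (f : M ≃ₜ M).continuous⟩ : C(M, M)))
        (𝓝 (⟨((1 : PLHomeo n M) : M ≃ₜ M), ((1 : PLHomeo n M) : M ≃ₜ M).continuous⟩ : C(M, M))) :=
      nhds_induced _ _
    rw [h2]
    exact tendsto_iff_comap.mp hmain
  · exact nhds_mono hle

end manifold

end Pool.Agent.Lib_helper11.PLM
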