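import Pool.Agent.Lib_helper11.PLM.F.WDefs


open Set Filter Topology
open scoped Manifold

namespace Pool.Agent.Lib_helper11.PLM

theorem cmb_mapsTo {n : ℕ} {R : ℝ} (h : HC n R) (S : Set (E n)) (hh : Supp h S) (x : E n)
    (hx : x ∈ S) : (h : E n ≃ₜ E n) x ∈ S := by
  by_contra hc
  have h1 := hh _ hc
  have h2 := (h : E n ≃ₜ E n).injective h1
  rw [h2] at hc
  exact hc hx

theorem cmb_mul_apply {n : ℕ} {R : ℝ} (g h : HC n R) (x : E n) :
    ((g * h : HC n R) : E n ≃ₜ E n) x = (g : E n ≃ₜ E n) ((h : E n ≃ₜ E n) x) := rfl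

theorem cmb_aux {n : ℕ} {R : ℝ} {ι : Type*} (h : ι → HC n R) (S : ι → Set (E n))
    (hS : Pairwise (Function.onFun Disjoint S)) (hh : ∀ k, Supp (h k) (S k)) (L : List ι)
    (hL : L.Nodup) :
    (∀ k ∈ L, ∀ x ∈ S k, (((L.map h).prod : HC n R) : E n ≃ₜ E n) x = (h k : E n ≃ₜ E n) x) ∧
      (∀ x, (∀ k ∈ L, x ∉ S k) → (((L.map h).prod : HC n R) : E n ≃ₜ E n) x = x) := by
  induction L with
  | nil =>
    refine ⟨by simp, fun x _ => ?_⟩
    simp only [List.map_nil, List.prod_nil]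
    rfl
  | cons k0 L ih =>
    rw [List.nodup_cons] at hL
    obtain ⟨ih1, ih2⟩ := ih hL.2
    refine ⟨?_, ?_⟩
    · intro k hk x hx
      rw [List.map_cons, List.prod_cons, cmb_mul_apply]
      rcases List.mem_cons.1 hk with rfl | hk'
      · rw [ih2 x]
        intro k' hk' hx'
        have hne : k' ≠ k := fun h => hL.1 (h ▸ hk')
        exact Set.disjoint_left.1 (hS hne) hx' hx
      · rw [ih1 k hk' x hx]
        apply hh k0
        intro hx'
        have hne : k ≠ k0 := fun h => hL.1 (h ▸ hk')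
        exact Set.disjoint_left.1 (hS hne) (cmb_mapsTo _ _ (hh k) x hx) hx'
    · intro x hx
      rw [List.map_cons, List.prod_cons, cmb_mul_apply,
        ih2 x fun k hk => hx k (List.mem_cons_of_mem _ hk)]
      exact hh k0 x (hx k0 (by simp))

theorem combine {n : ℕ} {R : ℝ} {ι : Type*} [Fintype ι] (h : ι → HC n R) (S : ι → Set (E n))
    (hS : Pairwise (Function.onFun Disjoint S)) (hh : ∀ k, Supp (h k) (S k)) :
    ∃ l : List (HC n R), l.length = Fintype.card ι ∧ (∀ g ∈ l, ∃ k, g = h k) ∧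
      (∀ k, ∀ x ∈ S k, ((l.prod : HC n R) : E n ≃ₜ E n) x = (h k : E n ≃ₜ E n) x) ∧
      (∀ x, (∀ k, x ∉ S k) → ((l.prod : HC n R) : E n ≃ₜ E n) x = x) := by
  obtain ⟨h1, h2⟩ := cmb_aux h S hS hh (Finset.univ : Finset ι).toList
    (Finset.nodup_toList _)
  refine ⟨((Finset.univ : Finset ι).toList).map h, by simp, ?_, ?_, ?_⟩
  · intro g hg
    obtain ⟨k, -, rfl⟩ := List.mem_map.1 hg
    exact ⟨k, rfl⟩
  · intro k x hx
    exact h1 k (by simp) x hx
  · intro x hx
    exact h2 x fun k _ => hx k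

end Pool.Agent.Lib_helper11.PLM
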