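import Pool.Agent.Lib_helper11.PLM.F.WDefs


open Set Filter Topology
open scoped Manifold

namespace Pool.Agent.Lib_helper11.PLM

theorem fact0 {G : Type*} [Group G] [TopologicalSpace G] [IsTopologicalGroup G] [T2Space G]
    (a b : G) (hab : a * b ≠ b * a) :
    ∀ᶠ g in 𝓝 (1 : G), g * a * g⁻¹ * b ≠ b * (g * a * g⁻¹) := by
  have h1 : Continuous fun g : G => g * a * g⁻¹ * b := by fun_prop
  have h2 : Continuous fun g : G => b * (g * a * g⁻¹) := by fun_prop
  have h3 : IsOpen {g : G | g * a * g⁻¹ * b ≠ b * (g * a * g⁻¹)} :=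
    (isClosed_eq h1 h2).isOpen_compl
  exact h3.mem_nhds (by simpa using hab)

section manifold

variable {n : ℕ} {M : Type*} [TopologicalSpace M] [T2Space M] [ChartedSpace (E n) M]
  [HasGroupoid M (plGroupoid n)]

theorem coTop_t2 : @T2Space (PLHomeo n M) (coTop n M) := by
  let tt : TopologicalSpace (PLHomeo n M) := coTop n M
  refine @T2Space.of_injective_continuous _ C(M, M) tt _ _
    (fun f : PLHomeo n M => (⟨(f : M ≃ₜ M), (f : M ≃ₜ M).continuous⟩ : C(M, M))) ?_
    continuous_induced_dom
  intro f g hfg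
  apply Subtype.ext
  apply Homeomorph.ext
  intro x
  exact congrArg (fun h : C(M, M) => h x) hfg

end manifold

end Pool.Agent.Lib_helper11.PLM
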