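import Pool.Agent.Lib_helper11.PLM.F.WDefs


open Set Filter Topology
open scoped Manifold

namespace Pool.Agent.Lib_helper11.PLM

theorem inv_interior_range {n : ℕ} (A : E n →ᵃ[ℝ] E n) (hA : ¬ Function.Surjective A) :
    interior (range A) = ∅ := by
  rw [Set.eq_empty_iff_forall_notMem]
  intro x hx
  apply hA
  have h1 : (range A : Set (E n)) = (AffineSubspace.map A ⊤ : AffineSubspace ℝ (E n)) := by
    ext y; simp
  rw [h1] at hx
  have h2 : (AffineSubspace.map A ⊤ : AffineSubspace ℝ (E n)) = ⊤ := by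
    have hne : (interior ((AffineSubspace.map A ⊤ : AffineSubspace ℝ (E n)) : Set (E n))).Nonempty :=
      ⟨x, hx⟩
    have h3 := IsOpen.affineSpan_eq_top isOpen_interior hne
    have h4 : affineSpan ℝ (interior ((AffineSubspace.map A ⊤ : AffineSubspace ℝ (E n)) :
        Set (E n))) ≤ AffineSubspace.map A ⊤ := by
      calc affineSpan ℝ (interior ((AffineSubspace.map A ⊤ : AffineSubspace ℝ (E n)) : Set (E n)))
        ≤ affineSpan ℝ ((AffineSubspace.map A ⊤ : AffineSubspace ℝ (E n)) : Set (E n)) :=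
          affineSpan_mono ℝ interior_subset
        _ = AffineSubspace.map A ⊤ := AffineSubspace.affineSpan_coe _
    rw [h3] at h4
    exact top_unique h4
  intro y
  have h4 : y ∈ (AffineSubspace.map A ⊤ : AffineSubspace ℝ (E n)) := by rw [h2]; trivial
  obtain ⟨z, -, hz⟩ := h4
  exact ⟨z, hz⟩

theorem inv_isClosed_range {n : ℕ} (A : E n →ᵃ[ℝ] E n) : IsClosed (range A) := by
  have h1 : (range A : Set (E n)) = (AffineSubspace.map A ⊤ : AffineSubspace ℝ (E n)) := by
    ext y; simp
  rw [h1]
  exact AffineSubspace.closed_of_finiteDimensional _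

theorem inv_interior_biUnion {n : ℕ} (T : Set (E n →ᵃ[ℝ] E n)) (hT : T.Finite)
    (h : ∀ A ∈ T, ¬ Function.Surjective A) : interior (⋃ A ∈ T, range A) = ∅ := by
  induction T, hT using Set.Finite.induction_on with
  | empty => simp
  | @insert A S hA hS ih =>
    rw [biUnion_insert, interior_union_isClosed_of_interior_empty (inv_isClosed_range A)]
    · exact inv_interior_range A (h A (mem_insert _ _))
    · exact ih fun B hB => h B (mem_insert_of_mem _ hB)

theorem isPL_inv {n : ℕ} (h : E n ≃ₜ E n) (hh : IsPL (h : E n → E n)) :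
    IsPL (h.symm : E n → E n) := by
  obtain ⟨hc, A, hA, hfA⟩ := hh
  set C : Set (E n) := ⋃ a ∈ {a ∈ A | Function.Surjective a}, {x | h x = a x} with hC
  have hCc : IsClosed C := by
    refine Set.Finite.isClosed_biUnion (hA.subset (sep_subset _ _)) fun a _ => ?_
    exact isClosed_eq hc a.continuous_of_finiteDimensional
  have hCu : C = univ := by
    by_contra hne
    have hO : (Cᶜ).Nonempty := nonempty_compl.2 hne
    have h1 : IsOpen (h '' Cᶜ) := h.isOpenMap _ hCc.isOpen_compl
    have h2 : h '' Cᶜ ⊆ ⋃ a ∈ {a ∈ A | ¬ Function.Surjective a}, range a := by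
      rintro _ ⟨x, hx, rfl⟩
      obtain ⟨a, ha, hxa⟩ := hfA x
      have hns : ¬ Function.Surjective a := by
        intro hs
        exact hx (mem_biUnion (show a ∈ {a ∈ A | Function.Surjective a} from ⟨ha, hs⟩) hxa)
      exact mem_biUnion (show a ∈ {a ∈ A | ¬ Function.Surjective a} from ⟨ha, hns⟩)
        ⟨x, hxa.symm⟩
    have h3 := inv_interior_biUnion {a ∈ A | ¬ Function.Surjective a} (hA.subset (sep_subset _ _))
      (fun a ha => ha.2)
    have h4 : h '' Cᶜ ⊆ interior (⋃ a ∈ {a ∈ A | ¬ Function.Surjective a}, range a) :=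
      interior_maximal h2 h1
    rw [h3] at h4
    obtain ⟨x, hx⟩ := hO
    exact h4 ⟨x, hx, rfl⟩
  have hbij : ∀ a : E n →ᵃ[ℝ] E n, Function.Surjective a → ∃ b : E n →ᵃ[ℝ] E n, ∀ x, b (a x) = x := by
    intro a ha
    have hl : Function.Surjective a.linear := by
      rwa [AffineMap.linear_surjective_iff]
    have hli : Function.Injective a.linear := LinearMap.injective_iff_surjective.2 hl
    have hi : Function.Injective a := by rwa [← AffineMap.linear_injective_iff]
    let ea := AffineEquiv.ofBijective (φ := a) ⟨hi, ha⟩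
    refine ⟨(ea.symm : E n →ᵃ[ℝ] E n), fun x => ?_⟩
    have h6 : ea.symm (ea x) = x := ea.symm_apply_apply x
    exact h6
  choose! b hb using hbij
  refine ⟨h.symm.continuous, b '' {a ∈ A | Function.Surjective a},
    (hA.subset (sep_subset _ _)).image _, fun y => ?_⟩
  have hy : h.symm y ∈ C := by rw [hCu]; trivial
  rw [hC, mem_iUnion₂] at hy
  obtain ⟨a, ha, hya⟩ := hy
  refine ⟨b a, ⟨a, ha, rfl⟩, ?_⟩
  have h5 : y = a (h.symm y) := by
    have : h (h.symm y) = a (h.symm y) := hya
    rwa [Homeomorph.apply_symm_apply] at this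
  conv_rhs => rw [h5]
  rw [hb a ha.2]

end Pool.Agent.Lib_helper11.PLM
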