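import Pool.Agent.Lib_helper11.PLM.F.WDefs
import Pool.Agent.Lib_helper11.PLM.F.INV


open Set Filter Topology
open scoped Manifold

namespace Pool.Agent.Lib_helper11.PLM

theorem exists_shear {n : ℕ} {R : ℝ} (v : E n → ℝ) (w : E n) (hv : PLL v) (K : ℝ) (hK : K < 1)
    (hs : ∀ x : E n, ∀ t : ℝ, 0 ≤ t → v x - K * t ≤ v (x + t • w))
    (h0 : ∀ x, R ≤ ‖x‖ → v x = 0) :
    ∃ h : HC n R, ∀ x, (h : E n ≃ₜ E n) x = x + v x • w := by
  obtain ⟨hpl, L, hL⟩ := hv
  have hvc : Continuous v := hpl.1
  -- fibre function
  have hgrow : ∀ y : E n, ∀ s s' : ℝ, s' ≤ s →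
      (s' - v (y - s' • w)) + (1 - K) * (s - s') ≤ s - v (y - s • w) := by
    intro y s s' hss
    have h1 := hs (y - s • w) (s - s') (by linarith)
    have h2 : y - s • w + (s - s') • w = y - s' • w := by
      rw [sub_smul]; abel
    rw [h2] at h1
    nlinarith
  have hex : ∀ y : E n, ∃ s : ℝ, s - v (y - s • w) = 0 := by
    intro y
    set f : ℝ → ℝ := fun s => s - v (y - s • w) with hf
    have hfc : Continuous f := by
      apply continuous_id.sub
      exact hvc.comp (continuous_const.sub (continuous_id.smul continuous_const))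
    have hK' : 0 < 1 - K := by linarith
    have hpos : ∃ s, 0 ≤ f s := by
      refine ⟨max 0 (-(f 0) / (1 - K)), ?_⟩
      have h1 := hgrow y (max 0 (-(f 0) / (1 - K))) 0 (le_max_left _ _)
      have h2 : -(f 0) / (1 - K) ≤ max 0 (-(f 0) / (1 - K)) := le_max_right _ _
      rw [div_le_iff₀ hK'] at h2
      have h3 : f 0 + (1 - K) * (max 0 (-(f 0) / (1 - K)) - 0) ≤ f (max 0 (-(f 0) / (1 - K))) := h1
      nlinarith
    have hneg : ∃ s, f s ≤ 0 := by
      refine ⟨min 0 (-(f 0) / (1 - K)), ?_⟩
      have h1 := hgrow y 0 (min 0 (-(f 0) / (1 - K))) (min_le_left _ _)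
      have h2 : min 0 (-(f 0) / (1 - K)) ≤ -(f 0) / (1 - K) := min_le_right _ _
      rw [le_div_iff₀ hK'] at h2
      have h3 : f (min 0 (-(f 0) / (1 - K))) + (1 - K) * (0 - min 0 (-(f 0) / (1 - K))) ≤ f 0 := h1
      nlinarith
    obtain ⟨s1, h1⟩ := hpos
    obtain ⟨s2, h2⟩ := hneg
    have := mem_range_of_exists_le_of_exists_ge hfc ⟨s2, h2⟩ ⟨s1, h1⟩
    obtain ⟨s, hs⟩ := this
    exact ⟨s, hs⟩
  choose u hu using hex
  have huniq : ∀ y s, s - v (y - s • w) = 0 → s = u y := by
    intro y s hsy
    have hK' : 0 < 1 - K := by linarith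
    rcases le_total s (u y) with h | h
    · have h1 := hgrow y (u y) s h
      rw [hsy, hu] at h1
      nlinarith
    · have h1 := hgrow y s (u y) h
      rw [hsy, hu] at h1
      nlinarith
  -- Lipschitz estimate
  have hlip1 : ∀ y y' : E n, u y' ≤ u y → (1 - K) * (u y - u y') ≤ L * ‖y - y'‖ := by
    intro y y' hle
    have h1 := hgrow y (u y) (u y') hle
    rw [hu y] at h1
    have h2 := hu y'
    have h3 : |v (y - u y' • w) - v (y' - u y' • w)| ≤ L * ‖y - y'‖ := by
      have := hL.dist_le_mul (y - u y' • w) (y' - u y' • w)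
      rw [Real.dist_eq, dist_eq_norm] at this
      simpa using this
    have h4 := (abs_le.1 h3).2
    nlinarith
  have hlip : ∀ y y' : E n, |u y - u y'| ≤ (L / (1 - K)) * ‖y - y'‖ := by
    intro y y'
    have hK' : 0 < 1 - K := by linarith
    rcases le_total (u y') (u y) with h | h
    · rw [abs_of_nonneg (by linarith), div_mul_eq_mul_div, le_div_iff₀ hK']
      have := hlip1 y y' h
      linarith
    · rw [abs_sub_comm, abs_of_nonneg (by linarith), div_mul_eq_mul_div, le_div_iff₀ hK',
        norm_sub_rev]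
      have := hlip1 y' y h
      linarith
  have huc : Continuous u := by
    have hK' : 0 < 1 - K := by linarith
    have hnn : 0 ≤ (L : ℝ) / (1 - K) := div_nonneg L.2 hK'.le
    have : LipschitzWith ⟨(L : ℝ) / (1 - K), hnn⟩ u := by
      refine LipschitzWith.of_dist_le_mul fun y y' => ?_
      rw [Real.dist_eq, dist_eq_norm]
      exact hlip y y'
    exact this.continuous
  let h : E n ≃ₜ E n :=
    { toFun := fun x => x + v x • w
      invFun := fun y => y - u y • w
      left_inv := by
        intro x
        have h1 : v x = u (x + v x • w) := by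
          apply huniq
          rw [add_sub_cancel_right, sub_self]
        show x + v x • w - u (x + v x • w) • w = x
        rw [← h1, add_sub_cancel_right]
      right_inv := by
        intro y
        have h1 : v (y - u y • w) = u y := by have := hu y; linarith
        show y - u y • w + v (y - u y • w) • w = y
        rw [h1, sub_add_cancel]
      continuous_toFun := continuous_id.add (hvc.smul continuous_const)
      continuous_invFun := continuous_id.sub (huc.smul continuous_const) }
  have hPL : IsPL (h : E n → E n) := IsPL.id.add (hpl.smul_const w)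
  refine ⟨⟨h, hPL, isPL_inv h hPL, fun x hx => ?_⟩, fun x => rfl⟩
  show x + v x • w = x
  rw [h0 x hx, zero_smul, add_zero]

end Pool.Agent.Lib_helper11.PLM
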