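import Pool.Agent.Lib_helper11.PLM.F.WDefs
import Pool.Agent.Lib_helper11.PLM.F.SHR


open Set Filter Topology
open scoped Manifold

namespace Pool.Agent.Lib_helper11.PLM

theorem ncm_norm {n : ℕ} (i : Fin n) (t : ℝ) (ht : 0 ≤ t) : ‖t • (ee i : E n)‖ = t := by
  unfold ee
  rw [norm_smul, Pi.norm_single, norm_one, mul_one, Real.norm_eq_abs, abs_of_nonneg ht]

theorem ncm_bump {n : ℕ} (i : Fin n) (c : E n) {ρ : ℝ} (U : Set (E n))
    (hU : Metric.ball c ρ ⊆ U) (hUb : U ⊆ Metric.ball 0 10) :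
    ∃ h : HC n 10, Supp h U ∧
      ∀ x, (h : E n ≃ₜ E n) x = x + (max 0 ((ρ - ‖x - c‖) / 2)) • ee i := by
  have hv : PLL (fun x : E n => max 0 ((ρ - ‖x - c‖) / 2)) := by
    have h1 : PLL (fun x : E n => max 0 ((1 / 2 : ℝ) * (ρ - ‖(LinearMap.id : E n →ₗ[ℝ] E n) x - c‖))) :=
      (PLL.const 0).max (((PLL.const ρ).sub (PLL.norm_linear LinearMap.id c)).const_mul (1 / 2))
    refine h1.congr fun x => ?_
    rw [LinearMap.id_apply]
    congr 1
    ring
  have hzero : ∀ x, x ∉ U → max 0 ((ρ - ‖x - c‖) / 2) = 0 := by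
    intro x hx
    apply max_eq_left
    have h2 : ρ ≤ ‖x - c‖ := by
      by_contra hlt
      push Not at hlt
      apply hx
      apply hU
      rw [Metric.mem_ball, dist_eq_norm]
      exact hlt
    linarith
  obtain ⟨h, hh⟩ := exists_shear (R := 10) (fun x : E n => max 0 ((ρ - ‖x - c‖) / 2)) (ee i) hv
    (1 / 2) (by norm_num) (by
      intro x t ht
      have h3 : ‖x + t • ee i - c‖ ≤ ‖x - c‖ + t := by
        have h4 : x + t • ee i - c = (x - c) + t • ee i := by abel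
        rw [h4]
        refine (norm_add_le _ _).trans ?_
        rw [ncm_norm i t ht]
      rcases max_cases (0 : ℝ) ((ρ - ‖x - c‖) / 2) with ⟨h5, _⟩ | ⟨h5, _⟩
      · rw [h5]
        have := le_max_left (0 : ℝ) ((ρ - ‖x + t • ee i - c‖) / 2)
        linarith
      · rw [h5]
        have := le_max_right (0 : ℝ) ((ρ - ‖x + t • ee i - c‖) / 2)
        linarith) (by
      intro x hx
      apply hzero
      intro hxU
      have := hUb hxU
      rw [Metric.mem_ball, dist_zero_right] at this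
      linarith)
  refine ⟨h, ?_, hh⟩
  intro x hx
  rw [hh x]
  rw [hzero x hx, zero_smul, add_zero]

/-- NCM -/
theorem exists_noncomm {n : ℕ} (hn : 0 < n) (U : Set (E n)) (hU : IsOpen U) (hne : U.Nonempty)
    (hUb : U ⊆ Metric.ball 0 10) :
    ∃ a b : HC n 10, Supp a U ∧ Supp b U ∧ a * b ≠ b * a := by
  obtain ⟨z0, hz0⟩ := hne
  obtain ⟨s, hs, hsU⟩ := Metric.isOpen_iff.mp hU z0 hz0
  set i : Fin n := ⟨0, hn⟩ with hi
  set ρ : ℝ := s / 2 with hρ
  have hρ0 : 0 < ρ := by rw [hρ]; linarith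
  have hn1 := fun t (ht : 0 ≤ t) => ncm_norm i t ht
  obtain ⟨a, ha, ha2⟩ := ncm_bump i z0 (ρ := ρ) U
    ((Metric.ball_subset_ball (by rw [hρ]; linarith)).trans hsU) hUb
  obtain ⟨b, hb, hb2⟩ := ncm_bump i (z0 + (ρ / 2) • ee i) (ρ := ρ) U (by
      refine Subset.trans ?_ hsU
      apply Metric.ball_subset_ball'
      rw [dist_eq_norm, add_sub_cancel_left, hn1 _ (by linarith)]
      linarith) hUb
  refine ⟨a, b, ha, hb, ?_⟩
  intro hab
  set z : E n := z0 - (ρ / 2) • ee i with hz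
  have hbz : (b : E n ≃ₜ E n) z = z := by
    rw [hb2 z]
    have h1 : z - (z0 + (ρ / 2) • ee i) = -(ρ • ee i) := by
      rw [hz]
      have : ρ • (ee i : E n) = (ρ / 2) • ee i + (ρ / 2) • ee i := by
        rw [← add_smul]; congr 1; ring
      rw [this]
      abel
    rw [h1, norm_neg, hn1 _ hρ0.le, sub_self, zero_div, max_self, zero_smul, add_zero]
  have haz : (a : E n ≃ₜ E n) z = z + (ρ / 4) • ee i := by
    rw [ha2 z]
    have h1 : z - z0 = -((ρ / 2) • ee i) := by rw [hz]; abel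
    rw [h1, norm_neg, hn1 _ (by linarith)]
    congr 2
    rw [max_eq_right (by linarith)]
    ring
  have hbaz : (b : E n ≃ₜ E n) (z + (ρ / 4) • ee i) = z + (ρ / 4) • ee i + (ρ / 8) • ee i := by
    rw [hb2]
    have h1 : z + (ρ / 4) • ee i - (z0 + (ρ / 2) • ee i) = -((3 * ρ / 4) • ee i) := by
      rw [hz]
      have : (3 * ρ / 4) • (ee i : E n) = (ρ / 2) • ee i + (ρ / 2) • ee i - (ρ / 4) • ee i := by
        rw [← add_smul, ← sub_smul]; congr 1; ring
      rw [this]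
      abel
    rw [h1, norm_neg, hn1 _ (by linarith)]
    congr 2
    rw [max_eq_right (by linarith)]
    ring
  have h1 : ((a * b : HC n 10) : E n ≃ₜ E n) z = ((b * a : HC n 10) : E n ≃ₜ E n) z := by rw [hab]
  have h2 : ((a * b : HC n 10) : E n ≃ₜ E n) z = (a : E n ≃ₜ E n) ((b : E n ≃ₜ E n) z) := rfl
  have h3 : ((b * a : HC n 10) : E n ≃ₜ E n) z = (b : E n ≃ₜ E n) ((a : E n ≃ₜ E n) z) := rfl
  rw [h2, h3, hbz, haz, hbaz] at h1
  have h4 : (ρ / 8) • (ee i : E n) = 0 := by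
    have := congrArg (fun u => u - (z + (ρ / 4) • ee i)) h1
    simpa using this.symm
  have h5 := hn1 (ρ / 8) (by linarith)
  rw [h4, norm_zero] at h5
  linarith

end Pool.Agent.Lib_helper11.PLM
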