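import Pool.Agent.Lib_helper11.PLM.F.WDefs


open Set Filter Topology
open scoped Manifold

namespace Pool.Agent.Lib_helper11.PLM

section manifold

variable {n : ℕ} {M : Type*} [TopologicalSpace M] [T2Space M] [ChartedSpace (E n) M]
  [HasGroupoid M (plGroupoid n)]

/-- PTH: a path from inside to outside of a chart ball gives a path in the chart -/
theorem chart_path (e : OpenPartialHomeomorph M (E n)) (hb : Metric.closedBall 0 10 ⊆ e.target)
    (β : ℝ → M) (hβ : ContinuousOn β (Icc 0 1)) (h0 : β 0 ∈ e.symm '' Metric.closedBall 0 2)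
    (h1 : β 1 ∉ e.symm '' Metric.closedBall 0 10) :
    ∃ γ : ℝ → E n, ContinuousOn γ (Icc 0 1) ∧ (∀ t ∈ Icc (0:ℝ) 1, ‖γ t‖ ≤ 9 ∧
      ∃ s ∈ Icc (0:ℝ) 1, e.symm (γ t) = β s) ∧ ‖γ 0‖ ≤ 2 ∧ ‖γ 1‖ = 9 := by
  have hb9 : Metric.closedBall (0 : E n) 9 ⊆ e.target :=
    (Metric.closedBall_subset_closedBall (by norm_num)).trans hb
  have hb9' : Metric.ball (0 : E n) 9 ⊆ e.target := Metric.ball_subset_closedBall.trans hb9
  have hBo : IsOpen (e.symm '' Metric.ball (0 : E n) 9) :=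
    e.symm.isOpen_image_of_subset_source Metric.isOpen_ball hb9'
  have hCc : IsClosed (e.symm '' Metric.closedBall (0 : E n) 9) :=
    ((isCompact_closedBall (0 : E n) 9).image_of_continuousOn
      (e.continuousOn_symm.mono hb9)).isClosed
  set A : Set ℝ := Icc 0 1 ∩ β ⁻¹' (e.symm '' Metric.ball (0 : E n) 9)ᶜ with hA
  have hAc : IsClosed A := hβ.preimage_isClosed_of_isClosed isClosed_Icc hBo.isClosed_compl
  have hA1 : (1 : ℝ) ∈ A := by
    refine ⟨⟨zero_le_one, le_refl _⟩, ?_⟩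
    intro h
    apply h1
    obtain ⟨z, hz, hz2⟩ := h
    exact ⟨z, Metric.closedBall_subset_closedBall (by norm_num) (Metric.ball_subset_closedBall hz), hz2⟩
  have hAb : BddBelow A := ⟨0, fun t ht => ht.1.1⟩
  set t0 := sInf A with ht0
  have ht0A : t0 ∈ A := hAc.csInf_mem ⟨1, hA1⟩ hAb
  have hlt : ∀ t ∈ Ico (0 : ℝ) t0, β t ∈ e.symm '' Metric.ball (0 : E n) 9 := by
    intro t ht
    by_contra hcon
    have : t ∈ A := ⟨⟨ht.1, ht.2.le.trans ht0A.1.2⟩, hcon⟩
    exact absurd (csInf_le hAb this) (not_le.mpr ht.2)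
  have ht0pos : 0 < t0 := by
    rcases lt_or_eq_of_le ht0A.1.1 with h | h
    · exact h
    · exfalso
      apply ht0A.2
      rw [← h]
      obtain ⟨z, hz, hz2⟩ := h0
      refine ⟨z, ?_, hz2⟩
      rw [Metric.mem_ball]
      rw [Metric.mem_closedBall] at hz
      linarith
  have hC : ∀ t ∈ Icc (0 : ℝ) t0, β t ∈ e.symm '' Metric.closedBall (0 : E n) 9 := by
    have hD : IsClosed (Icc (0 : ℝ) 1 ∩ β ⁻¹' (e.symm '' Metric.closedBall (0 : E n) 9)) :=
      hβ.preimage_isClosed_of_isClosed isClosed_Icc hCc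
    have hsub : Ico (0 : ℝ) t0 ⊆ Icc (0 : ℝ) 1 ∩ β ⁻¹' (e.symm '' Metric.closedBall (0 : E n) 9) := by
      intro t ht
      refine ⟨⟨ht.1, ht.2.le.trans ht0A.1.2⟩, ?_⟩
      exact image_mono Metric.ball_subset_closedBall (hlt t ht)
    have := closure_minimal hsub hD
    rw [closure_Ico ht0pos.ne] at this
    intro t ht
    exact (this ht).2
  have hsrc : ∀ t ∈ Icc (0 : ℝ) t0, β t ∈ e.source := by
    intro t ht
    obtain ⟨z, hz, hz2⟩ := hC t ht
    rw [← hz2]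
    exact e.map_target (hb9 hz)
  have hmul : ∀ t ∈ Icc (0 : ℝ) 1, t * t0 ∈ Icc (0 : ℝ) t0 := by
    intro t ht
    exact ⟨mul_nonneg ht.1 ht0pos.le, mul_le_of_le_one_left ht0pos.le ht.2⟩
  have hmul1 : ∀ t ∈ Icc (0 : ℝ) 1, t * t0 ∈ Icc (0 : ℝ) 1 := by
    intro t ht
    exact ⟨(hmul t ht).1, (hmul t ht).2.trans ht0A.1.2⟩
  refine ⟨fun t => e (β (t * t0)), ?_, ?_, ?_, ?_⟩
  · refine e.continuousOn.comp (hβ.comp (by fun_prop) hmul1) ?_
    intro t ht
    exact hsrc _ (hmul t ht)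
  · intro t ht
    refine ⟨?_, t * t0, hmul1 t ht, e.left_inv (hsrc _ (hmul t ht))⟩
    obtain ⟨z, hz, hz2⟩ := hC _ (hmul t ht)
    simp only
    rw [← hz2, e.right_inv (hb9 hz)]
    simpa using hz
  · obtain ⟨z, hz, hz2⟩ := h0
    simp only
    rw [zero_mul, ← hz2, e.right_inv (hb (Metric.closedBall_subset_closedBall (by norm_num) hz))]
    simpa using hz
  · have h2 := hC t0 ⟨ht0pos.le, le_refl _⟩
    obtain ⟨z, hz, hz2⟩ := h2
    simp only
    rw [one_mul, ← hz2, e.right_inv (hb9 hz)]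
    rw [Metric.mem_closedBall, dist_zero_right] at hz
    apply le_antisymm hz
    by_contra hcon
    push Not at hcon
    exact ht0A.2 ⟨z, by rw [Metric.mem_ball, dist_zero_right]; exact hcon, hz2⟩

end manifold

end Pool.Agent.Lib_helper11.PLM
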