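import Pool.Agent.Lib_helper11.PLM.F.WDefs


open Set Filter Topology
open scoped Manifold

namespace Pool.Agent.Lib_helper11.PLM

section manifold

variable {n : ℕ} {M : Type*} [TopologicalSpace M] [T2Space M] [ChartedSpace (E n) M]
  [HasGroupoid M (plGroupoid n)]

/-- the condition of small support and small displacement -/
def smlCond (e : OpenPartialHomeomorph M (E n)) (ε : ℝ) (g : PLHomeo n M) : Prop :=
  (∀ x, x ∉ e.symm '' Metric.closedBall 0 10 → (g : M ≃ₜ M) x = x) ∧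
      (∀ x ∈ e.symm '' Metric.closedBall 0 10, (g : M ≃ₜ M) x ∈ e.symm '' Metric.closedBall 0 10 ∧
        ‖e ((g : M ≃ₜ M) x) - e x‖ < ε)

omit [T2Space M] in
theorem sml_mono (e : OpenPartialHomeomorph M (E n)) {ε ε' : ℝ} (h : ε ≤ ε') (g : PLHomeo n M)
    (hg : smlCond e ε g) : smlCond e ε' g :=
  ⟨hg.1, fun x hx => ⟨(hg.2 x hx).1, lt_of_lt_of_le (hg.2 x hx).2 h⟩⟩

theorem sml_basic (e : OpenPartialHomeomorph M (E n))
    (hb : Metric.closedBall 0 10 ⊆ e.target) (K U : Set M) (hK : IsCompact K) (hU : IsOpen U)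
    (hKU : K ⊆ U) : ∃ ε > 0, ∀ g : PLHomeo n M, smlCond e ε g → MapsTo (g : M ≃ₜ M) K U := by
  have h1 : IsClosed (Metric.closedBall (0 : E n) 10 ∩ e.symm ⁻¹' K) := by
    apply ContinuousOn.preimage_isClosed_of_isClosed
    · exact e.continuousOn_symm.mono hb
    · exact Metric.isClosed_closedBall
    · exact hK.isClosed
  have h2 : IsCompact (Metric.closedBall (0 : E n) 10 ∩ e.symm ⁻¹' K) :=
    (isCompact_closedBall (0 : E n) 10).of_isClosed_subset h1 inter_subset_left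
  have h3 : IsOpen (e.target ∩ e.symm ⁻¹' U) := e.isOpen_inter_preimage_symm hU
  have h4 : Metric.closedBall (0 : E n) 10 ∩ e.symm ⁻¹' K ⊆ e.target ∩ e.symm ⁻¹' U := by
    rintro z ⟨hz1, hz2⟩
    exact ⟨hb hz1, hKU hz2⟩
  obtain ⟨ε, hε, h5⟩ := h2.exists_thickening_subset_open h3 h4
  refine ⟨ε, hε, fun g hg x hx => ?_⟩
  by_cases hxD : x ∈ e.symm '' Metric.closedBall 0 10
  · obtain ⟨⟨w, hw, hgw⟩, h6⟩ := hg.2 x hxD
    obtain ⟨z, hz, hzx⟩ := hxD
    have h7 : e x = z := by rw [← hzx, e.right_inv (hb hz)]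
    have h8 : e ((g : M ≃ₜ M) x) = w := by rw [← hgw, e.right_inv (hb hw)]
    have h9 : e ((g : M ≃ₜ M) x) ∈ Metric.thickening ε
        (Metric.closedBall (0 : E n) 10 ∩ e.symm ⁻¹' K) := by
      rw [Metric.mem_thickening_iff]
      refine ⟨e x, ⟨?_, ?_⟩, ?_⟩
      · rw [h7]; exact hz
      · show e.symm (e x) ∈ K
        rw [h7, hzx]; exact hx
      · rw [dist_eq_norm]; exact h6
    have h10 := (h5 h9).2
    have h11 : e.symm (e ((g : M ≃ₜ M) x)) ∈ U := h10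
    rw [h8, hgw] at h11
    exact h11
  · rw [hg.1 x hxD]
    exact hKU hx

/-- SML -/
theorem small_mem (e : OpenPartialHomeomorph M (E n))
    (hb : Metric.closedBall 0 10 ⊆ e.target) (N : Set (PLHomeo n M))
    (hN : N ∈ @nhds _ (coTop n M) 1) :
    ∃ ε > 0, ∀ g : PLHomeo n M,
      (∀ x, x ∉ e.symm '' Metric.closedBall 0 10 → (g : M ≃ₜ M) x = x) →
      (∀ x ∈ e.symm '' Metric.closedBall 0 10, (g : M ≃ₜ M) x ∈ e.symm '' Metric.closedBall 0 10 ∧
        ‖e ((g : M ≃ₜ M) x) - e x‖ < ε) → g ∈ N := by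
  have hbasis : (⨅ (ε : ℝ) (_ : 0 < ε), 𝓟 {g : PLHomeo n M | smlCond e ε g}).HasBasis
      (fun ε : ℝ => 0 < ε) (fun ε => {g : PLHomeo n M | smlCond e ε g}) := by
    apply Filter.hasBasis_biInf_principal
    · intro ε hε ε' hε'
      have hε1 : 0 < ε := hε
      have hε2 : 0 < ε' := hε'
      have hm : 0 < min ε ε' := lt_min hε1 hε2
      refine ⟨min ε ε', hm, ?_, ?_⟩
      · intro g hg
        exact sml_mono e (min_le_left _ _) g hg
      · intro g hg
        exact sml_mono e (min_le_right _ _) g hg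
    · have h1 : (0 : ℝ) < 1 := one_pos
      exact ⟨1, h1⟩
  have hle : (⨅ (ε : ℝ) (_ : 0 < ε), 𝓟 {g : PLHomeo n M | smlCond e ε g}) ≤
      @nhds _ (coTop n M) 1 := by
    rw [nhds_induced, ← Filter.map_le_iff_le_comap, ContinuousMap.nhds_compactOpen]
    refine le_iInf fun K => le_iInf fun hK => le_iInf fun U => le_iInf fun hU => le_iInf fun hKU => ?_
    rw [Filter.le_principal_iff, Filter.mem_map, hbasis.mem_iff]
    obtain ⟨ε, hε, h1⟩ := sml_basic (n := n) e hb K U hK hU (fun x hx => hKU hx)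
    exact ⟨ε, hε, fun g hg => h1 g hg⟩
  obtain ⟨ε, hε, h1⟩ := hbasis.mem_iff.mp (hle hN)
  exact ⟨ε, hε, fun g hg1 hg2 => h1 ⟨hg1, hg2⟩⟩

end manifold

end Pool.Agent.Lib_helper11.PLM
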