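import Pool.Agent.Lib_helper11.PLM.F.WDefs
import Pool.Agent.Lib_helper11.PLM.F.FA0
import Pool.Agent.Lib_helper11.PLM.F.NCM
import Pool.Agent.Lib_helper11.PLM.F.PTH
import Pool.Agent.Lib_helper11.PLM.F.SML


open Set Filter Topology
open scoped Manifold

namespace Pool.Agent.Lib_helper11.PLM

/-- homeomorphisms with disjoint supports commute (pointwise form) -/
theorem crs_comm {M : Type*} (p q : M → M) (hp : Function.Injective p)
    (hq : Function.Injective q) (A B : Set M) (hA : ∀ x, x ∉ A → p x = x)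
    (hB : ∀ x, x ∉ B → q x = x) (hAB : ∀ x, x ∈ A → x ∉ B) (x : M) : p (q x) = q (p x) := by
  by_cases hx : x ∈ A
  · have h1 : q x = x := hB x (hAB x hx)
    have h2 : p x ∈ A := by
      by_contra h
      have := hp (hA _ h)
      rw [this] at h
      exact h hx
    rw [h1, hB _ (hAB _ h2)]
  · rw [hA x hx]
    apply hA
    intro h
    have h1 := hq (hB _ (hAB _ h))
    rw [h1] at h
    exact hx h

section manifold

variable {n : ℕ} {M : Type*} [TopologicalSpace M] [T2Space M] [ChartedSpace (E n) M]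
  [HasGroupoid M (plGroupoid n)]

omit [T2Space M] in
theorem crs_supp (e : OpenPartialHomeomorph M (E n))
    (φ : HC n 10 →* PLHomeo n M)
    (hφ : ∀ h, ∀ x ∈ e.source, ((φ h : PLHomeo n M) : M ≃ₜ M) x = e.symm ((h : E n ≃ₜ E n) (e x)))
    (hφ' : ∀ h, ∀ x, x ∉ e.source → ((φ h : PLHomeo n M) : M ≃ₜ M) x = x)
    (h : HC n 10) (V : Set (E n)) (hV : Supp h V) (x : M) (hx : x ∈ e.source → e x ∉ V) :
    ((φ h : PLHomeo n M) : M ≃ₜ M) x = x := by
  by_cases hs : x ∈ e.source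
  · rw [hφ h x hs, hV _ (hx hs), e.left_inv hs]
  · exact hφ' h x hs

omit [T2Space M] in
theorem crs_meet (t : TopologicalSpace (PLHomeo n M)) (hn : 0 < n)
    (ht : @IsTopologicalGroup (PLHomeo n M) t _) (ht2 : @T2Space (PLHomeo n M) t)
    (e : OpenPartialHomeomorph M (E n))
    (φ : HC n 10 →* PLHomeo n M) (hinj : Function.Injective φ)
    (hφ : ∀ h, ∀ x ∈ e.source, ((φ h : PLHomeo n M) : M ≃ₜ M) x = e.symm ((h : E n ≃ₜ E n) (e x)))
    (hφ' : ∀ h, ∀ x, x ∉ e.source → ((φ h : PLHomeo n M) : M ≃ₜ M) x = x)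
    (z : E n) (r : ℝ) (hr : 0 < r) (hzr : Metric.ball z r ⊆ Metric.ball 0 10) :
    ∀ᶠ g in @nhds _ t 1, ∃ w ∈ Metric.ball z r, ∃ w' ∈ Metric.ball z r,
      ((g : PLHomeo n M) : M ≃ₜ M) (e.symm w) = e.symm w' := by
  obtain ⟨a, b, ha, hbb, hab⟩ := exists_noncomm hn (Metric.ball z r) Metric.isOpen_ball
    ⟨z, Metric.mem_ball_self hr⟩ hzr
  have hne : φ a * φ b ≠ φ b * φ a := by
    intro h
    rw [← map_mul, ← map_mul] at h
    exact hab (hinj h)
  have hsupp : ∀ (c : HC n 10), Supp c (Metric.ball z r) → ∀ x, x ∉ e.symm '' Metric.ball z r →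
      ((φ c : PLHomeo n M) : M ≃ₜ M) x = x := by
    intro c hc x hx
    refine crs_supp e φ hφ hφ' c _ hc x fun hs h => hx ⟨e x, h, e.left_inv hs⟩
  filter_upwards [@fact0 (PLHomeo n M) _ t ht ht2 (φ a) (φ b) hne] with g hg
  by_contra hcon
  push Not at hcon
  apply hg
  apply Subtype.ext
  apply Homeomorph.ext
  intro x
  refine crs_comm (fun x => ((g * φ a * g⁻¹ : PLHomeo n M) : M ≃ₜ M) x)
    (fun x => ((φ b : PLHomeo n M) : M ≃ₜ M) x) (Homeomorph.injective _) (Homeomorph.injective _)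
    ((g : M ≃ₜ M) '' (e.symm '' Metric.ball z r)) (e.symm '' Metric.ball z r) ?_ (hsupp b hbb) ?_ x
  · intro y hy
    show (g : M ≃ₜ M) (((φ a : PLHomeo n M) : M ≃ₜ M) ((g : M ≃ₜ M).symm y)) = y
    rw [hsupp a ha]
    · exact (g : M ≃ₜ M).apply_symm_apply y
    · intro h
      exact hy ⟨_, h, (g : M ≃ₜ M).apply_symm_apply y⟩
  · rintro y ⟨_, ⟨w, hw, rfl⟩, rfl⟩ ⟨w', hw', h⟩
    exact hcon w hw w' hw' h.symm

/-- CRS -/
theorem cross0_of_bad (hn : 0 < n) (t : TopologicalSpace (PLHomeo n M))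
    (ht : @IsTopologicalGroup (PLHomeo n M) t _) (ht2 : @T2Space (PLHomeo n M) t)
    (hle : coTop n M ≤ t) (e : OpenPartialHomeomorph M (E n))
    (he : e ∈ (plGroupoid n).maximalAtlas M) (hb : Metric.closedBall 0 10 ⊆ e.target)
    (hbad : ∀ N ∈ @nhds _ t 1, ∃ f ∈ N, ∃ x ∈ e.symm '' Metric.ball 0 1,
        (f : M ≃ₜ M) x ∉ e.symm '' Metric.closedBall 0 10)
    (φ : HC n 10 →* PLHomeo n M) (hinj : Function.Injective φ)
    (hφ : ∀ h, ∀ x ∈ e.source, ((φ h : PLHomeo n M) : M ≃ₜ M) x = e.symm ((h : E n ≃ₜ E n) (e x)))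
    (hφ' : ∀ h, ∀ x, x ∉ e.source → ((φ h : PLHomeo n M) : M ≃ₜ M) x = x) :
    ∀ N ∈ @nhds _ t 1, ∃ V : Set (E n), IsOpen V ∧
      (∃ γ : ℝ → E n, ContinuousOn γ (Icc 0 1) ∧ (∀ t ∈ Icc (0:ℝ) 1, γ t ∈ V ∧ ‖γ t‖ ≤ 9) ∧
        ‖γ 0‖ ≤ 2 ∧ ‖γ 1‖ = 9) ∧
      ∀ h : HC n 10, Supp h V → φ h ∈ N := by
  intro N hN
  -- a smaller neighbourhood
  obtain ⟨N', hN', hN'N⟩ : ∃ N' ∈ @nhds _ t 1, ∀ f ∈ N', ∀ g ∈ N', f * g * f⁻¹ ∈ N := by
    have hc : Tendsto (fun p : PLHomeo n M × PLHomeo n M => p.1 * p.2 * p.1⁻¹) (𝓝 (1, 1))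
        (𝓝 1) := by
      have : Continuous (fun p : PLHomeo n M × PLHomeo n M => p.1 * p.2 * p.1⁻¹) := by
        fun_prop
      simpa using this.tendsto (1, 1)
    have h1 := hc hN
    rw [nhds_prod_eq, Filter.mem_map, Filter.mem_prod_same_iff] at h1
    obtain ⟨N', hN', h⟩ := h1
    exact ⟨N', hN', fun f hf g hg => h (mk_mem_prod hf hg)⟩
  obtain ⟨ε, hε, hsm⟩ := small_mem e hb N' (nhds_mono hle hN')
  set r : ℝ := min (ε / 4) (1 / 2) with hr
  have hr0 : 0 < r := lt_min (by linarith) (by norm_num)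
  have hr1 : r ≤ 1 / 2 := min_le_right _ _
  have hr2 : r ≤ ε / 4 := min_le_left _ _
  obtain ⟨T, hT1, hTf, hT⟩ := (isCompact_closedBall (0 : E n) 1).finite_cover_balls hr0
  have hball : ∀ z ∈ T, ∀ w ∈ Metric.ball z r, ‖w‖ < 2 := by
    intro z hz w hw
    have h1 : ‖z‖ ≤ 1 := by simpa using hT1 hz
    have h2 : ‖w - z‖ < r := by simpa [dist_eq_norm] using hw
    have h3 : ‖w‖ ≤ ‖w - z‖ + ‖z‖ := by simpa using norm_add_le (w - z) z
    linarith
  have hbt : ∀ z ∈ T, Metric.ball z r ⊆ e.target := by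
    intro z hz w hw
    apply hb
    rw [mem_closedBall_zero_iff]
    linarith [hball z hz w hw]
  have hev : ∀ᶠ g in @nhds _ t 1, ∀ z ∈ T, ∃ w ∈ Metric.ball z r, ∃ w' ∈ Metric.ball z r,
      ((g : PLHomeo n M) : M ≃ₜ M) (e.symm w) = e.symm w' := by
    rw [Filter.eventually_all_finite hTf]
    intro z hz
    refine crs_meet t hn ht ht2 e φ hinj hφ hφ' z r hr0 fun w hw => ?_
    rw [mem_ball_zero_iff]
    linarith [hball z hz w hw]
  obtain ⟨f, ⟨hfN, hfT⟩, x, ⟨w, hw, rfl⟩, hfx⟩ := hbad _ (Filter.inter_mem hN' hev)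
  have hwc : w ∈ Metric.closedBall (0 : E n) 1 := Metric.ball_subset_closedBall hw
  obtain ⟨z, hz, hwz⟩ := mem_iUnion₂.1 (hT hwc)
  obtain ⟨w', hw', w'', hw'', hfw⟩ := hfT z hz
  -- the path
  have hline : ∀ s ∈ Icc (0 : ℝ) 1, AffineMap.lineMap w' w s ∈ Metric.ball z r := by
    intro s hs
    exact (convex_ball z r).segment_subset hw' hwz
      (by rw [segment_eq_image_lineMap]; exact mem_image_of_mem _ hs)
  have hβ : ContinuousOn (fun s : ℝ => (f : M ≃ₜ M) (e.symm (AffineMap.lineMap w' w s)))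
      (Icc 0 1) := by
    refine (f : M ≃ₜ M).continuous.comp_continuousOn ?_
    refine e.symm.continuousOn.comp (AffineMap.lineMap_continuous).continuousOn ?_
    intro s hs
    exact hbt z hz (hline s hs)
  obtain ⟨γ, hγ, hγ1, hγ2, hγ3⟩ := chart_path e hb
    (fun s : ℝ => (f : M ≃ₜ M) (e.symm (AffineMap.lineMap w' w s))) hβ
    (by
      simp only [AffineMap.lineMap_apply_zero]
      rw [hfw]
      refine ⟨w'', ?_, rfl⟩
      rw [mem_closedBall_zero_iff]
      exact (hball z hz w'' hw'').le)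
    (by
      simp only [AffineMap.lineMap_apply_one]
      exact hfx)
  have hu : IsOpen ((f : M ≃ₜ M) '' (e.symm '' Metric.ball z r)) := by
    refine (f : M ≃ₜ M).isOpenMap _ ?_
    exact e.symm.isOpen_image_of_subset_source Metric.isOpen_ball (hbt z hz)
  refine ⟨e.target ∩ e.symm ⁻¹' ((f : M ≃ₜ M) '' (e.symm '' Metric.ball z r)),
    e.isOpen_inter_preimage_symm hu, ⟨γ, hγ, ?_, hγ2, hγ3⟩, ?_⟩
  · intro s hs
    obtain ⟨h1, s', hs', h2⟩ := hγ1 s hs
    refine ⟨⟨hb ?_, ?_⟩, h1⟩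
    · rw [mem_closedBall_zero_iff]
      linarith
    · show e.symm (γ s) ∈ (f : M ≃ₜ M) '' (e.symm '' Metric.ball z r)
      rw [h2]
      exact ⟨_, ⟨_, hline s' hs', rfl⟩, rfl⟩
  · intro h hh
    have hgs : ∀ x, x ∉ e.symm '' Metric.ball z r →
        ((f⁻¹ * φ h * f : PLHomeo n M) : M ≃ₜ M) x = x := by
      intro x hx
      show (f : M ≃ₜ M).symm (((φ h : PLHomeo n M) : M ≃ₜ M) ((f : M ≃ₜ M) x)) = x
      rw [crs_supp e φ hφ hφ' h _ hh ((f : M ≃ₜ M) x)]
      · exact (f : M ≃ₜ M).symm_apply_apply x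
      · rintro hs ⟨-, h1⟩
        rw [mem_preimage, e.left_inv hs] at h1
        obtain ⟨y, hy, h2⟩ := h1
        rw [(f : M ≃ₜ M).injective h2] at hy
        exact hx hy
    have hgN : f⁻¹ * φ h * f ∈ N' := by
      apply hsm
      · intro x hx
        refine hgs x fun h1 => hx ?_
        obtain ⟨y, hy, rfl⟩ := h1
        refine ⟨y, ?_, rfl⟩
        rw [mem_closedBall_zero_iff]
        linarith [hball z hz y hy]
      · intro x hx
        by_cases hxu : x ∈ e.symm '' Metric.ball z r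
        · have hgx : ((f⁻¹ * φ h * f : PLHomeo n M) : M ≃ₜ M) x ∈ e.symm '' Metric.ball z r := by
            by_contra hc
            have h1 := hgs _ hc
            have h2 := (((f⁻¹ * φ h * f : PLHomeo n M) : M ≃ₜ M)).injective h1
            rw [h2] at hc
            exact hc hxu
          obtain ⟨y, hy, hy'⟩ := hxu
          obtain ⟨y', hyb, hyb'⟩ := hgx
          rw [← hyb', ← hy', e.right_inv (hbt z hz hy), e.right_inv (hbt z hz hyb)]
          refine ⟨⟨y', ?_, rfl⟩, ?_⟩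
          · rw [mem_closedBall_zero_iff]
            linarith [hball z hz y' hyb]
          · have h1 : ‖y - z‖ < r := by simpa [dist_eq_norm] using hy
            have h2 : ‖y' - z‖ < r := by simpa [dist_eq_norm] using hyb
            have h3 : ‖y' - y‖ ≤ ‖y' - z‖ + ‖y - z‖ := by
              have := norm_sub_le (y' - z) (y - z)
              simpa using this
            linarith
        · rw [hgs x hxu]
          exact ⟨hx, by simpa using hε⟩
    have := hN'N f hfN _ hgN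
    have h4 : f * (f⁻¹ * φ h * f) * f⁻¹ = φ h := by group
    rwa [h4] at this

end manifold

end Pool.Agent.Lib_helper11.PLM
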