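import Pool.Agent.Lib_helper11.PLM.F.WDefs
import Pool.Agent.Lib_helper11.PLM.F.SHR


open Set Filter Topology
open scoped Manifold

namespace Pool.Agent.Lib_helper11.PLM

theorem sqz_nu_add {n : ℕ} (i : Fin n) (x : E n) (t : ℝ) :
    nu i (x + t • ee i) = nu i x := by
  unfold nu
  congr 1
  funext j
  by_cases h : j = i
  · subst h; simp
  · simp [h, ee]

theorem sqz_apply {n : ℕ} (i : Fin n) (x : E n) (t : ℝ) : (x + t • ee i) i = x i + t := by
  simp [ee]

theorem sqz_apply_ne {n : ℕ} (i j : Fin n) (hj : j ≠ i) (x : E n) (t : ℝ) :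
    (x + t • ee i) j = x j := by
  simp [ee, hj]

theorem sqz_nu_le {n : ℕ} (i : Fin n) (x : E n) : nu i x ≤ ‖x‖ := by
  unfold nu
  refine (pi_norm_le_iff_of_nonneg (norm_nonneg _)).2 fun j => ?_
  by_cases hj : j = i
  · subst hj; simp
  · simp only [Function.update_of_ne hj]
    exact norm_le_pi_norm x j

theorem sqz_le_nu {n : ℕ} (i j : Fin n) (hj : j ≠ i) (x : E n) : |x j| ≤ nu i x := by
  unfold nu
  have := norm_le_pi_norm (Function.update x i 0) j
  rw [Function.update_of_ne hj] at this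
  simpa using this

/-- the one variable function -/
noncomputable def sqz_F (c l : ℝ) (t : ℝ) : ℝ :=
  max (min (max 0 (12 * (t + 99 / 10))) (c + (l - 1) * t)) (min 0 (12 * (t - 99 / 10)))

theorem sqz_F_mono (c l : ℝ) (hl0 : 0 < l) (hl1 : l ≤ 1 / 2) (t s : ℝ) (hs : 0 ≤ s) :
    sqz_F c l t - (1 - l) * s ≤ sqz_F c l (t + s) := by
  unfold sqz_F
  have hls : 0 ≤ (1 - l) * s := mul_nonneg (by linarith) hs
  rw [sub_le_iff_le_add]
  apply max_le
  · have h1 : min (max 0 (12 * (t + 99 / 10))) (c + (l - 1) * t) - (1 - l) * s ≤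
        min (max 0 (12 * (t + s + 99 / 10))) (c + (l - 1) * (t + s)) := by
      apply le_min
      · have h2 := min_le_left (max 0 (12 * (t + 99 / 10))) (c + (l - 1) * t)
        have h3 : max 0 (12 * (t + 99 / 10)) ≤ max 0 (12 * (t + s + 99 / 10)) :=
          max_le_max le_rfl (by linarith)
        linarith
      · have h2 := min_le_right (max 0 (12 * (t + 99 / 10))) (c + (l - 1) * t)
        nlinarith
    have h2 := le_max_left (min (max 0 (12 * (t + s + 99 / 10))) (c + (l - 1) * (t + s)))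
      (min 0 (12 * (t + s - 99 / 10)))
    linarith
  · have h1 : min 0 (12 * (t - 99 / 10)) ≤ min 0 (12 * (t + s - 99 / 10)) :=
      min_le_min le_rfl (by linarith)
    have h2 := le_max_right (min (max 0 (12 * (t + s + 99 / 10))) (c + (l - 1) * (t + s)))
      (min 0 (12 * (t + s - 99 / 10)))
    linarith

theorem sqz_F_far (c l : ℝ) (hc : |c| ≤ 1) (hl0 : 0 < l) (hl1 : l ≤ 1 / 2) (t : ℝ)
    (ht : 99 / 10 ≤ |t|) : sqz_F c l t = 0 := by
  rw [abs_le] at hc
  unfold sqz_F
  rcases le_abs'.1 ht with h | h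
  · rw [max_eq_left (by linarith : 12 * (t + 99 / 10) ≤ 0), min_eq_left (by nlinarith),
      min_eq_right (by linarith), max_eq_left (by linarith)]
  · rw [max_eq_right (by linarith : 0 ≤ 12 * (t + 99 / 10)), min_eq_right (by nlinarith),
      min_eq_left (by linarith), max_eq_right (by nlinarith)]

theorem sqz_F_near (c l : ℝ) (hc : |c| ≤ 1) (hl0 : 0 < l) (hl1 : l ≤ 1 / 2) (t : ℝ)
    (ht : |t| ≤ 9) : sqz_F c l t = c + (l - 1) * t := by
  rw [abs_le] at hc ht
  unfold sqz_F
  rw [max_eq_right (by linarith : 0 ≤ 12 * (t + 99 / 10)), min_eq_right (by nlinarith),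
      min_eq_right (by linarith), max_eq_left (by nlinarith)]

theorem sqz_near_bound (c l : ℝ) (hc : |c| ≤ 1) (hl0 : 0 < l) (hl1 : l ≤ 1 / 2) (t : ℝ)
    (ht : |t| ≤ 9) : |c + (l - 1) * t| ≤ 10 ∧ |c + l * t| ≤ 9 := by
  rw [abs_le] at hc ht
  refine ⟨abs_le.2 ⟨by nlinarith, by nlinarith⟩, abs_le.2 ⟨by nlinarith, by nlinarith⟩⟩

theorem sqz_one {n : ℕ} (j : Fin n) (c l : ℝ) (hc : |c| ≤ 1) (hl0 : 0 < l) (hl1 : l ≤ 1 / 2) :
    ∃ h : HC n 10, ∀ x : E n, ‖x‖ ≤ 9 → (h : E n ≃ₜ E n) x j = c + l * x j ∧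
      ∀ k, k ≠ j → (h : E n ≃ₜ E n) x k = x k := by
  let M : E n → ℝ := fun x => 12 * max 0 (99 / 10 - nu j (x - 0))
  let v : E n → ℝ := fun x => max (-(M x)) (min (M x) (sqz_F c l (x j)))
  have hM0 : ∀ x, 0 ≤ M x := fun x => by positivity
  have hM : PLL M := PLL.const_mul 12 (PLL.max (PLL.const 0) ((PLL.const _).sub (PLL.nu j 0)))
  have hF : PLL (fun x : E n => sqz_F c l (x j)) := by
    unfold sqz_F
    refine PLL.max (PLL.min (PLL.max (PLL.const 0) ?_) ?_) (PLL.min (PLL.const 0) ?_)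
    · exact PLL.const_mul _ ((PLL.coord j).add (PLL.const _))
    · exact (PLL.const _).add (PLL.const_mul _ (PLL.coord j))
    · exact PLL.const_mul _ ((PLL.coord j).sub (PLL.const _))
  have hv : PLL v := PLL.max hM.neg (PLL.min hM hF)
  obtain ⟨h, hh⟩ := exists_shear (R := 10) v (ee j) hv (1 - l) (by linarith) (by
    intro x t ht
    show max (-(M x)) (min (M x) (sqz_F c l (x j))) - (1 - l) * t ≤
      max (-(M (x + t • ee j))) (min (M (x + t • ee j)) (sqz_F c l ((x + t • ee j) j)))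
    have hMx : M (x + t • ee j) = M x := by
      show 12 * max 0 (99 / 10 - nu j (x + t • ee j - 0)) = 12 * max 0 (99 / 10 - nu j (x - 0))
      rw [sub_zero, sub_zero, sqz_nu_add]
    rw [hMx, sqz_apply]
    have h1 := sqz_F_mono c l hl0 hl1 (x j) t ht
    have h2 : 0 ≤ (1 - l) * t := mul_nonneg (by linarith) ht
    rw [sub_le_iff_le_add]
    apply max_le
    · have := le_max_left (-(M x)) (min (M x) (sqz_F c l (x j + t)))
      linarith
    · have h3 : min (M x) (sqz_F c l (x j)) - (1 - l) * t ≤ min (M x) (sqz_F c l (x j + t)) := by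
        apply le_min
        · have := min_le_left (M x) (sqz_F c l (x j))
          linarith
        · have := min_le_right (M x) (sqz_F c l (x j))
          linarith
      have := le_max_right (-(M x)) (min (M x) (sqz_F c l (x j + t)))
      linarith) (by
    intro x hx
    show max (-(M x)) (min (M x) (sqz_F c l (x j))) = 0
    rcases le_or_gt (99 / 10) |x j| with h1 | h1
    · rw [sqz_F_far c l hc hl0 hl1 _ h1, min_eq_right (hM0 x), max_eq_right]
      have := hM0 x
      linarith
    · have h2 : 99 / 10 ≤ nu j x := by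
        by_contra hcon
        push Not at hcon
        have : ‖x‖ ≤ 99 / 10 := by
          refine (pi_norm_le_iff_of_nonneg (by norm_num)).2 fun k => ?_
          by_cases hk : k = j
          · subst hk
            simpa using h1.le
          · exact (sqz_le_nu j k hk x).trans hcon.le
        norm_num at hx this
        linarith
      have h3 : M x = 0 := by
        show 12 * max 0 (99 / 10 - nu j (x - 0)) = 0
        rw [sub_zero, max_eq_left (by linarith)]
        simp
      rw [h3]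
      rcases le_total 0 (sqz_F c l (x j)) with h4 | h4
      · rw [min_eq_left h4]; simp
      · rw [min_eq_right h4]
        simp [h4])
  refine ⟨h, fun x hx => ?_⟩
  have hxj : |x j| ≤ 9 := le_trans (by simpa using norm_le_pi_norm x j) hx
  have hb := sqz_near_bound c l hc hl0 hl1 _ hxj
  have hvx : v x = c + (l - 1) * x j := by
    show max (-(M x)) (min (M x) (sqz_F c l (x j))) = _
    rw [sqz_F_near c l hc hl0 hl1 _ hxj]
    have h1 := sqz_nu_le j x
    have h2 : 10 ≤ M x := by
      show 10 ≤ 12 * max 0 (99 / 10 - nu j (x - 0))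
      rw [sub_zero, max_eq_right (by linarith)]
      linarith
    have h3 := abs_le.1 hb.1
    rw [min_eq_right (by linarith), max_eq_right (by linarith)]
  refine ⟨?_, fun k hk => ?_⟩
  · rw [hh x, sqz_apply, hvx]
    ring
  · rw [hh x, sqz_apply_ne j k hk]

theorem exists_squeeze {n : ℕ} (i : Fin n) (c : E n) (hc : ∀ j, |c j| ≤ 1) (lam : ℝ)
    (h0 : 0 < lam) (h1 : lam ≤ 1 / 2) :
    ∃ q : HC n 10, ∀ x : E n, ‖x‖ ≤ 9 →
      (q : E n ≃ₜ E n) x i = x i ∧ ∀ j, j ≠ i → (q : E n ≃ₜ E n) x j = c j + lam * x j := by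
  classical
  have key : ∀ s : Finset (Fin n), ∃ q : HC n 10, ∀ x : E n, ‖x‖ ≤ 9 →
      (∀ j, j ∉ s → (q : E n ≃ₜ E n) x j = x j) ∧
      ∀ j, j ∈ s → (q : E n ≃ₜ E n) x j = c j + lam * x j := by
    intro s
    induction s using Finset.induction_on with
    | empty => exact ⟨1, fun x _ => ⟨fun j _ => rfl, fun j hj => absurd hj (by simp)⟩⟩
    | insert j s hj ih =>
      obtain ⟨q, hq⟩ := ih
      obtain ⟨h, hh⟩ := sqz_one j (c j) lam (hc j) h0 h1
      refine ⟨h * q, fun x hx => ?_⟩
      obtain ⟨h2, h3⟩ := hq x hx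
      have hy : ‖(q : E n ≃ₜ E n) x‖ ≤ 9 := by
        refine (pi_norm_le_iff_of_nonneg (by norm_num)).2 fun k => ?_
        have hxk : |x k| ≤ 9 := le_trans (by simpa using norm_le_pi_norm x k) hx
        by_cases hk : k ∈ s
        · rw [h3 k hk]
          exact (sqz_near_bound (c k) lam (hc k) h0 h1 _ hxk).2
        · rw [h2 k hk]
          exact hxk
      obtain ⟨h4, h5⟩ := hh _ hy
      refine ⟨fun k hk => ?_, fun k hk => ?_⟩
      · show (h : E n ≃ₜ E n) ((q : E n ≃ₜ E n) x) k = x k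
        rw [Finset.mem_insert, not_or] at hk
        rw [h5 k hk.1, h2 k hk.2]
      · show (h : E n ≃ₜ E n) ((q : E n ≃ₜ E n) x) k = c k + lam * x k
        rcases Finset.mem_insert.1 hk with rfl | hk'
        · rw [h4, h2 k hj]
        · have hkj : k ≠ j := fun h => hj (h ▸ hk')
          rw [h5 k hkj, h3 k hk']
  obtain ⟨q, hq⟩ := key (Finset.univ.erase i)
  refine ⟨q, fun x hx => ⟨(hq x hx).1 i (by simp), fun j hj => (hq x hx).2 j (by simp [hj])⟩⟩

end Pool.Agent.Lib_helper11.PLM
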