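import Pool.Agent.Lib_helper11.PLM.F.WDefs
import Pool.Agent.Lib_helper11.PLM.F.SQZ


open Set Filter Topology
open scoped Manifold

namespace Pool.Agent.Lib_helper11.PLM

theorem cross_tube {n : ℕ} {F : Filter (HC n 10)} (hF : GF _ F) (i : Fin n) (a : ℝ)
    (hX : CrossDir F i a) : CrossTube F i a := by
  intro N hN lam hlam c hc hci
  obtain ⟨l0, hl0⟩ : ∃ l0 : ℝ, l0 = min (lam / 9) (1 / 2) := ⟨_, rfl⟩
  have hl0p : 0 < l0 := by rw [hl0]; positivity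
  have hl0h : l0 ≤ 1 / 2 := hl0 ▸ min_le_right _ _
  have hl0l : l0 * 9 ≤ lam := by
    have : l0 ≤ lam / 9 := hl0 ▸ min_le_left _ _
    linarith
  obtain ⟨q, hq⟩ := exists_squeeze i c hc l0 hl0p hl0h
  obtain ⟨N', hN', hNN⟩ := hF.conj q N hN
  obtain ⟨V, hV, ⟨γ, hγ, hγV, hγ0, hγ1⟩, hVN⟩ := hX N' hN'
  refine ⟨(q : E n ≃ₜ E n) '' V, (q : E n ≃ₜ E n).isOpenMap V hV,
    ⟨fun t => (q : E n ≃ₜ E n) (γ t), (q : E n ≃ₜ E n).continuous.comp_continuousOn hγ, ?_, ?_, ?_⟩,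
    ?_⟩
  · intro t ht
    obtain ⟨h1, h2⟩ := hγV t ht
    refine ⟨mem_image_of_mem _ h1, ?_⟩
    obtain ⟨h3, h4⟩ := hq (γ t) h2
    refine le_trans ?_ hl0l
    unfold nu
    refine (pi_norm_le_iff_of_nonneg (by positivity)).2 fun j => ?_
    by_cases hj : j = i
    · subst hj
      simp
      positivity
    · simp only [Function.update_of_ne hj, Pi.sub_apply]
      rw [h4 j hj]
      have h5 : c j + l0 * γ t j - c j = l0 * γ t j := by ring
      rw [h5, norm_mul, Real.norm_of_nonneg hl0p.le]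
      exact mul_le_mul_of_nonneg_left ((norm_le_pi_norm (γ t) j).trans h2) hl0p.le
  · show (q : E n ≃ₜ E n) (γ 0) i ≤ a
    rw [(hq (γ 0) (hγV 0 (by simp)).2).1]
    exact hγ0
  · show a + 7 ≤ (q : E n ≃ₜ E n) (γ 1) i
    rw [(hq (γ 1) (hγV 1 (by simp)).2).1]
    exact hγ1
  · intro h hh
    have h1 : q⁻¹ * h * q ∈ N' := by
      apply hVN
      intro x hx
      show (q : E n ≃ₜ E n).symm ((h : E n ≃ₜ E n) ((q : E n ≃ₜ E n) x)) = x
      rw [hh, Homeomorph.symm_apply_apply]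
      rintro ⟨y, hy, hyx⟩
      rw [(q : E n ≃ₜ E n).injective hyx] at hy
      exact hx hy
    have h2 := hNN _ h1
    have h3 : q * (q⁻¹ * h * q) * q⁻¹ = h := by group
    rwa [h3] at h2

end Pool.Agent.Lib_helper11.PLM
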