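import Pool.Agent.Lib_helper11.PLM.F.WDefs


open Set Filter Topology
open scoped Manifold

namespace Pool.Agent.Lib_helper11.PLM

theorem cross_dir {n : ℕ} {F : Filter (HC n 10)} (hF : GF _ F) (hc : Cross0 F) :
    ∃ i : Fin n, ∃ a : ℝ, (a = 2 ∨ a = -9) ∧ CrossDir F i a := by
  by_contra hcon
  push Not at hcon
  have h1 : ∀ i : Fin n, ∃ N ∈ F, ¬ ∃ V : Set (E n), IsOpen V ∧
    (∃ γ : ℝ → E n, ContinuousOn γ (Icc 0 1) ∧ (∀ t ∈ Icc (0:ℝ) 1, γ t ∈ V ∧ ‖γ t‖ ≤ 9) ∧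
      γ 0 i ≤ 2 ∧ 2 + 7 ≤ γ 1 i) ∧
    ∀ h : HC n 10, Supp h V → h ∈ N := by
    intro i
    have := hcon i 2 (Or.inl rfl)
    unfold CrossDir at this
    by_contra hc
    push Not at hc
    exact this fun N hN => by simpa using hc N hN
  have h2 : ∀ i : Fin n, ∃ N ∈ F, ¬ ∃ V : Set (E n), IsOpen V ∧
    (∃ γ : ℝ → E n, ContinuousOn γ (Icc 0 1) ∧ (∀ t ∈ Icc (0:ℝ) 1, γ t ∈ V ∧ ‖γ t‖ ≤ 9) ∧
      γ 0 i ≤ -9 ∧ -9 + 7 ≤ γ 1 i) ∧
    ∀ h : HC n 10, Supp h V → h ∈ N := by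
    intro i
    have := hcon i (-9) (Or.inr rfl)
    unfold CrossDir at this
    by_contra hc
    push Not at hc
    exact this fun N hN => by simpa using hc N hN
  choose N1 hN1 hN1' using h1
  choose N2 hN2 hN2' using h2
  have hN : (⋂ i, N1 i ∩ N2 i) ∈ F := iInter_mem.2 fun i => inter_mem (hN1 i) (hN2 i)
  obtain ⟨V, hV, ⟨γ, hγ, hγV, hγ0, hγ1⟩, hVN⟩ := hc _ hN
  have hex : ∃ i, |γ 1 i| = 9 := by
    have hne : Nonempty (Fin n) := by
      by_contra hne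
      rw [not_nonempty_iff] at hne
      have : ‖γ 1‖ = 0 := by
        rw [Subsingleton.elim (γ 1) 0]; simp
      rw [this] at hγ1
      norm_num at hγ1
    obtain ⟨j, hj⟩ := Finite.exists_max (fun j => ‖γ 1 j‖)
    refine ⟨j, ?_⟩
    apply le_antisymm
    · rw [← hγ1]
      simpa using norm_le_pi_norm (γ 1) j
    · rw [← hγ1]
      exact (pi_norm_le_iff_of_nonneg (abs_nonneg _)).2 fun k => by simpa using hj k
  obtain ⟨i, hi⟩ := hex
  have h0i : |γ 0 i| ≤ 2 := by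
    refine le_trans ?_ hγ0
    simpa using norm_le_pi_norm (γ 0) i
  rw [abs_le] at h0i
  rcases (abs_eq (by norm_num : (0:ℝ) ≤ 9)).1 hi with h9 | h9
  · apply hN1' i
    refine ⟨V, hV, ⟨γ, hγ, hγV, h0i.2, by rw [h9]; norm_num⟩, fun h hh => ?_⟩
    exact (mem_iInter.1 (hVN h hh) i).1
  · apply hN2' i
    refine ⟨V, hV, ⟨fun t => γ (1 - t), ?_, ?_, ?_, ?_⟩, fun h hh => ?_⟩
    · refine hγ.comp (by fun_prop) ?_
      intro t ht
      exact ⟨by linarith [ht.2], by linarith [ht.1]⟩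
    · intro t ht
      exact hγV (1 - t) ⟨by linarith [ht.2], by linarith [ht.1]⟩
    · simp [h9]
    · have := h0i.1
      simp only [sub_self]
      linarith
    · exact (mem_iInter.1 (hVN h hh) i).2

end Pool.Agent.Lib_helper11.PLM
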