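import Pool.Agent.Lib_helper11.PLM.F.WDefs
import Pool.Agent.Lib_helper11.PLM.F.SHR


open Set Filter Topology
open scoped Manifold

namespace Pool.Agent.Lib_helper11.PLM

/-- a linear functional with prescribed values on a linearly independent family -/
theorem emv_func {n k : ℕ} (v : Fin k → E n) (hv : LinearIndependent ℝ v) (c : Fin k → ℝ) :
    ∃ l : E n →ₗ[ℝ] ℝ, ∀ j, l (v j) = c j := by
  obtain ⟨g, hg⟩ := LinearMap.exists_extend
    ((Finsupp.linearCombination ℝ c).comp hv.repr)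
  refine ⟨g, fun j => ?_⟩
  have h1 : v j ∈ Submodule.span ℝ (range v) := Submodule.subset_span ⟨j, rfl⟩
  have h2 := LinearMap.congr_fun hg ⟨v j, h1⟩
  have h3 : hv.repr ⟨v j, h1⟩ = Finsupp.single j 1 := hv.repr_eq_single j ⟨v j, h1⟩ rfl
  simp only [LinearMap.comp_apply, Submodule.subtype_apply] at h2
  rw [h2, h3, Finsupp.linearCombination_single, one_smul]

theorem emv_cancel (s x : ℝ) (hs : s < 0) : s * (x / (-s)) = -x := by
  have : s ≠ 0 := hs.ne
  field_simp

/-- the separating functional -/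
theorem emv_sep {n : ℕ} (u u' d : E n) (h : LinearIndependent ℝ ![u, u'])
    (hd : ¬ ∃ s t : ℝ, 0 ≤ s ∧ 0 ≤ t ∧ d = s • u + t • u') :
    ∃ l : E n →ₗ[ℝ] ℝ, 0 < l u ∧ 0 < l u' ∧ l d < 0 := by
  by_cases hsp : ∃ s t : ℝ, d = s • u + t • u'
  · obtain ⟨s, t, hst⟩ := hsp
    by_cases hs : 0 ≤ s
    · have ht : t < 0 := by
        by_contra hcon
        exact hd ⟨s, t, hs, not_lt.1 hcon, hst⟩
      obtain ⟨l, hl⟩ := emv_func ![u, u'] h ![1, (s + 1) / (-t)]
      have h0 := hl 0
      have h1 := hl 1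
      simp at h0 h1
      have hpos : 0 < (s + 1) / (-t) := div_pos (by linarith) (by linarith)
      refine ⟨l, by rw [h0]; exact one_pos, by rw [h1]; exact hpos, ?_⟩
      rw [hst, map_add, map_smul, map_smul, h0, h1]
      simp only [smul_eq_mul]
      rw [emv_cancel t _ ht]; linarith
    · have hs' : s < 0 := not_le.1 hs
      obtain ⟨l, hl⟩ := emv_func ![u, u'] h ![(|t| + 1) / (-s), 1]
      have h0 := hl 0
      have h1 := hl 1
      simp at h0 h1
      have hpos : 0 < (|t| + 1) / (-s) := div_pos (by positivity) (by linarith)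
      refine ⟨l, by rw [h0]; exact hpos, by rw [h1]; exact one_pos, ?_⟩
      rw [hst, map_add, map_smul, map_smul, h0, h1]
      simp only [smul_eq_mul]
      rw [emv_cancel s _ hs']
      have := le_abs_self t
      linarith
  · have h3 : LinearIndependent ℝ ![d, u, u'] := by
      rw [show (![d, u, u'] : Fin 3 → E n) = Fin.cons d ![u, u'] from rfl,
        linearIndependent_finCons]
      refine ⟨h, fun hmem => hsp ?_⟩
      rw [show range ![u, u'] = {u, u'} by
        ext x; simp [eq_comm, or_comm]] at hmem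
      obtain ⟨s, t, hst⟩ := Submodule.mem_span_pair.1 hmem
      exact ⟨s, t, hst.symm⟩
    obtain ⟨l, hl⟩ := emv_func ![d, u, u'] h3 ![-1, 1, 1]
    have h0 := hl 0
    have h1 := hl 1
    have h2 := hl 2
    simp at h0 h1 h2
    exact ⟨l, by rw [h1]; exact one_pos, by rw [h2]; exact one_pos, by rw [h0]; norm_num⟩

/-- the two spanning vectors of a nondegenerate triangle are linearly independent -/
theorem emv_indep {n : ℕ} (a b c : E n) (habc : AffineIndependent ℝ ![a, b, c]) :
    LinearIndependent ℝ ![b - a, c - a] := by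
  rw [LinearIndependent.pair_iff]
  intro s t hst
  rw [affineIndependent_iff] at habc
  have := habc Finset.univ ![-(s + t), s, t] (by simp [Fin.sum_univ_three]) (by
    simp [Fin.sum_univ_three]
    have : -(s + t) • a + s • b + t • c = s • (b - a) + t • (c - a) := by module
    rw [← hst, ← this]; module)
  refine ⟨?_, ?_⟩
  · simpa using this 1 (Finset.mem_univ _)
  · simpa using this 2 (Finset.mem_univ _)

/-- points of the triangle -/
theorem emv_mem {n : ℕ} (a b c : E n) (s t : ℝ) (hs : 0 ≤ s) (ht : 0 ≤ t) (hst : s + t ≤ 1) :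
    a + s • (b - a) + t • (c - a) ∈ convexHull ℝ {a, b, c} := by
  have h1 : a + s • (b - a) + t • (c - a) = (1 - s - t) • a + s • b + t • c := by module
  rw [h1]
  have hc := convex_convexHull ℝ ({a, b, c} : Set (E n))
  have ha : a ∈ convexHull ℝ ({a, b, c} : Set (E n)) := subset_convexHull ℝ _ (by simp)
  have hb : b ∈ convexHull ℝ ({a, b, c} : Set (E n)) := subset_convexHull ℝ _ (by simp)
  have hcc : c ∈ convexHull ℝ ({a, b, c} : Set (E n)) := subset_convexHull ℝ _ (by simp)
  have := hc.sum_mem (t := Finset.univ) (w := ![1 - s - t, s, t]) (z := ![a, b, c])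
    (by intro i _; fin_cases i <;> simp <;> linarith) (by simp [Fin.sum_univ_three]; ring)
    (by intro i _; fin_cases i <;> simp [ha, hb, hcc])
  simpa [Fin.sum_univ_three] using this

/-- the direction `a' - a` is not in the cone of the triangle -/
theorem emv_cone {n : ℕ} (a b c a' : E n)
    (ha' : segment ℝ a a' ∩ convexHull ℝ {a, b, c} = {a}) (haa : a' ≠ a) :
    ¬ ∃ s t : ℝ, 0 ≤ s ∧ 0 ≤ t ∧ a' - a = s • (b - a) + t • (c - a) := by
  rintro ⟨s, t, hs, ht, h⟩
  set r := (1 + s + t)⁻¹ with hr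
  have hpos : 0 < 1 + s + t := by positivity
  have hr0 : 0 < r := inv_pos.2 hpos
  have hr1 : r * (1 + s + t) = 1 := inv_mul_cancel₀ hpos.ne'
  have h1 : a + r • (a' - a) ∈ segment ℝ a a' := by
    rw [segment_eq_image']
    exact ⟨r, ⟨hr0.le, by nlinarith⟩, rfl⟩
  have h2 : a + r • (a' - a) ∈ convexHull ℝ {a, b, c} := by
    have := emv_mem a b c (r * s) (r * t) (by positivity) (by positivity) (by nlinarith)
    rw [h]
    convert this using 1
    module
  have h3 : a + r • (a' - a) ∈ ({a} : Set (E n)) := ha' ▸ ⟨h1, h2⟩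
  have h4 : r • (a' - a) = 0 := by simpa using h3
  rcases smul_eq_zero.1 h4 with h5 | h5
  · exact hr0.ne' h5
  · exact haa (sub_eq_zero.1 h5)

/-- positivity of the separating functional on the support of the shear -/
theorem emv_pos {κ α β ρ le lw lz L z : ℝ} (hκ : 0 < κ) (hle : 0 < le)
    (hz : z = κ * ρ) (hlz : |lz| ≤ L * z) (hρ : 0 ≤ ρ) (h1 : κ * L ≤ le) (h2 : κ * |lw| ≤ le)
    (h3 : κ * |lw| ≤ le + lw)
    (hv : |α| + max (β / (1 + κ)) (-β / κ) + ρ < 1) :
    0 < (1 + α) * le + β * lw + lz := by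
  set μ := max (β / (1 + κ)) (-β / κ) with hμ
  have hα : μ + ρ < 1 + α := by
    have := neg_abs_le α
    linarith
  have hμ0 : 0 ≤ μ := by
    rcases le_total 0 β with h | h
    · exact le_max_of_le_left (by positivity)
    · exact le_max_of_le_right (div_nonneg (by linarith) hκ.le)
  have a1 : (μ + ρ) * le < (1 + α) * le := by nlinarith
  have a2 : -(ρ * le) ≤ lz := by
    have e1 : |lz| ≤ ρ * le := by
      refine hlz.trans ?_
      rw [hz]
      nlinarith
    have := neg_abs_le lz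
    linarith
  have a3 : 0 ≤ μ * le + β * lw := by
    rcases le_total 0 β with h | h
    · have b1 : β ≤ (1 + κ) * μ := by
        have : β / (1 + κ) ≤ μ := le_max_left _ _
        rw [div_le_iff₀ (by positivity)] at this
        linarith
      rcases le_total 0 lw with h' | h'
      · positivity
      · rw [abs_of_nonpos h'] at h3
        have : (1 + κ) * μ * lw ≤ β * lw := mul_le_mul_of_nonpos_right b1 h'
        nlinarith
    · have b1 : -β ≤ κ * μ := by
        have : -β / κ ≤ μ := le_max_right _ _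
        rw [div_le_iff₀ hκ] at this
        linarith
      have b2 : -(κ * μ * |lw|) ≤ β * lw := by
        have c1 : |β * lw| = -β * |lw| := by rw [abs_mul, abs_of_nonpos h]
        have c2 := neg_abs_le (β * lw)
        have c3 : -β * |lw| ≤ κ * μ * |lw| := mul_le_mul_of_nonneg_right b1 (abs_nonneg _)
        linarith
      nlinarith
  nlinarith

/-- the shear function of the elementary move -/
noncomputable def emv_v {n : ℕ} (κ : ℝ) (α β : E n →ₗ[ℝ] ℝ) (ζ : E n →ₗ[ℝ] E n) (m : E n)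
    (x : E n) : ℝ :=
  max 0 (1 - |α x - α m| - max ((1 + κ)⁻¹ * (β x - β m)) (κ⁻¹ * (-(β x - β m))) -
    κ⁻¹ * ‖ζ x - ζ m‖)

theorem emv_v_pll {n : ℕ} (κ : ℝ) (α β : E n →ₗ[ℝ] ℝ) (ζ : E n →ₗ[ℝ] E n) (m : E n) :
    PLL (emv_v κ α β ζ m) := by
  have h1 : PLL (fun x : E n => |α x - α m|) := ((PLL.linear α).sub (PLL.const _)).abs
  have h2 : PLL (fun x : E n => β x - β m) := (PLL.linear β).sub (PLL.const _)
  have h3 : PLL (fun x : E n => ‖ζ x - ζ m‖) := PLL.norm_linear ζ (ζ m)
  exact (PLL.const 0).max ((((PLL.const 1).sub h1).sub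
    ((h2.const_mul _).max (h2.neg.const_mul _))).sub (h3.const_mul _))

theorem emv_v_slope {n : ℕ} (κ : ℝ) (hκ : 0 < κ) (α β : E n →ₗ[ℝ] ℝ) (ζ : E n →ₗ[ℝ] E n)
    (m w : E n) (hα : α w = 0) (hβ : β w = 1) (hζ : ζ w = 0) (x : E n) (t : ℝ) (ht : 0 ≤ t) :
    emv_v κ α β ζ m x - (1 + κ)⁻¹ * t ≤ emv_v κ α β ζ m (x + t • w) := by
  unfold emv_v
  simp only [map_add, map_smul, hα, hβ, hζ, smul_zero, add_zero, smul_eq_mul, mul_one, mul_zero]
  set A := |α x - α m|
  set B := β x - β m
  have hB : β x + t - β m = B + t := by simp only [B]; ring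
  rw [hB]
  set Z := κ⁻¹ * ‖ζ x - ζ m‖
  have h1 : max ((1 + κ)⁻¹ * (B + t)) (κ⁻¹ * (-(B + t))) ≤
      max ((1 + κ)⁻¹ * B) (κ⁻¹ * (-B)) + (1 + κ)⁻¹ * t := by
    apply max_le
    · have := le_max_left ((1 + κ)⁻¹ * B) (κ⁻¹ * (-B))
      nlinarith
    · have h2 := le_max_right ((1 + κ)⁻¹ * B) (κ⁻¹ * (-B))
      have h3 : 0 ≤ κ⁻¹ * t := by positivity
      have h4 : 0 ≤ (1 + κ)⁻¹ * t := by positivity
      nlinarith
  have h5 : 0 ≤ (1 + κ)⁻¹ * t := by positivity
  rcases le_total (1 - A - max ((1 + κ)⁻¹ * B) (κ⁻¹ * (-B)) - Z) 0 with h | h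
  · rw [max_eq_left h]
    exact (by linarith : (0:ℝ) - (1 + κ)⁻¹ * t ≤ 0).trans (le_max_left _ _)
  · rw [max_eq_right h]
    refine le_trans ?_ (le_max_right _ _)
    linarith

/-- the support of the shear is close to the triangle -/
theorem emv_close {n : ℕ} (κ : ℝ) (hκ : 0 < κ) (α β : E n →ₗ[ℝ] ℝ) (ζ : E n →ₗ[ℝ] E n)
    (a b c m e w : E n) (he : e = (1 / 2 : ℝ) • (c - a)) (hm : m = (1 / 2 : ℝ) • (a + c))
    (hw : w = b - m) (hζ : ∀ x, ζ x = x - α x • e - β x • w) (x : E n)
    (hx : 0 < emv_v κ α β ζ m x) :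
    ∃ y ∈ convexHull ℝ {a, b, c}, ‖x - y‖ ≤ κ * (1 + ‖w‖) := by
  have hx' : 0 < 1 - |α x - α m| - max ((1 + κ)⁻¹ * (β x - β m)) (κ⁻¹ * (-(β x - β m))) -
    κ⁻¹ * ‖ζ x - ζ m‖ := by
    unfold emv_v at hx
    rcases lt_max_iff.1 hx with h | h
    · exact absurd h (lt_irrefl _)
    · exact h
  set A := α x - α m with hA
  set B := β x - β m with hB
  set Z := ζ x - ζ m with hZ
  have hZ0 : 0 ≤ κ⁻¹ * ‖Z‖ := by positivity
  have hM0 : 0 ≤ max ((1 + κ)⁻¹ * B) (κ⁻¹ * (-B)) := by
    rcases le_total 0 B with h | h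
    · exact le_max_of_le_left (by positivity)
    · exact le_max_of_le_right (mul_nonneg (by positivity) (by linarith))
  have h1 := le_max_left ((1 + κ)⁻¹ * B) (κ⁻¹ * (-B))
  have h2 := le_max_right ((1 + κ)⁻¹ * B) (κ⁻¹ * (-B))
  have hA1 : |A| < 1 := by linarith
  have hZ1 : ‖Z‖ ≤ κ := by
    have : κ⁻¹ * ‖Z‖ < 1 := by have := abs_nonneg A; linarith
    rw [inv_mul_lt_iff₀ hκ] at this
    linarith
  have hB1 : -B ≤ κ := by
    have : κ⁻¹ * (-B) < 1 := by have := abs_nonneg A; linarith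
    rw [inv_mul_lt_iff₀ hκ] at this
    linarith
  have hB2 : B ≤ (1 + κ) * (1 - |A|) := by
    have : (1 + κ)⁻¹ * B < 1 - |A| := by linarith
    rw [inv_mul_lt_iff₀ (by positivity)] at this
    linarith
  have hxm : x = m + A • e + B • w + Z := by
    rw [hZ, hζ, hζ, hA, hB]; module
  set B' := max 0 (min B (1 - |A|)) with hB'
  have hB'0 : 0 ≤ B' := le_max_left _ _
  have hB'1 : B' ≤ 1 - |A| := max_le (by linarith) (min_le_right _ _)
  have hBB : |B - B'| ≤ κ := by
    rw [abs_le]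
    rcases le_total B (1 - |A|) with h | h
    · rw [hB', min_eq_left h]
      rcases le_total 0 B with h' | h'
      · rw [max_eq_right h']; constructor <;> linarith
      · rw [max_eq_left h']; constructor <;> linarith
    · rw [hB', min_eq_right h, max_eq_right (by linarith)]
      have := abs_nonneg A
      constructor <;> nlinarith
  refine ⟨m + A • e + B' • w, ?_, ?_⟩
  · have := emv_mem a b c B' ((1 + A - B') / 2) hB'0 (by have := neg_abs_le A; linarith)
      (by have := le_abs_self A; linarith)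
    convert this using 1
    rw [hw, he, hm]; module
  · have : x - (m + A • e + B' • w) = (B - B') • w + Z := by
      rw [hxm]; module
    rw [this]
    calc ‖(B - B') • w + Z‖ ≤ ‖(B - B') • w‖ + ‖Z‖ := norm_add_le _ _
      _ ≤ κ * ‖w‖ + κ := by
        rw [norm_smul, Real.norm_eq_abs]
        exact add_le_add (mul_le_mul_of_nonneg_right hBB (norm_nonneg _)) hZ1
      _ = κ * (1 + ‖w‖) := by ring

/-- the shear function vanishes on the neighbouring segment at `a` for small `κ` -/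
theorem emv_side {n : ℕ} (α β : E n →ₗ[ℝ] ℝ) (ζ : E n →ₗ[ℝ] E n)
    (a m e w a' : E n) (hma : m = a + e)
    (hζ : ∀ x, ζ x = x - α x • e - β x • w) (l : E n →ₗ[ℝ] ℝ) (hle : 0 < l e)
    (hlew : 0 < l e + l w) (hla : l (a' - a) < 0) :
    ∃ κ0 > 0, ∀ κ, 0 < κ → κ ≤ κ0 → ∀ x ∈ segment ℝ a a', emv_v κ α β ζ m x = 0 := by
  set L := ‖LinearMap.toContinuousLinearMap l‖ with hL
  have hL' : ∀ x, |l x| ≤ L * ‖x‖ := fun x => by
    have := (LinearMap.toContinuousLinearMap l).le_opNorm x
    simpa using this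
  set κ0 := min (l e / (L + |l w| + 1)) ((l e + l w) / (L + |l w| + 1)) with hκ0
  have hD : 0 < L + |l w| + 1 := by positivity
  refine ⟨κ0, lt_min (div_pos hle hD) (div_pos hlew hD), fun κ hκ hκκ x hx => ?_⟩
  have k1 : κ * (L + |l w| + 1) ≤ l e := by
    rw [← le_div_iff₀ hD]; exact hκκ.trans (min_le_left _ _)
  have k2 : κ * (L + |l w| + 1) ≤ l e + l w := by
    rw [← le_div_iff₀ hD]; exact hκκ.trans (min_le_right _ _)
  have hL0 : 0 ≤ L := norm_nonneg _
  by_contra hne
  have hpos : 0 < emv_v κ α β ζ m x := lt_of_le_of_ne (le_max_left _ _) (Ne.symm hne)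
  have hx' : 0 < 1 - |α x - α m| - max ((1 + κ)⁻¹ * (β x - β m)) (κ⁻¹ * (-(β x - β m))) -
    κ⁻¹ * ‖ζ x - ζ m‖ := by
    unfold emv_v at hpos
    rcases lt_max_iff.1 hpos with h | h
    · exact absurd h (lt_irrefl _)
    · exact h
  set A := α x - α m with hA
  set B := β x - β m with hB
  set Z := ζ x - ζ m with hZ
  have hxm : x - a = (1 + A) • e + B • w + Z := by
    rw [hZ, hζ, hζ, hA, hB, hma]; simp only [map_add]; module
  have h := emv_pos (κ := κ) (α := A) (β := B) (ρ := κ⁻¹ * ‖Z‖) (le := l e) (lw := l w)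
    (lz := l Z) (L := L) (z := ‖Z‖) hκ hle (by field_simp) (hL' Z) (by positivity)
    (by nlinarith [abs_nonneg (l w)]) (by nlinarith) (by nlinarith) (by
      rw [div_eq_inv_mul, div_eq_inv_mul]; linarith)
  have h2 : l (x - a) = (1 + A) * l e + B * l w + l Z := by
    rw [hxm]; simp [map_add, map_smul]
  obtain ⟨s, hs, hxs⟩ : ∃ s ∈ Icc (0:ℝ) 1, a + s • (a' - a) = x := by
    rw [segment_eq_image'] at hx
    exact hx
  have h3 : l (x - a) = s * l (a' - a) := by
    rw [← hxs]; simp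
  have h4 : s * l (a' - a) ≤ 0 := mul_nonpos_of_nonneg_of_nonpos hs.1 hla.le
  linarith

/-- EMV: the elementary move. -/
theorem elem_move {n : ℕ} {R : ℝ} (a b c : E n) (habc : AffineIndependent ℝ ![a, b, c])
    (B : Set (E n)) (hB : IsOpen B) (hBR : B ⊆ Metric.ball 0 R)
    (hBT : convexHull ℝ {a, b, c} ⊆ B) (a' c' : E n)
    (ha' : segment ℝ a a' ∩ convexHull ℝ {a, b, c} = {a}) (haa : a' ≠ a)
    (hc' : segment ℝ c c' ∩ convexHull ℝ {a, b, c} = {c}) (hcc : c' ≠ c)
    (K : Set (E n)) (hK : IsCompact K) (hd : Disjoint K (convexHull ℝ {a, b, c})) :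
    ∃ h : HC n R, Supp h B ∧ (∀ x ∈ K, (h : E n ≃ₜ E n) x = x) ∧
      (∀ x ∈ segment ℝ a a', (h : E n ≃ₜ E n) x = x) ∧
      (∀ x ∈ segment ℝ c c', (h : E n ≃ₜ E n) x = x) ∧
      (h : E n ≃ₜ E n) '' (segment ℝ a c) = segment ℝ a b ∪ segment ℝ b c := by
  set e : E n := (1 / 2 : ℝ) • (c - a) with he
  set m : E n := (1 / 2 : ℝ) • (a + c) with hm
  set w : E n := b - m with hw
  have hind := emv_indep a b c habc
  have hew : LinearIndependent ℝ ![e, w] := by
    rw [LinearIndependent.pair_iff] at hind ⊢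
    intro s t hst
    have h1 : t • (b - a) + (s / 2 - t / 2) • (c - a) = 0 := by
      rw [← hst, hw, he, hm]; module
    obtain ⟨h2, h3⟩ := hind _ _ h1
    exact ⟨by linarith, h2⟩
  obtain ⟨α, hα⟩ := emv_func ![e, w] hew ![1, 0]
  obtain ⟨β, hβ⟩ := emv_func ![e, w] hew ![0, 1]
  have hαe : α e = 1 := by simpa using hα 0
  have hαw : α w = 0 := by simpa using hα 1
  have hβe : β e = 0 := by simpa using hβ 0
  have hβw : β w = 1 := by simpa using hβ 1
  set ζ : E n →ₗ[ℝ] E n := LinearMap.id - α.smulRight e - β.smulRight w with hζdef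
  have hζ : ∀ x, ζ x = x - α x • e - β x • w := fun x => by simp [hζdef]
  have hζw : ζ w = 0 := by rw [hζ, hαw, hβw]; module
  -- the separating functionals
  obtain ⟨l, hl1, hl2, hl3⟩ := emv_sep (b - a) (c - a) (a' - a) hind
    (emv_cone a b c a' ha' haa)
  have hset : ({a, b, c} : Set (E n)) = {c, b, a} := by
    ext x; simp only [mem_insert_iff, mem_singleton_iff]; tauto
  have hind' : LinearIndependent ℝ ![b - c, a - c] := by
    rw [LinearIndependent.pair_iff] at hind ⊢
    intro s t hst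
    have h1 : s • (b - a) + (-(s + t)) • (c - a) = 0 := by
      rw [← hst]; module
    obtain ⟨h2, h3⟩ := hind _ _ h1
    exact ⟨h2, by linarith⟩
  obtain ⟨l', hl1', hl2', hl3'⟩ := emv_sep (b - c) (a - c) (c' - c) hind'
    (emv_cone c b a c' (by rw [← hset]; exact hc') hcc)
  have hle : 0 < l e := by
    rw [he, map_smul]; simpa using hl2
  have hlew : 0 < l e + l w := by
    rw [← map_add, show e + w = b - a by rw [he, hw, hm]; module]; exact hl1
  obtain ⟨κ1, hκ1, H1⟩ := emv_side α β ζ a m e w a' (by rw [hm, he]; module) hζ l hle hlew hl3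
  -- the other side: exchange the roles, `e` becomes `-e`
  have hle' : 0 < l' (-e) := by
    rw [show -e = (1 / 2 : ℝ) • (a - c) by rw [he]; module, map_smul]; simpa using hl2'
  have hlew' : 0 < l' (-e) + l' w := by
    rw [← map_add, show -e + w = b - c by rw [he, hw, hm]; module]; exact hl1'
  obtain ⟨κ2, hκ2, H2⟩ := emv_side (-α) β ζ c m (-e) w c' (by rw [hm, he]; module)
    (fun x => by rw [hζ]; simp) l' hle' hlew' hl3'
  have hneg : ∀ κ x, emv_v κ (-α) β ζ m x = emv_v κ α β ζ m x := fun κ x => by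
    unfold emv_v
    have : |(-α) x - (-α) m| = |α x - α m| := by
      rw [LinearMap.neg_apply, LinearMap.neg_apply, ← abs_neg]
      congr 1; ring
    rw [this]
  -- smallness of the support
  have hTc : IsCompact (convexHull ℝ ({a, b, c} : Set (E n))) :=
    (Set.toFinite _).isCompact_convexHull ℝ
  have hopen : IsOpen (B ∩ Kᶜ) := hB.inter hK.isClosed.isOpen_compl
  have hsub : convexHull ℝ ({a, b, c} : Set (E n)) ⊆ B ∩ Kᶜ := fun x hx =>
    ⟨hBT hx, fun hxK => hd.le_bot ⟨hxK, hx⟩⟩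
  obtain ⟨ε, hε, hthick⟩ := hTc.exists_thickening_subset_open hopen hsub
  set κ : ℝ := min (min κ1 κ2) (ε / (2 * (1 + ‖w‖))) with hκdef
  have hw0 : 0 < 1 + ‖w‖ := by positivity
  have hκ : 0 < κ := lt_min (lt_min hκ1 hκ2) (by positivity)
  have hκε : κ * (1 + ‖w‖) < ε := by
    have h1 : κ ≤ ε / (2 * (1 + ‖w‖)) := min_le_right _ _
    rw [le_div_iff₀ (by positivity)] at h1
    nlinarith
  have hsupp : ∀ x, x ∉ B ∩ Kᶜ → emv_v κ α β ζ m x = 0 := by
    intro x hx
    by_contra hne
    have hpos : 0 < emv_v κ α β ζ m x := lt_of_le_of_ne (le_max_left _ _) (Ne.symm hne)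
    obtain ⟨y, hy, hxy⟩ := emv_close κ hκ α β ζ a b c m e w he hm hw hζ x hpos
    apply hx
    apply hthick
    rw [Metric.mem_thickening_iff]
    exact ⟨y, hy, by rw [dist_eq_norm]; linarith⟩
  have hK1 : (1 + κ)⁻¹ < 1 := inv_lt_one_of_one_lt₀ (by linarith)
  obtain ⟨h, hh⟩ := exists_shear (R := R) (emv_v κ α β ζ m) w (emv_v_pll κ α β ζ m) (1 + κ)⁻¹
    hK1 (fun x t ht => emv_v_slope κ hκ α β ζ m w hαw hβw hζw x t ht) (fun x hx => by
      apply hsupp
      rintro ⟨hxB, -⟩
      have := hBR hxB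
      rw [mem_ball_zero_iff] at this
      linarith)
  have hfix : ∀ x, emv_v κ α β ζ m x = 0 → (h : E n ≃ₜ E n) x = x := fun x hx => by
    rw [hh, hx]; simp
  refine ⟨h, fun x hx => hfix x (hsupp x fun hx' => hx hx'.1),
    fun x hx => hfix x (hsupp x fun hx' => hx'.2 hx),
    fun x hx => hfix x (H1 κ hκ ((min_le_left _ _).trans (min_le_left _ _)) x hx),
    fun x hx => hfix x (by
      rw [← hneg]
      exact H2 κ hκ ((min_le_left _ _).trans (min_le_right _ _)) x hx), ?_⟩
  -- the image of `[a, c]`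
  have hval : ∀ s : ℝ, |s| ≤ 1 → (h : E n ≃ₜ E n) (m + s • e) = m + s • e + (1 - |s|) • w := by
    intro s hs
    rw [hh]
    congr 2
    unfold emv_v
    have hζe : ζ e = 0 := by rw [hζ, hαe, hβe]; module
    simp only [map_add, map_smul, hαe, hβe, hζe, smul_eq_mul, mul_one, mul_zero, add_zero,
      add_sub_cancel_left, sub_self, smul_zero, norm_zero, neg_zero, max_self, sub_zero]
    exact max_eq_right (by linarith)
  ext y
  constructor
  · rintro ⟨x, hx, rfl⟩
    rw [segment_eq_image'] at hx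
    obtain ⟨t, ht, rfl⟩ := hx
    have e1 : a + t • (c - a) = m + (2 * t - 1) • e := by rw [hm, he]; module
    show (h : E n ≃ₜ E n) (a + t • (c - a)) ∈ _
    rw [e1, hval _ (by rw [abs_le]; constructor <;> linarith [ht.1, ht.2])]
    rcases le_total (2 * t - 1) 0 with h0 | h0
    · left
      rw [abs_of_nonpos h0, segment_eq_image']
      refine ⟨2 * t, ⟨by linarith [ht.1], by linarith⟩, ?_⟩
      show a + (2 * t) • (b - a) = _
      rw [hw, hm, he]; module
    · right
      rw [abs_of_nonneg h0, segment_eq_image']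
      refine ⟨2 * t - 1, ⟨h0, by linarith [ht.2]⟩, ?_⟩
      show b + (2 * t - 1) • (c - b) = _
      rw [hw, hm, he]; module
  · rintro (hy | hy)
    · rw [segment_eq_image'] at hy
      obtain ⟨t, ht, rfl⟩ := hy
      refine ⟨m + (t - 1) • e, ?_, ?_⟩
      · rw [segment_eq_image']
        refine ⟨t / 2, ⟨by linarith [ht.1], by linarith [ht.2]⟩, ?_⟩
        show a + (t / 2) • (c - a) = _
        rw [hm, he]; module
      · rw [hval _ (by rw [abs_le]; constructor <;> linarith [ht.1, ht.2]),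
          abs_of_nonpos (by linarith [ht.2])]
        show _ = a + t • (b - a)
        rw [hw, hm, he]; module
    · rw [segment_eq_image'] at hy
      obtain ⟨t, ht, rfl⟩ := hy
      refine ⟨m + t • e, ?_, ?_⟩
      · rw [segment_eq_image']
        refine ⟨(1 + t) / 2, ⟨by linarith [ht.1], by linarith [ht.2]⟩, ?_⟩
        show a + ((1 + t) / 2) • (c - a) = _
        rw [hm, he]; module
      · rw [hval _ (by rw [abs_le]; constructor <;> linarith [ht.1, ht.2]),
          abs_of_nonneg ht.1]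
        show _ = b + t • (c - b)
        rw [hw, hm, he]; module

end Pool.Agent.Lib_helper11.PLM
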