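import Pool.Agent.Lib_helper11.PLM.F.WDefs
import Pool.Agent.Lib_helper11.PLM.F.SHR


open Set Filter Topology
open scoped Manifold

namespace Pool.Agent.Lib_helper11.PLM

/-- the staircase pieces -/
noncomputable def exp_a (o sp ρ S : ℝ) (k : ℤ) (t : ℝ) : ℝ :=
  min ((1 - ρ) * (o + k * sp) + ρ * t) ((1 - S) * (o + k * sp - sp / 2) + S * t)

theorem exp_a_pll {n : ℕ} (j : Fin n) (o sp ρ S : ℝ) (k : ℤ) :
    PLL (fun x : E n => exp_a o sp ρ S k (x j)) :=
  ((PLL.const _).add ((PLL.coord j).const_mul ρ)).min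
    ((PLL.const _).add ((PLL.coord j).const_mul S))

theorem exp_a_slope (o sp ρ S : ℝ) (hρS : ρ ≤ S) (k : ℤ) (t t' : ℝ) (h : t ≤ t') :
    exp_a o sp ρ S k t + ρ * (t' - t) ≤ exp_a o sp ρ S k t' := by
  unfold exp_a
  refine le_min ?_ ?_
  · have := min_le_left ((1 - ρ) * (o + k * sp) + ρ * t) ((1 - S) * (o + k * sp - sp / 2) + S * t)
    nlinarith
  · have := min_le_right ((1 - ρ) * (o + k * sp) + ρ * t) ((1 - S) * (o + k * sp - sp / 2) + S * t)
    nlinarith

theorem exp_stair {n : ℕ} (j : Fin n) (o sp ρ S : ℝ) (hρS : ρ ≤ S) (s : Finset ℤ)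
    (hs : s.Nonempty) :
    ∃ w : ℝ → ℝ, PLL (fun x : E n => w (x j)) ∧
      (∀ t t', t ≤ t' → w t + ρ * (t' - t) ≤ w t') ∧
      (∀ k ∈ s, ∀ t, exp_a o sp ρ S k t ≤ w t) ∧ ∀ t, ∃ k ∈ s, w t = exp_a o sp ρ S k t := by
  induction hs using Finset.Nonempty.cons_induction with
  | singleton k =>
    refine ⟨exp_a o sp ρ S k, exp_a_pll j o sp ρ S k, exp_a_slope o sp ρ S hρS k, ?_, ?_⟩
    · intro k' hk' t
      rw [Finset.mem_singleton] at hk'
      rw [hk']
    · intro t
      exact ⟨k, Finset.mem_singleton_self k, rfl⟩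
  | cons k s hk hs ih =>
    obtain ⟨w, h1, h2, h3, h4⟩ := ih
    refine ⟨fun t => max (exp_a o sp ρ S k t) (w t), (exp_a_pll j o sp ρ S k).max h1, ?_, ?_, ?_⟩
    · intro t t' htt
      have e1 := exp_a_slope o sp ρ S hρS k t t' htt
      have e2 := h2 t t' htt
      show max (exp_a o sp ρ S k t) (w t) + ρ * (t' - t) ≤ max (exp_a o sp ρ S k t') (w t')
      rcases le_total (exp_a o sp ρ S k t) (w t) with h | h
      · rw [max_eq_right h]
        exact e2.trans (le_max_right _ _)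
      · rw [max_eq_left h]
        exact e1.trans (le_max_left _ _)
    · intro k' hk' t
      rcases Finset.mem_cons.1 hk' with h | h
      · rw [h]; exact le_max_left _ _
      · exact (h3 k' h t).trans (le_max_right _ _)
    · intro t
      rcases max_choice (exp_a o sp ρ S k t) (w t) with h | h
      · exact ⟨k, Finset.mem_cons_self k s, h⟩
      · obtain ⟨k', hk', e⟩ := h4 t
        exact ⟨k', Finset.mem_cons_of_mem hk', h.trans e⟩

/-- the value of the staircase in a cell -/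
theorem exp_cell (o sp ρ S η κ : ℝ) (h0 : 0 < sp) (hκ : 0 < κ) (hκ' : κ < sp / 2)
    (hρ0 : 0 < ρ) (hρ1 : ρ ≤ 1) (hρη : ρ * sp ≤ η) (hS : S * κ = sp / 2) (s : Finset ℤ)
    (w : ℝ → ℝ) (h3 : ∀ k ∈ s, ∀ t, exp_a o sp ρ S k t ≤ w t)
    (h4 : ∀ t, ∃ k ∈ s, w t = exp_a o sp ρ S k t) (k : ℤ) (hk : k ∈ s) (t : ℝ)
    (ht : |t - (o + k * sp)| ≤ sp / 2 - κ) : |w t - (o + k * sp)| ≤ η / 2 := by
  obtain ⟨ht1, ht2⟩ := abs_le.1 ht
  have hS1 : 1 < S := by
    by_contra hc
    push Not at hc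
    nlinarith
  refine abs_le.2 ⟨?_, ?_⟩
  · have h5 := h3 k hk t
    have h6 : (o + k * sp) - η / 2 ≤ exp_a o sp ρ S k t := by
      unfold exp_a
      refine le_min ?_ ?_
      · nlinarith
      · nlinarith
    linarith
  · obtain ⟨k', hk', e⟩ := h4 t
    rw [e]
    unfold exp_a
    rcases le_or_gt k' k with h | h
    · have h7 : (k' : ℝ) ≤ k := by exact_mod_cast h
      have h8 := min_le_left ((1 - ρ) * (o + k' * sp) + ρ * t)
        ((1 - S) * (o + k' * sp - sp / 2) + S * t)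
      have h9 : (k' : ℝ) * sp ≤ k * sp := mul_le_mul_of_nonneg_right h7 h0.le
      have h10 : (1 - ρ) * (o + k' * sp) ≤ (1 - ρ) * (o + k * sp) :=
        mul_le_mul_of_nonneg_left (by linarith) (by linarith)
      nlinarith
    · have h7 : (k : ℝ) + 1 ≤ k' := by exact_mod_cast h
      have h8 := min_le_right ((1 - ρ) * (o + k' * sp) + ρ * t)
        ((1 - S) * (o + k' * sp - sp / 2) + S * t)
      have h9 : ((k : ℝ) + 1) * sp ≤ k' * sp := mul_le_mul_of_nonneg_right h7 h0.le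
      have h10 : (S - 1) * (o + k * sp + sp / 2) ≤ (S - 1) * (o + k' * sp - sp / 2) :=
        mul_le_mul_of_nonneg_left (by linarith) (by linarith)
      nlinarith

theorem exp_abs_le_nu {n : ℕ} (i j : Fin n) (hj : j ≠ i) (x : E n) : |x j| ≤ nu i x := by
  have := norm_le_pi_norm (Function.update x i 0) j
  rw [Function.update_of_ne hj] at this
  simpa [nu] using this

theorem exp_norm_le {n : ℕ} (x : E n) (b : ℝ) (hb : 0 ≤ b) (h : ∀ k, |x k| ≤ b) : ‖x‖ ≤ b :=
  (pi_norm_le_iff_of_nonneg hb).2 (fun k => by simpa using h k)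

theorem exp_norm_ee {n : ℕ} (j : Fin n) : ‖(ee j : E n)‖ = 1 := by
  unfold ee
  rw [Pi.norm_single]
  simp

/-- cutoff -/
noncomputable def exp_M {n : ℕ} (sp : ℝ) (x : E n) : ℝ :=
  min sp ((1 / 2) * max 0 (99 / 10 - ‖x‖))

theorem exp_M_pll {n : ℕ} (sp : ℝ) : PLL (fun x : E n => exp_M sp x) := by
  have h1 : PLL (fun x : E n => ‖x‖) := by
    simpa using PLL.norm_linear (LinearMap.id : E n →ₗ[ℝ] E n) 0
  exact (PLL.const sp).min (((PLL.const 0).max ((PLL.const (99/10)).sub h1)).const_mul (1/2))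

theorem exp_M_lip {n : ℕ} (sp : ℝ) (x y : E n) (t : ℝ) (h : ‖x - y‖ ≤ t) :
    exp_M sp x ≤ exp_M sp y + (1 / 2) * t := by
  have ht : 0 ≤ t := (norm_nonneg _).trans h
  have h1 : ‖y‖ ≤ ‖x‖ + t := by
    have := norm_sub_norm_le y x
    rw [norm_sub_rev] at this
    linarith
  unfold exp_M
  rw [← sub_le_iff_le_add]
  refine le_min ?_ ?_
  · have := min_le_left sp ((1 / 2) * max 0 (99 / 10 - ‖x‖))
    linarith
  · have := min_le_right sp ((1 / 2) * max 0 (99 / 10 - ‖x‖))
    have h2 : max 0 (99 / 10 - ‖x‖) ≤ max 0 (99 / 10 - ‖y‖) + t := by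
      refine max_le ?_ ?_
      · have := le_max_left 0 (99 / 10 - ‖y‖)
        linarith
      · have := le_max_right 0 (99 / 10 - ‖y‖)
        linarith
    linarith

theorem exp_M_zero {n : ℕ} (sp : ℝ) (h0 : 0 < sp) (x : E n) (hx : 99 / 10 ≤ ‖x‖) :
    exp_M sp x = 0 := by
  unfold exp_M
  rw [max_eq_left (by linarith), mul_zero, min_eq_right h0.le]

theorem exp_M_nonneg {n : ℕ} (sp : ℝ) (h0 : 0 < sp) (x : E n) : 0 ≤ exp_M sp x := by
  unfold exp_M
  exact le_min h0.le (mul_nonneg (by norm_num) (le_max_left _ _))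

theorem exp_M_le {n : ℕ} (sp : ℝ) (x : E n) : exp_M sp x ≤ sp := by
  unfold exp_M
  exact min_le_left _ _

theorem exp_M_in {n : ℕ} (sp : ℝ) (h1 : sp ≤ 1 / 4) (x : E n) (hx : ‖x‖ ≤ 9) :
    exp_M sp x = sp := by
  unfold exp_M
  refine min_eq_left ?_
  have := le_max_right 0 (99 / 10 - ‖x‖)
  linarith

/-- one coordinate -/
theorem exp_one {n : ℕ} (j : Fin n) (sp ρ : ℝ) (h0 : 0 < sp) (hρ0 : 0 < ρ)
    (w : ℝ → ℝ) (hw : PLL (fun x : E n => w (x j)))
    (hsl : ∀ t t', t ≤ t' → w t + ρ * (t' - t) ≤ w t') :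
    ∃ h : HC n 10, ∀ x, (h : E n ≃ₜ E n) x =
      x + (max (-(exp_M sp x)) (min (w (x j) - x j) (exp_M sp x))) • ee j := by
  refine exists_shear (fun x : E n => max (-(exp_M sp x)) (min (w (x j) - x j) (exp_M sp x)))
    (ee j) ?_ (max (1 - ρ) (1 / 2)) (max_lt (by linarith) (by norm_num)) ?_ ?_
  · exact ((exp_M_pll sp).neg).max ((hw.sub (PLL.coord j)).min (exp_M_pll sp))
  · intro x t ht
    have hK1 : (1 - ρ) * t ≤ (max (1 - ρ) (1 / 2)) * t :=
      mul_le_mul_of_nonneg_right (le_max_left _ _) ht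
    have hK2 : (1 / 2) * t ≤ (max (1 - ρ) (1 / 2)) * t :=
      mul_le_mul_of_nonneg_right (le_max_right _ _) ht
    have hj : (x + t • (ee j : E n)) j = x j + t := by
      simp [ee]
    have hn : ‖(x + t • (ee j : E n)) - x‖ ≤ t := by
      rw [add_sub_cancel_left, norm_smul, exp_norm_ee, mul_one, Real.norm_eq_abs, abs_of_nonneg ht]
    have hn' : ‖x - (x + t • (ee j : E n))‖ ≤ t := by rw [norm_sub_rev]; exact hn
    have m1 := exp_M_lip sp _ _ t hn
    have m2 := exp_M_lip sp _ _ t hn'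
    have m3 := hsl (x j) (x j + t) (by linarith)
    show max (-(exp_M sp x)) (min (w (x j) - x j) (exp_M sp x)) - (max (1 - ρ) (1 / 2)) * t ≤
      max (-(exp_M sp (x + t • ee j))) (min (w ((x + t • (ee j : E n)) j) - (x + t • (ee j : E n)) j)
        (exp_M sp (x + t • ee j)))
    rw [hj]
    set K := max (1 - ρ) (1 / 2) with hK
    rw [sub_le_iff_le_add]
    refine max_le ?_ ?_
    · have := le_max_left (-(exp_M sp (x + t • ee j))) (min (w (x j + t) - (x j + t))
        (exp_M sp (x + t • ee j)))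
      linarith
    · have h5 := le_max_right (-(exp_M sp (x + t • ee j))) (min (w (x j + t) - (x j + t))
        (exp_M sp (x + t • ee j)))
      have h6 : min (w (x j) - x j) (exp_M sp x) - K * t ≤ min (w (x j + t) - (x j + t))
        (exp_M sp (x + t • ee j)) := by
        refine le_min ?_ ?_
        · have := min_le_left (w (x j) - x j) (exp_M sp x)
          linarith
        · have := min_le_right (w (x j) - x j) (exp_M sp x)
          linarith
      linarith
  · intro x hx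
    have h5 := exp_M_zero sp h0 x (by linarith)
    show max (-(exp_M sp x)) (min (w (x j) - x j) (exp_M sp x)) = 0
    rw [h5, neg_zero]
    exact max_eq_left (min_le_right _ _)

/-- the product over a set of coordinates -/
theorem exp_prod {n : ℕ} (i : Fin n) (sp ρ : ℝ) (h0 : 0 < sp) (h1 : sp ≤ 1 / 4) (hρ0 : 0 < ρ)
    (w : Fin n → ℝ → ℝ) (hw : ∀ j, PLL (fun x : E n => w j (x j)))
    (hsl : ∀ j, ∀ t t', t ≤ t' → w j t + ρ * (t' - t) ≤ w j t') (J : Finset (Fin n)) (hJ : i ∉ J) :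
    ∃ q : HC n 10, (∀ x k, |(q : E n ≃ₜ E n) x k - x k| ≤ sp) ∧
      (∀ x k, k ∉ J → (q : E n ≃ₜ E n) x k = x k) ∧
      (∀ x : E n, |x i| ≤ 9 → (∀ k, k ≠ i → |x k| ≤ 1) → ∀ j ∈ J,
        (q : E n ≃ₜ E n) x j = x j + max (-sp) (min (w j (x j) - x j) sp)) := by
  induction J using Finset.induction_on with
  | empty =>
    refine ⟨1, ?_, ?_, ?_⟩
    · intro x k
      have : ((1 : HC n 10) : E n ≃ₜ E n) x = x := rfl
      rw [this, sub_self, abs_zero]
      exact h0.le
    · intro x k _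
      rfl
    · intro x _ _ j hj
      simp at hj
  | insert j J hj ih =>
    have hiJ : i ∉ J := fun h => hJ (Finset.mem_insert_of_mem h)
    have hji : j ≠ i := fun h => hJ (h ▸ Finset.mem_insert_self j J)
    obtain ⟨q, q1, q2, q3⟩ := ih hiJ
    obtain ⟨h, hh⟩ := exp_one j sp ρ h0 hρ0 (w j) (hw j) (hsl j)
    have hval : ∀ x, ((h * q : HC n 10) : E n ≃ₜ E n) x = (h : E n ≃ₜ E n) ((q : E n ≃ₜ E n) x) :=
      fun x => rfl
    have hk : ∀ x k, k ≠ j → ((h * q : HC n 10) : E n ≃ₜ E n) x k = (q : E n ≃ₜ E n) x k := by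
      intro x k hkj
      rw [hval, hh]
      simp [ee, hkj]
    have hjv : ∀ x, ((h * q : HC n 10) : E n ≃ₜ E n) x j = x j +
        max (-(exp_M sp ((q : E n ≃ₜ E n) x))) (min (w j (x j) - x j)
          (exp_M sp ((q : E n ≃ₜ E n) x))) := by
      intro x
      rw [hval, hh]
      have hqj := q2 x j hj
      simp [ee, hqj]
    refine ⟨h * q, ?_, ?_, ?_⟩
    · intro x k
      by_cases hkj : k = j
      · rw [hkj, hjv, add_sub_cancel_left]
        have m1 := exp_M_nonneg sp h0 ((q : E n ≃ₜ E n) x)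
        have m2 := exp_M_le sp ((q : E n ≃ₜ E n) x)
        refine abs_le.2 ⟨?_, ?_⟩
        · exact (by linarith : -sp ≤ -(exp_M sp ((q : E n ≃ₜ E n) x))).trans (le_max_left _ _)
        · exact max_le (by linarith) ((min_le_right _ _).trans m2)
      · rw [hk x k hkj]
        exact q1 x k
    · intro x k hkJ
      have hkj : k ≠ j := fun e => hkJ (e ▸ Finset.mem_insert_self j J)
      rw [hk x k hkj]
      exact q2 x k (fun e => hkJ (Finset.mem_insert_of_mem e))
    · intro x hxi hxk l hl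
      have hnorm : ‖(q : E n ≃ₜ E n) x‖ ≤ 9 := by
        refine exp_norm_le _ _ (by norm_num) (fun k => ?_)
        by_cases hki : k = i
        · rw [hki, q2 x i hiJ]
          exact hxi
        · have e1 := q1 x k
          have e2 := hxk k hki
          have e3 := abs_sub_abs_le_abs_sub ((q : E n ≃ₜ E n) x k) (x k)
          linarith
      have hM := exp_M_in sp h1 _ hnorm
      by_cases hlj : l = j
      · rw [hlj, hjv, hM]
      · rw [hk x l hlj]
        exact q3 x hxi hxk l ((Finset.mem_insert.1 hl).resolve_left hlj)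

theorem exists_expand {n : ℕ} (i : Fin n) (sp : ℝ) (h0 : 0 < sp) (h1 : sp ≤ 1 / 4) (o : E n)
    (ho : ∀ j, |o j| ≤ sp) (η : ℝ) (hη : 0 < η) (κ : ℝ) (hκ : 0 < κ) (hκ' : κ < sp / 2) :
    ∃ e : HC n 10, (∀ x, ‖(e : E n ≃ₜ E n) x - x‖ ≤ sp) ∧
      (∀ x : E n, |x i| ≤ 9 → nu i x ≤ 1 →
        ((e⁻¹ : HC n 10) : E n ≃ₜ E n) x i = x i ∧
        (∀ t : ℝ, |x i + t| ≤ 9 →
          (e : E n ≃ₜ E n) (((e⁻¹ : HC n 10) : E n ≃ₜ E n) x + t • ee i) = x + t • ee i) ∧
        ∀ j, j ≠ i → ∀ k : ℤ, |x j - (o j + k * sp)| ≤ sp / 2 - κ →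
          |((e⁻¹ : HC n 10) : E n ≃ₜ E n) x j - (o j + k * sp)| ≤ η / 2) := by
  classical
  -- constants
  set η' := min η sp with hη'
  have hη'0 : 0 < η' := lt_min hη h0
  have hη'η : η' ≤ η := min_le_left _ _
  have hη's : η' ≤ sp := min_le_right _ _
  set ρ := η' / sp with hρ
  have hρ0 : 0 < ρ := div_pos hη'0 h0
  have hρ1 : ρ ≤ 1 := by rw [hρ, div_le_one h0]; exact hη's
  have hρsp : ρ * sp ≤ η' := by rw [hρ, div_mul_cancel₀ _ h0.ne']
  set S := (sp / 2) / κ with hSd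
  have hS : S * κ = sp / 2 := by rw [hSd, div_mul_cancel₀ _ hκ.ne']
  have hS1 : 1 < S := by
    rw [hSd, lt_div_iff₀ hκ]
    linarith
  obtain ⟨K0, hK0⟩ := exists_nat_ge (2 / sp)
  have hs : (Finset.Icc (-(K0 : ℤ)) K0).Nonempty := ⟨0, by simp⟩
  choose w w1 w2 w3 w4 using fun j : Fin n =>
    exp_stair j (o j) sp ρ S (by linarith) (Finset.Icc (-(K0 : ℤ)) K0) hs
  obtain ⟨q, q1, q2, q3⟩ := exp_prod i sp ρ h0 h1 hρ0 w w1 w2 (Finset.univ.erase i)
    (Finset.notMem_erase i _)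
  refine ⟨q⁻¹, ?_, ?_⟩
  · intro x
    refine exp_norm_le _ _ h0.le (fun k => ?_)
    have e1 := q1 (((q⁻¹ : HC n 10) : E n ≃ₜ E n) x) k
    have e2 : (q : E n ≃ₜ E n) (((q⁻¹ : HC n 10) : E n ≃ₜ E n) x) = x :=
      (q : E n ≃ₜ E n).apply_symm_apply x
    rw [e2, abs_sub_comm] at e1
    exact e1
  · intro x hxi hnu
    rw [inv_inv]
    have hxk : ∀ k, k ≠ i → |x k| ≤ 1 := fun k hk => (exp_abs_le_nu i k hk x).trans hnu
    refine ⟨q2 x i (Finset.notMem_erase i _), ?_, ?_⟩
    · intro t ht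
      have hkey : (q : E n ≃ₜ E n) (x + t • ee i) = (q : E n ≃ₜ E n) x + t • ee i := by
        have hyi : (x + t • (ee i : E n)) i = x i + t := by simp [ee]
        have hyk : ∀ k, k ≠ i → (x + t • (ee i : E n)) k = x k := by
          intro k hk
          simp [ee, hk]
        funext k
        by_cases hki : k = i
        · rw [hki, q2 _ i (Finset.notMem_erase i _)]
          show _ = (q : E n ≃ₜ E n) x i + (t • (ee i : E n)) i
          rw [q2 x i (Finset.notMem_erase i _)]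
          rfl
        · have hkm : k ∈ Finset.univ.erase i := Finset.mem_erase.2 ⟨hki, Finset.mem_univ k⟩
          rw [q3 _ (by rw [hyi]; exact ht) (fun l hl => by rw [hyk l hl]; exact hxk l hl) k hkm,
            hyk k hki]
          show _ = (q : E n ≃ₜ E n) x k + (t • (ee i : E n)) k
          rw [q3 x hxi hxk k hkm]
          simp [ee, hki]
      rw [← hkey]
      exact (q : E n ≃ₜ E n).symm_apply_apply _
    · intro j hji k hk
      have hjm : j ∈ Finset.univ.erase i := Finset.mem_erase.2 ⟨hji, Finset.mem_univ j⟩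
      rw [q3 x hxi hxk j hjm]
      have hkr : |(k : ℝ)| ≤ K0 := by
        have e1 : |(k : ℝ) * sp| ≤ 2 := by
          have e2 : (k : ℝ) * sp = x j - o j - (x j - (o j + k * sp)) := by ring
          rw [e2]
          have e3 := abs_sub (x j - o j) (x j - (o j + k * sp))
          have e4 := abs_sub (x j) (o j)
          have e5 := ho j
          have e6 := hxk j hji
          linarith
        rw [abs_mul, abs_of_pos h0] at e1
        have : |(k : ℝ)| ≤ 2 / sp := by rw [le_div_iff₀ h0]; exact e1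
        exact this.trans hK0
      have hkm : k ∈ Finset.Icc (-(K0 : ℤ)) K0 := by
        rw [Finset.mem_Icc]
        obtain ⟨e1, e2⟩ := abs_le.1 hkr
        exact ⟨by exact_mod_cast e1, by exact_mod_cast e2⟩
      have hc := exp_cell (o j) sp ρ S η' κ h0 hκ hκ' hρ0 hρ1 hρsp hS _ (w j) (w3 j) (w4 j) k hkm
        (x j) hk
      have hd : |w j (x j) - x j| ≤ sp := by
        have e1 : w j (x j) - x j = (w j (x j) - (o j + k * sp)) - (x j - (o j + k * sp)) := by ring
        rw [e1]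
        have e2 := abs_sub (w j (x j) - (o j + k * sp)) (x j - (o j + k * sp))
        linarith
      obtain ⟨d1, d2⟩ := abs_le.1 hd
      rw [min_eq_left d2, max_eq_right d1, add_sub_cancel]
      exact hc.trans (by linarith)

end Pool.Agent.Lib_helper11.PLM
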