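import Pool.Agent.Lib_helper11.PLM.F.WDefs


open Set Filter Topology
open scoped Manifold

namespace Pool.Agent.Lib_helper11.PLM

theorem exp2_aux {X : Type*} [TopologicalSpace X] (f : ℝ → X) (hf : Continuous f) (A B : Set X)
    (hA : IsClosed A) (hB : IsClosed B) (I : Set ℝ) (hI : IsPreconnected I)
    (hcov : ∀ τ ∈ I, f τ ∈ A ∨ f τ ∈ B) (hne : ∀ τ ∈ I, ¬ (f τ ∈ A ∧ f τ ∈ B))
    (τ0 : ℝ) (h0 : τ0 ∈ I) (h0A : f τ0 ∈ A) : ∀ τ ∈ I, f τ ∈ A ∧ f τ ∉ B := by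
  have key : ∀ τ ∈ I, f τ ∉ B := by
    intro τ hτ hτB
    rw [isPreconnected_closed_iff] at hI
    obtain ⟨r, hrI, hrA, hrB⟩ := hI (f ⁻¹' A) (f ⁻¹' B) (hA.preimage hf) (hB.preimage hf)
      (fun x hx => hcov x hx) ⟨τ0, h0, h0A⟩ ⟨τ, hτ, hτB⟩
    exact hne r hrI ⟨hrA, hrB⟩
  intro τ hτ
  rcases hcov τ hτ with h | h
  · exact ⟨h, key τ hτ⟩
  · exact absurd h (key τ hτ)

theorem exp2_segment_closed {n : ℕ} (a b : E n) : IsClosed (segment ℝ a b) := by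
  rw [segment_eq_image_lineMap]
  exact (isCompact_Icc.image (by
    have : Continuous (fun t : ℝ => AffineMap.lineMap a b t) := AffineMap.lineMap_continuous
    exact this)).isClosed

theorem extract_params {n : ℕ} (ψ : E n ≃ₜ E n) (p0 p1 p2 p3 : E n) (P : Set (E n))
    (hP : IsClosed P) (h03 : p0 ≠ p3) (h01 : p0 ≠ p1) (h23 : p2 ≠ p3) (h12 : p1 ≠ p2)
    (h1P : p1 ∈ P) (h2P : p2 ∈ P)
    (hψ : ψ '' segment ℝ p0 p3 = segment ℝ p0 p1 ∪ P ∪ segment ℝ p2 p3)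
    (hp0 : ψ p0 = p0) (hp3 : ψ p3 = p3)
    (hd1 : segment ℝ p0 p1 ∩ P ⊆ {p1}) (hd2 : P ∩ segment ℝ p2 p3 ⊆ {p2})
    (hd3 : Disjoint (segment ℝ p0 p1) (segment ℝ p2 p3)) :
    ∃ s t : ℝ, 0 < s ∧ s < t ∧ t < 1 ∧
      (∀ τ ∈ Icc 0 s, ψ (AffineMap.lineMap p0 p3 τ) ∈ segment ℝ p0 p1) ∧
      (∀ τ ∈ Icc s t, ψ (AffineMap.lineMap p0 p3 τ) ∈ P) ∧
      (∀ τ ∈ Icc t 1, ψ (AffineMap.lineMap p0 p3 τ) ∈ segment ℝ p2 p3) := by
  set f : ℝ → E n := fun τ => ψ (AffineMap.lineMap p0 p3 τ) with hf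
  set S1 := segment ℝ p0 p1 with hS1
  set S3 := segment ℝ p2 p3 with hS3
  have hfc : Continuous f := ψ.continuous.comp AffineMap.lineMap_continuous
  have hinj : ∀ a b, f a = f b → a = b := by
    intro a b hab
    exact AffineMap.lineMap_injective ℝ h03 (ψ.injective hab)
  have hcl1 : IsClosed S1 := exp2_segment_closed p0 p1
  have hcl3 : IsClosed S3 := exp2_segment_closed p2 p3
  have himg : ∀ x ∈ S1 ∪ P ∪ S3, ∃ τ ∈ Icc (0 : ℝ) 1, f τ = x := by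
    intro x hx
    rw [← hψ, segment_eq_image_lineMap] at hx
    obtain ⟨y, ⟨τ, hτ, rfl⟩, rfl⟩ := hx
    exact ⟨τ, hτ, rfl⟩
  have hcov : ∀ τ ∈ Icc (0 : ℝ) 1, f τ ∈ S1 ∪ P ∪ S3 := by
    intro τ hτ
    rw [← hψ, segment_eq_image_lineMap]
    exact ⟨_, ⟨τ, hτ, rfl⟩, rfl⟩
  have hf0 : f 0 = p0 := by simp [hf, hp0]
  have hf1 : f 1 = p3 := by simp [hf, hp3]
  obtain ⟨s, hs, hfs⟩ := himg p1 (Or.inl (Or.inr h1P))
  obtain ⟨t, ht, hft⟩ := himg p2 (Or.inl (Or.inr h2P))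
  have hs0 : 0 < s := by
    rcases hs.1.eq_or_lt with h | h
    · exfalso
      rw [← h, hf0] at hfs
      exact h01 hfs
    · exact h
  have ht1 : t < 1 := by
    rcases ht.2.eq_or_lt with h | h
    · exfalso
      rw [h, hf1] at hft
      exact h23 hft.symm
    · exact h
  have hA1 : ∀ τ ∈ Icc (0 : ℝ) 1, τ ≠ s → ¬ (f τ ∈ S1 ∧ f τ ∈ P ∪ S3) := by
    rintro τ hτ hne ⟨h1, h2 | h2⟩
    · have := hd1 ⟨h1, h2⟩
      rw [mem_singleton_iff, ← hfs] at this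
      exact hne (hinj _ _ this)
    · exact Set.disjoint_left.1 hd3 h1 h2
  have hA3 : ∀ τ ∈ Icc (0 : ℝ) 1, τ ≠ t → ¬ (f τ ∈ S3 ∧ f τ ∈ S1 ∪ P) := by
    rintro τ hτ hne ⟨h1, h2 | h2⟩
    · exact Set.disjoint_left.1 hd3 h2 h1
    · have := hd2 ⟨h2, h1⟩
      rw [mem_singleton_iff, ← hft] at this
      exact hne (hinj _ _ this)
  -- the four intervals
  have e1 : ∀ τ ∈ Ico (0 : ℝ) s, f τ ∈ S1 ∧ f τ ∉ P ∪ S3 := by
    apply exp2_aux f hfc S1 (P ∪ S3) hcl1 (hP.union hcl3) _ isPreconnected_Ico _ _ 0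
      ⟨le_rfl, hs0⟩
    · rw [hf0]; exact left_mem_segment ℝ p0 p1
    · intro τ hτ
      rcases hcov τ ⟨hτ.1, hτ.2.le.trans hs.2⟩ with (h | h) | h
      · exact Or.inl h
      · exact Or.inr (Or.inl h)
      · exact Or.inr (Or.inr h)
    · intro τ hτ
      exact hA1 τ ⟨hτ.1, hτ.2.le.trans hs.2⟩ hτ.2.ne
  have e2 : ∀ τ ∈ Ico (0 : ℝ) t, f τ ∈ S1 ∪ P ∧ f τ ∉ S3 := by
    rcases ht.1.eq_or_lt with h | h
    · intro τ hτ
      exact absurd (hτ.1.trans_lt hτ.2) (by rw [← h]; exact lt_irrefl _)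
    apply exp2_aux f hfc (S1 ∪ P) S3 (hcl1.union hP) hcl3 _ isPreconnected_Ico _ _ 0
      ⟨le_rfl, h⟩
    · rw [hf0]; exact Or.inl (left_mem_segment ℝ p0 p1)
    · intro τ hτ
      exact hcov τ ⟨hτ.1, hτ.2.le.trans ht.2⟩
    · intro τ hτ h'
      exact hA3 τ ⟨hτ.1, hτ.2.le.trans ht.2⟩ hτ.2.ne ⟨h'.2, h'.1⟩
  have e3 : ∀ τ ∈ Ioc t 1, f τ ∈ S3 ∧ f τ ∉ S1 ∪ P := by
    apply exp2_aux f hfc S3 (S1 ∪ P) hcl3 (hcl1.union hP) _ isPreconnected_Ioc _ _ 1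
      ⟨ht1, le_rfl⟩
    · rw [hf1]; exact right_mem_segment ℝ p2 p3
    · intro τ hτ
      exact (hcov τ ⟨ht.1.trans hτ.1.le, hτ.2⟩).symm
    · intro τ hτ
      exact hA3 τ ⟨ht.1.trans hτ.1.le, hτ.2⟩ hτ.1.ne'
  have e4 : ∀ τ ∈ Ioc s 1, f τ ∈ P ∪ S3 ∧ f τ ∉ S1 := by
    rcases hs.2.eq_or_lt with h | h
    · intro τ hτ
      exact absurd (hτ.1.trans_le hτ.2) (by rw [← h]; exact lt_irrefl _)
    apply exp2_aux f hfc (P ∪ S3) S1 (hP.union hcl3) hcl1 _ isPreconnected_Ioc _ _ 1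
      ⟨h, le_rfl⟩
    · rw [hf1]; exact Or.inr (right_mem_segment ℝ p2 p3)
    · intro τ hτ
      rcases hcov τ ⟨hs.1.trans hτ.1.le, hτ.2⟩ with (h | h) | h
      · exact Or.inr h
      · exact Or.inl (Or.inl h)
      · exact Or.inl (Or.inr h)
    · intro τ hτ h'
      exact hA1 τ ⟨hs.1.trans hτ.1.le, hτ.2⟩ hτ.1.ne' ⟨h'.2, h'.1⟩
  have hst : s < t := by
    by_contra hcon
    have hts : t < s := by
      rcases (not_lt.1 hcon).eq_or_lt with h | h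
      · exfalso
        rw [h, hfs] at hft
        exact h12 hft
      · exact h
    have := (e1 t ⟨ht.1, hts⟩).2
    exact this (Or.inl (hft ▸ h2P))
  refine ⟨s, t, hs0, hst, ht1, ?_, ?_, ?_⟩
  · intro τ hτ
    rcases hτ.2.eq_or_lt with h | h
    · show f τ ∈ S1
      rw [h, hfs]; exact right_mem_segment ℝ p0 p1
    · exact (e1 τ ⟨hτ.1, h⟩).1
  · intro τ hτ
    show f τ ∈ P
    rcases hτ.1.eq_or_lt with h | h
    · rw [← h, hfs]; exact h1P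
    rcases hτ.2.eq_or_lt with h' | h'
    · rw [h', hft]; exact h2P
    have h1 := (e4 τ ⟨h, h'.le.trans ht.2⟩).1
    have h2 := (e2 τ ⟨hs.1.trans h.le, h'⟩).2
    rcases h1 with h1 | h1
    · exact h1
    · exact absurd h1 h2
  · intro τ hτ
    show f τ ∈ S3
    rcases hτ.1.eq_or_lt with h | h
    · rw [← h, hft]; exact left_mem_segment ℝ p2 p3
    · exact (e3 τ ⟨h, hτ.2⟩).1

end Pool.Agent.Lib_helper11.PLM
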