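import Pool.Agent.Lib_helper11.PLM.F.WDefs


/-! block EXT -/

open Set Filter Topology
open scoped Manifold

namespace Pool.Agent.Lib_helper11.PLM

theorem ext_mul {n : ℕ} {R : ℝ} (g h : HC n R) (x : E n) :
    ((g * h : HC n R) : E n ≃ₜ E n) x = (g : E n ≃ₜ E n) ((h : E n ≃ₜ E n) x) := rfl

theorem ext_one {n : ℕ} {R : ℝ} (x : E n) : ((1 : HC n R) : E n ≃ₜ E n) x = x := rfl

theorem ext_out {n : ℕ} {R : ℝ} (h : HC n R) {x : E n} (hx : R ≤ ‖x‖) :
    (h : E n ≃ₜ E n) x = x := h.2.2.2 x hx

theorem ext_in {n : ℕ} {R : ℝ} (h : HC n R) {x : E n} (hx : ‖x‖ < R) :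
    ‖(h : E n ≃ₜ E n) x‖ < R := by
  by_contra hcon
  push Not at hcon
  have h1 := ext_out h hcon
  have h2 : (h : E n ≃ₜ E n) x = x := (h : E n ≃ₜ E n).injective h1
  rw [h2] at hcon
  linarith

theorem ext_locPL_univ {n : ℕ} {R : ℝ} (h : HC n R) :
    LocPL ((h : E n ≃ₜ E n) : E n → E n) univ := by
  obtain ⟨hc, A, hA, hfA⟩ := h.2.1
  refine ⟨hc.continuousOn, fun x _ => ⟨univ, isOpen_univ, mem_univ x, A, hA, fun y _ => hfA y⟩⟩

section

variable {n : ℕ} {M : Type*} [TopologicalSpace M] [T2Space M] [ChartedSpace (E n) M]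
  [HasGroupoid M (plGroupoid n)]

open Classical in
/-- the extended map -/
noncomputable def extF (e : OpenPartialHomeomorph M (E n)) (h : HC n 10) (x : M) : M :=
  if x ∈ e.source then e.symm ((h : E n ≃ₜ E n) (e x)) else x

theorem extF_in (e : OpenPartialHomeomorph M (E n)) (h : HC n 10) {x : M} (hx : x ∈ e.source) :
    extF e h x = e.symm ((h : E n ≃ₜ E n) (e x)) := if_pos hx

theorem extF_out (e : OpenPartialHomeomorph M (E n)) (h : HC n 10) {x : M} (hx : x ∉ e.source) :
    extF e h x = x := if_neg hx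

theorem ext_target (e : OpenPartialHomeomorph M (E n)) (hb : Metric.closedBall 0 10 ⊆ e.target)
    (h : HC n 10) {y : E n} (hy : y ∈ e.target) : (h : E n ≃ₜ E n) y ∈ e.target := by
  by_cases h1 : 10 ≤ ‖y‖
  · rw [ext_out h h1]
    exact hy
  · push Not at h1
    apply hb
    rw [mem_closedBall_zero_iff]
    exact (ext_in h h1).le

theorem extF_source (e : OpenPartialHomeomorph M (E n)) (hb : Metric.closedBall 0 10 ⊆ e.target)
    (h : HC n 10) {x : M} (hx : x ∈ e.source) : extF e h x ∈ e.source := by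
  rw [extF_in e h hx]
  exact e.map_target (ext_target e hb h (e.map_source hx))

theorem extF_mul (e : OpenPartialHomeomorph M (E n)) (hb : Metric.closedBall 0 10 ⊆ e.target)
    (g h : HC n 10) (x : M) : extF e (g * h) x = extF e g (extF e h x) := by
  by_cases hx : x ∈ e.source
  · rw [extF_in e g (extF_source e hb h hx), extF_in e h hx, extF_in e _ hx,
      e.right_inv (ext_target e hb h (e.map_source hx))]
    rfl
  · rw [extF_out e h hx, extF_out e g hx, extF_out e _ hx]

theorem extF_one (e : OpenPartialHomeomorph M (E n)) (x : M) : extF e (1 : HC n 10) x = x := by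
  by_cases hx : x ∈ e.source
  · rw [extF_in e _ hx]
    exact e.left_inv hx
  · exact extF_out e _ hx

theorem extF_far (e : OpenPartialHomeomorph M (E n)) (h : HC n 10) {x : M}
    (hx : x ∉ e.symm '' Metric.closedBall 0 10) : extF e h x = x := by
  by_cases hs : x ∈ e.source
  · rw [extF_in e h hs, ext_out h, e.left_inv hs]
    by_contra hcon
    push Not at hcon
    exact hx ⟨e x, mem_closedBall_zero_iff.mpr hcon.le, e.left_inv hs⟩
  · exact extF_out e h hs

theorem ext_closed (e : OpenPartialHomeomorph M (E n)) (hb : Metric.closedBall 0 10 ⊆ e.target) :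
    IsClosed (e.symm '' Metric.closedBall (0 : E n) 10) :=
  ((isCompact_closedBall 0 10).image_of_continuousOn (e.continuousOn_symm.mono hb)).isClosed

theorem extF_cont (e : OpenPartialHomeomorph M (E n)) (hb : Metric.closedBall 0 10 ⊆ e.target)
    (h : HC n 10) : Continuous (extF e h) := by
  rw [continuous_iff_continuousAt]
  intro x
  by_cases hx : x ∈ e.source
  · have h1 : extF e h =ᶠ[𝓝 x] fun y => e.symm ((h : E n ≃ₜ E n) (e y)) := by
      filter_upwards [e.open_source.mem_nhds hx] with y hy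
      exact extF_in e h hy
    refine ContinuousAt.congr ?_ h1.symm
    have h2 : ContinuousAt e x := e.continuousAt hx
    have h3 : ContinuousAt (h : E n ≃ₜ E n) (e x) := (h : E n ≃ₜ E n).continuous.continuousAt
    have h4 : ContinuousAt e.symm ((h : E n ≃ₜ E n) (e x)) :=
      e.symm.continuousAt (ext_target e hb h (e.map_source hx))
    exact (ContinuousAt.comp (f := e) (g := fun y => e.symm ((h : E n ≃ₜ E n) y))
      (ContinuousAt.comp h4 h3) h2)
  · have hK : x ∉ e.symm '' Metric.closedBall (0 : E n) 10 := by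
      rintro ⟨y, hy, rfl⟩
      exact hx (e.map_target (hb hy))
    have h1 : extF e h =ᶠ[𝓝 x] fun y => y := by
      filter_upwards [(ext_closed e hb).isOpen_compl.mem_nhds hK] with y hy
      exact extF_far e h hy
    exact ContinuousAt.congr continuousAt_id h1.symm

/-- the extended homeomorphism -/
noncomputable def extH (e : OpenPartialHomeomorph M (E n))
    (hb : Metric.closedBall 0 10 ⊆ e.target) (h : HC n 10) : M ≃ₜ M where
  toFun := extF e h
  invFun := extF e h⁻¹
  left_inv := by
    intro x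
    rw [← extF_mul e hb, inv_mul_cancel, extF_one]
  right_inv := by
    intro x
    rw [← extF_mul e hb, mul_inv_cancel, extF_one]
  continuous_toFun := extF_cont e hb h
  continuous_invFun := extF_cont e hb h⁻¹

theorem ext_local (e : OpenPartialHomeomorph M (E n)) (he : e ∈ (plGroupoid n).maximalAtlas M)
    (hb : Metric.closedBall 0 10 ⊆ e.target) (h : HC n 10)
    {c c' : OpenPartialHomeomorph M (E n)} (hc : c ∈ atlas (E n) M) (hc' : c' ∈ atlas (E n) M) :
    LocPL (fun x => c' (extF e h (c.symm x))) {x | x ∈ c.target ∧ extF e h (c.symm x) ∈ c'.source} := by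
  have hcomp : ∀ {f g : E n → E n} {u v : Set (E n)}, LocPL f u → LocPL g v → IsOpen u →
      IsOpen v → IsOpen (u ∩ f ⁻¹' v) → LocPL (g ∘ f) (u ∩ f ⁻¹' v) :=
    fun hf hg hu hv huv => (plPregroupoid n).comp hf hg hu hv huv
  obtain ⟨h1, -⟩ := mem_maximalAtlas_iff.mp he c' hc'
  obtain ⟨-, h2⟩ := mem_maximalAtlas_iff.mp he c hc
  have h3 : c.symm ≫ₕ c' ∈ plGroupoid n := HasGroupoid.compatible hc hc'
  have g1 := (mem_groupoid_of_pregroupoid.mp h1).1
  have g2 := (mem_groupoid_of_pregroupoid.mp h2).1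
  have g3 := (mem_groupoid_of_pregroupoid.mp h3).1
  refine ⟨?_, ?_⟩
  · intro x hx
    have k1 : ContinuousAt c.symm x := c.symm.continuousAt hx.1
    have k2 : ContinuousAt (extF e h) (c.symm x) := (extF_cont e hb h).continuousAt
    have k3 : ContinuousAt c' (extF e h (c.symm x)) := c'.continuousAt hx.2
    exact (ContinuousAt.comp (f := c.symm) (g := fun y => c' (extF e h y))
      (ContinuousAt.comp k3 k2) k1).continuousWithinAt
  · rintro x ⟨hx1, hx2⟩
    by_cases hs : c.symm x ∈ e.source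
    · -- in the chart
      have o1 : IsOpen (c.symm ≫ₕ e).source := (c.symm ≫ₕ e).open_source
      have q1 : LocPL (fun y => (h : E n ≃ₜ E n) ((c.symm ≫ₕ e) y))
          ((c.symm ≫ₕ e).source ∩ (c.symm ≫ₕ e) ⁻¹' univ) :=
        hcomp g2 (ext_locPL_univ h) o1 isOpen_univ (by simpa using o1)
      rw [preimage_univ, inter_univ] at q1
      have o2 : IsOpen (e.symm ≫ₕ c').source := (e.symm ≫ₕ c').open_source
      have o3 : IsOpen ((c.symm ≫ₕ e).source ∩
          (fun y => (h : E n ≃ₜ E n) ((c.symm ≫ₕ e) y)) ⁻¹' (e.symm ≫ₕ c').source) :=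
        q1.1.isOpen_inter_preimage o1 o2
      have q2 : LocPL (fun y => (e.symm ≫ₕ c') ((h : E n ≃ₜ E n) ((c.symm ≫ₕ e) y)))
          ((c.symm ≫ₕ e).source ∩
            (fun y => (h : E n ≃ₜ E n) ((c.symm ≫ₕ e) y)) ⁻¹' (e.symm ≫ₕ c').source) :=
        hcomp q1 g1 o1 o2 o3
      have hval : extF e h (c.symm x) = e.symm ((h : E n ≃ₜ E n) (e (c.symm x))) :=
        extF_in e h hs
      have hxW : x ∈ ((c.symm ≫ₕ e).source ∩
          (fun y => (h : E n ≃ₜ E n) ((c.symm ≫ₕ e) y)) ⁻¹' (e.symm ≫ₕ c').source) := by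
        refine ⟨?_, ?_⟩
        · rw [OpenPartialHomeomorph.trans_source]
          exact ⟨hx1, hs⟩
        · change (h : E n ≃ₜ E n) (e (c.symm x)) ∈ (e.symm ≫ₕ c').source
          rw [OpenPartialHomeomorph.trans_source]
          refine ⟨ext_target e hb h (e.map_source hs), ?_⟩
          change e.symm ((h : E n ≃ₜ E n) (e (c.symm x))) ∈ c'.source
          rw [← hval]
          exact hx2
      obtain ⟨u, hu, hxu, A, hA, hfA⟩ := q2.2 x hxW
      refine ⟨_, o3.inter hu, ⟨hxW, hxu⟩, A, hA, ?_⟩
      rintro y ⟨-, hyW, hyu⟩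
      obtain ⟨a, ha, hya⟩ := hfA y ⟨hyW, hyu⟩
      refine ⟨a, ha, ?_⟩
      rw [← hya]
      have hys : c.symm y ∈ e.source := by
        have := hyW.1
        rw [OpenPartialHomeomorph.trans_source] at this
        exact this.2
      simp only
      rw [extF_in e h hys]
      rfl
    · -- outside the chart
      have hK : c.symm x ∉ e.symm '' Metric.closedBall (0 : E n) 10 := by
        rintro ⟨y, hy, hxy⟩
        exact hs (hxy ▸ e.map_target (hb hy))
      have hfar := extF_far e h hK
      have hxW : x ∈ (c.symm ≫ₕ c').source := by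
        rw [OpenPartialHomeomorph.trans_source]
        refine ⟨hx1, ?_⟩
        change c.symm x ∈ c'.source
        rw [← hfar]
        exact hx2
      have o4 : IsOpen (c.target ∩ c.symm ⁻¹' (e.symm '' Metric.closedBall (0 : E n) 10)ᶜ) :=
        c.isOpen_inter_preimage_symm (ext_closed e hb).isOpen_compl
      obtain ⟨u, hu, hxu, A, hA, hfA⟩ := g3.2 x hxW
      refine ⟨_, ((c.symm ≫ₕ c').open_source.inter o4).inter hu, ⟨⟨hxW, hx1, hK⟩, hxu⟩, A, hA, ?_⟩
      rintro y ⟨-, ⟨hyW, -, hyK⟩, hyu⟩
      obtain ⟨a, ha, hya⟩ := hfA y ⟨hyW, hyu⟩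
      refine ⟨a, ha, ?_⟩
      rw [← hya]
      simp only
      rw [extF_far e h hyK]
      rfl

theorem ext_mem (e : OpenPartialHomeomorph M (E n)) (he : e ∈ (plGroupoid n).maximalAtlas M)
    (hb : Metric.closedBall 0 10 ⊆ e.target) (h : HC n 10) : extH e hb h ∈ PLHomeo n M := by
  intro c hc c' hc'
  refine mem_groupoid_of_pregroupoid.mpr ⟨?_, ?_⟩
  · have h1 := ext_local e he hb h hc hc'
    have h2 : (c.symm ≫ₕ (extH e hb h).toOpenPartialHomeomorph ≫ₕ c').source =
        {x | x ∈ c.target ∧ extF e h (c.symm x) ∈ c'.source} := by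
      ext x
      simp only [OpenPartialHomeomorph.trans_source, mem_inter_iff, mem_preimage,
        Homeomorph.toOpenPartialHomeomorph_source, mem_univ, true_and, mem_setOf_eq]
      rfl
    change LocPL _ _
    rw [h2]
    exact h1
  · have h1 := ext_local e he hb h⁻¹ hc' hc
    have h2 : (c.symm ≫ₕ (extH e hb h).toOpenPartialHomeomorph ≫ₕ c').target =
        {x | x ∈ c'.target ∧ extF e h⁻¹ (c'.symm x) ∈ c.source} := by
      ext x
      simp only [OpenPartialHomeomorph.trans_target, mem_inter_iff, mem_preimage,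
        Homeomorph.toOpenPartialHomeomorph_target, mem_univ, mem_setOf_eq,
        OpenPartialHomeomorph.symm_target]
      constructor
      · rintro ⟨⟨h3, -⟩, h4⟩
        exact ⟨h3, h4⟩
      · rintro ⟨h3, h4⟩
        exact ⟨⟨h3, trivial⟩, h4⟩
    change LocPL _ _
    rw [h2]
    exact h1

/-- EXT -/
theorem exists_ext (e : OpenPartialHomeomorph M (E n))
    (he : e ∈ (plGroupoid n).maximalAtlas M)
    (hb : Metric.closedBall 0 10 ⊆ e.target) :
    ∃ φ : HC n 10 →* PLHomeo n M, Function.Injective φ ∧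
      (∀ h, ∀ x ∈ e.source, ((φ h : PLHomeo n M) : M ≃ₜ M) x = e.symm ((h : E n ≃ₜ E n) (e x))) ∧
      (∀ h, ∀ x, x ∉ e.source → ((φ h : PLHomeo n M) : M ≃ₜ M) x = x) := by
  refine ⟨⟨⟨fun h => ⟨extH e hb h, ext_mem e he hb h⟩, ?_⟩, ?_⟩, ?_, ?_, ?_⟩
  · apply Subtype.ext
    apply Homeomorph.ext
    intro x
    exact extF_one e x
  · intro g h
    apply Subtype.ext
    apply Homeomorph.ext
    intro x
    exact extF_mul e hb g h x
  · intro g h hgh
    have h1 : ∀ x, extF e g x = extF e h x := by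
      intro x
      have h2 := congrArg (fun f : PLHomeo n M => (f : M ≃ₜ M) x) hgh
      exact h2
    apply Subtype.ext
    apply Homeomorph.ext
    intro y
    by_cases hy : 10 ≤ ‖y‖
    · rw [ext_out g hy, ext_out h hy]
    · push Not at hy
      have hyt : y ∈ e.target := hb (mem_closedBall_zero_iff.mpr hy.le)
      have h3 := h1 (e.symm y)
      have hs := e.map_target hyt
      rw [extF_in e g hs, extF_in e h hs, e.right_inv hyt] at h3
      exact e.symm.injOn (ext_target e hb g hyt) (ext_target e hb h hyt) h3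
  · intro h x hx
    exact extF_in e h hx
  · intro h x hx
    exact extF_out e h hx

end

end Pool.Agent.Lib_helper11.PLM
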