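import Pool.Agent.Lib_helper11.PLM.F.WDefs


open Set Filter Topology
open scoped Manifold

namespace Pool.Agent.Lib_helper11.PLM

theorem gfl_aux {G : Type*} [Group G] {F : Filter G} (hF : GF G F) (m : ℕ) :
    ∀ N ∈ F, ∃ N' ∈ F, ∀ l : List G, l.length ≤ m → (∀ g ∈ l, g ∈ N') → l.prod ∈ N := by
  induction m with
  | zero =>
    intro N hN
    refine ⟨N, hN, fun l hl _ => ?_⟩
    have : l = [] := List.eq_nil_of_length_eq_zero (by omega)
    subst this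
    simpa using hF.one N hN
  | succ m ih =>
    intro N hN
    obtain ⟨N1, hN1, h1⟩ := hF.mul N hN
    obtain ⟨N2, hN2, h2⟩ := ih N1 hN1
    refine ⟨N1 ∩ N2, inter_mem hN1 hN2, ?_⟩
    rintro (_ | ⟨g, l⟩) hl hg
    · simpa using hF.one N hN
    · rw [List.prod_cons]
      exact h1 g (hg g (by simp)).1 _
        (h2 l (by simpa using hl) (fun x hx => (hg x (by simp [hx])).2))

theorem gf_list {G : Type*} [Group G] {F : Filter G} (hF : GF G F) (N : Set G) (hN : N ∈ F)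
    (m : ℕ) : ∃ N' ∈ F, N' ⊆ N ∧ (∀ x ∈ N', x⁻¹ ∈ N') ∧
      ∀ l : List G, l.length ≤ m → (∀ g ∈ l, g ∈ N') → l.prod ∈ N := by
  obtain ⟨N1, hN1, h1⟩ := gfl_aux hF m N hN
  obtain ⟨N3, hN3, h3⟩ := hF.inv (N1 ∩ N) (inter_mem hN1 hN)
  refine ⟨{x | x ∈ N1 ∩ N ∧ x⁻¹ ∈ N1 ∩ N}, ?_, ?_, ?_, ?_⟩
  · exact mem_of_superset (inter_mem (inter_mem hN1 hN) hN3) fun x hx => ⟨hx.1, h3 x hx.2⟩
  · intro x hx
    exact hx.1.2
  · intro x hx
    exact ⟨hx.2, by simpa using hx.1⟩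
  · intro l hl hg
    exact h1 l hl fun g hg' => (hg g hg').1.1

end Pool.Agent.Lib_helper11.PLM
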