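import Pool.Agent.Lib_helper11.PLM.F.WDefs
import Pool.Agent.Lib_helper11.PLM.F.GFL


/-! block FIN -/

open Set Filter Topology
open scoped Manifold

namespace Pool.Agent.Lib_helper11.PLM

theorem fin_coord {n : ℕ} (i j : Fin n) (hj : j ≠ i) (x : E n) : |x j| ≤ nu i x := by
  have h := norm_le_pi_norm (Function.update x i 0) j
  rw [Function.update_of_ne hj] at h
  exact h

theorem fin_nu {n : ℕ} (i : Fin n) (x : E n) (τ : ℝ) : nu i (x + τ • ee i) = nu i x := by
  unfold nu
  congr 1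
  funext j
  by_cases h : j = i
  · subst h
    simp
  · simp [h, ee]

theorem fin_other {n : ℕ} (i j : Fin n) (hj : j ≠ i) (x : E n) (τ : ℝ) :
    (x + τ • ee i) j = x j := by
  simp [ee, hj]

theorem fin_same {n : ℕ} (i : Fin n) (x : E n) (τ : ℝ) :
    (x + τ • ee i) i = x i + τ := by
  simp [ee]

theorem fin_frac (n : ℕ) (hn : 0 < n) (u : ℝ)
    (h : ∀ k : ℤ, 1 / 2 - 1 / (4 * (n : ℝ)) < |u - k|) :
    ∃ m : ℤ, |u - m - 1 / 2| < 1 / (4 * (n : ℝ)) := by
  refine ⟨⌊u⌋, ?_⟩
  have h1 := h ⌊u⌋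
  have h2 := h (⌊u⌋ + 1)
  have h3 := Int.floor_le u
  have h4 := Int.lt_floor_add_one u
  rw [abs_of_nonneg (by linarith)] at h1
  push_cast at h2
  rw [abs_of_nonpos (by linarith)] at h2
  rw [abs_lt]
  constructor <;> linarith

theorem fin_bad (n : ℕ) (hn : 0 < n) (u : ℝ) (r r' : ℕ) (hr : r < r') (hr' : r' < n)
    (h : ∀ k : ℤ, 1 / 2 - 1 / (4 * (n : ℝ)) < |u - r / n - k|)
    (h' : ∀ k : ℤ, 1 / 2 - 1 / (4 * (n : ℝ)) < |u - r' / n - k|) : False := by
  obtain ⟨m, hm⟩ := fin_frac n hn _ h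
  obtain ⟨m', hm'⟩ := fin_frac n hn _ h'
  have hn0 : (0 : ℝ) < n := by exact_mod_cast hn
  have h1 : |((r' : ℝ) - r) / n - (m - m')| < 1 / (2 * (n : ℝ)) := by
    have e1 : ((r' : ℝ) - r) / n - (m - m') =
        (u - r / n - m - 1 / 2) - (u - r' / n - m' - 1 / 2) := by ring
    rw [e1]
    refine (abs_sub _ _).trans_lt ?_
    have e2 : 1 / (2 * (n : ℝ)) = 1 / (4 * (n : ℝ)) + 1 / (4 * (n : ℝ)) := by
      field_simp
      norm_num
    rw [e2]
    exact add_lt_add hm hm'
  have h2 : |((r' : ℝ) - r) - n * (m - m')| < 1 / 2 := by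
    have e1 : ((r' : ℝ) - r) - n * (m - m') = n * (((r' : ℝ) - r) / n - (m - m')) := by
      field_simp
    rw [e1, abs_mul, abs_of_pos hn0]
    calc (n : ℝ) * |((r' : ℝ) - r) / n - (m - m')| < n * (1 / (2 * (n : ℝ))) :=
          mul_lt_mul_of_pos_left h1 hn0
      _ = 1 / 2 := by field_simp
  have h3 : |((r' : ℤ) - r) - n * (m - m')| < 1 := by
    have : ((|((r' : ℤ) - r) - n * (m - m')| : ℤ) : ℝ) < ((1 : ℤ) : ℝ) := by
      push_cast
      linarith
    exact_mod_cast this
  have h4 : ((r' : ℤ) - r) - n * (m - m') = 0 := Int.abs_lt_one_iff.mp h3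
  have h5 : ((r' : ℤ) - r) = n * (m - m') := by linarith
  have h6 : (0 : ℤ) < n * (m - m') := by rw [← h5]; omega
  have h7 : (n : ℤ) * (m - m') < n := by rw [← h5]; omega
  have hnz : (0 : ℤ) < n := by exact_mod_cast hn
  have h8 : 0 < m - m' := (mul_pos_iff_of_pos_left hnz).mp h6
  have h9 : m - m' < 1 := by
    by_contra hcon
    push Not at hcon
    have : (n : ℤ) * 1 ≤ n * (m - m') := mul_le_mul_of_nonneg_left hcon hnz.le
    omega
  omega

/-- goodness of the shift `r` -/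
def fin_good {n : ℕ} (i : Fin n) (sp : ℝ) (r : ℕ) (x : E n) : Prop :=
  ∀ j, j ≠ i → ∃ k : ℤ, |x j - (r * sp / n + k * sp)| ≤ sp / 2 - sp / (4 * n)

theorem fin_exists {n : ℕ} (i : Fin n) {sp : ℝ} (hsp : 0 < sp) (x : E n) :
    ∃ r : Fin n, fin_good i sp r x := by
  have hn : 0 < n := i.pos
  have hn0 : (0 : ℝ) < n := by exact_mod_cast hn
  by_contra hcon
  push Not at hcon
  have h1 : ∀ r : Fin n, ∃ j : {j : Fin n // j ≠ i}, ∀ k : ℤ,
      sp / 2 - sp / (4 * n) < |x j - (r * sp / n + k * sp)| := by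
    intro r
    have h2 := hcon r
    unfold fin_good at h2
    push Not at h2
    obtain ⟨j, hj, h3⟩ := h2
    exact ⟨⟨j, hj⟩, h3⟩
  choose J hJ using h1
  have hcard : Fintype.card {j : Fin n // j ≠ i} < Fintype.card (Fin n) :=
    Fintype.card_subtype_lt (x := i) (by simp)
  obtain ⟨r, r', hrr, he⟩ := Fintype.exists_ne_map_eq_of_card_lt J hcard
  have key : ∀ r : Fin n, ∀ k : ℤ,
      1 / 2 - 1 / (4 * (n : ℝ)) < |x (J r) / sp - (r : ℕ) / n - k| := by
    intro r k
    have h2 := hJ r k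
    have e1 : x (J r) / sp - (r : ℕ) / n - k = (x (J r) - ((r : ℕ) * sp / n + k * sp)) / sp := by
      field_simp
      ring
    rw [e1, abs_div, abs_of_pos hsp, lt_div_iff₀ hsp]
    have e2 : (1 / 2 - 1 / (4 * (n : ℝ))) * sp = sp / 2 - sp / (4 * n) := by
      field_simp
    rw [e2]
    exact h2
  rcases lt_or_gt_of_ne hrr with hlt | hlt
  · have k1 := key r
    have k2 := key r'
    rw [← he] at k2
    exact fin_bad n hn _ r r' hlt r'.isLt k1 k2
  · have k1 := key r'
    have k2 := key r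
    rw [he] at k2
    exact fin_bad n hn _ r' r hlt r.isLt k1 k2

theorem fin_good_add {n : ℕ} (i : Fin n) (sp : ℝ) (r : ℕ) (x : E n) (τ : ℝ)
    (h : fin_good i sp r x) : fin_good i sp r (x + τ • ee i) := by
  intro j hj
  obtain ⟨k, hk⟩ := h j hj
  refine ⟨k, ?_⟩
  rw [fin_other i j hj]
  exact hk

/-- FIN -/
theorem displace {n : ℕ} {F : Filter (HC n 10)} (hF : GF _ F) (i : Fin n) (a : ℝ)
    (ha : a = 2 ∨ a = -9) (hT : ManyTubes F i a) :
    ∃ U : Set (E n), IsOpen U ∧ U.Nonempty ∧ U ⊆ Metric.ball 0 10 ∧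
      ∀ N ∈ F, ∃ g ∈ N, Disjoint (((g : HC n 10) : E n ≃ₜ E n) '' U) U := by
  have hn : 0 < n := i.pos
  have hn0 : (0 : ℝ) < n := by exact_mod_cast hn
  have hci : Continuous (fun x : E n => x i) := continuous_apply i
  have hcn : Continuous (fun x : E n => nu i x) := by
    have := (PLL.nu i (0 : E n)).1.1
    simpa using this
  refine ⟨{x | a + 1 < x i ∧ x i < a + 2 ∧ nu i x < 1 / 2}, ?_, ?_, ?_, ?_⟩
  · exact (isOpen_lt continuous_const hci).inter
      ((isOpen_lt hci continuous_const).inter (isOpen_lt hcn continuous_const))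
  · refine ⟨(a + 3 / 2) • ee i, ?_⟩
    have h1 : ((a + 3 / 2) • (ee i : E n)) i = a + 3 / 2 := by simp [ee]
    have h2 : nu i ((a + 3 / 2) • (ee i : E n)) = 0 := by
      have := fin_nu i (0 : E n) (a + 3 / 2)
      rw [zero_add] at this
      rw [this]
      unfold nu
      simp
    refine ⟨?_, ?_, ?_⟩
    · rw [h1]; linarith
    · rw [h1]; linarith
    · rw [h2]; norm_num
  · rintro x ⟨h1, h2, h3⟩
    rw [mem_ball_zero_iff, pi_norm_lt_iff (by norm_num)]
    intro j
    rw [Real.norm_eq_abs]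
    by_cases hj : j = i
    · subst hj
      rw [abs_lt]
      rcases ha with rfl | rfl <;> constructor <;> linarith
    · have := fin_coord i j hj x
      linarith
  · intro N hN
    obtain ⟨N', hN', -, -, hprod⟩ := gf_list hF N hN n
    obtain ⟨sp, hsp, -, hs⟩ := hT N' hN'
    have ho : ∀ r : Fin n, ∀ j : Fin n, |(fun _ => (r : ℕ) * sp / n : E n) j| ≤ sp := by
      intro r j
      simp only
      have hr : ((r : ℕ) : ℝ) ≤ n := by exact_mod_cast r.isLt.le
      rw [abs_of_nonneg (by positivity), div_le_iff₀ hn0]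
      nlinarith
    choose s hsN hs1 hs2 using fun r : Fin n => hs (fun _ => (r : ℕ) * sp / n) (ho r)
    have key : ∀ l : List (Fin n), ∀ x : E n, a ≤ x i → x i ≤ a + 7 → nu i x ≤ 1 / 2 →
        ∃ τ : ℝ, 0 ≤ τ ∧ (((l.map s).prod : HC n 10) : E n ≃ₜ E n) x = x + τ • ee i ∧
          x i + τ ≤ a + 7 ∧
          (a + 1 ≤ x i → (∃ r ∈ l, fin_good i sp r x) → a + 6 ≤ x i + τ) := by
      intro l
      induction l with
      | nil =>
        intro x h1 h2 h3
        refine ⟨0, le_rfl, by simp, by linarith, ?_⟩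
        rintro _ ⟨r, hr, _⟩
        exact absurd hr List.not_mem_nil
      | cons r l ih =>
        intro x h1 h2 h3
        obtain ⟨τ, h4, h5, h6, h7⟩ := ih x h1 h2 h3
        set y := x + τ • ee i with hy
        have hyi : y i = x i + τ := fin_same i x τ
        have hyn : nu i y = nu i x := fin_nu i x τ
        obtain ⟨τ', h8, h9, h10⟩ := hs1 r y (by rw [hyi]; linarith) (by rw [hyi]; linarith)
          (by rw [hyn]; exact h3)
        refine ⟨τ + τ', by linarith, ?_, by rw [hyi] at h10; linarith, ?_⟩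
        · rw [List.map_cons, List.prod_cons]
          change (s r : E n ≃ₜ E n) ((((l.map s).prod : HC n 10) : E n ≃ₜ E n) x) = _
          rw [h5, h9, hy, add_smul, add_assoc]
        · rintro h11 ⟨r', hr', hg⟩
          rcases List.mem_cons.mp hr' with h | h
          · subst h
            have h12 := hs2 r' y (by rw [hyi]; linarith) (by rw [hyi]; linarith)
              (by rw [hyn]; exact h3) (fin_good_add i sp r' x τ hg)
            rw [h9, fin_same, hyi] at h12
            linarith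
          · have := h7 h11 ⟨r', h, hg⟩
            linarith
    refine ⟨((List.finRange n).map s).prod, ?_, ?_⟩
    · apply hprod
      · simp
      · intro g hg
        obtain ⟨r, _, rfl⟩ := List.mem_map.mp hg
        exact hsN r
    · rw [Set.disjoint_left]
      rintro y ⟨x, ⟨h1, h2, h3⟩, rfl⟩ ⟨_, h4, _⟩
      obtain ⟨τ, h5, h6, h7, h8⟩ := key (List.finRange n) x (by linarith) (by linarith) h3.le
      obtain ⟨r, hr⟩ := fin_exists i hsp x
      have h9 := h8 h1.le ⟨r, List.mem_finRange r, hr⟩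
      rw [h6, fin_same] at h4
      linarith

end Pool.Agent.Lib_helper11.PLM
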