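import Pool.Agent.Lib_helper11.PLM.F.WDefs


open Set Filter Topology
open scoped Manifold

namespace Pool.Agent.Lib_helper11.PLM

/-- the span of at most four points is not everything -/
theorem gen_span_ne_top {n : ℕ} (hn : 4 ≤ n) (p : ℕ → E n) (s : Finset ℕ) (hs : s.card ≤ 4) :
    affineSpan ℝ (p '' (s : Set ℕ)) ≠ ⊤ := by
  classical
  intro htop
  rcases Nat.eq_zero_or_pos s.card with h0 | h0
  · rw [Finset.card_eq_zero] at h0
    subst h0
    rw [Finset.coe_empty, image_empty, AffineSubspace.span_empty] at htop
    exact (AffineSubspace.bot_ne_top ℝ (E n) (E n)) htop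
  · have h1 := finrank_vectorSpan_image_finset_le ℝ p s (n := s.card - 1) (by omega)
    have h2 : vectorSpan ℝ (s.image p : Set (E n)) = ⊤ := by
      rw [Finset.coe_image, ← direction_affineSpan, htop, AffineSubspace.direction_top]
    rw [h2, finrank_top] at h1
    simp at h1
    omega

theorem gen_null {n : ℕ} (F : Finset (Finset ℕ)) (A : Finset ℕ → Set (E n))
    (h : ∀ s ∈ F, MeasureTheory.volume (A s) = 0) :
    MeasureTheory.volume (⋃ s ∈ F, A s) = 0 := by
  exact (MeasureTheory.measure_biUnion_null_iff F.countable_toSet).2 h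

theorem gen_aff_null {n : ℕ} (S : AffineSubspace ℝ (E n)) (h : S ≠ ⊤) :
    MeasureTheory.volume (S : Set (E n)) = 0 :=
  MeasureTheory.Measure.addHaar_affineSubspace _ S h

theorem gen_pick {n : ℕ} (hn : 4 ≤ n) (p : ℕ → E n) (T : Finset ℕ) (O : Set (E n))
    (hO : IsOpen O) (hne : O.Nonempty) :
    ∃ q ∈ O, ∀ s : Finset ℕ, s ⊆ T → s.card ≤ 4 → q ∉ affineSpan ℝ (p '' (s : Set ℕ)) := by
  classical
  have hnull := gen_null (T.powerset.filter (fun s => s.card ≤ 4))
    (fun s => (affineSpan ℝ (p '' ((s : Finset ℕ) : Set ℕ)) : Set (E n))) (fun s hs =>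
      gen_aff_null _ (gen_span_ne_top hn p s (Finset.mem_filter.1 hs).2))
  have hpos : 0 < MeasureTheory.volume O := hO.measure_pos _ hne
  by_contra hcon
  push Not at hcon
  have hsub : O ⊆ ⋃ s ∈ T.powerset.filter (fun s => s.card ≤ 4),
      (affineSpan ℝ (p '' ((s : Finset ℕ) : Set ℕ)) : Set (E n)) := by
    intro q hq
    obtain ⟨s, h1, h2, h3⟩ := hcon q hq
    rw [mem_iUnion₂]
    exact ⟨s, Finset.mem_filter.2 ⟨Finset.mem_powerset.2 h1, h2⟩, h3⟩
  have := MeasureTheory.measure_mono_null hsub hnull
  rw [this] at hpos
  exact lt_irrefl _ hpos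

theorem gen_step {n : ℕ} (p : ℕ → E n) (j : ℕ) (q : E n) (s : Finset ℕ)
    (hs : j ∈ s) (hind : AffineIndependent ℝ (fun k : (s.erase j : Finset ℕ) => p k))
    (hq : q ∉ affineSpan ℝ (p '' ((s.erase j : Finset ℕ) : Set ℕ))) :
    AffineIndependent ℝ (fun k : s => Function.update p j q k) := by
  classical
  apply AffineIndependent.affineIndependent_of_notMem_span (i := (⟨j, hs⟩ : s))
  · let e : {y : s // y ≠ ⟨j, hs⟩} ↪ (s.erase j : Finset ℕ) :=
      ⟨fun y => ⟨(y.1 : ℕ), Finset.mem_erase.2 ⟨fun h => y.2 (Subtype.ext h), y.1.2⟩⟩, by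
        intro a b hab
        have : (a.1 : ℕ) = (b.1 : ℕ) := congrArg (fun z : (s.erase j : Finset ℕ) => (z : ℕ)) hab
        exact Subtype.ext (Subtype.ext this)⟩
    have h2 := hind.comp_embedding e
    have hfun : (fun y : {y : s // y ≠ ⟨j, hs⟩} => Function.update p j q (y.1 : ℕ)) =
        (fun k : (s.erase j : Finset ℕ) => p k) ∘ e := by
      funext y
      have hy : (y.1 : ℕ) ≠ j := fun h => y.2 (Subtype.ext h)
      exact Function.update_of_ne hy _ _
    rw [hfun]
    exact h2
  · intro hmem
    apply hq
    have h1 : Function.update p j q ((⟨j, hs⟩ : s) : ℕ) = q := by simp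
    rw [h1] at hmem
    refine affineSpan_mono ℝ ?_ hmem
    rintro _ ⟨y, hy, rfl⟩
    have hy' : (y : ℕ) ≠ j := fun h => hy (Subtype.ext h)
    refine ⟨y, ?_, ?_⟩
    · exact Finset.mem_coe.2 (Finset.mem_erase.2 ⟨hy', y.2⟩)
    · exact (Function.update_of_ne hy' _ _).symm

theorem gen_congr {n : ℕ} (p p' : ℕ → E n) (s : Finset ℕ) (h : ∀ k ∈ s, p' k = p k)
    (hind : AffineIndependent ℝ (fun k : s => p k)) :
    AffineIndependent ℝ (fun k : s => p' k) := by
  have : (fun k : s => p' k) = (fun k : s => p k) := by
    funext k
    exact h k k.2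
  rw [this]
  exact hind

theorem exists_generic {n : ℕ} (hn : 4 ≤ n) (m : ℕ) (O : ℕ → Set (E n))
    (hO : ∀ k, IsOpen (O k))
    (hne : ∀ k, (O k).Nonempty) (p0 pm : E n) (h0 : p0 ≠ pm) (hm : 1 ≤ m) :
    ∃ p : ℕ → E n, p 0 = p0 ∧ p m = pm ∧ (∀ k, 0 < k → k < m → p k ∈ O k) ∧ GP p m := by
  classical
  have key : ∀ j, j + 1 ≤ m → ∃ p : ℕ → E n, p 0 = p0 ∧ p m = pm ∧
      (∀ k, 0 < k → k ≤ j → p k ∈ O k) ∧
      ∀ s : Finset ℕ, s.card ≤ 5 → (∀ k ∈ s, k ≤ j ∨ k = m) →
        AffineIndependent ℝ (fun k : s => p k) := by
    intro j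
    induction j with
    | zero =>
      intro _
      refine ⟨fun k => if k = 0 then p0 else pm, by simp, by simp; omega, ?_, ?_⟩
      · intro k hk hk'
        omega
      · intro s _ hs
        have hs' : ∀ k ∈ s, k = 0 ∨ k = m := by
          intro k hk
          rcases hs k hk with h | h
          · left; omega
          · right; exact h
        let e : s ↪ Fin 2 := ⟨fun k => if (k : ℕ) = 0 then 0 else 1, by
          intro a b hab
          simp only at hab
          apply Subtype.ext
          rcases hs' a a.2 with ha | ha <;> rcases hs' b b.2 with hb | hb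
          · rw [ha, hb]
          · rw [ha, hb] at hab
            simp at hab
            omega
          · rw [ha, hb] at hab
            simp at hab
            omega
          · rw [ha, hb]⟩
        have h2 := (affineIndependent_of_ne ℝ h0).comp_embedding e
        have hfun : (fun k : s => if (k : ℕ) = 0 then p0 else pm) = ![p0, pm] ∘ e := by
          funext k
          show (if (k : ℕ) = 0 then p0 else pm) = ![p0, pm] (if (k : ℕ) = 0 then 0 else 1)
          split_ifs <;> rfl
        rw [hfun]
        exact h2
    | succ j ih =>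
      intro hj
      obtain ⟨p, hp0, hpm, hpO, hpi⟩ := ih (by omega)
      obtain ⟨q, hqO, hq⟩ := gen_pick hn p (insert m (Finset.range (j + 1))) (O (j + 1))
        (hO _) (hne _)
      refine ⟨Function.update p (j + 1) q, ?_, ?_, ?_, ?_⟩
      · rw [Function.update_of_ne (by omega)]; exact hp0
      · rw [Function.update_of_ne (by omega)]; exact hpm
      · intro k hk hk'
        rcases Nat.lt_or_ge k (j + 1) with h | h
        · rw [Function.update_of_ne (by omega)]
          exact hpO k hk (by omega)
        · have : k = j + 1 := by omega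
          subst this
          rw [Function.update_self]
          exact hqO
      · intro s hs hs'
        by_cases hjs : j + 1 ∈ s
        · apply gen_step p (j + 1) q s hjs
          · apply hpi
            · exact (Finset.card_le_card (Finset.erase_subset _ _)).trans hs
            · intro k hk
              rw [Finset.mem_erase] at hk
              rcases hs' k hk.2 with h | h
              · left; omega
              · right; exact h
          · apply hq
            · intro k hk
              rw [Finset.mem_erase] at hk
              rw [Finset.mem_insert, Finset.mem_range]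
              rcases hs' k hk.2 with h | h
              · right; omega
              · left; exact h
            · rw [Finset.card_erase_of_mem hjs]
              omega
        · apply gen_congr p
          · intro k hk
            rw [Function.update_of_ne (fun h : k = j + 1 => hjs (h ▸ hk))]
          · apply hpi s hs
            intro k hk
            rcases hs' k hk with h | h
            · left
              have : k ≠ j + 1 := fun h : k = j + 1 => hjs (h ▸ hk)
              omega
            · right; exact h
  obtain ⟨p, hp0, hpm, hpO, hpi⟩ := key (m - 1) (by omega)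
  refine ⟨p, hp0, hpm, fun k hk hk' => hpO k hk (by omega), ?_⟩
  intro s hs hs'
  apply hpi s hs
  intro k hk
  have := hs' k hk
  omega

end Pool.Agent.Lib_helper11.PLM
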