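import Pool.Agent.Lib_helper11.PLM.F.WDefs


open Set Filter Topology
open scoped Manifold

namespace Pool.Agent.Lib_helper11.PLM

/-- the lattice point -/
def lat_pt (i : Fin 2) (x0 r Y : ℝ) (z : ℤ × ℤ) : E 2 :=
  fun j => if j = i then x0 + z.1 * r else Y + z.2 * r

/-- the lattice adjacency inside `V` and a strip -/
def lat_R (i : Fin 2) (x0 r Y lam : ℝ) (V : Set (E 2)) (z z' : ℤ × ℤ) : Prop :=
  (z.1 + z.2) % 2 = 0 ∧ (z'.1 + z'.2) % 2 = 0 ∧ |z'.1 - z.1| = 1 ∧ |z'.2 - z.2| = 1 ∧
    |(z.2 : ℝ) * r| < lam ∧ |(z'.2 : ℝ) * r| < lam ∧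
    segment ℝ (lat_pt i x0 r Y z) (lat_pt i x0 r Y z') ⊆ V

/-- a nearest lattice point -/
theorem lat_near (i : Fin 2) (x0 r Y : ℝ) (hr : 0 < r) (x : E 2) (i' : Fin 2)
    (hi' : ∀ j, j ≠ i → j = i') :
    ∃ z : ℤ × ℤ, (z.1 + z.2) % 2 = 0 ∧ ‖lat_pt i x0 r Y z - x‖ ≤ r ∧
      z.1 = ⌊(x i - x0) / r⌋ := by
  set l : ℤ := ⌊(x i - x0) / r⌋ with hl
  set g : ℤ := ⌊(x i' - Y) / r⌋ with hg
  have hl1 : (l : ℝ) * r ≤ x i - x0 := by
    rw [← le_div_iff₀ hr]; exact Int.floor_le _
  have hl2 : x i - x0 < (l + 1 : ℝ) * r := by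
    rw [← div_lt_iff₀ hr]; exact Int.lt_floor_add_one _
  have hg1 : (g : ℝ) * r ≤ x i' - Y := by
    rw [← le_div_iff₀ hr]; exact Int.floor_le _
  have hg2 : x i' - Y < (g + 1 : ℝ) * r := by
    rw [← div_lt_iff₀ hr]; exact Int.lt_floor_add_one _
  have key : ∀ h : ℤ, |(h : ℝ) * r - (x i' - Y)| ≤ r → ‖lat_pt i x0 r Y (l, h) - x‖ ≤ r := by
    intro h hh
    rw [pi_norm_le_iff_of_nonneg hr.le]
    intro j
    rw [Real.norm_eq_abs, Pi.sub_apply]
    unfold lat_pt
    by_cases hj : j = i
    · rw [if_pos hj, hj, abs_le]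
      constructor
      · simp only; nlinarith
      · simp only; nlinarith
    · rw [if_neg hj, hi' j hj]
      simp only
      rw [show Y + (h : ℝ) * r - x i' = (h : ℝ) * r - (x i' - Y) by ring]
      exact hh
  rcases Int.emod_two_eq_zero_or_one (l + g) with hp | hp
  · exact ⟨(l, g), hp, key g (by rw [abs_le]; constructor <;> nlinarith), rfl⟩
  · refine ⟨(l, g + 1), by simp only; omega, key (g + 1) (by
      push_cast
      rw [abs_le]; constructor <;> nlinarith), rfl⟩

/-- one step between nearby lattice points -/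
theorem lat_step (i : Fin 2) (x0 r Y lam lam' ε : ℝ) (hr : 0 < r) (V : Set (E 2)) (i' : Fin 2)
    (hi : i' ≠ i) (x x' : E 2) (hxY : |x i' - Y| ≤ lam) (hball : Metric.ball x ε ⊆ V)
    (hε : 3 * r < ε) (hlam : lam + 3 * r < lam') (hxx : ‖x - x'‖ < r) (z z' : ℤ × ℤ)
    (hz : (z.1 + z.2) % 2 = 0) (hz' : (z'.1 + z'.2) % 2 = 0)
    (hzx : ‖lat_pt i x0 r Y z - x‖ ≤ r) (hzx' : ‖lat_pt i x0 r Y z' - x'‖ ≤ r) :
    Relation.ReflTransGen (lat_R i x0 r Y lam' V) z z' := by
  have hR : ∀ u v : ℤ × ℤ, (u.1 + u.2) % 2 = 0 → (v.1 + v.2) % 2 = 0 → |v.1 - u.1| = 1 →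
      |v.2 - u.2| = 1 → ‖lat_pt i x0 r Y u - x‖ ≤ 2 * r → ‖lat_pt i x0 r Y v - x‖ ≤ 2 * r →
      lat_R i x0 r Y lam' V u v := by
    intro u v h1 h2 h3 h4 h5 h6
    have hh : ∀ u : ℤ × ℤ, ‖lat_pt i x0 r Y u - x‖ ≤ 2 * r → |(u.2 : ℝ) * r| < lam' := by
      intro u hu
      have h7 := (norm_le_pi_norm (lat_pt i x0 r Y u - x) i').trans hu
      rw [Real.norm_eq_abs, Pi.sub_apply] at h7
      unfold lat_pt at h7
      rw [if_neg hi] at h7
      have h8 : |(u.2 : ℝ) * r| ≤ |Y + u.2 * r - x i'| + |x i' - Y| := by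
        have := abs_add_le (Y + u.2 * r - x i') (x i' - Y)
        rwa [show Y + (u.2 : ℝ) * r - x i' + (x i' - Y) = u.2 * r by ring] at this
      linarith
    refine ⟨h1, h2, h3, h4, hh u h5, hh v h6, ?_⟩
    refine ((convex_ball x ε).segment_subset ?_ ?_).trans hball
    · rw [Metric.mem_ball, dist_eq_norm]; linarith
    · rw [Metric.mem_ball, dist_eq_norm]; linarith
  have hz2 : ‖lat_pt i x0 r Y z - x‖ ≤ 2 * r := by linarith
  have hz2' : ‖lat_pt i x0 r Y z' - x‖ ≤ 2 * r := by
    have : lat_pt i x0 r Y z' - x = (lat_pt i x0 r Y z' - x') + (x' - x) := by abel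
    rw [this]
    refine (norm_add_le _ _).trans ?_
    rw [norm_sub_rev x' x]
    linarith
  have hmove : ∀ u v : ℤ × ℤ, |v.1 - u.1| ≤ 1 → |v.2 - u.2| ≤ 1 →
      ‖lat_pt i x0 r Y u - x‖ ≤ r → ‖lat_pt i x0 r Y v - x‖ ≤ 2 * r := by
    intro u v h1 h2 h3
    have : lat_pt i x0 r Y v - x =
        (lat_pt i x0 r Y u - x) + (lat_pt i x0 r Y v - lat_pt i x0 r Y u) := by abel
    rw [this]
    refine (norm_add_le _ _).trans ?_
    have h4 : ‖lat_pt i x0 r Y v - lat_pt i x0 r Y u‖ ≤ r := by
      rw [pi_norm_le_iff_of_nonneg hr.le]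
      intro j
      rw [Real.norm_eq_abs, Pi.sub_apply]
      unfold lat_pt
      have h1' : |(v.1 : ℝ) - u.1| ≤ 1 := by exact_mod_cast h1
      have h2' : |(v.2 : ℝ) - u.2| ≤ 1 := by exact_mod_cast h2
      by_cases hj : j = i
      · rw [if_pos hj, if_pos hj, show x0 + (v.1 : ℝ) * r - (x0 + u.1 * r) =
          ((v.1 : ℝ) - u.1) * r by ring, abs_mul, abs_of_pos hr]
        nlinarith
      · rw [if_neg hj, if_neg hj, show Y + (v.2 : ℝ) * r - (Y + u.2 * r) =
          ((v.2 : ℝ) - u.2) * r by ring, abs_mul, abs_of_pos hr]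
        nlinarith
    linarith
  have hdist : ‖lat_pt i x0 r Y z' - lat_pt i x0 r Y z‖ < 3 * r := by
    have : lat_pt i x0 r Y z' - lat_pt i x0 r Y z =
        (lat_pt i x0 r Y z' - x') + (x' - x) + (x - lat_pt i x0 r Y z) := by abel
    rw [this]
    refine (norm_add₃_le).trans_lt ?_
    rw [norm_sub_rev x' x, norm_sub_rev x (lat_pt i x0 r Y z)]
    linarith
  have hd1 : |z'.1 - z.1| ≤ 2 := by
    have h1 := (norm_le_pi_norm (lat_pt i x0 r Y z' - lat_pt i x0 r Y z) i).trans_lt hdist
    rw [Real.norm_eq_abs, Pi.sub_apply] at h1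
    unfold lat_pt at h1
    rw [if_pos rfl, if_pos rfl, show x0 + (z'.1 : ℝ) * r - (x0 + z.1 * r) =
      ((z'.1 : ℝ) - z.1) * r by ring, abs_mul, abs_of_pos hr] at h1
    have h2 : |(z'.1 : ℝ) - z.1| < 3 := lt_of_mul_lt_mul_right h1 hr.le
    have h3 : |z'.1 - z.1| < 3 := by exact_mod_cast h2
    omega
  have hd2 : |z'.2 - z.2| ≤ 2 := by
    have h1 := (norm_le_pi_norm (lat_pt i x0 r Y z' - lat_pt i x0 r Y z) i').trans_lt hdist
    rw [Real.norm_eq_abs, Pi.sub_apply] at h1
    unfold lat_pt at h1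
    rw [if_neg hi, if_neg hi, show Y + (z'.2 : ℝ) * r - (Y + z.2 * r) =
      ((z'.2 : ℝ) - z.2) * r by ring, abs_mul, abs_of_pos hr] at h1
    have h2 : |(z'.2 : ℝ) - z.2| < 3 := lt_of_mul_lt_mul_right h1 hr.le
    have h3 : |z'.2 - z.2| < 3 := by exact_mod_cast h2
    omega
  obtain ⟨a, b⟩ := z
  obtain ⟨a', b'⟩ := z'
  simp only at hz hz' hd1 hd2
  by_cases h0 : a' = a ∧ b' = b
  · rw [h0.1, h0.2]
  by_cases h1 : |a' - a| = 1
  · refine Relation.ReflTransGen.single (hR _ _ hz hz' h1 ?_ hz2 hz2')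
    simp only
    rw [abs_le] at hd2
    rcases abs_eq (by norm_num : (0:ℤ) ≤ 1) |>.1 h1 with h | h <;>
    · rw [abs_eq (by norm_num)]; omega
  -- two steps
  obtain ⟨s, t, hs, ht, hs', ht'⟩ : ∃ s t : ℤ, |s| = 1 ∧ |t| = 1 ∧ |a' - (a + s)| = 1 ∧
      |b' - (b + t)| = 1 := by
    rw [abs_le] at hd1 hd2
    have ha : a' - a = -2 ∨ a' - a = 0 ∨ a' - a = 2 := by
      rw [abs_eq (by norm_num)] at h1
      omega
    have hb : b' - b = -2 ∨ b' - b = 0 ∨ b' - b = 2 := by
      omega
    have q : ∀ c c' : ℤ, (c' - c = -2 ∨ c' - c = 0 ∨ c' - c = 2) →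
        ∃ s : ℤ, |s| = 1 ∧ |c' - (c + s)| = 1 := by
      intro c c' h
      rcases h with h | h | h
      · exact ⟨-1, by norm_num, by rw [abs_eq (by norm_num)]; omega⟩
      · exact ⟨1, by norm_num, by rw [abs_eq (by norm_num)]; omega⟩
      · exact ⟨1, by norm_num, by rw [abs_eq (by norm_num)]; omega⟩
    obtain ⟨s, h1, h2⟩ := q a a' ha
    obtain ⟨t, h3, h4⟩ := q b b' hb
    exact ⟨s, t, h1, h3, h2, h4⟩
  have hmid : ((a + s) + (b + t)) % 2 = 0 := by
    rw [abs_eq (by norm_num)] at hs ht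
    omega
  have hmid2 : ‖lat_pt i x0 r Y (a + s, b + t) - x‖ ≤ 2 * r :=
    hmove (a, b) (a + s, b + t) (by simp only [add_sub_cancel_left]; exact hs.le)
      (by simp only [add_sub_cancel_left]; exact ht.le) hzx
  refine Relation.ReflTransGen.tail (Relation.ReflTransGen.single
    (hR (a, b) (a + s, b + t) hz hmid (by simpa using hs) (by simpa using ht) hz2 hmid2)) ?_
  exact hR _ _ hmid hz' hs' ht' hmid2 hz2'

/-- from the reflexive transitive closure to a function -/
theorem lat_walk {α : Type*} (R : α → α → Prop) (z z' : α) (h : Relation.ReflTransGen R z z') :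
    ∃ (n : ℕ) (w : ℕ → α), w 0 = z ∧ w n = z' ∧ ∀ k < n, R (w k) (w (k + 1)) := by
  induction h with
  | refl => exact ⟨0, fun _ => z, rfl, rfl, fun k hk => absurd hk (Nat.not_lt_zero k)⟩
  | @tail b c _ hbc ih =>
    obtain ⟨n, w, h0, hn, hw⟩ := ih
    refine ⟨n + 1, fun k => if k ≤ n then w k else c, by simp [h0], by simp, fun k hk => ?_⟩
    by_cases hkn : k < n
    · simp only [hkn.le, if_true, show k + 1 ≤ n from hkn]
      exact hw k hkn
    · have : k = n := by omega
      subst this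
      simp only [le_refl, if_true, show ¬ (k + 1 ≤ k) by omega, if_false, hn]
      exact hbc

/-- the lattice walk from the path -/
theorem lat_chain (i i' : Fin 2) (hi : i' ≠ i) (hi' : ∀ j, j ≠ i → j = i')
    (x0 r Y lam lam' ε : ℝ) (hr : 0 < r) (V : Set (E 2)) (γ : ℝ → E 2)
    (hγ : ContinuousOn γ (Icc 0 1)) (hball : ∀ t ∈ Icc (0:ℝ) 1, Metric.ball (γ t) ε ⊆ V)
    (hY : ∀ t ∈ Icc (0:ℝ) 1, |γ t i' - Y| ≤ lam)
    (hε : 3 * r < ε) (hlam : lam + 3 * r < lam') :
    ∃ z z' : ℤ × ℤ, z.1 = ⌊(γ 0 i - x0) / r⌋ ∧ z'.1 = ⌊(γ 1 i - x0) / r⌋ ∧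
      Relation.ReflTransGen (lat_R i x0 r Y lam' V) z z' := by
  choose f hf1 hf2 hf3 using fun x : E 2 => lat_near i x0 r Y hr x i' hi'
  have huc : UniformContinuousOn γ (Icc 0 1) :=
    isCompact_Icc.uniformContinuousOn_of_continuous hγ
  rw [Metric.uniformContinuousOn_iff] at huc
  obtain ⟨δ, hδ, hd⟩ := huc r hr
  obtain ⟨K, hK⟩ := exists_nat_gt (1 / δ)
  have hK0 : (0:ℝ) < K := lt_trans (by positivity) hK
  have hKδ : 1 / (K:ℝ) < δ := by
    rw [div_lt_iff₀ hK0]
    rw [div_lt_iff₀ hδ] at hK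
    linarith
  have main : ∀ j : ℕ, j ≤ K →
      Relation.ReflTransGen (lat_R i x0 r Y lam' V) (f (γ 0)) (f (γ (j / K))) := by
    intro j
    induction j with
    | zero => intro _; simp only [Nat.cast_zero, zero_div]; exact Relation.ReflTransGen.refl
    | succ j ih =>
      intro hj
      have hj' : (j : ℝ) ≤ K := by exact_mod_cast (by omega : j ≤ K)
      have hj1 : ((j + 1 : ℕ) : ℝ) ≤ K := by exact_mod_cast hj
      have m1 : (j : ℝ) / K ∈ Icc (0:ℝ) 1 := ⟨by positivity, (div_le_one hK0).2 hj'⟩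
      have m2 : ((j + 1 : ℕ) : ℝ) / K ∈ Icc (0:ℝ) 1 := ⟨by positivity, (div_le_one hK0).2 hj1⟩
      have h3 : dist (γ (j / K)) (γ ((j + 1 : ℕ) / K)) < r := by
        apply hd _ m1 _ m2
        rw [Real.dist_eq, abs_sub_comm]
        have : ((j + 1 : ℕ) : ℝ) / K - j / K = 1 / K := by push_cast; ring
        rw [this, abs_of_pos (by positivity)]
        exact hKδ
      rw [dist_eq_norm] at h3
      refine (ih (by omega)).trans ?_
      exact lat_step i x0 r Y lam lam' ε hr V i' hi _ _ (hY _ m1) (hball _ m1) hε hlam h3 _ _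
        (hf1 _) (hf1 _) (hf2 _) (hf2 _)
  refine ⟨f (γ 0), f (γ 1), hf3 _, hf3 _, ?_⟩
  have := main K le_rfl
  rwa [div_self hK0.ne'] at this

/-- edges of the lattice in one slab do not cross -/
theorem lat_nc (r Y : ℝ) (hr : 0 < r) (l1 l2 h1 h2 h3 h4 : ℤ) (e1 : (l1 + h1) % 2 = 0)
    (e3 : (l1 + h3) % 2 = 0) (e2 : (l2 + h2) % 2 = 0) (e4 : (l2 + h4) % 2 = 0)
    (a : |h2 - h1| = 1) (b : |h4 - h3| = 1) :
    0 ≤ ((Y + h1 * r) - (Y + h3 * r)) * ((Y + h2 * r) - (Y + h4 * r)) := by
  have key : 0 ≤ (h1 - h3) * (h2 - h4) := by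
    rw [abs_eq (by norm_num)] at a b
    rcases lt_trichotomy h1 h3 with h | h | h
    · exact mul_nonneg_of_nonpos_of_nonpos (by omega) (by omega)
    · rw [h]; simp
    · exact mul_nonneg (by omega) (by omega)
  have key' : (0:ℝ) ≤ ((h1:ℝ) - h3) * (h2 - h4) := by exact_mod_cast key
  have : ((Y + h1 * r) - (Y + h3 * r)) * ((Y + h2 * r) - (Y + h4 * r)) =
    (((h1:ℝ) - h3) * (h2 - h4)) * (r * r) := by ring
  rw [this]
  positivity

/-- LAT: existence of a levelled lattice polygon near a path. -/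
theorem exists_lev (i : Fin 2) (V : Set (E 2)) (hV : IsOpen V) (y : E 2) (hy : y i = 0)
    (p q lam lam' δ : ℝ) (hpq : p < q) (hlam : lam < lam') (hδ : 0 < δ) (γ : ℝ → E 2)
    (hγ : ContinuousOn γ (Icc 0 1)) (hγV : ∀ t ∈ Icc (0:ℝ) 1, γ t ∈ V ∧ nu i (γ t - y) ≤ lam)
    (h0 : γ 0 i ≤ p) (h1 : q ≤ γ 1 i) :
    ∃ (x0 r : ℝ) (m M : ℕ) (lv : ℕ → ℕ) (ht : ℕ → ℝ), 0 < r ∧ 4 ≤ m ∧ Lev m M lv ht ∧
      p < x0 ∧ x0 + r < p + δ ∧ x0 + M * r < q ∧ q - δ < x0 + (M - 1) * r ∧
      lpt i x0 r (lv 0) (ht 0) = y + x0 • ee i ∧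
      lpt i x0 r (lv m) (ht m) = y + (x0 + M * r) • ee i ∧
      (∀ k, k ≤ m → nu i (lpt i x0 r (lv k) (ht k) - y) < lam') ∧
      lv 1 = 1 ∧ lv (m - 1) + 1 = M ∧
      (∀ k, 1 ≤ k → k + 1 < m →
        segment ℝ (lpt i x0 r (lv k) (ht k)) (lpt i x0 r (lv (k + 1)) (ht (k + 1))) ⊆ V) := by
  obtain ⟨i', hi, hi'⟩ : ∃ i' : Fin 2, i' ≠ i ∧ ∀ j, j ≠ i → j = i' := by
    fin_cases i
    · exact ⟨1, by decide, by decide⟩
    · exact ⟨0, by decide, by decide⟩
  set Y := y i' with hYdef
  have hlam0 : 0 ≤ lam := (norm_nonneg _).trans (hγV 0 (by simp)).2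
  have hlam0' : 0 < lam' := by linarith
  have hY : ∀ t ∈ Icc (0:ℝ) 1, |γ t i' - Y| ≤ lam := by
    intro t ht
    have h2 := (norm_le_pi_norm (Function.update (γ t - y) i 0) i').trans (hγV t ht).2
    rwa [Function.update_of_ne hi, Real.norm_eq_abs] at h2
  -- the thickening
  have hcomp : IsCompact (γ '' Icc 0 1) := isCompact_Icc.image_of_continuousOn hγ
  obtain ⟨ε, hε, hthick⟩ := hcomp.exists_thickening_subset_open hV (by
    rintro _ ⟨t, ht, rfl⟩; exact (hγV t ht).1)
  have hball : ∀ t ∈ Icc (0:ℝ) 1, Metric.ball (γ t) ε ⊆ V := by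
    intro t ht x hx
    apply hthick
    rw [Metric.mem_thickening_iff]
    exact ⟨γ t, ⟨t, ht, rfl⟩, hx⟩
  -- the mesh
  set ρ := min (min δ ε) (lam' - lam) with hρ
  have hρ0 : 0 < ρ := lt_min (lt_min hδ hε) (by linarith)
  obtain ⟨n0, hn0⟩ := exists_nat_gt (max 6 (4 * (q - p) / ρ))
  have hn6 : (6:ℝ) < n0 := (le_max_left _ _).trans_lt hn0
  have hn6' : 6 < n0 := by exact_mod_cast hn6
  have hn0' : (0:ℝ) < n0 := by linarith
  set r := (q - p) / n0 with hr
  have hr0 : 0 < r := div_pos (by linarith) hn0'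
  have hrn : (n0:ℝ) * r = q - p := by rw [hr]; field_simp
  have hrρ : 4 * r < ρ := by
    have h2 : 4 * (q - p) / ρ < n0 := (le_max_right _ _).trans_lt hn0
    rw [div_lt_iff₀ hρ0] at h2
    rw [hr, ← mul_div_assoc, div_lt_iff₀ hn0']
    linarith
  have hrδ : 4 * r < δ := hrρ.trans_le ((min_le_left _ _).trans (min_le_left _ _))
  have hrε : 4 * r < ε := hrρ.trans_le ((min_le_left _ _).trans (min_le_right _ _))
  have hrl : 4 * r < lam' - lam := hrρ.trans_le (min_le_right _ _)
  set x0 := p + r with hx0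
  obtain ⟨M, hM⟩ : ∃ M : ℕ, M + 2 = n0 := ⟨n0 - 2, by omega⟩
  have hMr : (M:ℝ) + 2 = n0 := by exact_mod_cast hM
  have hM4 : 4 < M := by omega
  obtain ⟨z, z', hz, hz', hzz⟩ := lat_chain i i' hi hi' x0 r Y lam lam' ε hr0 V γ hγ hball hY
    (by linarith) (by linarith)
  have hz1 : z.1 ≤ 1 := by
    rw [hz]
    have : (γ 0 i - x0) / r ≤ 0 := div_nonpos_of_nonpos_of_nonneg (by linarith) hr0.le
    have h2 : ⌊(γ 0 i - x0) / r⌋ ≤ ⌊(0:ℝ)⌋ := Int.floor_le_floor this
    simp only [Int.floor_zero] at h2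
    omega
  have hz1' : (M:ℤ) - 1 ≤ z'.1 := by
    rw [hz', Int.le_floor]
    push_cast
    rw [le_div_iff₀ hr0]
    nlinarith
  -- the minimal walk
  classical
  set P : ℕ → Prop := fun n => ∃ w : ℕ → ℤ × ℤ, (w 0).1 ≤ 1 ∧ (M:ℤ) - 1 ≤ (w n).1 ∧
    ∀ k < n, lat_R i x0 r Y lam' V (w k) (w (k + 1)) with hP
  have hex : ∃ n, P n := by
    obtain ⟨n, w, h2, h3, h4⟩ := lat_walk _ _ _ hzz
    exact ⟨n, w, by rw [h2]; exact hz1, by rw [h3]; exact hz1', h4⟩
  set n := Nat.find hex with hn
  obtain ⟨w, hw0, hwn, hwR⟩ := Nat.find_spec hex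
  rw [← hn] at hwn hwR
  have hmin : ∀ k < n, ¬ P k := fun k hk => Nat.find_min hex hk
  have A2 : ∀ a, 0 < a → a ≤ n → 2 ≤ (w a).1 := by
    intro a ha han
    by_contra hcon
    refine hmin (n - a) (by omega) ⟨fun k => w (k + a), ?_, ?_, ?_⟩
    · simp only [zero_add]; omega
    · simp only [Nat.sub_add_cancel han]; exact hwn
    · intro k hk
      simp only [show k + 1 + a = (k + a) + 1 by ring]
      exact hwR _ (by omega)
  have A3 : ∀ a, a < n → (w a).1 ≤ M - 2 := by
    intro a ha
    by_contra hcon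
    exact hmin a ha ⟨w, hw0, by omega, fun k hk => hwR k (by omega)⟩
  have hn1 : 2 ≤ n := by
    by_contra hcon
    have hn01 : n = 0 ∨ n = 1 := by omega
    rcases hn01 with h2 | h2
    · rw [h2] at hwn; omega
    · have h3 := (hwR 0 (by omega)).2.2.1
      rw [h2] at hwn
      rw [abs_eq (by norm_num)] at h3
      simp only [zero_add] at h3
      omega
  have A4 : (w 0).1 = 1 := by
    have h3 := (hwR 0 (by omega)).2.2.1
    have h4 := A2 1 (by omega) (by omega)
    rw [abs_eq (by norm_num)] at h3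
    simp only [zero_add] at h3
    omega
  have A5 : (w n).1 = M - 1 := by
    have h3 := (hwR (n - 1) (by omega)).2.2.1
    have h4 := A3 (n - 1) (by omega)
    rw [show n - 1 + 1 = n by omega, abs_eq (by norm_num)] at h3
    omega
  have A6 : ∀ a b, a < b → b ≤ n → w a ≠ w b := by
    intro a b hab hbn heq
    refine hmin (n - (b - a)) (by omega)
      ⟨fun k => if k ≤ a then w k else w (k + (b - a)), ?_, ?_, ?_⟩
    · simp only [Nat.zero_le, if_true]; exact hw0
    · by_cases h2 : n - (b - a) ≤ a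
      · have h3 : b = n := by omega
        simp only [h2, if_true]
        rw [show n - (b - a) = a by omega, heq, h3]; exact hwn
      · simp only [h2, if_false]
        rw [show n - (b - a) + (b - a) = n by omega]; exact hwn
    · intro k hk
      rcases lt_trichotomy k a with h2 | h2 | h2
      · simp only [h2.le, if_true, show k + 1 ≤ a by omega]
        exact hwR k (by omega)
      · simp only [h2, le_refl, if_true, show ¬ (a + 1 ≤ a) by omega, if_false]
        rw [heq, show a + 1 + (b - a) = b + 1 by omega]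
        exact hwR b (by omega)
      · simp only [show ¬ (k ≤ a) by omega, if_false, show ¬ (k + 1 ≤ a) by omega]
        rw [show k + 1 + (b - a) = k + (b - a) + 1 by omega]
        exact hwR _ (by omega)
  have hpar : ∀ k ≤ n, ((w k).1 + (w k).2) % 2 = 0 := by
    intro k hk
    rcases hk.lt_or_eq with h2 | h2
    · exact (hwR k h2).1
    · have := (hwR (k - 1) (by omega)).2.1
      rwa [show k - 1 + 1 = k by omega] at this
  have hstr : ∀ k ≤ n, |((w k).2 : ℝ) * r| < lam' := by
    intro k hk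
    rcases hk.lt_or_eq with h2 | h2
    · exact (hwR k h2).2.2.2.2.1
    · have := (hwR (k - 1) (by omega)).2.2.2.2.2.1
      rwa [show k - 1 + 1 = k by omega] at this
  have hpos1 : ∀ k ≤ n, 1 ≤ (w k).1 := by
    intro k hk
    rcases Nat.eq_zero_or_pos k with h2 | h2
    · rw [h2, A4]
    · have := A2 k h2 hk; omega
  -- the polygon
  set lv : ℕ → ℕ := fun k => if k = 0 then 0 else if k ≤ n + 1 then (w (k - 1)).1.toNat else M
    with hlv
  set ht : ℕ → ℝ := fun k => if k = 0 then Y else if k ≤ n + 1 then Y + (w (k - 1)).2 * r else Y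
    with hht
  have lv0 : lv 0 = 0 := by simp [hlv]
  have ht0 : ht 0 = Y := by simp [hht]
  have lvm : lv (n + 2) = M := by simp [hlv]
  have htm : ht (n + 2) = Y := by simp [hht]
  have lvk : ∀ k ≤ n, ((lv (k + 1) : ℕ) : ℤ) = (w k).1 := by
    intro k hk
    have h2 : lv (k + 1) = (w k).1.toNat := by
      simp [hlv, hk]
    rw [h2]
    exact Int.toNat_of_nonneg (by have := hpos1 k hk; omega)
  have htk : ∀ k ≤ n, ht (k + 1) = Y + (w k).2 * r := by
    intro k hk
    simp [hht, hk]
  have lvpos : ∀ k, 0 < k → k ≤ n + 2 → 0 < lv k := by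
    intro k hk hk2
    rcases hk2.lt_or_eq with h2 | h2
    · have h3 := lvk (k - 1) (by omega)
      have h4 := hpos1 (k - 1) (by omega)
      rw [show k - 1 + 1 = k by omega] at h3
      omega
    · rw [h2, lvm]; omega
  have lvlt : ∀ k, k < n + 2 → lv k < M := by
    intro k hk
    rcases Nat.eq_zero_or_pos k with h2 | h2
    · rw [h2, lv0]; omega
    · have h3 := lvk (k - 1) (by omega)
      rw [show k - 1 + 1 = k by omega] at h3
      rcases (show k - 1 ≤ n by omega).lt_or_eq with h4 | h4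
      · have h5 := A3 (k - 1) h4
        omega
      · rw [h4, A5] at h3; omega
  have hpt : ∀ k ≤ n, lpt i x0 r (lv (k + 1)) (ht (k + 1)) = lat_pt i x0 r Y (w k) := by
    intro k hk
    funext j
    unfold lpt lat_pt
    have h3 : ((lv (k + 1) : ℕ) : ℝ) = ((w k).1 : ℝ) := by exact_mod_cast lvk k hk
    rw [htk k hk, h3]
  have hLev : Lev (n + 2) M lv ht := by
    refine ⟨?_, ?_, lv0, lvpos, lvm, lvlt, ?_, ?_, ?_⟩
    · intro k hk
      rcases Nat.eq_zero_or_pos k with h2 | h2
      · left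
        have := lvk 0 (by omega)
        rw [A4] at this
        rw [h2, lv0]; simp only [zero_add] at this ⊢; omega
      · rcases (show k ≤ n + 1 by omega).lt_or_eq with h3 | h3
        · have a1 := lvk (k - 1) (by omega)
          have a2 := lvk k (by omega)
          have a3 := (hwR (k - 1) (by omega)).2.2.1
          rw [show k - 1 + 1 = k by omega] at a1 a3
          rw [abs_eq (by norm_num)] at a3
          omega
        · left
          have a1 := lvk n le_rfl
          rw [A5] at a1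
          rw [h3, lvm]; omega
    · intro k l hk hl h2 h3
      rcases Nat.eq_zero_or_pos k with hk0 | hk0
      · rcases Nat.eq_zero_or_pos l with hl0 | hl0
        · omega
        · have := lvpos l hl0 hl
          rw [hk0, lv0] at h2; omega
      · rcases Nat.eq_zero_or_pos l with hl0 | hl0
        · have := lvpos k hk0 hk
          rw [hl0, lv0] at h2; omega
        · rcases hk.lt_or_eq with hk1 | hk1
          · rcases hl.lt_or_eq with hl1 | hl1
            · obtain ⟨k, rfl⟩ : ∃ k', k = k' + 1 := ⟨k - 1, by omega⟩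
              obtain ⟨l, rfl⟩ : ∃ l', l = l' + 1 := ⟨l - 1, by omega⟩
              have a1 := lvk k (by omega)
              have a2 := lvk l (by omega)
              rw [htk k (by omega), htk l (by omega)] at h3
              have a3 : ((w k).2 : ℝ) * r = (w l).2 * r := by linarith
              have a4 : ((w k).2 : ℝ) = (w l).2 := mul_right_cancel₀ hr0.ne' a3
              have a5 : (w k).2 = (w l).2 := by exact_mod_cast a4
              have a6 : w k = w l := Prod.ext (by omega) a5
              rcases lt_trichotomy k l with h4 | h4 | h4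
              · exact absurd a6 (A6 k l h4 (by omega))
              · rw [h4]
              · exact absurd a6.symm (A6 l k h4 (by omega))
            · have := lvlt k hk1
              rw [hl1, lvm] at h2; omega
          · rcases hl.lt_or_eq with hl1 | hl1
            · have := lvlt l hl1
              rw [hk1, lvm] at h2; omega
            · omega
    · intro k l hk hl h2 h3 h4
      rcases Nat.eq_zero_or_pos k with hk0 | hk0
      · rcases Nat.eq_zero_or_pos l with hl0 | hl0
        · rw [hk0, hl0]; simp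
        · have := lvpos l hl0 (by omega)
          rw [hk0, lv0] at h2; omega
      · rcases Nat.eq_zero_or_pos l with hl0 | hl0
        · have := lvpos k hk0 (by omega)
          rw [hl0, lv0] at h2; omega
        · rcases (show k ≤ n + 1 by omega).lt_or_eq with hk1 | hk1
          · rcases (show l ≤ n + 1 by omega).lt_or_eq with hl1 | hl1
            · obtain ⟨k, rfl⟩ : ∃ k', k = k' + 1 := ⟨k - 1, by omega⟩
              obtain ⟨l, rfl⟩ : ∃ l', l = l' + 1 := ⟨l - 1, by omega⟩
              have a1 := lvk k (by omega)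
              have a2 := lvk l (by omega)
              have a3 := lvk (k + 1) (by omega)
              have a4 := lvk (l + 1) (by omega)
              rw [htk k (by omega), htk l (by omega), htk (k + 1) (by omega),
                htk (l + 1) (by omega)]
              have p1 := hpar k (by omega)
              have p2 := hpar l (by omega)
              have p3 := hpar (k + 1) (by omega)
              have p4 := hpar (l + 1) (by omega)
              exact lat_nc r Y hr0 (w k).1 (w (k + 1)).1 _ _ _ _ p1 (by omega) p3 (by omega)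
                (hwR k (by omega)).2.2.2.1 (hwR l (by omega)).2.2.2.1
            · have := lvlt (k + 1) (by omega)
              rw [hl1] at h2 h4
              rw [show n + 1 + 1 = n + 2 by ring, lvm] at h4
              omega
          · rcases (show l ≤ n + 1 by omega).lt_or_eq with hl1 | hl1
            · have := lvlt (l + 1) (by omega)
              rw [hk1] at h2 h3
              rw [show n + 1 + 1 = n + 2 by ring, lvm] at h3
              omega
            · rw [hk1, hl1, sub_self, zero_mul]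
    · intro k l hk hl h2 h3 h4
      rcases Nat.eq_zero_or_pos k with hk0 | hk0
      · have := lvpos (l + 1) (by omega) (by omega)
        rw [hk0, lv0] at h4; omega
      · rcases Nat.eq_zero_or_pos l with hl0 | hl0
        · rw [hl0, lv0] at h3; omega
        · rcases (show k ≤ n + 1 by omega).lt_or_eq with hk1 | hk1
          · rcases (show l ≤ n + 1 by omega).lt_or_eq with hl1 | hl1
            · obtain ⟨k, rfl⟩ : ∃ k', k = k' + 1 := ⟨k - 1, by omega⟩
              obtain ⟨l, rfl⟩ : ∃ l', l = l' + 1 := ⟨l - 1, by omega⟩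
              have a1 := lvk k (by omega)
              have a2 := lvk l (by omega)
              have a3 := lvk (k + 1) (by omega)
              have a4 := lvk (l + 1) (by omega)
              rw [htk k (by omega), htk l (by omega), htk (k + 1) (by omega),
                htk (l + 1) (by omega)]
              have p1 := hpar k (by omega)
              have p2 := hpar l (by omega)
              have p3 := hpar (k + 1) (by omega)
              have p4 := hpar (l + 1) (by omega)
              exact lat_nc r Y hr0 (w k).1 (w (k + 1)).1 _ _ _ _ p1 (by omega) p3 (by omega)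
                (hwR k (by omega)).2.2.2.1
                (by rw [abs_sub_comm]; exact (hwR l (by omega)).2.2.2.1)
            · rw [hl1, show n + 1 + 1 = n + 2 by ring, lvm] at h3
              have := lvlt (n + 1) (by omega)
              omega
          · have := lvlt l (by omega)
            rw [hk1] at h2 h4
            rw [show n + 1 + 1 = n + 2 by ring, lvm] at h2
            omega
    · intro k l hk hl h2 h3 h4
      rcases Nat.eq_zero_or_pos k with hk0 | hk0
      · rw [hk0, lv0] at h3; omega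
      · rcases Nat.eq_zero_or_pos l with hl0 | hl0
        · rw [hl0, lv0] at h4; omega
        · rcases (show k ≤ n + 1 by omega).lt_or_eq with hk1 | hk1
          · rcases (show l ≤ n + 1 by omega).lt_or_eq with hl1 | hl1
            · obtain ⟨k, rfl⟩ : ∃ k', k = k' + 1 := ⟨k - 1, by omega⟩
              obtain ⟨l, rfl⟩ : ∃ l', l = l' + 1 := ⟨l - 1, by omega⟩
              have a1 := lvk k (by omega)
              have a2 := lvk l (by omega)
              have a3 := lvk (k + 1) (by omega)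
              have a4 := lvk (l + 1) (by omega)
              rw [htk k (by omega), htk l (by omega), htk (k + 1) (by omega),
                htk (l + 1) (by omega)]
              have p1 := hpar k (by omega)
              have p2 := hpar l (by omega)
              have p3 := hpar (k + 1) (by omega)
              have p4 := hpar (l + 1) (by omega)
              exact lat_nc r Y hr0 (w k).1 (w (k + 1)).1 _ _ _ _ p1 (by omega) p3 (by omega)
                (hwR k (by omega)).2.2.2.1 (hwR l (by omega)).2.2.2.1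
            · rw [hl1, show n + 1 + 1 = n + 2 by ring, lvm] at h4
              have := lvlt (n + 1) (by omega)
              omega
          · rw [hk1, show n + 1 + 1 = n + 2 by ring, lvm] at h3
            have := lvlt (n + 1) (by omega)
            omega
  refine ⟨x0, r, n + 2, M, lv, ht, hr0, by omega, hLev, by linarith, by linarith, by nlinarith,
    by nlinarith, ?_, ?_, ?_, ?_, ?_, ?_⟩
  · funext j
    unfold lpt ee
    rw [lv0, ht0]
    by_cases hj : j = i
    · rw [hj]; simp [hy]
    · simp [hi' j hj, hYdef, hi]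
  · funext j
    unfold lpt ee
    rw [lvm, htm]
    by_cases hj : j = i
    · rw [hj]; simp [hy]
    · simp [hi' j hj, hYdef, hi]
  · intro k hk
    unfold nu
    rw [pi_norm_lt_iff hlam0']
    intro j
    by_cases hj : j = i
    · rw [hj, Function.update_self]; simpa using hlam0'
    · rw [Function.update_of_ne hj, Pi.sub_apply, hi' j hj, Real.norm_eq_abs]
      unfold lpt
      rw [if_neg hi]
      rcases Nat.eq_zero_or_pos k with h2 | h2
      · rw [h2, ht0, ← hYdef]; simpa using hlam0'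
      · rcases hk.lt_or_eq with h3 | h3
        · obtain ⟨k, rfl⟩ : ∃ k', k = k' + 1 := ⟨k - 1, by omega⟩
          rw [htk k (by omega), ← hYdef, add_sub_cancel_left]
          exact hstr k (by omega)
        · rw [h3, htm, ← hYdef]; simpa using hlam0'
  · have := lvk 0 (by omega)
    rw [A4] at this
    simp only [zero_add] at this
    omega
  · have := lvk n le_rfl
    rw [A5] at this
    rw [show n + 2 - 1 = n + 1 by omega]
    omega
  · intro k hk hk2
    obtain ⟨k, rfl⟩ : ∃ k', k = k' + 1 := ⟨k - 1, by omega⟩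
    rw [hpt k (by omega), hpt (k + 1) (by omega)]
    exact (hwR k (by omega)).2.2.2.2.2.2

end Pool.Agent.Lib_helper11.PLM
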