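import Pool.Agent.Lib_helper11.PLM.F.WDefs


open Set Filter Topology
open scoped Manifold

namespace Pool.Agent.Lib_helper11.PLM

theorem lu1_norm (i : Fin 1) (x : E 1) : ‖x‖ = |x i| := by
  apply le_antisymm
  · refine (pi_norm_le_iff_of_nonneg (abs_nonneg _)).2 fun k => ?_
    rw [Subsingleton.elim k i, Real.norm_eq_abs]
  · simpa using norm_le_pi_norm x i

theorem lu1_ext (i : Fin 1) (x y : E 1) (h : x i = y i) : x = y := by
  funext k
  rw [Subsingleton.elim k i, h]

/-- LU1 -/
theorem lul_one : LUL 1 := by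
  intro i V y p q lam lam' δ γ hV hy hpq hδ hlam hγ hγV h0 h1 hb
  have hy0 : y = 0 := lu1_ext i y 0 hy
  have hlam0 : 0 ≤ lam := by
    have h2 := (hγV 0 ⟨le_rfl, zero_le_one⟩).2
    refine le_trans ?_ h2
    unfold nu
    exact norm_nonneg _
  obtain ⟨d, hd⟩ : ∃ d : ℝ, d = min δ ((q - p) / 3) := ⟨_, rfl⟩
  have hd0 : 0 < d := by
    rw [hd]
    exact lt_min hδ (by linarith)
  have hd1 : d ≤ δ := by rw [hd]; exact min_le_left _ _
  have hd2 : d ≤ (q - p) / 3 := by rw [hd]; exact min_le_right _ _
  refine ⟨1, ?_, p + d, q - d, by linarith, by linarith, by linarith, ?_, ?_, ?_⟩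
  · intro x _
    rfl
  · intro t ht
    have h2 : ContinuousOn (fun s => γ s i) (Icc 0 1) := by
      have := (continuous_apply i).comp_continuousOn hγ
      exact this
    have h3 := intermediate_value_Icc zero_le_one h2
    have h4 : t ∈ Icc (γ 0 i) (γ 1 i) := by
      constructor
      · have := ht.1
        linarith
      · have := ht.2
        linarith
    obtain ⟨s, hs, hst⟩ := h3 h4
    have h5 : y + t • ee i = γ s := by
      apply lu1_ext i
      rw [hy0]
      simp only [zero_add, Pi.smul_apply, smul_eq_mul]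
      rw [← hst]
      simp [ee]
    show y + t • ee i ∈ V
    rw [h5]
    exact (hγV s hs).1
  · intro t ht
    show ‖(y + t • ee i) - (y + p • ee i)‖ ≤ δ + lam'
    rw [lu1_norm i]
    simp only [Pi.sub_apply, Pi.add_apply, Pi.smul_apply, smul_eq_mul]
    have h2 : ee i i = 1 := by simp [ee]
    rw [h2]
    have h3 := ht.1
    have h4 := ht.2
    rw [abs_le]
    constructor <;> linarith
  · intro t ht
    show ‖(y + t • ee i) - (y + q • ee i)‖ ≤ δ + lam'
    rw [lu1_norm i]
    simp only [Pi.sub_apply, Pi.add_apply, Pi.smul_apply, smul_eq_mul]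
    have h2 : ee i i = 1 := by simp [ee]
    rw [h2]
    have h3 := ht.1
    have h4 := ht.2
    rw [abs_le]
    constructor <;> linarith

end Pool.Agent.Lib_helper11.PLM
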