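import Pool.Agent.Lib_helper11.PLM.F.WDefs
import Pool.Agent.Lib_helper11.PLM.F.EMV


open Set Filter Topology
open scoped Manifold

namespace Pool.Agent.Lib_helper11.PLM

/-- adjacency of indices -/
def lvr_adj (m p q : ℕ) : Prop := p ≤ m ∧ q ≤ m ∧ (q = p + 1 ∨ p = q + 1)

theorem lvr_nc {m M : ℕ} {lv : ℕ → ℕ} {ht : ℕ → ℝ} (hL : Lev m M lv ht) {p q p' q' : ℕ}
    (h1 : lvr_adj m p q) (h2 : lvr_adj m p' q') (hp : lv p = lv p') (hq : lv q = lv q') :
    0 ≤ (ht p - ht p') * (ht q - ht q') := by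
  obtain ⟨hpm, hqm, h1⟩ := h1
  obtain ⟨hpm', hqm', h2⟩ := h2
  rcases h1 with rfl | rfl <;> rcases h2 with rfl | rfl
  · rcases hL.step p (by omega) with h | h
    · exact hL.nc1 p p' (by omega) (by omega) hp h (by omega)
    · exact hL.nc3 p p' (by omega) (by omega) hp h (by omega)
  · rcases hL.step p (by omega) with h | h
    · exact hL.nc2 p q' (by omega) (by omega) h (by omega) (by omega)
    · have := hL.nc2 q' p (by omega) (by omega) (by omega) h (by omega)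
      linarith [this]
  · rcases hL.step p' (by omega) with h | h
    · have := hL.nc2 p' q (by omega) (by omega) h (by omega) (by omega)
      linarith [this]
    · exact (by have := hL.nc2 q p' (by omega) (by omega) (by omega) h (by omega); linarith [this])
  · rcases hL.step q (by omega) with h | h
    · have := hL.nc1 q q' (by omega) (by omega) hq h (by omega)
      linarith [this]
    · have := hL.nc3 q q' (by omega) (by omega) hq h (by omega)
      linarith [this]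

/-- right fold of minimal level -/
structure LvrMin (m : ℕ) (lv : ℕ → ℕ) (k : ℕ) : Prop where
  le : k + 2 ≤ m
  up : lv (k + 1) = lv k + 1
  down : lv (k + 1) = lv (k + 2) + 1
  min : ∀ j, j + 2 ≤ m → lv (j + 1) = lv j + 1 → lv (j + 1) = lv (j + 2) + 1 →
    lv (k + 1) ≤ lv (j + 1)

theorem lvr_exists_min {m : ℕ} {lv : ℕ → ℕ}
    (hfold : ∃ k, k + 2 ≤ m ∧ lv (k + 1) = lv k + 1 ∧ lv (k + 1) = lv (k + 2) + 1) :
    ∃ k, LvrMin m lv k := by
  classical
  have hex : ∃ l, ∃ k, k + 2 ≤ m ∧ lv (k + 1) = lv k + 1 ∧ lv (k + 1) = lv (k + 2) + 1 ∧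
      lv (k + 1) = l := by
    obtain ⟨k, h1, h2, h3⟩ := hfold
    exact ⟨_, k, h1, h2, h3, rfl⟩
  obtain ⟨k, h1, h2, h3, h4⟩ := Nat.find_spec hex
  refine ⟨k, h1, h2, h3, fun j hj1 hj2 hj3 => ?_⟩
  rw [h4]
  exact Nat.find_min' hex ⟨j, hj1, hj2, hj3, rfl⟩

theorem lvr_F {m M : ℕ} {lv : ℕ → ℕ} {ht : ℕ → ℝ} (hL : Lev m M lv ht) {k : ℕ}
    (hk : LvrMin m lv k) (j : ℕ) (hj : j ≤ m) (hjl : lv j = lv k) (h1 : j ≠ k)
    (h2 : j ≠ k + 2) : 0 < (ht j - ht k) * (ht j - ht (k + 2)) := by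
  by_contra hcon
  push Not at hcon
  have hkm := hk.le
  have hup := hk.up
  have hdown := hk.down
  have hj0 : j ≠ 0 := by
    rintro rfl
    have := hL.zero
    rcases Nat.eq_zero_or_pos k with h | h
    · exact h1 h.symm
    · have := hL.pos k h (by omega)
      omega
  have hjm : j ≠ m := by
    rintro rfl
    have := hL.top
    have := hL.lt k (by omega)
    omega
  have hn1 : ht j ≠ ht k := fun h => h1 (hL.inj j k hj (by omega) hjl h)
  have hn2 : ht j ≠ ht (k + 2) := fun h => h2 (hL.inj j (k + 2) hj (by omega) (by omega) h)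
  have hneg : (ht j - ht k) * (ht j - ht (k + 2)) < 0 :=
    lt_of_le_of_ne hcon (mul_ne_zero (sub_ne_zero.2 hn1) (sub_ne_zero.2 hn2))
  have key : ∀ j', lvr_adj m j j' → lv j' ≠ lv (k + 1) := by
    intro j' hadj hlev
    have hj'm := hadj.2.1
    have hne : j' ≠ k + 1 := by
      rintro rfl
      rcases hadj.2.2 with h | h <;> omega
    have hn3 : ht j' ≠ ht (k + 1) := fun h => hne (hL.inj j' (k + 1) hj'm (by omega) hlev h)
    have a1 := lvr_nc hL hadj (⟨by omega, by omega, Or.inl rfl⟩ : lvr_adj m k (k + 1)) hjl hlev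
    have a2 := lvr_nc hL hadj (⟨by omega, by omega, Or.inr rfl⟩ : lvr_adj m (k + 2) (k + 1))
      (by omega) hlev
    have a3 : 0 < (ht j' - ht (k + 1)) ^ 2 := by
      have := sub_ne_zero.2 hn3
      positivity
    have a4 := mul_nonneg a1 a2
    have a5 : (ht j - ht k) * (ht j' - ht (k + 1)) * ((ht j - ht (k + 2)) * (ht j' - ht (k + 1)))
        = ((ht j - ht k) * (ht j - ht (k + 2))) * (ht j' - ht (k + 1)) ^ 2 := by ring
    rw [a5] at a4
    exact absurd a4 (not_le.2 (mul_neg_of_neg_of_pos hneg a3))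
  obtain ⟨j0, rfl⟩ : ∃ j0, j = j0 + 1 := ⟨j - 1, by omega⟩
  have k1 := key j0 ⟨by omega, by omega, Or.inr rfl⟩
  have k2 := key (j0 + 2) ⟨by omega, by omega, Or.inl rfl⟩
  have s1 := hL.step j0 (by omega)
  have s2 := hL.step (j0 + 1) (by omega)
  have s2' : lv (j0 + 2) = lv (j0 + 1) + 1 ∨ lv (j0 + 1) = lv (j0 + 2) + 1 := s2
  have := hk.min j0 (by omega) (by omega) (by omega)
  omega

/-- facts on the position of the fold -/
theorem lvr_pos {m M : ℕ} {lv : ℕ → ℕ} {ht : ℕ → ℝ} (hL : Lev m M lv ht) {k : ℕ}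
    (hk : LvrMin m lv k) : 1 ≤ k ∧ k + 4 ≤ m ∧ lv (k + 2) = lv k ∧
      (lv (k + 3) = lv k + 1 ∨ lv k = lv (k + 3) + 1) := by
  have hkm := hk.le
  have hup := hk.up
  have hdown := hk.down
  have hk1 : 1 ≤ k := by
    by_contra h
    obtain rfl : k = 0 := by omega
    have := hL.zero
    have := hL.pos 2 (by omega) (by omega)
    have h2 : lv (0 + 2) = lv 2 := rfl
    omega
  have hk2 : k + 2 ≠ m := by
    intro h
    have h1 := hL.top
    have h2 := hL.lt k (by omega)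
    rw [← h] at h1
    omega
  have s := hL.step (k + 2) (by omega)
  have s' : lv (k + 3) = lv (k + 2) + 1 ∨ lv (k + 2) = lv (k + 3) + 1 := s
  have hk3 : k + 3 ≠ m := by
    intro h
    have h1 := hL.top
    have h2 := hL.lt (k + 1) (by omega)
    rw [← h] at h1
    omega
  exact ⟨hk1, by omega, by omega, by omega⟩

/-- the new edge `(k, k+3)` against a remaining old edge -/
theorem lvr_new {m M : ℕ} {lv : ℕ → ℕ} {ht : ℕ → ℝ} (hL : Lev m M lv ht) {k : ℕ}
    (hk : LvrMin m lv k) {p q : ℕ} (hadj : lvr_adj m p q) (hp2 : p ≠ k + 2)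
    (hp : lv p = lv k) (hq : lv q = lv (k + 3)) :
    0 ≤ (ht p - ht k) * (ht q - ht (k + 3)) := by
  obtain ⟨hk1, hk4, hl2, hl3⟩ := lvr_pos hL hk
  rcases eq_or_ne p k with rfl | hpk
  · simp
  have hF := lvr_F hL hk p hadj.1 hp hpk hp2
  have hN := lvr_nc hL hadj (⟨by omega, by omega, Or.inl rfl⟩ : lvr_adj m (k + 2) (k + 3))
    (by omega) hq
  by_contra hcon
  push Not at hcon
  have h1 : 0 ≤ (ht p - ht (k + 2)) ^ 2 := sq_nonneg _
  have h2 : ((ht p - ht k) * (ht q - ht (k + 3))) * (ht p - ht (k + 2)) ^ 2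
      = ((ht p - ht k) * (ht p - ht (k + 2))) * ((ht p - ht (k + 2)) * (ht q - ht (k + 3))) := by
    ring
  have h3 : 0 ≤ ((ht p - ht k) * (ht q - ht (k + 3))) * (ht p - ht (k + 2)) ^ 2 := by
    rw [h2]
    exact mul_nonneg hF.le hN
  have h4 : (ht p - ht (k + 2)) ≠ 0 := by
    intro h
    rw [h, mul_zero] at hF
    exact lt_irrefl _ hF
  have h5 : 0 < (ht p - ht (k + 2)) ^ 2 := by positivity
  have h6 := mul_neg_of_neg_of_pos hcon h5
  linarith

/-- edges of the reduced polygon -/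
def lvr_adj' (m k p q : ℕ) : Prop :=
  (lvr_adj m p q ∧ p ≠ k + 1 ∧ p ≠ k + 2 ∧ q ≠ k + 1 ∧ q ≠ k + 2) ∨ (p = k ∧ q = k + 3) ∨
    (p = k + 3 ∧ q = k)

theorem lvr_nc' {m M : ℕ} {lv : ℕ → ℕ} {ht : ℕ → ℝ} (hL : Lev m M lv ht) {k : ℕ}
    (hk : LvrMin m lv k) {p q p' q' : ℕ}
    (h1 : lvr_adj' m k p q) (h2 : lvr_adj' m k p' q') (hp : lv p = lv p') (hq : lv q = lv q') :
    0 ≤ (ht p - ht p') * (ht q - ht q') := by
  obtain ⟨hk1, hk4, hl2, hl3⟩ := lvr_pos hL hk
  rcases h1 with ⟨h1, a1, a2, a3, a4⟩ | ⟨rfl, rfl⟩ | ⟨rfl, rfl⟩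
  · rcases h2 with ⟨h2, b1, b2, b3, b4⟩ | ⟨rfl, rfl⟩ | ⟨rfl, rfl⟩
    · exact lvr_nc hL h1 h2 hp hq
    · exact lvr_new hL hk h1 a2 hp hq
    · have := lvr_new hL hk (p := q) (q := p) ⟨h1.2.1, h1.1, h1.2.2.symm⟩ a4 hq hp
      linarith [this]
  · rcases h2 with ⟨h2, b1, b2, b3, b4⟩ | ⟨rfl, rfl⟩ | ⟨rfl, rfl⟩
    · have := lvr_new hL hk h2 b2 hp.symm hq.symm
      linarith [this]
    · simp
    · omega
  · rcases h2 with ⟨h2, b1, b2, b3, b4⟩ | ⟨rfl, rfl⟩ | ⟨rfl, rfl⟩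
    · have := lvr_new hL hk (p := q') (q := p') ⟨h2.2.1, h2.1, h2.2.2.symm⟩ b4 hq.symm hp.symm
      linarith [this]
    · omega
    · simp

/-- index map of the reduced polygon -/
def lvr_s (k j : ℕ) : ℕ := if j ≤ k then j else j + 2

theorem lvr_s_adj {m k j : ℕ} (hk : k + 4 ≤ m) (hj : j < m - 2) :
    lvr_adj' m k (lvr_s k j) (lvr_s k (j + 1)) := by
  unfold lvr_s lvr_adj' lvr_adj
  split_ifs with h1 h2
  · left; omega
  · have : j = k := by omega
    subst this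
    right; left; omega
  · omega
  · left; omega

theorem lvr_adj'_symm {m k p q : ℕ} (h : lvr_adj' m k p q) : lvr_adj' m k q p := by
  unfold lvr_adj' lvr_adj at *
  omega

theorem lvr_lev {m M : ℕ} {lv : ℕ → ℕ} {ht : ℕ → ℝ} (hL : Lev m M lv ht) {k : ℕ}
    (hk : LvrMin m lv k) :
    Lev (m - 2) M (fun j => lv (lvr_s k j)) (fun j => ht (lvr_s k j)) := by
  obtain ⟨hk1, hk4, hl2, hl3⟩ := lvr_pos hL hk
  have hup := hk.up
  have hdown := hk.down
  have hstep : ∀ p q, lvr_adj' m k p q → lv q = lv p + 1 ∨ lv p = lv q + 1 := by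
    intro p q h
    rcases h with ⟨⟨h1, h2, rfl | rfl⟩, -⟩ | ⟨rfl, rfl⟩ | ⟨rfl, rfl⟩
    · exact hL.step p (by omega)
    · exact (hL.step q (by omega)).symm
    · exact hl3
    · exact hl3.symm
  refine ⟨?_, ?_, ?_, ?_, ?_, ?_, ?_, ?_, ?_⟩
  · intro j hj
    exact hstep _ _ (lvr_s_adj hk4 hj)
  · intro a b ha hb h1 h2
    have := hL.inj (lvr_s k a) (lvr_s k b) (by unfold lvr_s; split_ifs <;> omega)
      (by unfold lvr_s; split_ifs <;> omega) h1 h2
    unfold lvr_s at this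
    split_ifs at this <;> omega
  · simp [lvr_s, hL.zero]
  · intro a ha ha'
    exact hL.pos _ (by unfold lvr_s; split_ifs <;> omega) (by unfold lvr_s; split_ifs <;> omega)
  · have : lvr_s k (m - 2) = m := by unfold lvr_s; split_ifs <;> omega
    show lv (lvr_s k (m - 2)) = M
    rw [this, hL.top]
  · intro a ha
    exact hL.lt _ (by unfold lvr_s; split_ifs <;> omega)
  · intro a b ha hb h1 h2 h3
    exact lvr_nc' hL hk (lvr_s_adj hk4 ha) (lvr_s_adj hk4 hb) h1 (by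
      omega)
  · intro a b ha hb h1 h2 h3
    have := lvr_nc' hL hk (lvr_s_adj hk4 ha) (lvr_adj'_symm (lvr_s_adj hk4 hb)) h3 (by
      omega)
    exact this
  · intro a b ha hb h1 h2 h3
    exact lvr_nc' hL hk (lvr_s_adj hk4 ha) (lvr_s_adj hk4 hb) h1 (by
      omega)

/-- same slab -/
theorem lvr_half1 {hA hB hC hp hq α β γ s : ℝ} (hα : 0 ≤ α) (hβ : 0 ≤ β) (hγ : 0 ≤ γ)
    (hs : α + β + γ = 1) (hbs : β = s)
    (hY : α * hA + β * hB + γ * hC = (1 - s) * hp + s * hq)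
    {pA pC qB : Prop} (hqB : hq = hB → qB)
    (hF : ¬ pA → ¬ pC → 0 < (hp - hA) * (hp - hC))
    (hG1 : 0 ≤ (hp - hA) * (hq - hB)) (hG2 : 0 ≤ (hp - hC) * (hq - hB))
    (hne : pA ∨ pC → ¬ qB) :
    (s = 0 ∧ (pA ∨ pC)) ∨ (s = 1 ∧ qB) := by
  subst hbs
  have e : α * (hA - hp) + γ * (hC - hp) = β * (hq - hB) := by
    have : α + γ = 1 - β := by linarith
    have h2 : (α + γ) * hp = (1 - β) * hp := by rw [this]
    linarith
  rcases eq_or_lt_of_le hβ with h0 | h0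
  · left
    refine ⟨h0.symm, ?_⟩
    by_contra hcon
    push Not at hcon
    have hFF := hF hcon.1 hcon.2
    rw [← h0] at e hs
    have e1 : α * (hA - hp) = - (γ * (hC - hp)) := by linarith
    have e2 : α * (hA - hp) * (hC - hp) = - (γ * (hC - hp) ^ 2) := by rw [e1]; ring
    have e3 : 0 ≤ α * ((hp - hA) * (hp - hC)) := mul_nonneg hα hFF.le
    have e4 : 0 ≤ γ * (hC - hp) ^ 2 := mul_nonneg hγ (sq_nonneg _)
    have e5 : α * ((hp - hA) * (hp - hC)) = 0 := by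
      have : α * ((hp - hA) * (hp - hC)) = α * (hA - hp) * (hC - hp) := by ring
      linarith
    have e6 : α = 0 := (mul_eq_zero.1 e5).resolve_right hFF.ne'
    have e7 : γ = 1 := by linarith
    rw [e6, e7] at e
    have e8 : hp - hC = 0 := by linarith
    rw [e8, mul_zero] at hFF
    exact lt_irrefl _ hFF
  · rcases eq_or_ne hq hB with hqe | hqe
    · right
      have hq := hqB hqe
      rw [hqe, sub_self, mul_zero] at e
      refine ⟨?_, hq⟩
      by_contra h1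
      have hpAC : ¬ (pA ∨ pC) := fun h => hne h hq
      push Not at hpAC
      have hFF := hF hpAC.1 hpAC.2
      have e1 : α * (hA - hp) = - (γ * (hC - hp)) := by linarith
      have e2 : α * (hA - hp) * (hC - hp) = - (γ * (hC - hp) ^ 2) := by rw [e1]; ring
      have e3 : 0 ≤ α * ((hp - hA) * (hp - hC)) := mul_nonneg hα hFF.le
      have e4 : 0 ≤ γ * (hC - hp) ^ 2 := mul_nonneg hγ (sq_nonneg _)
      have e5 : α * ((hp - hA) * (hp - hC)) = 0 := by
        have : α * ((hp - hA) * (hp - hC)) = α * (hA - hp) * (hC - hp) := by ring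
        linarith
      have e6 : α = 0 := (mul_eq_zero.1 e5).resolve_right hFF.ne'
      have e7 : γ * (hC - hp) ^ 2 = 0 := by
        have : α * ((hp - hA) * (hp - hC)) = α * (hA - hp) * (hC - hp) := by ring
        linarith
      have e8 : (hC - hp) ≠ 0 := by
        intro h
        have : hp - hC = 0 := by linarith
        rw [this, mul_zero] at hFF
        exact lt_irrefl _ hFF
      have e9 : γ = 0 := (mul_eq_zero.1 e7).resolve_right (pow_ne_zero _ e8)
      exact h1 (by linarith)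
    · exfalso
      have hd : hq - hB ≠ 0 := sub_ne_zero.2 hqe
      have hd2 : 0 < (hq - hB) ^ 2 := by positivity
      have e1 : 0 < β * (hq - hB) ^ 2 := mul_pos h0 hd2
      have e2 : α * (hA - hp) * (hq - hB) + γ * (hC - hp) * (hq - hB) = β * (hq - hB) ^ 2 := by
        have : (α * (hA - hp) + γ * (hC - hp)) * (hq - hB) = β * (hq - hB) * (hq - hB) := by
          rw [e]
        linarith
      have e3 : 0 ≤ α * ((hp - hA) * (hq - hB)) := mul_nonneg hα hG1
      have e4 : 0 ≤ γ * ((hp - hC) * (hq - hB)) := mul_nonneg hγ hG2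
      have e5 : α * (hA - hp) * (hq - hB) = - (α * ((hp - hA) * (hq - hB))) := by ring
      have e6 : γ * (hC - hp) * (hq - hB) = - (γ * ((hp - hC) * (hq - hB))) := by ring
      linarith

/-- data of a triangle with vertices `A, B, C`, the vertices `A` and `C` at the same level and `B` at
an adjacent level -/
structure LvrTri (m : ℕ) (lv : ℕ → ℕ) (ht : ℕ → ℝ) (A B C : ℕ) : Prop where
  inj : ∀ a b, a ≤ m → b ≤ m → lv a = lv b → ht a = ht b → a = b
  Am : A ≤ m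
  Bm : B ≤ m
  Cm : C ≤ m
  AC : A ≠ C
  lC : lv C = lv A
  lB : lv B = lv A + 1 ∨ lv A = lv B + 1
  F : ∀ j, j ≤ m → lv j = lv A → j ≠ A → j ≠ C → 0 < (ht j - ht A) * (ht j - ht C)

/-- directed version of the non-crossing condition -/
def LvrG (lv : ℕ → ℕ) (ht : ℕ → ℝ) (A B C a b : ℕ) : Prop :=
  lv a = lv A → lv b = lv B → 0 ≤ (ht a - ht A) * (ht b - ht B) ∧
    0 ≤ (ht a - ht C) * (ht b - ht B) ∧ (a = A ∨ a = C → b ≠ B)

theorem lvr_half {m : ℕ} {lv : ℕ → ℕ} {ht : ℕ → ℝ} {A B C : ℕ} (hT : LvrTri m lv ht A B C)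
    {p q : ℕ} (hp : p ≤ m) (hq : q ≤ m)
    (hlpq : lv q = lv p + 1 ∨ lv p = lv q + 1) (hG : LvrG lv ht A B C p q)
    {α β γ s : ℝ} (hα : 0 ≤ α) (hβ : 0 ≤ β) (hγ : 0 ≤ γ) (hs : α + β + γ = 1)
    (hs0 : 0 ≤ s)
    (hX : α * (lv A : ℝ) + β * (lv B : ℝ) + γ * (lv C : ℝ) = (1 - s) * (lv p : ℝ) + s * (lv q : ℝ))
    (hY : α * ht A + β * ht B + γ * ht C = (1 - s) * ht p + s * ht q)
    (hpA : lv p = lv A) :
    (s = 0 ∧ (p = A ∨ p = B ∨ p = C)) ∨ (s = 1 ∧ (q = A ∨ q = B ∨ q = C)) := by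
  have hF := hT.F p hp hpA
  have hlC := hT.lC
  have hlB := hT.lB
  have hcase : lv q = lv B ∨ lv q ≠ lv B := em _
  rcases hcase with hqB | hqB
  · have hG' := hG hpA hqB
    have hbs : β = s := by
      rcases hlB with h | h
      · rw [hlC, h, hqB, hpA, h] at hX
        push_cast at hX
        have h2 : (α + β + γ) * (lv A : ℝ) = lv A := by rw [hs, one_mul]
        linarith
      · rw [hlC, hqB, hpA, h] at hX
        push_cast at hX
        have h2 : (α + β + γ) * (lv B : ℝ) = lv B := by rw [hs, one_mul]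
        linarith
    have := lvr_half1 (pA := p = A) (pC := p = C) (qB := q = B) hα hβ hγ hs hbs hY
      (fun h => hT.inj q B hq hT.Bm hqB h) hF hG'.1 hG'.2.1 hG'.2.2
    rcases this with ⟨h1, h2 | h2⟩ | ⟨h1, h2⟩
    · exact Or.inl ⟨h1, Or.inl h2⟩
    · exact Or.inl ⟨h1, Or.inr (Or.inr h2)⟩
    · exact Or.inr ⟨h1, Or.inr (Or.inl h2)⟩
  · have hbs : β = 0 ∧ s = 0 := by
      have h0 : β + s = 0 := by
        rcases hlB with h | h
        · have hq' : lv A = lv q + 1 := by omega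
          rw [hlC, h, hpA, hq'] at hX
          push_cast at hX
          have h2 : (α + β + γ) * (lv q : ℝ) = lv q := by rw [hs, one_mul]
          linarith
        · have hq' : lv q = lv A + 1 := by omega
          rw [hlC, hpA, hq', h] at hX
          push_cast at hX
          have h2 : (α + β + γ) * (lv B : ℝ) = lv B := by rw [hs, one_mul]
          linarith
      exact ⟨by linarith, by linarith⟩
    left
    refine ⟨hbs.2, ?_⟩
    by_contra hcon
    push Not at hcon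
    have hFF := hF hcon.1 hcon.2.2
    rw [hbs.1, hbs.2] at hY
    rw [hbs.1] at hs
    have hα1 : α = 1 - γ := by linarith
    rw [hα1] at hY hα
    have hpe : ht p = (1 - γ) * ht A + γ * ht C := by linarith
    rw [hpe] at hFF
    have e1 : ((1 - γ) * ht A + γ * ht C - ht A) * ((1 - γ) * ht A + γ * ht C - ht C)
        = - (γ * (1 - γ) * (ht A - ht C) ^ 2) := by ring
    rw [e1] at hFF
    have e2 : 0 ≤ γ * (1 - γ) * (ht A - ht C) ^ 2 := by positivity
    linarith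

theorem lvr_core {m : ℕ} {lv : ℕ → ℕ} {ht : ℕ → ℝ} {A B C : ℕ} (hT : LvrTri m lv ht A B C)
    {p q : ℕ} (hp : p ≤ m) (hq : q ≤ m)
    (hlpq : lv q = lv p + 1 ∨ lv p = lv q + 1) (hG : LvrG lv ht A B C p q)
    (hG' : LvrG lv ht A B C q p)
    {α β γ s : ℝ} (hα : 0 ≤ α) (hβ : 0 ≤ β) (hγ : 0 ≤ γ) (hs : α + β + γ = 1)
    (hs0 : 0 ≤ s) (hs1 : s ≤ 1)
    (hX : α * (lv A : ℝ) + β * (lv B : ℝ) + γ * (lv C : ℝ) = (1 - s) * (lv p : ℝ) + s * (lv q : ℝ))
    (hY : α * ht A + β * ht B + γ * ht C = (1 - s) * ht p + s * ht q) :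
    (s = 0 ∧ (p = A ∨ p = B ∨ p = C)) ∨ (s = 1 ∧ (q = A ∨ q = B ∨ q = C)) := by
  by_cases hpA : lv p = lv A
  · exact lvr_half hT hp hq hlpq hG hα hβ hγ hs hs0 hX hY hpA
  by_cases hqA : lv q = lv A
  · have := lvr_half hT hq hp hlpq.symm hG' hα hβ hγ hs (s := 1 - s) (by linarith)
      (by linarith) (by linarith) hqA
    rcases this with ⟨h1, h2⟩ | ⟨h1, h2⟩
    · exact Or.inr ⟨by linarith, h2⟩
    · exact Or.inl ⟨by linarith, h2⟩
  have hlC := hT.lC
  have hlB := hT.lB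
  have hsum : (α + β + γ) * (lv A : ℝ) = lv A := by rw [hs, one_mul]
  -- reduce to a level equation
  have hX2 : (lv A : ℝ) + β * ((lv B : ℝ) - lv A) = (lv p : ℝ) + s * ((lv q : ℝ) - lv p) := by
    rw [hlC] at hX
    linarith
  by_cases hpB : lv p = lv B
  · -- `s = 0` and `β = 1`
    have h0 : β = 1 + s := by
      rcases hlB with h | h
      · have hq' : lv q = lv A + 2 := by omega
        rw [hpB, hq', h] at hX2
        push_cast at hX2
        linarith
      · have hq' : lv B = lv q + 1 := by omega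
        rw [hpB, h, hq'] at hX2
        push_cast at hX2
        linarith
    have hs' : s = 0 := by linarith
    have hα' : α = 0 := by linarith
    have hγ' : γ = 0 := by linarith
    have hβ' : β = 1 := by linarith
    rw [hs', hα', hβ', hγ'] at hY
    left
    exact ⟨hs', Or.inr (Or.inl (hT.inj p B hp hT.Bm hpB (by linarith)))⟩
  by_cases hqB : lv q = lv B
  · have h0 : β = 1 + (1 - s) := by
      rcases hlB with h | h
      · have hq' : lv p = lv A + 2 := by omega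
        rw [hqB, hq', h] at hX2
        push_cast at hX2
        linarith
      · have hq' : lv B = lv p + 1 := by omega
        rw [hqB, h, hq'] at hX2
        push_cast at hX2
        linarith
    have hs' : s = 1 := by linarith
    have hα' : α = 0 := by linarith
    have hγ' : γ = 0 := by linarith
    have hβ' : β = 1 := by linarith
    rw [hs', hα', hβ', hγ'] at hY
    right
    exact ⟨hs', Or.inr (Or.inl (hT.inj q B hq hT.Bm hqB (by linarith)))⟩
  exfalso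
  have hβ1 : β ≤ 1 := by linarith
  rcases hlB with h | h
  · rw [h] at hX2 hpB hqB
    push_cast at hX2
    rcases hlpq with h' | h'
    · rw [h'] at hX2 hqB hqA
      push_cast at hX2
      have : lv p + 2 ≤ lv A ∨ lv A + 2 ≤ lv p := by omega
      rcases this with h3 | h3
      · have h4 : ((lv p + 2 : ℕ) : ℝ) ≤ lv A := by exact_mod_cast h3
        push_cast at h4
        linarith
      · have h4 : ((lv A + 2 : ℕ) : ℝ) ≤ lv p := by exact_mod_cast h3
        push_cast at h4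
        linarith
    · rw [h'] at hX2 hpB hpA
      push_cast at hX2
      have : lv q + 2 ≤ lv A ∨ lv A + 2 ≤ lv q := by omega
      rcases this with h3 | h3
      · have h4 : ((lv q + 2 : ℕ) : ℝ) ≤ lv A := by exact_mod_cast h3
        push_cast at h4
        linarith
      · have h4 : ((lv A + 2 : ℕ) : ℝ) ≤ lv q := by exact_mod_cast h3
        push_cast at h4
        linarith
  · rw [h] at hX2 hpA hqA
    push_cast at hX2
    rcases hlpq with h' | h'
    · rw [h'] at hX2 hqB hqA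
      push_cast at hX2
      have : lv p + 2 ≤ lv B ∨ lv B + 2 ≤ lv p := by omega
      rcases this with h3 | h3
      · have h4 : ((lv p + 2 : ℕ) : ℝ) ≤ lv B := by exact_mod_cast h3
        push_cast at h4
        linarith
      · have h4 : ((lv B + 2 : ℕ) : ℝ) ≤ lv p := by exact_mod_cast h3
        push_cast at h4
        linarith
    · rw [h'] at hX2 hpB hpA
      push_cast at hX2
      have : lv q + 2 ≤ lv B ∨ lv B + 2 ≤ lv q := by omega
      rcases this with h3 | h3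
      · have h4 : ((lv q + 2 : ℕ) : ℝ) ≤ lv B := by exact_mod_cast h3
        push_cast at h4
        linarith
      · have h4 : ((lv B + 2 : ℕ) : ℝ) ≤ lv q := by exact_mod_cast h3
        push_cast at h4
        linarith

theorem lvr_oth (i : Fin 2) : ∃ i' : Fin 2, i' ≠ i ∧ ∀ j, j = i ∨ j = i' := by
  fin_cases i
  · exact ⟨1, by decide, by decide⟩
  · exact ⟨0, by decide, by decide⟩

theorem lvr_tri {V : Type*} [AddCommGroup V] [Module ℝ V] {a b c x : V}
    (hx : x ∈ convexHull ℝ {a, b, c}) :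
    ∃ α β γ : ℝ, 0 ≤ α ∧ 0 ≤ β ∧ 0 ≤ γ ∧ α + β + γ = 1 ∧ α • a + β • b + γ • c = x := by
  rw [convexHull_insert (by simp), convexHull_pair, mem_convexJoin] at hx
  obtain ⟨a', ha', y, hy, hx⟩ := hx
  rw [mem_singleton_iff] at ha'
  subst ha'
  obtain ⟨s, t, hs, ht, hst, rfl⟩ := hx
  obtain ⟨u, v, hu, hv, huv, rfl⟩ := hy
  refine ⟨s, t * u, t * v, hs, mul_nonneg ht hu, mul_nonneg ht hv, ?_, ?_⟩
  · rw [add_assoc, ← mul_add, huv, mul_one, hst]
  · rw [smul_add, smul_smul, smul_smul, add_assoc]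

theorem lvr_seg {V : Type*} [AddCommGroup V] [Module ℝ V] {a b x : V}
    (hx : x ∈ segment ℝ a b) : ∃ s : ℝ, 0 ≤ s ∧ s ≤ 1 ∧ (1 - s) • a + s • b = x := by
  obtain ⟨s, t, hs, ht, hst, rfl⟩ := hx
  refine ⟨t, ht, by linarith, ?_⟩
  congr 2
  linarith

theorem lvr_compact {n : ℕ} (a b : E n) : IsCompact (segment ℝ a b) := by
  rw [segment_eq_image_lineMap]
  exact isCompact_Icc.image (AffineMap.lineMap_continuous)

theorem lvr_indep0 (i i' : Fin 2) (p : Fin 3 → E 2)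
    (hd : (p 1 i - p 0 i) * (p 2 i' - p 0 i') - (p 1 i' - p 0 i') * (p 2 i - p 0 i) ≠ 0) :
    AffineIndependent ℝ p := by
  rw [affineIndependent_iff_of_fintype]
  intro w hw h
  have key : (Finset.univ.weightedVSub p) w = ∑ j, w j • p j :=
    Finset.weightedVSub_eq_linear_combination _ (by simpa using hw)
  rw [key] at h
  simp only [Fin.sum_univ_three] at hw h
  have h1 := congrFun h i
  have h2 := congrFun h i'
  simp only [Pi.add_apply, Pi.smul_apply, smul_eq_mul, Pi.zero_apply] at h1 h2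
  have hw0 : w 0 = - w 1 - w 2 := by linarith
  rw [hw0] at h1 h2
  have e1 : w 1 * ((p 1 i - p 0 i) * (p 2 i' - p 0 i') - (p 1 i' - p 0 i') * (p 2 i - p 0 i))
      = 0 := by
    linear_combination (p 2 i' - p 0 i') * h1 - (p 2 i - p 0 i) * h2
  have e2 : w 2 * ((p 1 i - p 0 i) * (p 2 i' - p 0 i') - (p 1 i' - p 0 i') * (p 2 i - p 0 i))
      = 0 := by
    linear_combination (p 1 i - p 0 i) * h2 - (p 1 i' - p 0 i') * h1
  have f1 : w 1 = 0 := (mul_eq_zero.1 e1).resolve_right hd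
  have f2 : w 2 = 0 := (mul_eq_zero.1 e2).resolve_right hd
  have f0 : w 0 = 0 := by rw [hw0, f1, f2]; ring
  intro j
  fin_cases j
  · exact f0
  · exact f1
  · exact f2

theorem lvr_indep (i i' : Fin 2) (a b c : E 2)
    (hd : (b i - a i) * (c i' - a i') - (b i' - a i') * (c i - a i) ≠ 0) :
    AffineIndependent ℝ ![a, b, c] := lvr_indep0 i i' ![a, b, c] hd

theorem lvr_lpt_i (i : Fin 2) (x0 r : ℝ) (l : ℕ) (h : ℝ) : lpt i x0 r l h i = x0 + l * r := by
  simp [lpt]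

theorem lvr_lpt_o (i i' : Fin 2) (hi : i' ≠ i) (x0 r : ℝ) (l : ℕ) (h : ℝ) :
    lpt i x0 r l h i' = h := by
  simp [lpt, hi]

/-- meeting of a triangle with an edge -/
theorem lvr_meet {m : ℕ} {lv : ℕ → ℕ} {ht : ℕ → ℝ} {A B C : ℕ} (hT : LvrTri m lv ht A B C)
    {p q : ℕ} (hp : p ≤ m) (hq : q ≤ m)
    (hlpq : lv q = lv p + 1 ∨ lv p = lv q + 1) (hG : LvrG lv ht A B C p q)
    (hG' : LvrG lv ht A B C q p) (i : Fin 2) {x0 r : ℝ} (hr : 0 < r) {x : E 2}
    (hx : x ∈ convexHull ℝ {lpt i x0 r (lv A) (ht A), lpt i x0 r (lv B) (ht B),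
      lpt i x0 r (lv C) (ht C)})
    (hxs : x ∈ segment ℝ (lpt i x0 r (lv p) (ht p)) (lpt i x0 r (lv q) (ht q))) :
    (x = lpt i x0 r (lv p) (ht p) ∧ (p = A ∨ p = B ∨ p = C)) ∨
      (x = lpt i x0 r (lv q) (ht q) ∧ (q = A ∨ q = B ∨ q = C)) := by
  obtain ⟨i', hi, -⟩ := lvr_oth i
  obtain ⟨α, β, γ, hα, hβ, hγ, hs, e1⟩ := lvr_tri hx
  obtain ⟨s, hs0, hs1, e2⟩ := lvr_seg hxs
  have e3 := e1.trans e2.symm
  have hi1 := congrFun e3 i
  have hi2 := congrFun e3 i'
  simp only [Pi.add_apply, Pi.smul_apply, smul_eq_mul, lvr_lpt_i, lvr_lpt_o i i' hi] at hi1 hi2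
  have hX : α * (lv A : ℝ) + β * (lv B : ℝ) + γ * (lv C : ℝ)
      = (1 - s) * (lv p : ℝ) + s * (lv q : ℝ) := by
    have h1 : (α * (lv A : ℝ) + β * (lv B : ℝ) + γ * (lv C : ℝ)) * r
      = ((1 - s) * (lv p : ℝ) + s * (lv q : ℝ)) * r := by
      have h2 : (α + β + γ) * x0 = x0 := by rw [hs, one_mul]
      linarith
    exact mul_right_cancel₀ hr.ne' h1
  rcases lvr_core hT hp hq hlpq hG hG' hα hβ hγ hs hs0 hs1 hX hi2 with ⟨h1, h2⟩ | ⟨h1, h2⟩
  · left
    refine ⟨?_, h2⟩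
    rw [← e2, h1]
    simp
  · right
    refine ⟨?_, h2⟩
    rw [← e2, h1]
    simp

/-- the `i`-th coordinate on a triangle of levelled points -/
theorem lvr_tri_bd {i : Fin 2} {a b c x : E 2} {L U : ℝ}
    (hx : x ∈ convexHull ℝ {a, b, c}) (ha : L ≤ a i ∧ a i ≤ U) (hb : L ≤ b i ∧ b i ≤ U)
    (hc : L ≤ c i ∧ c i ≤ U) : L ≤ x i ∧ x i ≤ U := by
  obtain ⟨α, β, γ, hα, hβ, hγ, hs, rfl⟩ := lvr_tri hx
  simp only [Pi.add_apply, Pi.smul_apply, smul_eq_mul]
  constructor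
  · have h1 := mul_le_mul_of_nonneg_left ha.1 hα
    have h2 := mul_le_mul_of_nonneg_left hb.1 hβ
    have h3 := mul_le_mul_of_nonneg_left hc.1 hγ
    have h4 : (α + β + γ) * L = L := by rw [hs, one_mul]
    linarith
  · have h1 := mul_le_mul_of_nonneg_left ha.2 hα
    have h2 := mul_le_mul_of_nonneg_left hb.2 hβ
    have h3 := mul_le_mul_of_nonneg_left hc.2 hγ
    have h4 : (α + β + γ) * U = U := by rw [hs, one_mul]
    linarith

/-- the fixed compact set: some edges and the two straight pieces outside -/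
def lvr_K (i : Fin 2) (P : ℕ → E 2) (m : ℕ) (δ : ℝ) (J : Set ℕ) : Set (E 2) :=
  (⋃ j ∈ J, segment ℝ (P j) (P (j + 1))) ∪ (segment ℝ (P 0) (P 0 - δ • ee i) ∪
    segment ℝ (P m) (P m + δ • ee i))

theorem lvr_K_compact (i : Fin 2) (P : ℕ → E 2) (m : ℕ) (δ : ℝ) (J : Set ℕ) (hJ : J.Finite) :
    IsCompact (lvr_K i P m δ J) :=
  (hJ.isCompact_biUnion fun _ _ => lvr_compact _ _).union
    ((lvr_compact _ _).union (lvr_compact _ _))

/-- disjointness from a triangle -/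
theorem lvr_K_disj {m M : ℕ} {lv : ℕ → ℕ} {ht : ℕ → ℝ} (hL : Lev m M lv ht) {A B C : ℕ}
    (hT : LvrTri m lv ht A B C) (hA : 0 < A ∧ A < m) (hB : 0 < B ∧ B < m) (hC : 0 < C ∧ C < m)
    (i : Fin 2) {x0 r : ℝ} (hr : 0 < r) (δ : ℝ) (hδ : 0 < δ)
    (J : Set ℕ) (hJ : ∀ j ∈ J, j < m ∧ (j ≠ A ∧ j ≠ B ∧ j ≠ C ∧ j + 1 ≠ A ∧ j + 1 ≠ B ∧ j + 1 ≠ C))
    (hG : ∀ j ∈ J, LvrG lv ht A B C j (j + 1) ∧ LvrG lv ht A B C (j + 1) j) :
    Disjoint (lvr_K i (fun v => lpt i x0 r (lv v) (ht v)) m δ J)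
      (convexHull ℝ {lpt i x0 r (lv A) (ht A), lpt i x0 r (lv B) (ht B),
      lpt i x0 r (lv C) (ht C)}) := by
  rw [Set.disjoint_left]
  intro x hx hxT
  have hbd : ∀ v, 0 < v ∧ v < m → x0 + r ≤ lpt i x0 r (lv v) (ht v) i ∧
      lpt i x0 r (lv v) (ht v) i ≤ x0 + ((M : ℝ) - 1) * r := by
    intro v hv
    rw [lvr_lpt_i]
    have h1 := hL.pos v hv.1 hv.2.le
    have h2 := hL.lt v hv.2
    have h1' : (1 : ℝ) ≤ lv v := by exact_mod_cast h1
    have h2' : (lv v : ℝ) ≤ (M : ℝ) - 1 := by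
      have : (lv v : ℝ) + 1 ≤ M := by exact_mod_cast h2
      linarith
    constructor
    · have := mul_le_mul_of_nonneg_right h1' hr.le
      linarith
    · have := mul_le_mul_of_nonneg_right h2' hr.le
      linarith
  have hxb := lvr_tri_bd hxT (hbd A hA) (hbd B hB) (hbd C hC)
  rcases hx with hx | hx | hx
  · simp only [mem_iUnion, exists_prop] at hx
    obtain ⟨j, hj, hx⟩ := hx
    obtain ⟨hjm, hj'⟩ := hJ j hj
    have := lvr_meet hT (by omega) (by omega) (hL.step j hjm) (hG j hj).1 (hG j hj).2 i hr hxT hx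
    rcases this with ⟨-, h⟩ | ⟨-, h⟩
    · omega
    · omega
  · obtain ⟨s, hs0, hs1, rfl⟩ := lvr_seg hx
    have h1 := hxb.1
    simp only [Pi.add_apply, Pi.smul_apply, Pi.sub_apply, smul_eq_mul, lvr_lpt_i, ee,
      Pi.single_eq_same, hL.zero] at h1
    push_cast at h1
    have := mul_nonneg hs0 hδ.le
    linarith
  · obtain ⟨s, hs0, hs1, rfl⟩ := lvr_seg hx
    have h1 := hxb.2
    simp only [Pi.add_apply, Pi.smul_apply, smul_eq_mul, lvr_lpt_i, ee,
      Pi.single_eq_same, hL.top] at h1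
    have := mul_nonneg hs0 hδ.le
    linarith

theorem lvr_touch {m : ℕ} {lv : ℕ → ℕ} {ht : ℕ → ℝ} {A B C : ℕ} (hT : LvrTri m lv ht A B C)
    {p q : ℕ} (hp : p ≤ m) (hq : q ≤ m)
    (hlpq : lv q = lv p + 1 ∨ lv p = lv q + 1) (hG : LvrG lv ht A B C p q)
    (hG' : LvrG lv ht A B C q p) (i : Fin 2) {x0 r : ℝ} (hr : 0 < r)
    (h1 : p = A ∨ p = B ∨ p = C) (h2 : q ≠ A ∧ q ≠ B ∧ q ≠ C) :
    segment ℝ (lpt i x0 r (lv p) (ht p)) (lpt i x0 r (lv q) (ht q)) ∩
      convexHull ℝ {lpt i x0 r (lv A) (ht A), lpt i x0 r (lv B) (ht B),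
      lpt i x0 r (lv C) (ht C)} = {lpt i x0 r (lv p) (ht p)} := by
  ext x
  rw [mem_singleton_iff]
  constructor
  · rintro ⟨hxs, hx⟩
    rcases lvr_meet hT hp hq hlpq hG hG' i hr hx hxs with ⟨h, -⟩ | ⟨-, h⟩
    · exact h
    · omega
  · rintro rfl
    refine ⟨left_mem_segment _ _ _, subset_convexHull ℝ _ ?_⟩
    rcases h1 with rfl | rfl | rfl <;> simp

theorem lvr_G1 {m M : ℕ} {lv : ℕ → ℕ} {ht : ℕ → ℝ} (hL : Lev m M lv ht) {k : ℕ}
    (hk : LvrMin m lv k) {a b : ℕ} (hadj : lvr_adj m a b) (ha : a ≠ k + 2) :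
    LvrG lv ht k (k + 3) (k + 2) a b := by
  intro h1 h2
  obtain ⟨hk1, hk4, hl2, hl3⟩ := lvr_pos hL hk
  refine ⟨lvr_new hL hk hadj ha h1 h2,
    lvr_nc hL hadj (⟨by omega, by omega, Or.inl rfl⟩ : lvr_adj m (k + 2) (k + 3))
      (by omega) h2, ?_⟩
  have := hadj.2.2
  omega

theorem lvr_G2 {m M : ℕ} {lv : ℕ → ℕ} {ht : ℕ → ℝ} (hL : Lev m M lv ht) {k : ℕ}
    (hk : LvrMin m lv k) {a b : ℕ} (hadj : lvr_adj m a b) (hab : a = k ∨ a = k + 2 → b ≠ k + 1) :
    LvrG lv ht k (k + 1) (k + 2) a b := by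
  intro h1 h2
  obtain ⟨hk1, hk4, hl2, hl3⟩ := lvr_pos hL hk
  exact ⟨lvr_nc hL hadj (⟨by omega, by omega, Or.inl rfl⟩ : lvr_adj m k (k + 1)) h1 h2,
    lvr_nc hL hadj (⟨by omega, by omega, Or.inr rfl⟩ : lvr_adj m (k + 2) (k + 1))
      (by omega) h2, hab⟩

theorem lvr_fix {X : Type*} {h : X → X} {S : Set X} (hh : ∀ x ∈ S, h x = x) : h '' S = S := by
  ext x
  constructor
  · rintro ⟨y, hy, rfl⟩
    rw [hh y hy]
    exact hy
  · intro hx
    exact ⟨x, hx, hh x hx⟩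

/-- the remaining edges -/
def lvr_R (P : ℕ → E 2) (m k : ℕ) : Set (E 2) :=
  ⋃ j ∈ {j | j < m ∧ (j < k ∨ k + 2 < j)}, segment ℝ (P j) (P (j + 1))

theorem lvr_poly' (P : ℕ → E 2) (m k : ℕ) (hk : k + 4 ≤ m) :
    poly (fun j => P (lvr_s k j)) (m - 2) = segment ℝ (P k) (P (k + 3)) ∪ lvr_R P m k := by
  ext x
  simp only [poly, lvr_R, mem_iUnion, mem_union, exists_prop, mem_ofPred_eq]
  constructor
  · rintro ⟨j, hj, hx⟩
    rcases lt_trichotomy j k with h | h | h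
    · right
      refine ⟨j, ⟨by omega, Or.inl h⟩, ?_⟩
      have e1 : lvr_s k j = j := by unfold lvr_s; split_ifs <;> omega
      have e2 : lvr_s k (j + 1) = j + 1 := by unfold lvr_s; split_ifs <;> omega
      rwa [e1, e2] at hx
    · left
      subst h
      have e1 : lvr_s j j = j := by unfold lvr_s; split_ifs <;> omega
      have e2 : lvr_s j (j + 1) = j + 3 := by unfold lvr_s; split_ifs <;> omega
      rwa [e1, e2] at hx
    · right
      refine ⟨j + 2, ⟨by omega, Or.inr (by omega)⟩, ?_⟩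
      have e1 : lvr_s k j = j + 2 := by unfold lvr_s; split_ifs <;> omega
      have e2 : lvr_s k (j + 1) = j + 2 + 1 := by unfold lvr_s; split_ifs <;> omega
      rwa [e1, e2] at hx
  · rintro (hx | ⟨j, ⟨hj, h | h⟩, hx⟩)
    · refine ⟨k, by omega, ?_⟩
      have e1 : lvr_s k k = k := by unfold lvr_s; split_ifs <;> omega
      have e2 : lvr_s k (k + 1) = k + 3 := by unfold lvr_s; split_ifs <;> omega
      rwa [e1, e2]
    · refine ⟨j, by omega, ?_⟩
      have e1 : lvr_s k j = j := by unfold lvr_s; split_ifs <;> omega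
      have e2 : lvr_s k (j + 1) = j + 1 := by unfold lvr_s; split_ifs <;> omega
      rwa [e1, e2]
    · refine ⟨j - 2, by omega, ?_⟩
      have e1 : lvr_s k (j - 2) = j := by unfold lvr_s; split_ifs <;> omega
      have e2 : lvr_s k (j - 2 + 1) = j + 1 := by unfold lvr_s; split_ifs <;> omega
      rwa [e1, e2]

theorem lvr_poly (P : ℕ → E 2) (m k : ℕ) (hk : k + 4 ≤ m) :
    poly P m = (segment ℝ (P k) (P (k + 1)) ∪ segment ℝ (P (k + 1)) (P (k + 2))) ∪
      segment ℝ (P (k + 2)) (P (k + 3)) ∪ lvr_R P m k := by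
  ext x
  simp only [poly, lvr_R, mem_iUnion, mem_union, exists_prop, mem_ofPred_eq]
  constructor
  · rintro ⟨j, hj, hx⟩
    have : j < k ∨ k + 2 < j ∨ j = k ∨ j = k + 1 ∨ j = k + 2 := by omega
    rcases this with h | h | rfl | rfl | rfl
    · exact Or.inr ⟨j, ⟨hj, Or.inl h⟩, hx⟩
    · exact Or.inr ⟨j, ⟨hj, Or.inr h⟩, hx⟩
    · exact Or.inl (Or.inl (Or.inl hx))
    · exact Or.inl (Or.inl (Or.inr hx))
    · exact Or.inl (Or.inr hx)
  · rintro (((hx | hx) | hx) | ⟨j, ⟨hj, h⟩, hx⟩)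
    · exact ⟨k, by omega, hx⟩
    · exact ⟨k + 1, by omega, hx⟩
    · exact ⟨k + 2, by omega, hx⟩
    · exact ⟨j, hj, hx⟩

/-- LVR -/
theorem lev_reduce {R : ℝ} (i : Fin 2) (x0 r : ℝ) (hr : 0 < r) (m M : ℕ)
    (lv : ℕ → ℕ) (ht : ℕ → ℝ) (hL : Lev m M lv ht)
    (hfold : ∃ k, k + 2 ≤ m ∧ lv (k + 1) = lv k + 1 ∧ lv (k + 1) = lv (k + 2) + 1)
    (B : Set (E 2)) (hB : IsOpen B) (hBc : Convex ℝ B) (hBR : B ⊆ Metric.ball 0 R)
    (hpB : ∀ k, k ≤ m → lpt i x0 r (lv k) (ht k) ∈ B) (δ : ℝ) (hδ : 0 < δ) :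
    ∃ (m' : ℕ) (lv' : ℕ → ℕ) (ht' : ℕ → ℝ), m' + 2 = m ∧ 1 ≤ m' ∧ Lev m' M lv' ht' ∧
      lv' 0 = lv 0 ∧ ht' 0 = ht 0 ∧ lv' m' = lv m ∧ ht' m' = ht m ∧
      (∀ k, k ≤ m' → lpt i x0 r (lv' k) (ht' k) ∈ B) ∧
      ∃ h : HC 2 R, Supp h B ∧
      (∀ x ∈ segment ℝ (lpt i x0 r (lv 0) (ht 0)) (lpt i x0 r (lv 0) (ht 0) - δ • ee i),
        (h : E 2 ≃ₜ E 2) x = x) ∧
      (∀ x ∈ segment ℝ (lpt i x0 r (lv m) (ht m)) (lpt i x0 r (lv m) (ht m) + δ • ee i),
        (h : E 2 ≃ₜ E 2) x = x) ∧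
      (h : E 2 ≃ₜ E 2) '' poly (fun k => lpt i x0 r (lv' k) (ht' k)) m' =
        poly (fun k => lpt i x0 r (lv k) (ht k)) m := by
  obtain ⟨k, hk⟩ := lvr_exists_min hfold
  obtain ⟨hk1, hk4, hl2, hl3⟩ := lvr_pos hL hk
  have hup := hk.up
  have hdown := hk.down
  obtain ⟨i', hi, hall⟩ := lvr_oth i
  have hm2 : lvr_s k (m - 2) = m := by unfold lvr_s; split_ifs <;> omega
  have h02 : lvr_s k 0 = 0 := by simp [lvr_s]
  have hsm : ∀ j, j ≤ m - 2 → lvr_s k j ≤ m := by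
    intro j hj
    unfold lvr_s; split_ifs <;> omega
  refine ⟨m - 2, fun j => lv (lvr_s k j), fun j => ht (lvr_s k j), by omega, by omega,
    lvr_lev hL hk, ?_, ?_, ?_, ?_, fun j hj => hpB _ (hsm j hj), ?_⟩
  · simp only [h02]
  · simp only [h02]
  · simp only [hm2]
  · simp only [hm2]
  set P : ℕ → E 2 := fun v => lpt i x0 r (lv v) (ht v) with hP
  have hPi : ∀ v, P v i = x0 + lv v * r := fun v => lvr_lpt_i i x0 r _ _
  have hPo : ∀ v, P v i' = ht v := fun v => lvr_lpt_o i i' hi x0 r _ _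
  have hne : ∀ a b, lv a ≠ lv b → P a ≠ P b := by
    intro a b hab he
    have h1 := congrFun he i
    rw [hPi, hPi] at h1
    have h2 : (lv a : ℝ) * r = lv b * r := by linarith
    have h3 := mul_right_cancel₀ hr.ne' h2
    exact hab (by exact_mod_cast h3)
  have hht : ht k ≠ ht (k + 2) := fun h => by
    have := hL.inj k (k + 2) (by omega) (by omega) hl2.symm h
    omega
  have hT1 : LvrTri m lv ht k (k + 3) (k + 2) :=
    ⟨hL.inj, by omega, by omega, by omega, by omega, hl2, hl3,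
      fun j hj h1 h2 h3 => lvr_F hL hk j hj h1 h2 h3⟩
  have hT2 : LvrTri m lv ht k (k + 1) (k + 2) :=
    ⟨hL.inj, by omega, by omega, by omega, by omega, hl2, Or.inl hup,
      fun j hj h1 h2 h3 => lvr_F hL hk j hj h1 h2 h3⟩
  have hsub : ∀ a b c, a ≤ m → b ≤ m → c ≤ m → convexHull ℝ {P a, P b, P c} ⊆ B := by
    intro a b c ha hb hc
    refine convexHull_min ?_ hBc
    intro x hx
    simp only [mem_insert_iff, mem_singleton_iff] at hx
    rcases hx with rfl | rfl | rfl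
    · exact hpB a ha
    · exact hpB b hb
    · exact hpB c hc
  obtain ⟨k0, rfl⟩ : ∃ k0, k = k0 + 1 := ⟨k - 1, by omega⟩
  -- the sets of edges
  have hJfin : ∀ Q : ℕ → Prop, {j | j < m ∧ Q j}.Finite := fun Q =>
    (Set.finite_lt_nat m).subset fun j hj => hj.1
  -- first move
  obtain ⟨h1, h1B, h1K, h1a, h1c, h1im⟩ := elem_move (R := R) (P (k0 + 1)) (P (k0 + 1 + 2))
    (P (k0 + 1 + 3)) (by
      apply lvr_indep i i'
      rw [hPi, hPi, hPi, hPo, hPo, hPo, hl2]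
      rw [sub_self, zero_mul, zero_sub]
      apply neg_ne_zero.2
      apply mul_ne_zero (sub_ne_zero.2 hht.symm)
      rcases hl3 with h | h
      · rw [h]; push_cast
        have : x0 + ((lv (k0 + 1) : ℝ) + 1) * r - (x0 + lv (k0 + 1) * r) = r := by ring
        rw [this]; exact hr.ne'
      · rw [h]; push_cast
        have : x0 + (lv (k0 + 1 + 3) : ℝ) * r - (x0 + ((lv (k0 + 1 + 3) : ℝ) + 1) * r) = -r := by
          ring
        rw [this]; exact neg_ne_zero.2 hr.ne')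
    B hB hBR (hsub _ _ _ (by omega) (by omega) (by omega)) (P k0) (P (k0 + 1 + 4))
    (by
      rw [Set.pair_comm]
      exact lvr_touch hT1 (by omega) (by omega) (hL.step k0 (by omega)).symm
        (lvr_G1 hL hk ⟨by omega, by omega, Or.inr rfl⟩ (by omega))
        (lvr_G1 hL hk ⟨by omega, by omega, Or.inl rfl⟩ (by omega)) i hr (Or.inl rfl) (by omega))
    (hne _ _ (by have := hL.step k0 (by omega); omega))
    (by
      rw [Set.pair_comm]
      exact lvr_touch hT1 (by omega) (by omega) (hL.step (k0 + 1 + 3) (by omega))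
        (lvr_G1 hL hk ⟨by omega, by omega, Or.inl rfl⟩ (by omega))
        (lvr_G1 hL hk ⟨by omega, by omega, Or.inr rfl⟩ (by omega)) i hr (Or.inr (Or.inl rfl))
        (by omega))
    (hne _ _ (by
      have h := hL.step (k0 + 1 + 3) (by omega)
      have h' : lv (k0 + 1 + 4) = lv (k0 + 1 + 3) + 1 ∨ lv (k0 + 1 + 3) = lv (k0 + 1 + 4) + 1 := h
      omega))
    (lvr_K i P m δ {j | j < m ∧ (j < k0 ∨ k0 + 4 < j)}) (lvr_K_compact i P m δ _ (hJfin _))
    (by
      rw [Set.pair_comm]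
      refine lvr_K_disj hL hT1 (by omega) (by omega) (by omega) i hr δ hδ _ ?_ ?_
      · rintro j ⟨h1, h2⟩
        exact ⟨h1, by omega⟩
      · rintro j ⟨h1, h2⟩
        exact ⟨lvr_G1 hL hk ⟨by omega, by omega, Or.inl rfl⟩ (by omega),
          lvr_G1 hL hk ⟨by omega, by omega, Or.inr rfl⟩ (by omega)⟩)
  -- second move
  obtain ⟨h2, h2B, h2K, h2a, h2c, h2im⟩ := elem_move (R := R) (P (k0 + 1)) (P (k0 + 1 + 1))
    (P (k0 + 1 + 2)) (by
      apply lvr_indep i i'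
      rw [hPi, hPi, hPi, hPo, hPo, hPo, hl2]
      rw [sub_self, mul_zero, sub_zero]
      refine mul_ne_zero ?_ (sub_ne_zero.2 hht.symm)
      rw [hup]; push_cast
      have : x0 + ((lv (k0 + 1) : ℝ) + 1) * r - (x0 + lv (k0 + 1) * r) = r := by ring
      rw [this]; exact hr.ne')
    B hB hBR (hsub _ _ _ (by omega) (by omega) (by omega)) (P k0) (P (k0 + 1 + 3))
    (lvr_touch hT2 (by omega) (by omega) (hL.step k0 (by omega)).symm
        (lvr_G2 hL hk ⟨by omega, by omega, Or.inr rfl⟩ (by omega))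
        (lvr_G2 hL hk ⟨by omega, by omega, Or.inl rfl⟩ (by omega)) i hr (Or.inl rfl) (by omega))
    (hne _ _ (by have := hL.step k0 (by omega); omega))
    (lvr_touch hT2 (by omega) (by omega) (hL.step (k0 + 1 + 2) (by omega))
        (lvr_G2 hL hk ⟨by omega, by omega, Or.inl rfl⟩ (by omega))
        (lvr_G2 hL hk ⟨by omega, by omega, Or.inr rfl⟩ (by omega)) i hr (Or.inr (Or.inr rfl))
        (by omega))
    (hne _ _ (by
      have h := hL.step (k0 + 1 + 2) (by omega)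
      have h' : lv (k0 + 1 + 3) = lv (k0 + 1 + 2) + 1 ∨ lv (k0 + 1 + 2) = lv (k0 + 1 + 3) + 1 := h
      omega))
    (lvr_K i P m δ {j | j < m ∧ (j < k0 ∨ k0 + 3 < j)}) (lvr_K_compact i P m δ _ (hJfin _))
    (by
      refine lvr_K_disj hL hT2 (by omega) (by omega) (by omega) i hr δ hδ _ ?_ ?_
      · rintro j ⟨h1, h2⟩
        exact ⟨h1, by omega⟩
      · rintro j ⟨h1, h2⟩
        exact ⟨lvr_G2 hL hk ⟨by omega, by omega, Or.inl rfl⟩ (by omega),
          lvr_G2 hL hk ⟨by omega, by omega, Or.inr rfl⟩ (by omega)⟩)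
  -- the remaining edges are fixed
  have hR1 : ∀ x ∈ lvr_R P m (k0 + 1), (h1 : E 2 ≃ₜ E 2) x = x := by
    intro x hx
    simp only [lvr_R, mem_iUnion, exists_prop, mem_ofPred_eq] at hx
    obtain ⟨j, ⟨hj, hj'⟩, hx⟩ := hx
    have : j = k0 ∨ j = k0 + 1 + 3 ∨ (j < k0 ∨ k0 + 4 < j) := by omega
    rcases this with rfl | rfl | h
    · rw [segment_symm] at hx
      exact h1a x hx
    · exact h1c x hx
    · exact h1K x (Or.inl (mem_biUnion (show j ∈ {j | j < m ∧ (j < k0 ∨ k0 + 4 < j)} from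
        ⟨hj, h⟩) hx))
  have hR2 : ∀ x ∈ lvr_R P m (k0 + 1), (h2 : E 2 ≃ₜ E 2) x = x := by
    intro x hx
    simp only [lvr_R, mem_iUnion, exists_prop, mem_ofPred_eq] at hx
    obtain ⟨j, ⟨hj, hj'⟩, hx⟩ := hx
    have : j = k0 ∨ (j < k0 ∨ k0 + 3 < j) := by omega
    rcases this with rfl | h
    · rw [segment_symm] at hx
      exact h2a x hx
    · exact h2K x (Or.inl (mem_biUnion (show j ∈ {j | j < m ∧ (j < k0 ∨ k0 + 3 < j)} from
        ⟨hj, h⟩) hx))
  refine ⟨h2 * h1, ?_, ?_, ?_, ?_⟩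
  · intro x hx
    show (h2 : E 2 ≃ₜ E 2) ((h1 : E 2 ≃ₜ E 2) x) = x
    rw [h1B x hx, h2B x hx]
  · intro x hx
    show (h2 : E 2 ≃ₜ E 2) ((h1 : E 2 ≃ₜ E 2) x) = x
    rw [h1K x (Or.inr (Or.inl hx)), h2K x (Or.inr (Or.inl hx))]
  · intro x hx
    show (h2 : E 2 ≃ₜ E 2) ((h1 : E 2 ≃ₜ E 2) x) = x
    rw [h1K x (Or.inr (Or.inr hx)), h2K x (Or.inr (Or.inr hx))]
  · have e1 : ((h2 * h1 : HC 2 R) : E 2 ≃ₜ E 2) '' poly (fun j => P (lvr_s (k0 + 1) j)) (m - 2)
        = (h2 : E 2 ≃ₜ E 2) '' ((h1 : E 2 ≃ₜ E 2) '' poly (fun j => P (lvr_s (k0 + 1) j)) (m - 2))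
        := by
      rw [image_image]
      rfl
    refine e1.trans ?_
    rw [lvr_poly' P m (k0 + 1) hk4, image_union, h1im, lvr_fix hR1, image_union, image_union,
      h2im, lvr_fix hR2, lvr_fix h2c, lvr_poly P m (k0 + 1) hk4]

end Pool.Agent.Lib_helper11.PLM
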