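import Pool.Agent.Lib_helper11.PLM.F.WDefs
import Pool.Agent.Lib_helper11.PLM.F.EMV


/-!
# Block UMO: monotone polygons are unknotted
-/

open Set Filter Topology
open scoped Manifold

namespace Pool.Agent.Lib_helper11.PLM

/-- points of a triangle -/
theorem umo_hull3 {n : ℕ} {a b c x : E n} (hx : x ∈ convexHull ℝ ({a, b, c} : Set (E n))) :
    ∃ α β γ : ℝ, 0 ≤ α ∧ 0 ≤ β ∧ 0 ≤ γ ∧ α + β + γ = 1 ∧ x = α • a + β • b + γ • c := by
  rw [convexHull_insert (insert_nonempty _ _), mem_convexJoin] at hx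
  obtain ⟨y, hy, z, hz, hx⟩ := hx
  rw [mem_singleton_iff] at hy
  subst hy
  rw [convexHull_pair] at hz
  obtain ⟨s, t, hs, ht, hst, rfl⟩ := hz
  obtain ⟨u, w, hu, hw, huw, rfl⟩ := hx
  refine ⟨u, w * s, w * t, hu, mul_nonneg hw hs, mul_nonneg hw ht, ?_, ?_⟩
  · rw [add_assoc, ← mul_add, hst, mul_one, huw]
  · rw [smul_add, smul_smul, smul_smul, add_assoc]

/-- the coordinate `i` on a triangle with the largest value at `c` -/
theorem umo_hull_le {n : ℕ} {a b c x : E n} {i : Fin n} (ha : a i < c i) (hb : b i < c i)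
    (hx : x ∈ convexHull ℝ ({a, b, c} : Set (E n))) : x i ≤ c i ∧ (c i ≤ x i → x = c) := by
  obtain ⟨α, β, γ, hα, hβ, hγ, hs, rfl⟩ := umo_hull3 hx
  have e1 : (α • a + β • b + γ • c) i = α * a i + β * b i + γ * c i := by
    simp [Pi.add_apply, Pi.smul_apply, smul_eq_mul]
  rw [e1]
  have h1 : 0 ≤ α * (c i - a i) := mul_nonneg hα (by linarith)
  have h2 : 0 ≤ β * (c i - b i) := mul_nonneg hβ (by linarith)
  have h3 : α * a i + β * b i + γ * c i = c i - α * (c i - a i) - β * (c i - b i) := by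
    have : γ = 1 - α - β := by linarith
    rw [this]; ring
  refine ⟨by rw [h3]; linarith, fun h => ?_⟩
  rw [h3] at h
  have h4 : α * (c i - a i) = 0 := by linarith
  have h5 : β * (c i - b i) = 0 := by linarith
  have h6 : α = 0 := by
    rcases mul_eq_zero.1 h4 with h | h
    · exact h
    · linarith
  have h7 : β = 0 := by
    rcases mul_eq_zero.1 h5 with h | h
    · exact h
    · linarith
  have h8 : γ = 1 := by linarith
  rw [h6, h7, h8]
  simp

/-- the coordinate `i` on a triangle with the least value at `a` -/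
theorem umo_hull_ge {n : ℕ} {a b c x : E n} {i : Fin n} (hb : a i < b i) (hc : a i < c i)
    (hx : x ∈ convexHull ℝ ({a, b, c} : Set (E n))) : a i ≤ x i ∧ (x i ≤ a i → x = a) := by
  obtain ⟨α, β, γ, hα, hβ, hγ, hs, rfl⟩ := umo_hull3 hx
  have e1 : (α • a + β • b + γ • c) i = α * a i + β * b i + γ * c i := by
    simp [Pi.add_apply, Pi.smul_apply, smul_eq_mul]
  rw [e1]
  have h1 : 0 ≤ β * (b i - a i) := mul_nonneg hβ (by linarith)
  have h2 : 0 ≤ γ * (c i - a i) := mul_nonneg hγ (by linarith)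
  have h3 : α * a i + β * b i + γ * c i = a i + β * (b i - a i) + γ * (c i - a i) := by
    have : α = 1 - β - γ := by linarith
    rw [this]; ring
  refine ⟨by rw [h3]; linarith, fun h => ?_⟩
  rw [h3] at h
  have h4 : β * (b i - a i) = 0 := by linarith
  have h5 : γ * (c i - a i) = 0 := by linarith
  have h6 : β = 0 := by
    rcases mul_eq_zero.1 h4 with h | h
    · exact h
    · linarith
  have h7 : γ = 0 := by
    rcases mul_eq_zero.1 h5 with h | h
    · exact h
    · linarith
  have h8 : α = 1 := by linarith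
  rw [h6, h7, h8]
  simp

/-- coordinates on the left bit -/
theorem umo_left {n : ℕ} {i : Fin n} {a x : E n} {δ : ℝ} (hδ : 0 < δ)
    (hx : x ∈ segment ℝ a (a - δ • ee i)) : x i ≤ a i := by
  obtain ⟨s, t, hs, ht, hst, rfl⟩ := hx
  have e1 : (s • a + t • (a - δ • ee i)) i = a i - t * δ := by
    simp only [ee, Pi.add_apply, Pi.smul_apply, Pi.sub_apply, smul_eq_mul, Pi.single_eq_same]
    have : s = 1 - t := by linarith
    rw [this]; ring
  rw [e1]
  have := mul_nonneg ht hδ.le
  linarith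

/-- coordinates on the right bit -/
theorem umo_right {n : ℕ} {i : Fin n} {a x : E n} {δ : ℝ} (hδ : 0 < δ)
    (hx : x ∈ segment ℝ a (a + δ • ee i)) : a i ≤ x i := by
  obtain ⟨s, t, hs, ht, hst, rfl⟩ := hx
  have e1 : (s • a + t • (a + δ • ee i)) i = a i + t * δ := by
    simp only [ee, Pi.add_apply, Pi.smul_apply, smul_eq_mul, Pi.single_eq_same]
    have : s = 1 - t := by linarith
    rw [this]; ring
  rw [e1]
  have := mul_nonneg ht hδ.le
  linarith

/-- coordinates on an edge -/
theorem umo_seg {n : ℕ} {i : Fin n} {a b x : E n} {r : ℝ} (ha : r ≤ a i) (hb : r ≤ b i)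
    (hx : x ∈ segment ℝ a b) : r ≤ x i := by
  obtain ⟨s, t, hs, ht, hst, rfl⟩ := hx
  have e1 : (s • a + t • b) i = s * a i + t * b i := by
    simp [Pi.add_apply, Pi.smul_apply, smul_eq_mul]
  rw [e1]
  have h1 : 0 ≤ s * (a i - r) := mul_nonneg hs (by linarith)
  have h2 : 0 ≤ t * (b i - r) := mul_nonneg ht (by linarith)
  have h3 : s * a i + t * b i = r + s * (a i - r) + t * (b i - r) := by
    have : s = 1 - t := by linarith
    rw [this]; ring
  rw [h3]; linarith

theorem umo_ne_left {n : ℕ} {i : Fin n} {a : E n} {δ : ℝ} (hδ : 0 < δ) : a - δ • ee i ≠ a := by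
  intro h
  have := congrFun h i
  simp only [ee, Pi.smul_apply, Pi.sub_apply, smul_eq_mul, Pi.single_eq_same] at this
  linarith

theorem umo_ne_right {n : ℕ} {i : Fin n} {a : E n} {δ : ℝ} (hδ : 0 < δ) : a + δ • ee i ≠ a := by
  intro h
  have := congrFun h i
  simp only [ee, Pi.smul_apply, Pi.add_apply, smul_eq_mul, Pi.single_eq_same] at this
  linarith

/-- segments are compact -/
theorem umo_segc {n : ℕ} (a b : E n) : IsCompact (segment ℝ a b) := by
  rw [← convexHull_pair]
  exact ((finite_singleton b).insert a).isCompact_convexHull ℝ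

/-- the downward induction -/
theorem umo_induct {n : ℕ} {R : ℝ} (p : ℕ → E n) (m : ℕ) (hm : 1 ≤ m) (B L Rt : Set (E n))
    (step : ∀ k, 1 ≤ k → k < m → ∃ h : HC n R, Supp h B ∧ (∀ x ∈ L, (h : E n ≃ₜ E n) x = x) ∧
      (∀ x ∈ Rt, (h : E n ≃ₜ E n) x = x) ∧
      (∀ j, k + 1 ≤ j → j < m → ∀ x ∈ segment ℝ (p j) (p (j + 1)), (h : E n ≃ₜ E n) x = x) ∧
      (h : E n ≃ₜ E n) '' segment ℝ (p 0) (p (k + 1)) =
        segment ℝ (p 0) (p k) ∪ segment ℝ (p k) (p (k + 1))) :
    ∃ ψ : HC n R, Supp ψ B ∧ (∀ x ∈ L, (ψ : E n ≃ₜ E n) x = x) ∧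
      (∀ x ∈ Rt, (ψ : E n ≃ₜ E n) x = x) ∧
      (ψ : E n ≃ₜ E n) '' segment ℝ (p 0) (p m) = poly p m := by
  have key : ∀ d, d < m → ∃ ψ : HC n R, Supp ψ B ∧ (∀ x ∈ L, (ψ : E n ≃ₜ E n) x = x) ∧
      (∀ x ∈ Rt, (ψ : E n ≃ₜ E n) x = x) ∧
      (ψ : E n ≃ₜ E n) '' segment ℝ (p 0) (p m) = segment ℝ (p 0) (p (m - d)) ∪
        {x | ∃ j, m - d ≤ j ∧ j < m ∧ x ∈ segment ℝ (p j) (p (j + 1))} := by
    intro d
    induction d with
    | zero =>
      intro _
      refine ⟨1, fun x _ => rfl, fun x _ => rfl, fun x _ => rfl, ?_⟩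
      have h1 : ∀ s : Set (E n), (((1 : HC n R) : E n ≃ₜ E n) '' s) = s := fun s => by
        ext x
        constructor
        · rintro ⟨y, hy, rfl⟩
          exact hy
        · intro hx
          exact ⟨x, hx, rfl⟩
      rw [h1, Nat.sub_zero]
      have h2 : {x | ∃ j, m ≤ j ∧ j < m ∧ x ∈ segment ℝ (p j) (p (j + 1))} = (∅ : Set (E n)) := by
        ext x
        simp only [mem_ofPred_eq, mem_empty_iff_false, iff_false]
        rintro ⟨j, h1, h2, -⟩
        omega
      rw [h2, union_empty]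
    | succ d ih =>
      intro hd
      obtain ⟨ψ, hB, hL, hR, hi⟩ := ih (by omega)
      obtain ⟨h, hhB, hhL, hhR, hhe, hhi⟩ := step (m - (d + 1)) (by omega) (by omega)
      have e1 : m - (d + 1) + 1 = m - d := by omega
      rw [e1] at hhe hhi
      refine ⟨h * ψ, ?_, ?_, ?_, ?_⟩
      · intro x hx
        show (h : E n ≃ₜ E n) ((ψ : E n ≃ₜ E n) x) = x
        rw [hB x hx, hhB x hx]
      · intro x hx
        show (h : E n ≃ₜ E n) ((ψ : E n ≃ₜ E n) x) = x
        rw [hL x hx, hhL x hx]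
      · intro x hx
        show (h : E n ≃ₜ E n) ((ψ : E n ≃ₜ E n) x) = x
        rw [hR x hx, hhR x hx]
      · have e2 : (((h * ψ : HC n R) : E n ≃ₜ E n) '' segment ℝ (p 0) (p m)) =
            (h : E n ≃ₜ E n) '' ((ψ : E n ≃ₜ E n) '' segment ℝ (p 0) (p m)) := by
          rw [image_image]
          rfl
        rw [e2, hi, image_union, hhi]
        have e3 : (h : E n ≃ₜ E n) '' {x | ∃ j, m - d ≤ j ∧ j < m ∧
            x ∈ segment ℝ (p j) (p (j + 1))} =
            {x | ∃ j, m - d ≤ j ∧ j < m ∧ x ∈ segment ℝ (p j) (p (j + 1))} := by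
          ext x
          constructor
          · rintro ⟨y, ⟨j, h1, h2, h3⟩, rfl⟩
            rw [hhe j h1 h2 y h3]
            exact ⟨j, h1, h2, h3⟩
          · rintro ⟨j, h1, h2, h3⟩
            exact ⟨x, ⟨j, h1, h2, h3⟩, hhe j h1 h2 x h3⟩
        rw [e3, union_assoc]
        congr 1
        ext x
        constructor
        · rintro (h1 | ⟨j, h1, h2, h3⟩)
          · exact ⟨m - (d + 1), le_refl _, by omega, by rw [e1]; exact h1⟩
          · exact ⟨j, by omega, h2, h3⟩
        · rintro ⟨j, h1, h2, h3⟩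
          rcases Nat.eq_or_lt_of_le h1 with h4 | h4
          · left
            rw [← h4, e1] at h3
            exact h3
          · right
            exact ⟨j, by omega, h2, h3⟩
  obtain ⟨ψ, hB, hL, hR, hi⟩ := key (m - 1) (by omega)
  refine ⟨ψ, hB, hL, hR, ?_⟩
  rw [hi]
  have e1 : m - (m - 1) = 1 := by omega
  rw [e1]
  unfold poly
  ext x
  constructor
  · rintro (h1 | ⟨j, h1, h2, h3⟩)
    · simp only [mem_iUnion]
      exact ⟨0, by omega, h1⟩
    · simp only [mem_iUnion]
      exact ⟨j, h2, h3⟩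
  · intro hx
    simp only [mem_iUnion] at hx
    obtain ⟨j, h2, h3⟩ := hx
    rcases Nat.eq_zero_or_pos j with h4 | h4
    · left
      rw [h4] at h3
      exact h3
    · right
      exact ⟨j, h4, h2, h3⟩

/-- compactness of the remaining edges -/
theorem umo_edges_compact {n : ℕ} (p : ℕ → E n) (a m : ℕ) :
    IsCompact {x | ∃ j, a ≤ j ∧ j < m ∧ x ∈ segment ℝ (p j) (p (j + 1))} := by
  have h1 : {x | ∃ j, a ≤ j ∧ j < m ∧ x ∈ segment ℝ (p j) (p (j + 1))} =
      ⋃ j ∈ {j | a ≤ j ∧ j < m}, segment ℝ (p j) (p (j + 1)) := by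
    ext x
    simp only [mem_ofPred_eq, mem_iUnion]
    constructor
    · rintro ⟨j, h1, h2, h3⟩
      exact ⟨j, ⟨h1, h2⟩, h3⟩
    · rintro ⟨j, ⟨h1, h2⟩, h3⟩
      exact ⟨j, h1, h2, h3⟩
  rw [h1]
  have hf : ({j | a ≤ j ∧ j < m} : Set ℕ).Finite :=
    (finite_lt_nat m).subset fun j hj => hj.2
  exact hf.isCompact_biUnion fun j _ => umo_segc _ _

/-- one step, when the triangle is nondegenerate -/
theorem umo_step {n : ℕ} {R : ℝ} (i : Fin n) (p : ℕ → E n) (m k : ℕ) (hkm : k < m)
    (haff : AffineIndependent ℝ ![p 0, p k, p (k + 1)])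
    (B : Set (E n)) (hB : IsOpen B) (hBc : Convex ℝ B) (hBR : B ⊆ Metric.ball 0 R)
    (hpB : ∀ k, k ≤ m → p k ∈ B) (δ : ℝ) (hδ : 0 < δ)
    (hlo1 : p 0 i < p k i) (hlo2 : p 0 i < p (k + 1) i)
    (hhi0 : p 0 i < p m i) (hhi1 : p k i < p m i) (hhi2 : k + 1 < m → p (k + 1) i < p m i)
    (hnext : k + 1 < m → segment ℝ (p (k + 1)) (p (k + 2)) ∩
      convexHull ℝ {p 0, p k, p (k + 1)} ⊆ {p (k + 1)})
    (hne : k + 1 < m → p (k + 2) ≠ p (k + 1))
    (hrest : ∀ j, k + 2 ≤ j → j < m →
      Disjoint (segment ℝ (p j) (p (j + 1))) (convexHull ℝ {p 0, p k, p (k + 1)})) :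
    ∃ h : HC n R, Supp h B ∧
      (∀ x ∈ segment ℝ (p 0) (p 0 - δ • ee i), (h : E n ≃ₜ E n) x = x) ∧
      (∀ x ∈ segment ℝ (p m) (p m + δ • ee i), (h : E n ≃ₜ E n) x = x) ∧
      (∀ j, k + 1 ≤ j → j < m → ∀ x ∈ segment ℝ (p j) (p (j + 1)), (h : E n ≃ₜ E n) x = x) ∧
      (h : E n ≃ₜ E n) '' segment ℝ (p 0) (p (k + 1)) =
        segment ℝ (p 0) (p k) ∪ segment ℝ (p k) (p (k + 1)) := by
  have hBT : convexHull ℝ {p 0, p k, p (k + 1)} ⊆ B := by
    refine convexHull_min ?_ hBc
    intro x hx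
    rcases hx with rfl | rfl | rfl
    · exact hpB 0 (by omega)
    · exact hpB k (by omega)
    · exact hpB (k + 1) (by omega)
  have hmem0 : p 0 ∈ convexHull ℝ ({p 0, p k, p (k + 1)} : Set (E n)) :=
    subset_convexHull ℝ _ (by simp)
  have hmem2 : p (k + 1) ∈ convexHull ℝ ({p 0, p k, p (k + 1)} : Set (E n)) :=
    subset_convexHull ℝ _ (by simp)
  have hl : segment ℝ (p 0) (p 0 - δ • ee i) ∩ convexHull ℝ {p 0, p k, p (k + 1)} = {p 0} := by
    ext x
    constructor
    · rintro ⟨h1, h2⟩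
      exact (umo_hull_ge hlo1 hlo2 h2).2 (umo_left hδ h1)
    · intro hx
      rw [mem_singleton_iff] at hx
      subst hx
      exact ⟨left_mem_segment ℝ _ _, hmem0⟩
  rcases Nat.lt_or_ge (k + 1) m with hlt | hge
  · -- inner vertex
    have hr : segment ℝ (p (k + 1)) (p (k + 2)) ∩ convexHull ℝ {p 0, p k, p (k + 1)} =
        {p (k + 1)} := by
      refine Subset.antisymm (hnext hlt) ?_
      intro x hx
      rw [mem_singleton_iff] at hx
      subst hx
      exact ⟨left_mem_segment ℝ _ _, hmem2⟩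
    have hKc : IsCompact ({x | ∃ j, k + 2 ≤ j ∧ j < m ∧ x ∈ segment ℝ (p j) (p (j + 1))} ∪
        segment ℝ (p m) (p m + δ • ee i)) :=
      (umo_edges_compact p (k + 2) m).union (umo_segc _ _)
    have hd : Disjoint ({x | ∃ j, k + 2 ≤ j ∧ j < m ∧ x ∈ segment ℝ (p j) (p (j + 1))} ∪
        segment ℝ (p m) (p m + δ • ee i)) (convexHull ℝ {p 0, p k, p (k + 1)}) := by
      rw [Set.disjoint_left]
      rintro x (⟨j, h1, h2, h3⟩ | h1) hx
      · exact Set.disjoint_left.1 (hrest j h1 h2) h3 hx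
      · have h2 := umo_right hδ h1
        obtain ⟨α, β, γ, hα, hβ, hγ, hs, rfl⟩ := umo_hull3 hx
        have e1 : (α • p 0 + β • p k + γ • p (k + 1)) i =
            α * p 0 i + β * p k i + γ * p (k + 1) i := by
          simp [Pi.add_apply, Pi.smul_apply, smul_eq_mul]
        rw [e1] at h2
        have h3 := hhi2 hlt
        have a1 : 0 ≤ α * (p m i - p 0 i) := mul_nonneg hα (by linarith)
        have a2 : 0 ≤ β * (p m i - p k i) := mul_nonneg hβ (by linarith)
        have a3 : 0 ≤ γ * (p m i - p (k + 1) i) := mul_nonneg hγ (by linarith)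
        have a4 : α * p 0 i + β * p k i + γ * p (k + 1) i =
            p m i - α * (p m i - p 0 i) - β * (p m i - p k i) - γ * (p m i - p (k + 1) i) := by
          have : γ = 1 - α - β := by linarith
          rw [this]; ring
        rw [a4] at h2
        have b1 : α * (p m i - p 0 i) = 0 := by linarith
        have b2 : β * (p m i - p k i) = 0 := by linarith
        have b3 : γ * (p m i - p (k + 1) i) = 0 := by linarith
        have c1 : α = 0 := by
          rcases mul_eq_zero.1 b1 with h | h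
          · exact h
          · linarith
        have c2 : β = 0 := by
          rcases mul_eq_zero.1 b2 with h | h
          · exact h
          · linarith
        have c3 : γ = 0 := by
          rcases mul_eq_zero.1 b3 with h | h
          · exact h
          · linarith
        rw [c1, c2, c3] at hs
        norm_num at hs
    obtain ⟨h, h1, h2, h3, h4, h5⟩ := elem_move (R := R) (p 0) (p k) (p (k + 1)) haff B hB hBR hBT
      (p 0 - δ • ee i) (p (k + 2)) hl (umo_ne_left hδ) hr (hne hlt) _ hKc hd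
    refine ⟨h, h1, h3, fun x hx => h2 x (Or.inr hx), ?_, h5⟩
    intro j hj1 hj2 x hx
    rcases Nat.eq_or_lt_of_le hj1 with hj | hj
    · rw [← hj] at hx
      exact h4 x hx
    · exact h2 x (Or.inl ⟨j, hj, hj2, hx⟩)
  · -- last vertex
    have hkm1 : k + 1 = m := by omega
    have hr : segment ℝ (p (k + 1)) (p (k + 1) + δ • ee i) ∩
        convexHull ℝ {p 0, p k, p (k + 1)} = {p (k + 1)} := by
      ext x
      constructor
      · rintro ⟨h1, h2⟩
        rw [← hkm1] at hhi0 hhi1
        exact (umo_hull_le hhi0 hhi1 h2).2 (umo_right hδ h1)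
      · intro hx
        rw [mem_singleton_iff] at hx
        subst hx
        exact ⟨left_mem_segment ℝ _ _, hmem2⟩
    obtain ⟨h, h1, -, h3, h4, h5⟩ := elem_move (R := R) (p 0) (p k) (p (k + 1)) haff B hB hBR hBT
      (p 0 - δ • ee i) (p (k + 1) + δ • ee i) hl (umo_ne_left hδ) hr (umo_ne_right hδ) ∅
      isCompact_empty (disjoint_bot_left)
    rw [hkm1] at h4
    refine ⟨h, h1, h3, h4, ?_, h5⟩
    intro j hj1 hj2 x hx
    omega

/-- three collinear points in monotone position -/
theorem umo_collinear {n : ℕ} (i : Fin n) {a b c : E n} (hab : a i < b i) (hbc : b i < c i)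
    (h : ¬ AffineIndependent ℝ ![a, b, c]) :
    segment ℝ a c = segment ℝ a b ∪ segment ℝ b c := by
  rw [affineIndependent_iff_not_collinear_set, not_not,
    collinear_iff_of_mem (p₀ := a) (by simp)] at h
  obtain ⟨v, hv⟩ := h
  obtain ⟨r, hr⟩ := hv b (by simp)
  obtain ⟨s, hs⟩ := hv c (by simp)
  rw [vadd_eq_add] at hr hs
  have hri : b i = r * v i + a i := by
    rw [hr]; simp
  have hsi : c i = s * v i + a i := by
    rw [hs]; simp
  have hsv : 0 < s * v i := by linarith
  have hs0 : s ≠ 0 := by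
    rintro rfl
    simp at hsv
  have hv0 : v i ≠ 0 := by
    intro h
    rw [h] at hsv
    simp at hsv
  -- parameter of b on [a, c]
  have ht0 : 0 < r / s := by
    have h1 : r / s = (r * v i) / (s * v i) := by field_simp
    rw [h1]
    exact div_pos (by linarith) hsv
  have ht1 : r / s < 1 := by
    have h1 : r / s = (r * v i) / (s * v i) := by field_simp
    rw [h1, div_lt_one hsv]
    linarith
  have hb : b = a + (r / s) • (c - a) := by
    have h1 : c - a = s • v := by rw [hs]; simp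
    rw [h1, smul_smul, div_mul_cancel₀ _ hs0, hr, add_comm]
  have hbseg : b ∈ segment ℝ a c := by
    rw [segment_eq_image']
    exact ⟨r / s, ⟨ht0.le, ht1.le⟩, hb.symm⟩
  apply Subset.antisymm
  · intro x hx
    rw [segment_eq_image'] at hx
    obtain ⟨t, ⟨ht0', ht1'⟩, rfl⟩ := hx
    rcases le_total t (r / s) with h1 | h1
    · left
      rw [segment_eq_image']
      refine ⟨t / (r / s), ⟨div_nonneg ht0' ht0.le, (div_le_one ht0).2 h1⟩, ?_⟩
      have h2 : b - a = (r / s) • (c - a) := by rw [hb]; simp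
      simp only
      rw [h2, smul_smul, div_mul_cancel₀ _ ht0.ne']
    · right
      rw [segment_symm, segment_eq_image']
      have h3 : 0 < 1 - r / s := by linarith
      refine ⟨(1 - t) / (1 - r / s), ⟨div_nonneg (by linarith) h3.le,
        (div_le_one h3).2 (by linarith)⟩, ?_⟩
      have h2 : b - c = (1 - r / s) • (a - c) := by
        rw [hb, sub_smul, one_smul, ← neg_sub c a, smul_neg]
        abel
      simp only
      rw [h2, smul_smul, div_mul_cancel₀ _ h3.ne', sub_smul, one_smul, ← neg_sub c a, smul_neg]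
      abel
  · intro x hx
    rcases hx with h1 | h1
    · exact (convex_segment a c).segment_subset (left_mem_segment ℝ _ _) hbseg h1
    · exact (convex_segment a c).segment_subset hbseg (right_mem_segment ℝ _ _) h1

/-- UMO: polygons on which the `i`-th coordinate is strictly increasing (any dimension) -/
theorem unknot_mono {n : ℕ} {R : ℝ} (i : Fin n) (p : ℕ → E n) (m : ℕ) (hm : 1 ≤ m)
    (hinc : ∀ k, k < m → p k i < p (k + 1) i)
    (B : Set (E n)) (hB : IsOpen B) (hBc : Convex ℝ B) (hBR : B ⊆ Metric.ball 0 R)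
    (hpB : ∀ k, k ≤ m → p k ∈ B) (δ : ℝ) (hδ : 0 < δ) :
    ∃ ψ : HC n R, Supp ψ B ∧
      (∀ x ∈ segment ℝ (p 0) (p 0 - δ • ee i), (ψ : E n ≃ₜ E n) x = x) ∧
      (∀ x ∈ segment ℝ (p m) (p m + δ • ee i), (ψ : E n ≃ₜ E n) x = x) ∧
      (ψ : E n ≃ₜ E n) '' segment ℝ (p 0) (p m) = poly p m := by
  have hmono : ∀ a b, a < b → b ≤ m → p a i < p b i := by
    intro a b hab
    induction b, hab using Nat.le_induction with
    | base => exact fun hb => hinc a (by omega)
    | succ b hb ih => exact fun hb' => (ih (by omega)).trans (hinc b (by omega))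
  refine umo_induct p m hm B _ _ ?_
  intro k hk hkm
  by_cases haff : AffineIndependent ℝ ![p 0, p k, p (k + 1)]
  · refine umo_step i p m k hkm haff B hB hBc hBR hpB δ hδ (hmono 0 k hk (by omega))
      (hmono 0 (k + 1) (by omega) (by omega)) (hmono 0 m (by omega) le_rfl)
      (hmono k m hkm le_rfl) (fun h => hmono (k + 1) m h le_rfl) ?_ ?_ ?_
    · intro hlt x ⟨h1, h2⟩
      have h3 := umo_hull_le (i := i) (hmono 0 (k + 1) (by omega) (by omega)) (hinc k hkm) h2
      exact h3.2 (umo_seg le_rfl (hinc (k + 1) hlt).le h1)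
    · intro hlt h
      have := hinc (k + 1) hlt
      rw [show k + 1 + 1 = k + 2 from rfl, h] at this
      exact lt_irrefl _ this
    · intro j hj1 hj2
      rw [Set.disjoint_left]
      intro x hx hx2
      have h3 := (umo_hull_le (i := i) (hmono 0 (k + 1) (by omega) (by omega)) (hinc k hkm) hx2).1
      have h4 : p (k + 2) i ≤ x i := by
        refine umo_seg ?_ ?_ hx
        · rcases Nat.eq_or_lt_of_le hj1 with h | h
          · rw [h]
          · exact (hmono _ _ h (by omega)).le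
        · exact (hmono _ _ (by omega) (by omega)).le
      have h5 := hmono (k + 1) (k + 2) (by omega) (by omega)
      linarith
  · refine ⟨1, fun x _ => rfl, fun x _ => rfl, fun x _ => rfl, fun j _ _ x _ => rfl, ?_⟩
    have h1 : ∀ s : Set (E n), (((1 : HC n R) : E n ≃ₜ E n) '' s) = s := fun s => by
      ext x
      constructor
      · rintro ⟨y, hy, rfl⟩
        exact hy
      · intro hx
        exact ⟨x, hx, rfl⟩
    rw [h1]
    exact umo_collinear i (hmono 0 k hk (by omega)) (hinc k hkm) haff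

end Pool.Agent.Lib_helper11.PLM
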