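import Pool.Agent.Lib_helper11.PLM.F.WDefs
import Pool.Agent.Lib_helper11.PLM.F.LVR
import Pool.Agent.Lib_helper11.PLM.F.UMO


open Set Filter Topology
open scoped Manifold

namespace Pool.Agent.Lib_helper11.PLM

theorem un2_nofold {m M : ℕ} {lv : ℕ → ℕ} {ht : ℕ → ℝ} (hL : Lev m M lv ht)
    (hnf : ¬ ∃ k, k + 2 ≤ m ∧ lv (k + 1) = lv k + 1 ∧ lv (k + 1) = lv (k + 2) + 1) :
    ∀ k, k ≤ m → lv k = k := by
  have h1 : ∀ k, k < m → lv (k + 1) = lv k + 1 := by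
    intro k
    induction k with
    | zero =>
      intro hk
      rcases hL.step 0 hk with h | h
      · exact h
      · rw [hL.zero] at h; omega
    | succ k ih =>
      intro hk
      rcases hL.step (k + 1) hk with h | h
      · exact h
      · exact absurd ⟨k, hk, ih (by omega), h⟩ hnf
  intro k
  induction k with
  | zero => intro _; exact hL.zero
  | succ k ih =>
    intro hk
    rw [h1 k (by omega), ih (by omega)]

theorem unknot2 {R : ℝ} (i : Fin 2) (x0 r : ℝ) (hr : 0 < r) (m M : ℕ) (hm : 1 ≤ m)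
    (lv : ℕ → ℕ) (ht : ℕ → ℝ) (hL : Lev m M lv ht)
    (B : Set (E 2)) (hB : IsOpen B) (hBc : Convex ℝ B) (hBR : B ⊆ Metric.ball 0 R)
    (hpB : ∀ k, k ≤ m → lpt i x0 r (lv k) (ht k) ∈ B) (δ : ℝ) (hδ : 0 < δ) :
    ∃ ψ : HC 2 R, Supp ψ B ∧
      (∀ x ∈ segment ℝ (lpt i x0 r (lv 0) (ht 0)) (lpt i x0 r (lv 0) (ht 0) - δ • ee i),
        (ψ : E 2 ≃ₜ E 2) x = x) ∧
      (∀ x ∈ segment ℝ (lpt i x0 r (lv m) (ht m)) (lpt i x0 r (lv m) (ht m) + δ • ee i),
        (ψ : E 2 ≃ₜ E 2) x = x) ∧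
      (ψ : E 2 ≃ₜ E 2) '' segment ℝ (lpt i x0 r (lv 0) (ht 0)) (lpt i x0 r (lv m) (ht m)) =
        poly (fun k => lpt i x0 r (lv k) (ht k)) m := by
  induction m using Nat.strong_induction_on generalizing lv ht with
  | _ m ih =>
    by_cases hf : ∃ k, k + 2 ≤ m ∧ lv (k + 1) = lv k + 1 ∧ lv (k + 1) = lv (k + 2) + 1
    · obtain ⟨m', lv', ht', hm', hm1, hL', h0, h0', hM, hM', hpB', h, hS, hb1, hb2, him⟩ :=
        lev_reduce i x0 r hr m M lv ht hL hf B hB hBc hBR hpB δ hδ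
      obtain ⟨ψ, hψS, hψ1, hψ2, hψi⟩ := ih m' (by omega) hm1 lv' ht' hL' hpB'
      rw [h0, h0'] at hψ1 hψi
      rw [hM, hM'] at hψ2 hψi
      refine ⟨h * ψ, ?_, ?_, ?_, ?_⟩
      · intro x hx
        show (h : E 2 ≃ₜ E 2) ((ψ : E 2 ≃ₜ E 2) x) = x
        rw [hψS x hx, hS x hx]
      · intro x hx
        show (h : E 2 ≃ₜ E 2) ((ψ : E 2 ≃ₜ E 2) x) = x
        rw [hψ1 x hx, hb1 x hx]
      · intro x hx
        show (h : E 2 ≃ₜ E 2) ((ψ : E 2 ≃ₜ E 2) x) = x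
        rw [hψ2 x hx, hb2 x hx]
      · rw [← him, ← hψi, Set.image_image]
        rfl
    · have hlv := un2_nofold hL hf
      exact unknot_mono i (fun k => lpt i x0 r (lv k) (ht k)) m hm (by
        intro k hk
        simp only [lpt, if_pos rfl]
        rw [hlv k hk.le, hlv (k + 1) hk]
        push_cast
        nlinarith) B hB hBc hBR hpB δ hδ

end Pool.Agent.Lib_helper11.PLM
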