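import Pool.Agent.Lib_helper11.PLM.F.WDefs
import Pool.Agent.Lib_helper11.PLM.F.EXP2
import Pool.Agent.Lib_helper11.PLM.F.LAT
import Pool.Agent.Lib_helper11.PLM.F.UN2


/-! block LU2 -/

open Set Filter Topology
open scoped Manifold

namespace Pool.Agent.Lib_helper11.PLM

theorem lu2_coord {n : ℕ} (i j : Fin n) (hj : j ≠ i) (x : E n) : |x j| ≤ nu i x := by
  have h := norm_le_pi_norm (Function.update x i 0) j
  rw [Function.update_of_ne hj] at h
  exact h

/-- forgetting the `i`-th coordinate -/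
def lu2f {n : ℕ} (i : Fin n) : E n →ₗ[ℝ] E n where
  toFun := fun x => Function.update x i 0
  map_add' := fun x y => by
    funext j
    by_cases h : j = i
    · subst h; simp
    · simp [h]
  map_smul' := fun r x => by
    funext j
    by_cases h : j = i
    · subst h; simp
    · simp [h]

theorem lu2_nu {n : ℕ} (i : Fin n) (x y : E n) : nu i (x - y) = ‖lu2f i x - lu2f i y‖ := by
  rw [← map_sub]
  rfl

theorem lu2_convex {n : ℕ} (i : Fin n) (y : E n) (l : ℝ) : Convex ℝ {x | nu i (x - y) < l} := by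
  have h1 : {x | nu i (x - y) < l} = lu2f i ⁻¹' Metric.ball (lu2f i y) l := by
    ext x
    simp only [mem_preimage, Metric.mem_ball, dist_eq_norm]
    rw [← lu2_nu]
    rfl
  rw [h1]
  exact (convex_ball _ _).linear_preimage _

theorem lu2_open {n : ℕ} (i : Fin n) (y : E n) (l : ℝ) : IsOpen {x | nu i (x - y) < l} :=
  isOpen_lt (PLL.nu i y).1.1 continuous_const

theorem lu2_seg {n : ℕ} (i : Fin n) {a b z : E n} (hz : z ∈ segment ℝ a b) {l u : ℝ}
    (ha : l ≤ a i ∧ a i ≤ u) (hb : l ≤ b i ∧ b i ≤ u) : l ≤ z i ∧ z i ≤ u := by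
  obtain ⟨s, t, hs, ht, hst, rfl⟩ := hz
  simp only [Pi.add_apply, Pi.smul_apply, smul_eq_mul]
  constructor
  · have : l = s * l + t * l := by rw [← add_mul, hst, one_mul]
    rw [this]
    exact add_le_add (mul_le_mul_of_nonneg_left ha.1 hs) (mul_le_mul_of_nonneg_left hb.1 ht)
  · have : u = s * u + t * u := by rw [← add_mul, hst, one_mul]
    rw [this]
    exact add_le_add (mul_le_mul_of_nonneg_left ha.2 hs) (mul_le_mul_of_nonneg_left hb.2 ht)

theorem lu2_end {n : ℕ} (i : Fin n) {a b z : E n} (hz : z ∈ segment ℝ a b) (hab : a i ≠ b i)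
    (hzb : z i = b i) : z = b := by
  obtain ⟨s, t, hs, ht, hst, rfl⟩ := hz
  simp only [Pi.add_apply, Pi.smul_apply, smul_eq_mul] at hzb
  have h1 : s * (a i - b i) = 0 := by
    have : t = 1 - s := by linarith
    rw [this] at hzb
    linarith
  have h2 : s = 0 := by
    rcases mul_eq_zero.mp h1 with h | h
    · exact h
    · exact absurd (sub_eq_zero.mp h) hab
  have h3 : t = 1 := by linarith
  rw [h2, h3, zero_smul, one_smul, zero_add]

theorem lu2_norm {n : ℕ} (i : Fin n) {y z : E n} (hy : y i = 0) {c d l : ℝ} (hd : 0 ≤ d)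
    (hl : 0 ≤ l) (h1 : |z i - c| ≤ d) (h2 : nu i (z - y) ≤ l) :
    ‖z - (y + c • ee i)‖ ≤ d + l := by
  rw [pi_norm_le_iff_of_nonneg (by positivity)]
  intro j
  rw [Real.norm_eq_abs]
  by_cases hj : j = i
  · subst hj
    have e1 : (z - (y + c • ee j)) j = z j - c := by simp [ee, hy]
    rw [e1]
    linarith
  · have e1 : (z - (y + c • ee i)) j = (z - y) j := by simp [ee, hj]
    rw [e1]
    have := lu2_coord i j hj (z - y)
    linarith

theorem lu2_lpt (i : Fin 2) (x0 r : ℝ) (l : ℕ) (h : ℝ) : lpt i x0 r l h i = x0 + l * r := by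
  simp [lpt]

theorem lu2_lpt_inj (i : Fin 2) {x0 r : ℝ} (hr : 0 < r) {l l' : ℕ} {h h' : ℝ}
    (he : lpt i x0 r l h = lpt i x0 r l' h') : l = l' ∧ h = h' := by
  constructor
  · have h1 := congrFun he i
    rw [lu2_lpt, lu2_lpt] at h1
    have h2 : (l : ℝ) * r = l' * r := by linarith
    have h3 : (l : ℝ) = l' := mul_right_cancel₀ hr.ne' h2
    exact_mod_cast h3
  · obtain ⟨j, hj⟩ : ∃ j : Fin 2, j ≠ i := exists_ne i
    have h1 := congrFun he j
    simpa [lpt, hj] using h1

theorem lul_two : LUL 2 := by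
  intro i V y p q lam lam' δ γ hV hy hpq hδ hlam hγ hγV h0 h1 hball
  obtain ⟨x0, r, m, M, lv, ht, hr, hm, hL, hx0, hx1, hx2, hx3, hv0, hvm, hnu, hl1, hlm, hseg⟩ :=
    exists_lev i V hV y hy p q lam lam' δ hpq hlam hδ γ hγ hγV h0 h1
  set P : ℕ → E 2 := fun k => lpt i x0 r (lv k) (ht k) with hP
  have hPi : ∀ k, P k i = x0 + lv k * r := fun k => lu2_lpt i x0 r _ _
  have hinj : ∀ k l, k ≤ m → l ≤ m → P k = P l → k = l := by
    intro k l hk hl he
    obtain ⟨e1, e2⟩ := lu2_lpt_inj i hr he
    exact hL.inj k l hk hl e1 e2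
  have hlam0 : 0 < lam' := lt_of_le_of_lt (norm_nonneg _) (hnu 0 (Nat.zero_le _))
  -- levels
  have hlv0 : lv 0 = 0 := hL.zero
  have hlvm : lv m = M := hL.top
  have hlvpos : ∀ k, 1 ≤ k → k ≤ m → 1 ≤ lv k := fun k hk hk' => hL.pos k hk hk'
  have hlvM : ∀ k, k ≤ m → lv k ≤ M := by
    intro k hk
    rcases Nat.lt_or_ge k m with h | h
    · exact (hL.lt k h).le
    · have : k = m := le_antisymm hk h
      rw [this, hlvm]
  have hM2 : 2 ≤ M := by
    have := hlvpos (m - 1) (by omega) (by omega)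
    omega
  have hM2' : (2 : ℝ) ≤ M := by exact_mod_cast hM2
  -- the box
  set B : Set (E 2) := {x | p < x i ∧ x i < q ∧ nu i (x - y) < lam'} with hB
  have hci : Continuous (fun x : E 2 => x i) := continuous_apply i
  have hBo : IsOpen B := (isOpen_lt continuous_const hci).inter
    ((isOpen_lt hci continuous_const).inter (lu2_open i y lam'))
  have hBc : Convex ℝ B := by
    have c1 : Convex ℝ {x : E 2 | p < x i} :=
      convex_halfSpace_gt (LinearMap.isLinear (LinearMap.proj i : E 2 →ₗ[ℝ] ℝ)) p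
    have c2 : Convex ℝ {x : E 2 | x i < q} :=
      convex_halfSpace_lt (LinearMap.isLinear (LinearMap.proj i : E 2 →ₗ[ℝ] ℝ)) q
    exact c1.inter (c2.inter (lu2_convex i y lam'))
  have hBR : B ⊆ Metric.ball 0 10 := by
    rintro x ⟨e1, e2, e3⟩
    rw [mem_ball_zero_iff]
    exact hball x e1 e2 e3
  have hPB : ∀ k, k ≤ m → P k ∈ B := by
    intro k hk
    have e1 : (lv k : ℝ) * r ≤ M * r :=
      mul_le_mul_of_nonneg_right (by exact_mod_cast hlvM k hk) hr.le
    have e2 : 0 ≤ (lv k : ℝ) * r := by positivity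
    refine ⟨?_, ?_, hnu k hk⟩
    · rw [hPi]; linarith
    · rw [hPi]; linarith
  set δ' := max (x0 - p) (q - (x0 + M * r)) with hδ'
  have hδ'0 : 0 < δ' := lt_max_of_lt_left (by linarith)
  obtain ⟨ψ, hsupp, hfix0, hfixm, himg⟩ :=
    unknot2 i x0 r hr m M (by omega) lv ht hL B hBo hBc hBR hPB δ' hδ'0
  have hv0' : P 0 = y + x0 • ee i := hv0
  have hvm' : P m = y + (x0 + M * r) • ee i := hvm
  -- the middle part
  set Q : Set (E 2) := ⋃ k ∈ Finset.Ico 1 (m - 1), segment ℝ (P k) (P (k + 1)) with hQ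
  have hQc : IsClosed Q := by
    refine isClosed_biUnion_finset fun k _ => ?_
    rw [segment_eq_image_lineMap]
    exact (isCompact_Icc.image (by fun_prop)).isClosed
  have hpoly : poly P m = segment ℝ (P 0) (P 1) ∪ Q ∪ segment ℝ (P (m - 1)) (P m) := by
    ext z
    simp only [poly, hQ, mem_iUnion, mem_union, Finset.mem_Ico, exists_prop]
    constructor
    · rintro ⟨k, hk, hz⟩
      rcases Nat.eq_zero_or_pos k with h | h
      · subst h
        exact Or.inl (Or.inl hz)
      · rcases Nat.lt_or_ge k (m - 1) with h' | h'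
        · exact Or.inl (Or.inr ⟨k, ⟨h, h'⟩, hz⟩)
        · have : k = m - 1 := by omega
          subst this
          have e : m - 1 + 1 = m := by omega
          rw [e] at hz
          exact Or.inr hz
    · rintro ((hz | ⟨k, ⟨h, h'⟩, hz⟩) | hz)
      · exact ⟨0, by omega, hz⟩
      · exact ⟨k, by omega, hz⟩
      · refine ⟨m - 1, by omega, ?_⟩
        have e : m - 1 + 1 = m := by omega
        rw [e]
        exact hz
  have hQi : ∀ z ∈ Q, x0 + r ≤ z i ∧ z i ≤ x0 + (M - 1) * r := by
    intro z hz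
    simp only [hQ, mem_iUnion, Finset.mem_Ico, exists_prop] at hz
    obtain ⟨k, ⟨h, h'⟩, hz⟩ := hz
    have key : ∀ l, 1 ≤ l → l < m → x0 + r ≤ P l i ∧ P l i ≤ x0 + (M - 1) * r := by
      intro l hl hl'
      have e1 : (1 : ℝ) ≤ lv l := by exact_mod_cast hlvpos l hl hl'.le
      have e2 : (lv l : ℝ) ≤ M - 1 := by
        have := hL.lt l hl'
        have e3 : (lv l : ℝ) + 1 ≤ M := by exact_mod_cast this
        linarith
      rw [hPi]
      constructor <;> nlinarith
    exact lu2_seg i hz (key k h (by omega)) (key (k + 1) (by omega) (by omega))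
  have hQV : Q ⊆ V := by
    intro z hz
    simp only [hQ, mem_iUnion, Finset.mem_Ico, exists_prop] at hz
    obtain ⟨k, ⟨h, h'⟩, hz⟩ := hz
    exact hseg k h (by omega) hz
  -- first and last segment
  have hP0i : P 0 i = x0 := by rw [hPi, hlv0]; simp
  have hP1i : P 1 i = x0 + r := by rw [hPi, hl1]; simp
  have hPm1i : P (m - 1) i = x0 + (M - 1) * r := by
    rw [hPi]
    have : (lv (m - 1) : ℝ) = M - 1 := by
      have : (lv (m - 1) : ℝ) + 1 = M := by exact_mod_cast hlm
      linarith
    rw [this]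
  have hPmi : P m i = x0 + M * r := by rw [hPi, hlvm]
  have hfirst : ∀ z ∈ segment ℝ (P 0) (P 1), x0 ≤ z i ∧ z i ≤ x0 + r := by
    intro z hz
    refine lu2_seg i hz ?_ ?_
    · rw [hP0i]; constructor <;> linarith
    · rw [hP1i]; constructor <;> linarith
  have hlast : ∀ z ∈ segment ℝ (P (m - 1)) (P m), x0 + (M - 1) * r ≤ z i ∧ z i ≤ x0 + M * r := by
    intro z hz
    refine lu2_seg i hz ?_ ?_
    · rw [hPm1i]; constructor <;> nlinarith
    · rw [hPmi]; constructor <;> nlinarith
  have h12 : P 1 ≠ P (m - 1) := by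
    intro he
    have := hinj 1 (m - 1) (by omega) (by omega) he
    omega
  have hψ0 : (ψ : E 2 ≃ₜ E 2) (P 0) = P 0 := hfix0 _ (left_mem_segment ℝ _ _)
  have hψm : (ψ : E 2 ≃ₜ E 2) (P m) = P m := hfixm _ (left_mem_segment ℝ _ _)
  have hmr : 0 < (M : ℝ) * r := by positivity
  obtain ⟨s, t, hs0, hst, ht1, ha, hb, hc⟩ := extract_params (ψ : E 2 ≃ₜ E 2) (P 0) (P 1)
    (P (m - 1)) (P m) Q hQc
    (fun he => by
      have := hinj 0 m (by omega) le_rfl he
      omega)
    (fun he => by
      have := hinj 0 1 (by omega) (by omega) he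
      omega)
    (fun he => by
      have := hinj (m - 1) m (by omega) le_rfl he
      omega) h12
    (by
      simp only [hQ, mem_iUnion, Finset.mem_Ico, exists_prop]
      exact ⟨1, ⟨le_rfl, by omega⟩, left_mem_segment ℝ _ _⟩)
    (by
      simp only [hQ, mem_iUnion, Finset.mem_Ico, exists_prop]
      refine ⟨m - 2, ⟨by omega, by omega⟩, ?_⟩
      have e : m - 2 + 1 = m - 1 := by omega
      rw [e]
      exact right_mem_segment ℝ _ _)
    (by rw [← hpoly]; exact himg) hψ0 hψm
    (by
      rintro z ⟨hz1, hz2⟩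
      have e1 := (hfirst z hz1).2
      have e2 := (hQi z hz2).1
      refine lu2_end i hz1 ?_ ?_
      · rw [hP0i, hP1i]; linarith
      · rw [hP1i]; linarith)
    (by
      rintro z ⟨hz1, hz2⟩
      have e1 := (hlast z hz2).1
      have e2 := (hQi z hz1).2
      rw [segment_symm] at hz2
      refine lu2_end i hz2 ?_ ?_
      · rw [hPmi, hPm1i]; nlinarith
      · rw [hPm1i]; linarith)
    (by
      rw [Set.disjoint_left]
      intro z hz1 hz2
      have e1 := (hfirst z hz1).2
      have e2 := (hlast z hz2).1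
      have e3 : x0 + r ≤ x0 + (M - 1) * r := by nlinarith
      have e4 : z = P 1 := by
        refine lu2_end i hz1 ?_ ?_
        · rw [hP0i, hP1i]; linarith
        · rw [hP1i]; linarith
      rw [segment_symm] at hz2
      have e5 : z = P (m - 1) := by
        refine lu2_end i hz2 ?_ ?_
        · rw [hPmi, hPm1i]; nlinarith
        · rw [hPm1i]; linarith
      exact h12 (e4.symm.trans e5))
  have hline : ∀ τ : ℝ, AffineMap.lineMap (P 0) (P m) τ = y + (x0 + τ * (M * r)) • (ee i : E 2) := by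
    intro τ
    rw [AffineMap.lineMap_apply, hv0', hvm']
    simp only [vsub_eq_sub, vadd_eq_add]
    have e1 : y + (x0 + M * r) • (ee i : E 2) - (y + x0 • ee i) = (M * r) • ee i := by
      rw [add_smul]; abel
    rw [e1, smul_smul]
    have e2 : (x0 + τ * (M * r)) • (ee i : E 2) = x0 • ee i + (τ * (M * r)) • ee i := add_smul _ _ _
    rw [e2]
    abel
  have hparam : ∀ t' : ℝ, y + t' • (ee i : E 2) =
      AffineMap.lineMap (P 0) (P m) ((t' - x0) / (M * r)) := by
    intro t'
    rw [hline, div_mul_cancel₀ _ hmr.ne']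
    congr 2
    ring
  have hnu1 : ∀ z ∈ segment ℝ (P 0) (P 1), nu i (z - y) ≤ lam' := by
    intro z hz
    have := hBc.segment_subset (hPB 0 (by omega)) (hPB 1 (by omega)) hz
    exact this.2.2.le
  have hnu2 : ∀ z ∈ segment ℝ (P (m - 1)) (P m), nu i (z - y) ≤ lam' := by
    intro z hz
    have := hBc.segment_subset (hPB (m - 1) (by omega)) (hPB m le_rfl) hz
    exact this.2.2.le
  have hnuy : ∀ t' : ℝ, nu i (y + t' • (ee i : E 2) - y) ≤ lam' := by
    intro t'
    have e1 : nu i (y + t' • (ee i : E 2) - y) = 0 := by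
      unfold nu
      have : Function.update (y + t' • (ee i : E 2) - y) i 0 = 0 := by
        funext j
        by_cases hj : j = i
        · subst hj; simp
        · simp [hj, ee]
      rw [this, norm_zero]
    rw [e1]
    exact hlam0.le
  have hyi : ∀ t' : ℝ, (y + t' • (ee i : E 2)) i = t' := by
    intro t'
    simp [ee, hy]
  refine ⟨ψ, hsupp, x0 + s * (M * r), x0 + t * (M * r), ?_, ?_, ?_, ?_, ?_, ?_⟩
  · have : 0 < s * (M * r) := by positivity
    linarith
  · have := mul_lt_mul_of_pos_right hst hmr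
    linarith
  · have := mul_lt_mul_of_pos_right ht1 hmr
    linarith
  · intro t' ht'
    apply hQV
    rw [hparam]
    apply hb
    rw [mem_Icc, le_div_iff₀ hmr, div_le_iff₀ hmr]
    exact ⟨by linarith [ht'.1], by linarith [ht'.2]⟩
  · intro t' ht'
    rcases le_total t' x0 with h | h
    · have e1 : (ψ : E 2 ≃ₜ E 2) (y + t' • ee i) = y + t' • ee i := by
        apply hfix0
        change y + t' • ee i ∈ segment ℝ (P 0) (P 0 - δ' • ee i)
        rw [segment_eq_image_lineMap]
        refine ⟨(x0 - t') / δ', ⟨div_nonneg (by linarith) hδ'0.le, ?_⟩, ?_⟩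
        · rw [div_le_one hδ'0]
          exact le_trans (by linarith [ht'.1]) (le_max_left _ _)
        · rw [AffineMap.lineMap_apply, hv0']
          simp only [vsub_eq_sub, vadd_eq_add]
          have e2 : y + x0 • (ee i : E 2) - δ' • ee i - (y + x0 • ee i) = (-δ') • ee i := by
            rw [neg_smul]; abel
          rw [e2, smul_smul]
          have e3 : (x0 - t') / δ' * -δ' = t' - x0 := by field_simp; ring
          rw [e3, sub_smul]
          abel
      rw [e1]
      refine lu2_norm i hy hδ.le hlam0.le ?_ (hnuy t')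
      rw [hyi, abs_of_nonneg (by linarith [ht'.1])]
      linarith
    · have e1 : (ψ : E 2 ≃ₜ E 2) (y + t' • ee i) ∈ segment ℝ (P 0) (P 1) := by
        rw [hparam]
        apply ha
        rw [mem_Icc, le_div_iff₀ hmr, div_le_iff₀ hmr]
        exact ⟨by linarith, by linarith [ht'.2]⟩
      obtain ⟨e2, e3⟩ := hfirst _ e1
      refine lu2_norm i hy hδ.le hlam0.le ?_ (hnu1 _ e1)
      rw [abs_of_nonneg (by linarith)]
      linarith
  · intro t' ht'
    rcases le_total t' (x0 + M * r) with h | h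
    · have e1 : (ψ : E 2 ≃ₜ E 2) (y + t' • ee i) ∈ segment ℝ (P (m - 1)) (P m) := by
        rw [hparam]
        apply hc
        rw [mem_Icc, le_div_iff₀ hmr, div_le_iff₀ hmr]
        exact ⟨by linarith [ht'.1], by linarith⟩
      obtain ⟨e2, e3⟩ := hlast _ e1
      refine lu2_norm i hy hδ.le hlam0.le ?_ (hnu2 _ e1)
      rw [abs_of_nonpos (by linarith)]
      linarith
    · have e1 : (ψ : E 2 ≃ₜ E 2) (y + t' • ee i) = y + t' • ee i := by
        apply hfixm
        change y + t' • ee i ∈ segment ℝ (P m) (P m + δ' • ee i)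
        rw [segment_eq_image_lineMap]
        refine ⟨(t' - (x0 + M * r)) / δ', ⟨div_nonneg (by linarith) hδ'0.le, ?_⟩, ?_⟩
        · rw [div_le_one hδ'0]
          exact le_trans (by linarith [ht'.2]) (le_max_right _ _)
        · rw [AffineMap.lineMap_apply, hvm']
          simp only [vsub_eq_sub, vadd_eq_add]
          have e2 : y + (x0 + M * r) • (ee i : E 2) + δ' • ee i - (y + (x0 + M * r) • ee i) =
              δ' • ee i := by abel
          rw [e2, smul_smul, div_mul_cancel₀ _ hδ'0.ne', sub_smul]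
          abel
      rw [e1]
      refine lu2_norm i hy hδ.le hlam0.le ?_ (hnuy t')
      rw [hyi, abs_of_nonpos (by linarith [ht'.2])]
      linarith

end Pool.Agent.Lib_helper11.PLM
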