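import Pool.Agent.Lib_helper11.PLM.F.WDefs
import Pool.Agent.Lib_helper11.PLM.F.EXP2
import Pool.Agent.Lib_helper11.PLM.F.GEN
import Pool.Agent.Lib_helper11.PLM.F.UN4


open Set Filter Topology
open scoped Manifold

namespace Pool.Agent.Lib_helper11.PLM

/-! ### general position -/

theorem lu4_gp_inter {n : ℕ} (p : ℕ → E n) (m : ℕ) (hp : GP p m) (s1 s2 : Finset ℕ)
    (hc : (s1 ∪ s2).card ≤ 5) (hm : ∀ k ∈ s1 ∪ s2, k ≤ m) :
    convexHull ℝ (p '' (s1 : Set ℕ)) ∩ convexHull ℝ (p '' (s2 : Set ℕ)) ⊆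
      convexHull ℝ (p '' ((s1 ∩ s2 : Finset ℕ) : Set ℕ)) := by
  classical
  have h := hp (s1 ∪ s2) hc hm
  have hinj := h.injective
  have hr := h.range
  have h1 : AffineIndependent ℝ ((↑) : ↑(s1.image p ∪ s2.image p) → E n) := by
    have h2 : ((s1.image p ∪ s2.image p : Finset (E n)) : Set (E n)) ⊆
        Set.range (fun k : ↥(s1 ∪ s2) => p k) := by
      intro x hx
      rw [Finset.mem_coe, Finset.mem_union, Finset.mem_image, Finset.mem_image] at hx
      rcases hx with ⟨k, hk, rfl⟩ | ⟨k, hk, rfl⟩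
      · exact ⟨⟨k, Finset.mem_union_left _ hk⟩, rfl⟩
      · exact ⟨⟨k, Finset.mem_union_right _ hk⟩, rfl⟩
    exact hr.mono h2
  have h3 := h1.convexHull_inter'
  rw [Finset.coe_image, Finset.coe_image] at h3
  rw [← h3]
  apply convexHull_mono
  rintro x ⟨⟨k, hk, rfl⟩, ⟨l, hl, hlk⟩⟩
  have e := @hinj ⟨k, Finset.mem_union_left _ hk⟩ ⟨l, Finset.mem_union_right _ hl⟩ hlk.symm
  have e' : k = l := congrArg Subtype.val e
  subst e'
  exact ⟨k, by
    rw [Finset.coe_inter]
    exact ⟨hk, hl⟩, rfl⟩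

theorem lu4_seg {n : ℕ} (p : ℕ → E n) (a b : ℕ) :
    segment ℝ (p a) (p b) = convexHull ℝ (p '' (({a, b} : Finset ℕ) : Set ℕ)) := by
  rw [Finset.coe_pair, Set.image_pair, convexHull_pair]

theorem lu4_seg_disj {n : ℕ} (p : ℕ → E n) (m : ℕ) (hp : GP p m) (a b c d : ℕ)
    (ha : a ≤ m) (hb : b ≤ m) (hc : c ≤ m) (hd : d ≤ m) (h1 : a ≠ c) (h2 : a ≠ d) (h3 : b ≠ c)
    (h4 : b ≠ d) : Disjoint (segment ℝ (p a) (p b)) (segment ℝ (p c) (p d)) := by
  classical
  rw [Set.disjoint_iff_inter_eq_empty, Set.eq_empty_iff_forall_notMem]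
  intro x hx
  rw [lu4_seg, lu4_seg] at hx
  have h5 := lu4_gp_inter p m hp {a, b} {c, d} (by
    refine (Finset.card_union_le _ _).trans ?_
    have e1 : ({a, b} : Finset ℕ).card ≤ 2 := Finset.card_le_two
    have e2 : ({c, d} : Finset ℕ).card ≤ 2 := Finset.card_le_two
    omega) (by
    intro k hk
    simp only [Finset.mem_union, Finset.mem_insert, Finset.mem_singleton] at hk
    rcases hk with (rfl | rfl) | (rfl | rfl) <;> assumption) hx
  have h6 : ({a, b} : Finset ℕ) ∩ {c, d} = ∅ := by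
    ext k
    simp only [Finset.mem_inter, Finset.mem_insert, Finset.mem_singleton, Finset.notMem_empty,
      iff_false, not_and, not_or]
    rintro (rfl | rfl)
    · exact ⟨h1, h2⟩
    · exact ⟨h3, h4⟩
  rw [h6] at h5
  simp at h5

theorem lu4_seg_inter {n : ℕ} (p : ℕ → E n) (m : ℕ) (hp : GP p m) (a b c : ℕ)
    (ha : a ≤ m) (hb : b ≤ m) (hc : c ≤ m) (h1 : a ≠ b) (h2 : a ≠ c) (h3 : b ≠ c) :
    segment ℝ (p a) (p b) ∩ segment ℝ (p b) (p c) ⊆ {p b} := by
  classical
  intro x hx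
  rw [lu4_seg, lu4_seg] at hx
  have h5 := lu4_gp_inter p m hp {a, b} {b, c} (by
    refine (Finset.card_union_le _ _).trans ?_
    have e1 : ({a, b} : Finset ℕ).card ≤ 2 := Finset.card_le_two
    have e2 : ({b, c} : Finset ℕ).card ≤ 2 := Finset.card_le_two
    omega) (by
    intro k hk
    simp only [Finset.mem_union, Finset.mem_insert, Finset.mem_singleton] at hk
    rcases hk with (rfl | rfl) | (rfl | rfl) <;> assumption) hx
  have h6 : ({a, b} : Finset ℕ) ∩ {b, c} = {b} := by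
    ext k
    simp only [Finset.mem_inter, Finset.mem_insert, Finset.mem_singleton]
    constructor
    · rintro ⟨rfl | rfl, h | h⟩
      · exact h
      · exact (h2 h).elim
      · rfl
      · rfl
    · rintro rfl
      exact ⟨Or.inr rfl, Or.inl rfl⟩
  rw [h6, Finset.coe_singleton, Set.image_singleton, convexHull_singleton] at h5
  exact h5

/-! ### the coordinate functions -/

theorem lu4_nu_cont {n : ℕ} (i : Fin n) (y : E n) : Continuous (fun x : E n => nu i (x - y)) :=
  (PLL.nu i y).1.1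

theorem lu4_nu_nonneg {n : ℕ} (i : Fin n) (x : E n) : 0 ≤ nu i x := norm_nonneg _

theorem lu4_nu_ee {n : ℕ} (i : Fin n) (y : E n) (t : ℝ) : nu i (y + t • ee i - y) = 0 := by
  unfold nu
  rw [add_sub_cancel_left, norm_eq_zero]
  funext j
  by_cases hj : j = i
  · rw [hj]; simp
  · simp [hj, ee]

theorem lu4_coord_ee {n : ℕ} (i : Fin n) (y : E n) (hy : y i = 0) (t : ℝ) :
    (y + t • (ee i : E n)) i = t := by
  simp [ee, hy]

theorem lu4_norm_le {n : ℕ} (i : Fin n) (y : E n) (hy : y i = 0) (x : E n) (p c d : ℝ)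
    (h1 : |x i - p| ≤ c) (h2 : nu i (x - y) ≤ d) : ‖x - (y + p • ee i)‖ ≤ c + d := by
  have hc : 0 ≤ c := (abs_nonneg _).trans h1
  have hd : 0 ≤ d := (lu4_nu_nonneg i _).trans h2
  refine (pi_norm_le_iff_of_nonneg (by linarith)).2 (fun j => ?_)
  by_cases hj : j = i
  · rw [hj, Pi.sub_apply, lu4_coord_ee i y hy, Real.norm_eq_abs]
    linarith
  · have e1 : (x - (y + p • ee i)) j = (Function.update (x - y) i 0) j := by
      rw [Function.update_of_ne hj]
      simp [ee, hj]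
    rw [e1]
    have e2 := norm_le_pi_norm (Function.update (x - y) i 0) j
    have e3 : ‖Function.update (x - y) i 0‖ = nu i (x - y) := rfl
    linarith

theorem lu4_nu_convex {n : ℕ} (i : Fin n) (y : E n) (x x' : E n) (c : ℝ)
    (h : nu i (x - y) ≤ c) (h' : nu i (x' - y) ≤ c) (z : E n) (hz : z ∈ segment ℝ x x') :
    nu i (z - y) ≤ c := by
  obtain ⟨u, v, hu, hv, huv, rfl⟩ := hz
  have hc : 0 ≤ c := (lu4_nu_nonneg i _).trans h
  unfold nu at h h' ⊢
  refine (pi_norm_le_iff_of_nonneg hc).2 (fun j => ?_)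
  by_cases hj : j = i
  · rw [hj, Function.update_self]; simpa using hc
  · rw [Function.update_of_ne hj]
    have e1 := (norm_le_pi_norm (Function.update (x - y) i 0) j).trans h
    have e2 := (norm_le_pi_norm (Function.update (x' - y) i 0) j).trans h'
    rw [Function.update_of_ne hj, Pi.sub_apply, Real.norm_eq_abs] at e1 e2
    have e3 : (u • x + v • x' - y) j = u * (x j - y j) + v * (x' j - y j) := by
      have : y j = (u + v) * y j := by rw [huv, one_mul]
      simp only [Pi.sub_apply, Pi.add_apply, Pi.smul_apply, smul_eq_mul]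
      linear_combination (-1 : ℝ) * this
    rw [e3, Real.norm_eq_abs]
    obtain ⟨a1, a2⟩ := abs_le.1 e1
    obtain ⟨b1, b2⟩ := abs_le.1 e2
    have hv' : v = 1 - u := by linarith
    refine abs_le.2 ⟨?_, ?_⟩
    · nlinarith
    · nlinarith

theorem lu4_coord_convex {n : ℕ} (i : Fin n) (x x' : E n) (a b : ℝ)
    (h1 : a ≤ x i) (h2 : x i ≤ b) (h3 : a ≤ x' i) (h4 : x' i ≤ b) (z : E n)
    (hz : z ∈ segment ℝ x x') : a ≤ z i ∧ z i ≤ b := by
  obtain ⟨u, v, hu, hv, huv, rfl⟩ := hz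
  have hv' : v = 1 - u := by linarith
  simp only [Pi.add_apply, Pi.smul_apply, smul_eq_mul]
  have ea : (u + v) * a = a := by rw [huv, one_mul]
  have eb : (u + v) * b = b := by rw [huv, one_mul]
  constructor
  · nlinarith [mul_nonneg hu (sub_nonneg.2 h1), mul_nonneg hv (sub_nonneg.2 h3)]
  · nlinarith [mul_nonneg hu (sub_nonneg.2 h2), mul_nonneg hv (sub_nonneg.2 h4)]

/-! ### the subpath -/

theorem lu4_sub (f : ℝ → ℝ) (hf : ContinuousOn f (Icc 0 1)) (p q : ℝ) (h : p < q)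
    (h0 : f 0 ≤ p) (h1 : q ≤ f 1) :
    ∃ t0 t1 : ℝ, 0 ≤ t0 ∧ t0 < t1 ∧ t1 ≤ 1 ∧ f t0 = p ∧ f t1 = q ∧
      ∀ t ∈ Icc t0 t1, p ≤ f t ∧ f t ≤ q := by
  -- first time at q
  have hA : IsCompact (Icc (0:ℝ) 1 ∩ f ⁻¹' {q}) :=
    isCompact_Icc.of_isClosed_subset (hf.preimage_isClosed_of_isClosed isClosed_Icc
      isClosed_singleton) inter_subset_left
  have hAne : (Icc (0:ℝ) 1 ∩ f ⁻¹' {q}).Nonempty := by
    obtain ⟨t, ht, e⟩ := intermediate_value_Icc (zero_le_one' ℝ) hf ⟨(by linarith : f 0 ≤ q), h1⟩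
    exact ⟨t, ht, e⟩
  obtain ⟨t1, ⟨ht1, ft1⟩, hmin⟩ := hA.exists_isLeast hAne
  have ft1' : f t1 = q := ft1
  have hlt : ∀ t, 0 ≤ t → t < t1 → f t < q := by
    intro t ht0 htt
    by_contra hc
    push Not at hc
    have htIcc : Icc (0:ℝ) t ⊆ Icc 0 1 := Icc_subset_Icc le_rfl (by linarith [ht1.2])
    obtain ⟨u, hu, e⟩ := intermediate_value_Icc ht0 (hf.mono htIcc) ⟨(by linarith : f 0 ≤ q), hc⟩
    have := hmin ⟨htIcc hu, e⟩
    linarith [hu.2]
  have ht1pos : 0 < t1 := by
    rcases ht1.1.eq_or_lt with e | e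
    · rw [← e] at ft1'
      linarith
    · exact e
  -- last time at p before t1
  have hsub1 : Icc (0:ℝ) t1 ⊆ Icc 0 1 := Icc_subset_Icc le_rfl ht1.2
  have hf1 := hf.mono hsub1
  have hB : IsCompact (Icc (0:ℝ) t1 ∩ f ⁻¹' {p}) :=
    isCompact_Icc.of_isClosed_subset (hf1.preimage_isClosed_of_isClosed isClosed_Icc
      isClosed_singleton) inter_subset_left
  have hBne : (Icc (0:ℝ) t1 ∩ f ⁻¹' {p}).Nonempty := by
    obtain ⟨t, ht, e⟩ := intermediate_value_Icc ht1.1 hf1 ⟨h0, (by linarith : p ≤ f t1)⟩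
    exact ⟨t, ht, e⟩
  obtain ⟨t0, ⟨ht0, ft0⟩, hmax⟩ := hB.exists_isGreatest hBne
  have ft0' : f t0 = p := ft0
  have h01 : t0 < t1 := by
    rcases ht0.2.eq_or_lt with e | e
    · rw [e] at ft0'
      linarith
    · exact e
  refine ⟨t0, t1, ht0.1, h01, ht1.2, ft0', ft1', ?_⟩
  intro t ht
  constructor
  · by_contra hc
    push Not at hc
    have hsub2 : Icc t t1 ⊆ Icc (0:ℝ) t1 := Icc_subset_Icc (by linarith [ht.1, ht0.1]) le_rfl
    obtain ⟨u, hu, e⟩ := intermediate_value_Icc ht.2 (hf1.mono hsub2)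
      ⟨hc.le, (by linarith : p ≤ f t1)⟩
    have h5 := hmax ⟨hsub2 hu, e⟩
    have h6 : t = t0 := le_antisymm (by linarith [hu.1]) ht.1
    rw [h6, ft0'] at hc
    exact lt_irrefl _ hc
  · rcases ht.2.eq_or_lt with e | e
    · rw [e, ft1']
    · exact (hlt t (by linarith [ht.1, ht0.1]) e).le

/-! ### the chain of balls -/

theorem lu4_chain {n : ℕ} (γ : ℝ → E n) (t0 t1 : ℝ) (h : t0 < t1) (hγ : ContinuousOn γ (Icc t0 t1))
    (W : Set (E n)) (hW : IsOpen W) (hγW : ∀ t ∈ Icc t0 t1, γ t ∈ W) (ρ : ℝ) (hρ : 0 < ρ) :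
    ∃ (m : ℕ) (O : ℕ → Set (E n)), 4 ≤ m ∧ (∀ k, IsOpen (O k)) ∧ (∀ k, (O k).Nonempty) ∧
      (∀ k, O k ⊆ W) ∧ O 1 ⊆ Metric.ball (γ t0) ρ ∧ O (m - 1) ⊆ Metric.ball (γ t1) ρ ∧
      ∀ k, 1 ≤ k → k + 1 < m → ∀ a ∈ O k, ∀ b ∈ O (k + 1), segment ℝ a b ⊆ W := by
  have hK : IsCompact (γ '' Icc t0 t1) := isCompact_Icc.image_of_continuousOn hγ
  obtain ⟨r', hr', hthick⟩ := hK.exists_thickening_subset_open hW (by
    rintro _ ⟨t, ht, rfl⟩
    exact hγW t ht)
  set r := min r' ρ with hr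
  have hr0 : 0 < r := lt_min hr' hρ
  have hball : ∀ t ∈ Icc t0 t1, Metric.ball (γ t) r ⊆ W := by
    intro t ht x hx
    refine hthick (Metric.mem_thickening_iff.2 ⟨γ t, ⟨t, ht, rfl⟩, ?_⟩)
    exact (Metric.mem_ball.1 hx).trans_le (min_le_left _ _)
  have huc := isCompact_Icc.uniformContinuousOn_of_continuous hγ
  obtain ⟨d, hd, hdu⟩ := Metric.uniformContinuousOn_iff.1 huc (r / 3) (by linarith)
  obtain ⟨N, hN⟩ := exists_nat_gt (max 2 ((t1 - t0) / d))
  have hN2 : (2 : ℝ) < N := (le_max_left _ _).trans_lt hN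
  have hNd : (t1 - t0) / d < N := (le_max_right _ _).trans_lt hN
  have hN0 : (0 : ℝ) < N := by linarith
  have hN2' : 2 < N := by exact_mod_cast hN2
  -- times
  let τ : ℕ → ℝ := fun k => t0 + ((min (k - 1) N : ℕ) : ℝ) / N * (t1 - t0)
  have hτ : ∀ k, τ k ∈ Icc t0 t1 := by
    intro k
    have e1 : ((min (k - 1) N : ℕ) : ℝ) / N ≤ 1 := by
      rw [div_le_one hN0]
      exact_mod_cast min_le_right _ _
    have e2 : 0 ≤ ((min (k - 1) N : ℕ) : ℝ) / N := by positivity
    show t0 ≤ t0 + ((min (k - 1) N : ℕ) : ℝ) / N * (t1 - t0) ∧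
      t0 + ((min (k - 1) N : ℕ) : ℝ) / N * (t1 - t0) ≤ t1
    constructor <;> nlinarith
  have hτ1 : τ 1 = t0 := by simp [τ]
  have hτN : τ (N + 2 - 1) = t1 := by
    have e1 : min (N + 2 - 1 - 1) N = N := by omega
    show t0 + ((min (N + 2 - 1 - 1) N : ℕ) : ℝ) / N * (t1 - t0) = t1
    rw [e1, div_self hN0.ne']
    ring
  have hstep : ∀ k, 1 ≤ k → k + 1 < N + 2 → dist (τ k) (τ (k + 1)) < d := by
    intro k hk1 hk2
    have e1 : min (k - 1) N = k - 1 := by omega
    have e2 : min (k + 1 - 1) N = (k - 1) + 1 := by omega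
    have e3 : τ (k + 1) - τ k = (t1 - t0) / N := by
      show (t0 + ((min (k + 1 - 1) N : ℕ) : ℝ) / N * (t1 - t0)) -
        (t0 + ((min (k - 1) N : ℕ) : ℝ) / N * (t1 - t0)) = _
      rw [e1, e2]
      push_cast
      field_simp
      ring
    rw [dist_comm, Real.dist_eq, e3, abs_of_pos (div_pos (by linarith) hN0), div_lt_iff₀ hN0]
    rw [div_lt_iff₀ hd] at hNd
    linarith
  refine ⟨N + 2, fun k => Metric.ball (γ (τ k)) (r / 3), by omega, fun k => Metric.isOpen_ball,
    fun k => ⟨γ (τ k), Metric.mem_ball_self (by linarith)⟩, ?_, ?_, ?_, ?_⟩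
  · intro k
    exact (Metric.ball_subset_ball (by linarith)).trans (hball _ (hτ k))
  · show Metric.ball (γ (τ 1)) (r / 3) ⊆ _
    rw [hτ1]
    exact Metric.ball_subset_ball (by linarith [min_le_right r' ρ])
  · show Metric.ball (γ (τ (N + 2 - 1))) (r / 3) ⊆ _
    rw [hτN]
    exact Metric.ball_subset_ball (by linarith [min_le_right r' ρ])
  · intro k hk1 hk2 a ha b hb
    have e1 := hdu _ (hτ k) _ (hτ (k + 1)) (hstep k hk1 hk2)
    have hb' : b ∈ Metric.ball (γ (τ k)) r := by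
      rw [Metric.mem_ball] at hb ⊢
      have e2 := dist_triangle b (γ (τ (k + 1))) (γ (τ k))
      rw [dist_comm (γ (τ (k + 1)))] at e2
      linarith
    have ha' : a ∈ Metric.ball (γ (τ k)) r := Metric.ball_subset_ball (by linarith) ha
    exact ((convex_ball (γ (τ k)) r).segment_subset ha' hb').trans (hball _ (hτ k))

/-! ### the theorem -/

theorem lul_four {n : ℕ} (hn : 4 ≤ n) : LUL n := by
  intro i V y p q lam lam' δ γ hV hy hpq hδ hlam hγ hγV hγ0 hγ1 hbd
  have hlam0 : 0 ≤ lam := (lu4_nu_nonneg i _).trans (hγV 0 ⟨le_rfl, zero_le_one⟩).2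
  have hlam'0 : 0 < lam' := lt_of_le_of_lt hlam0 hlam
  -- the margin
  obtain ⟨η, hη0, hηδ, hηpq⟩ : ∃ η : ℝ, 0 < η ∧ η ≤ δ / 8 ∧ η ≤ (q - p) / 16 :=
    ⟨min (δ / 8) ((q - p) / 16), lt_min (by linarith) (by linarith), min_le_left _ _,
      min_le_right _ _⟩
  -- the subpath
  have hγi : ContinuousOn (fun t => γ t i) (Icc 0 1) :=
    (continuous_apply i).comp_continuousOn hγ
  obtain ⟨t0, t1, ht0, ht01, ht1, ft0, ft1, hbet⟩ := lu4_sub (fun t => γ t i) hγi (p + 2 * η)
    (q - 2 * η) (by linarith) (by show γ 0 i ≤ _; linarith) (by show _ ≤ γ 1 i; linarith)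
  have hsub : Icc t0 t1 ⊆ Icc (0:ℝ) 1 := Icc_subset_Icc ht0 ht1
  let W : Set (E n) := V ∩ {x | p + η < x i ∧ x i < q - η ∧ nu i (x - y) < lam'}
  have hWo : IsOpen W := by
    refine hV.inter ?_
    have o1 : IsOpen {x : E n | p + η < x i} := isOpen_lt continuous_const (continuous_apply i)
    have o2 : IsOpen {x : E n | x i < q - η} := isOpen_lt (continuous_apply i) continuous_const
    have o3 : IsOpen {x : E n | nu i (x - y) < lam'} :=
      isOpen_lt (lu4_nu_cont i y) continuous_const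
    exact o1.inter (o2.inter o3)
  have hγW : ∀ t ∈ Icc t0 t1, γ t ∈ W := by
    intro t ht
    obtain ⟨b1, b2⟩ := hbet t ht
    have b1' : p + 2 * η ≤ γ t i := b1
    have b2' : γ t i ≤ q - 2 * η := b2
    exact ⟨(hγV t (hsub ht)).1, by linarith, by linarith,
      lt_of_le_of_lt (hγV t (hsub ht)).2 hlam⟩
  obtain ⟨m, O, hm4, hOo, hOne, hOW, hO1, hOm, hOseg⟩ := lu4_chain γ t0 t1 ht01 (hγ.mono hsub) W
    hWo hγW η hη0
  have hL : 0 < q - p - 2 * η := by linarith
  -- the polygon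
  have hne : y + (p + η) • (ee i : E n) ≠ y + (q - η) • (ee i : E n) := by
    intro e
    have := congrFun e i
    rw [lu4_coord_ee i y hy, lu4_coord_ee i y hy] at this
    linarith
  obtain ⟨P, P0, Pm, PO, hGP⟩ := exists_generic hn m O hOo hOne _ _ hne (by omega)
  have hP0i : P 0 i = p + η := by rw [P0, lu4_coord_ee i y hy]
  have hPmi : P m i = q - η := by rw [Pm, lu4_coord_ee i y hy]
  have hPW : ∀ k, 0 < k → k < m → P k ∈ W := fun k h1 h2 => hOW k (PO k h1 h2)
  have hPnu : ∀ k, k ≤ m → nu i (P k - y) < lam' := by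
    intro k hk
    rcases Nat.eq_zero_or_pos k with rfl | hk0
    · rw [P0, lu4_nu_ee]; exact hlam'0
    · rcases hk.eq_or_lt with rfl | hkm
      · rw [Pm, lu4_nu_ee]; exact hlam'0
      · exact (hPW k hk0 hkm).2.2.2
  have hPi : ∀ k, k ≤ m → p + η ≤ P k i ∧ P k i ≤ q - η := by
    intro k hk
    rcases Nat.eq_zero_or_pos k with rfl | hk0
    · rw [hP0i]; exact ⟨le_rfl, by linarith⟩
    · rcases hk.eq_or_lt with rfl | hkm
      · rw [hPmi]; exact ⟨by linarith, le_rfl⟩
      · exact ⟨(hPW k hk0 hkm).2.1.le, (hPW k hk0 hkm).2.2.1.le⟩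
  have hP1i : P 1 i ≤ p + δ := by
    have e1 := hO1 (PO 1 one_pos (by omega))
    rw [Metric.mem_ball, dist_eq_norm] at e1
    have e2 := (norm_le_pi_norm (P 1 - γ t0) i)
    rw [Pi.sub_apply, Real.norm_eq_abs] at e2
    have e3 : γ t0 i = p + 2 * η := ft0
    have e4 := (abs_le.1 (e2.trans e1.le)).2
    linarith
  have hPm1i : q - δ ≤ P (m - 1) i := by
    have e1 := hOm (PO (m - 1) (by omega) (by omega))
    rw [Metric.mem_ball, dist_eq_norm] at e1
    have e2 := (norm_le_pi_norm (P (m - 1) - γ t1) i)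
    rw [Pi.sub_apply, Real.norm_eq_abs] at e2
    have e3 : γ t1 i = q - 2 * η := ft1
    have e4 := (abs_le.1 (e2.trans e1.le)).1
    linarith
  -- unknotting
  let B : Set (E n) := {x | p < x i ∧ x i < q ∧ nu i (x - y) < lam'}
  have hBo : IsOpen B := by
    have o1 : IsOpen {x : E n | p < x i} := isOpen_lt continuous_const (continuous_apply i)
    have o2 : IsOpen {x : E n | x i < q} := isOpen_lt (continuous_apply i) continuous_const
    have o3 : IsOpen {x : E n | nu i (x - y) < lam'} :=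
      isOpen_lt (lu4_nu_cont i y) continuous_const
    exact o1.inter (o2.inter o3)
  have hBc : Convex ℝ B := by
    rw [convex_iff_segment_subset]
    intro x hx x' hx' z hz
    obtain ⟨x1, x2, x3⟩ := hx
    obtain ⟨x1', x2', x3'⟩ := hx'
    obtain ⟨z1, z2⟩ := lu4_coord_convex i x x' (min (x i) (x' i)) (max (x i) (x' i))
      (min_le_left _ _) (le_max_left _ _) (min_le_right _ _) (le_max_right _ _) z hz
    have z3 := lu4_nu_convex i y x x' (max (nu i (x - y)) (nu i (x' - y))) (le_max_left _ _)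
      (le_max_right _ _) z hz
    exact ⟨(lt_min x1 x1').trans_le z1, z2.trans_lt (max_lt x2 x2'), z3.trans_lt (max_lt x3 x3')⟩
  have hBR : B ⊆ Metric.ball 0 10 := by
    intro x hx
    rw [Metric.mem_ball, dist_zero_right]
    exact hbd x hx.1 hx.2.1 hx.2.2
  have hPB : ∀ k, k ≤ m → P k ∈ B := fun k hk =>
    ⟨by linarith [(hPi k hk).1], by linarith [(hPi k hk).2], hPnu k hk⟩
  obtain ⟨ψ, hψB, hψl, hψr, hψim⟩ := unknot4 (R := 10) hn i P m (by omega) hGP
    (fun k h1 h2 => by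
      rcases h2.eq_or_lt with rfl | h3
      · rw [hP0i, hPmi]; linarith
      · rw [hP0i]; exact (hPW k h1 h3).2.1)
    (fun k h1 => by
      rcases Nat.eq_zero_or_pos k with rfl | hk0
      · rw [hP0i, hPmi]; linarith
      · rw [hPmi]; exact (hPW k hk0 h1).2.2.1) B hBo hBc hBR hPB η hη0
  -- the middle part
  let Q : Set (E n) := ⋃ k ∈ Finset.Ico 1 (m - 1), segment ℝ (P k) (P (k + 1))
  have hQmem : ∀ x, x ∈ Q ↔ ∃ k, 1 ≤ k ∧ k + 1 < m ∧ x ∈ segment ℝ (P k) (P (k + 1)) := by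
    intro x
    show x ∈ ⋃ k ∈ Finset.Ico 1 (m - 1), segment ℝ (P k) (P (k + 1)) ↔ _
    rw [Set.mem_iUnion₂]
    constructor
    · rintro ⟨k, hk, hx⟩
      rw [Finset.mem_Ico] at hk
      exact ⟨k, hk.1, by omega, hx⟩
    · rintro ⟨k, h1, h2, hx⟩
      exact ⟨k, by rw [Finset.mem_Ico]; omega, hx⟩
  have hQclosed : IsClosed Q := by
    refine Set.Finite.isClosed_biUnion (Finset.finite_toSet _) (fun k _ => ?_)
    rw [← convexHull_pair]
    exact (Set.toFinite {P k, P (k + 1)}).isClosed_convexHull ℝ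
  have hQV : Q ⊆ V := by
    intro x hx
    obtain ⟨k, h1, h2, hx⟩ := (hQmem x).1 hx
    exact (hOseg k h1 h2 (P k) (PO k (by omega) (by omega)) (P (k + 1))
      (PO (k + 1) (by omega) (by omega)) hx).1
  have hpoly : poly P m = segment ℝ (P 0) (P 1) ∪ Q ∪ segment ℝ (P (m - 1)) (P m) := by
    ext x
    unfold poly
    rw [Set.mem_iUnion₂, Set.mem_union, Set.mem_union, hQmem]
    constructor
    · rintro ⟨k, hk, hx⟩
      rcases Nat.eq_zero_or_pos k with rfl | hk0
      · exact Or.inl (Or.inl hx)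
      · by_cases hkm : k + 1 < m
        · exact Or.inl (Or.inr ⟨k, hk0, hkm, hx⟩)
        · have e1 : k = m - 1 := by omega
          have e2 : k + 1 = m := by omega
          rw [e2] at hx
          rw [e1] at hx
          exact Or.inr hx
    · rintro ((hx | ⟨k, h1, h2, hx⟩) | hx)
      · exact ⟨0, by omega, hx⟩
      · exact ⟨k, by omega, hx⟩
      · refine ⟨m - 1, by omega, ?_⟩
        have e2 : m - 1 + 1 = m := by omega
        rw [e2]
        exact hx
  have hψ0 : (ψ : E n ≃ₜ E n) (P 0) = P 0 := hψl _ (left_mem_segment ℝ _ _)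
  have hψm : (ψ : E n ≃ₜ E n) (P m) = P m := hψr _ (left_mem_segment ℝ _ _)
  have hPne : ∀ a b, a ≤ m → b ≤ m → a ≠ b → P a ≠ P b := by
    intro a b ha hb hab e
    have h5 := hGP {a, b} ((Finset.card_le_two).trans (by norm_num)) (by
      intro k hk
      simp only [Finset.mem_insert, Finset.mem_singleton] at hk
      rcases hk with rfl | rfl <;> assumption)
    have h6 := @AffineIndependent.injective _ _ _ _ _ _ _ _ _ _ h5 ⟨a, by simp⟩ ⟨b, by simp⟩ e
    exact hab (congrArg Subtype.val h6)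
  obtain ⟨s, t, hs0, hst, ht1', hA, hBm, hC⟩ := extract_params (ψ : E n ≃ₜ E n) (P 0) (P 1)
    (P (m - 1)) (P m) Q hQclosed (hPne 0 m (by omega) le_rfl (by omega))
    (hPne 0 1 (by omega) (by omega) (by omega))
    (hPne (m - 1) m (by omega) le_rfl (by omega)) (hPne 1 (m - 1) (by omega) (by omega) (by omega))
    ((hQmem _).2 ⟨1, le_rfl, by omega, left_mem_segment ℝ _ _⟩)
    ((hQmem _).2 ⟨m - 2, by omega, by omega, by
      have e : m - 2 + 1 = m - 1 := by omega
      rw [e]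
      exact right_mem_segment ℝ _ _⟩)
    (hψim.trans hpoly) hψ0 hψm
    (by
      rintro x ⟨hx1, hx2⟩
      obtain ⟨k, h1, h2, hx3⟩ := (hQmem x).1 hx2
      rcases h1.eq_or_lt with e | e
      · subst e
        exact lu4_seg_inter P m hGP 0 1 2 (by omega) (by omega) (by omega) (by omega) (by omega)
          (by omega) ⟨hx1, hx3⟩
      · exact (Set.disjoint_left.1 (lu4_seg_disj P m hGP 0 1 k (k + 1) (by omega) (by omega)
          (by omega) (by omega) (by omega) (by omega) (by omega) (by omega)) hx1 hx3).elim)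
    (by
      rintro x ⟨hx2, hx1⟩
      obtain ⟨k, h1, h2, hx3⟩ := (hQmem x).1 hx2
      by_cases e : k + 1 = m - 1
      · have e' : k = m - 2 := by omega
        rw [e] at hx3
        exact lu4_seg_inter P m hGP k (m - 1) m (by omega) (by omega) (by omega) (by omega)
          (by omega) (by omega) ⟨hx3, hx1⟩
      · exact (Set.disjoint_left.1 (lu4_seg_disj P m hGP k (k + 1) (m - 1) m (by omega) (by omega)
          (by omega) (by omega) (by omega) (by omega) (by omega) (by omega)) hx3 hx1).elim)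
    (lu4_seg_disj P m hGP 0 1 (m - 1) m (by omega) (by omega)
          (by omega) (by omega) (by omega) (by omega) (by omega) (by omega))
  -- parametrization
  have hline : ∀ τ : ℝ, AffineMap.lineMap (P 0) (P m) τ =
      y + ((p + η) + τ * (q - p - 2 * η)) • (ee i : E n) := by
    intro τ
    rw [P0, Pm, AffineMap.lineMap_apply]
    simp only [vsub_eq_sub, vadd_eq_add]
    module
  have hpar : ∀ u : ℝ, y + u • (ee i : E n) =
      AffineMap.lineMap (P 0) (P m) ((u - (p + η)) / (q - p - 2 * η)) := by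
    intro u
    rw [hline, div_mul_cancel₀ _ hL.ne']
    congr 2
    ring
  refine ⟨ψ, hψB, (p + η) + s * (q - p - 2 * η), (p + η) + t * (q - p - 2 * η), ?_, ?_, ?_, ?_, ?_,
    ?_⟩
  · have := mul_pos hs0 hL
    linarith
  · have := mul_lt_mul_of_pos_right hst hL
    linarith
  · have := mul_lt_mul_of_pos_right ht1' hL
    linarith
  · intro u hu
    rw [hpar]
    apply hQV
    refine hBm _ ⟨?_, ?_⟩
    · rw [le_div_iff₀ hL]; linarith [hu.1]
    · rw [div_le_iff₀ hL]; linarith [hu.2]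
  · intro u hu
    rcases le_total u (p + η) with hu2 | hu2
    · have e1 : (ψ : E n ≃ₜ E n) (y + u • ee i) = y + u • ee i := by
        apply hψl
        refine ⟨1 - (p + η - u) / η, (p + η - u) / η, ?_, ?_, by ring, ?_⟩
        · rw [sub_nonneg, div_le_one hη0]; linarith [hu.1]
        · exact div_nonneg (by linarith) hη0.le
        · rw [P0]
          have e2 : ((p + η - u) / η) * η = p + η - u := div_mul_cancel₀ _ hη0.ne'
          have e3 : (1 - (p + η - u) / η) • (y + (p + η) • (ee i : E n)) +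
              ((p + η - u) / η) • (y + (p + η) • (ee i : E n) - η • ee i) =
              y + ((p + η) - ((p + η - u) / η) * η) • (ee i : E n) := by module
          rw [e3, e2]
          congr 2
          ring
      rw [e1]
      refine lu4_norm_le i y hy _ p δ lam' ?_ ?_
      · rw [lu4_coord_ee i y hy]
        refine abs_le.2 ⟨by linarith [hu.1], by linarith⟩
      · rw [lu4_nu_ee]; exact hlam'0.le
    · have e1 : (ψ : E n ≃ₜ E n) (y + u • ee i) ∈ segment ℝ (P 0) (P 1) := by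
        rw [hpar]
        refine hA _ ⟨?_, ?_⟩
        · exact div_nonneg (by linarith) hL.le
        · rw [div_le_iff₀ hL]; linarith [hu.2]
      obtain ⟨c1, c2⟩ := lu4_coord_convex i (P 0) (P 1) (p + η) (p + δ) hP0i.ge
        (by rw [hP0i]; linarith) (hPi 1 (by omega)).1 hP1i _ e1
      have c3 := lu4_nu_convex i y (P 0) (P 1) lam' (hPnu 0 (by omega)).le
        (hPnu 1 (by omega)).le _ e1
      refine lu4_norm_le i y hy _ p δ lam' (abs_le.2 ⟨by linarith, by linarith⟩) c3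
  · intro u hu
    rcases le_total (q - η) u with hu2 | hu2
    · have e1 : (ψ : E n ≃ₜ E n) (y + u • ee i) = y + u • ee i := by
        apply hψr
        refine ⟨1 - (u - (q - η)) / η, (u - (q - η)) / η, ?_, ?_, by ring, ?_⟩
        · rw [sub_nonneg, div_le_one hη0]; linarith [hu.2]
        · exact div_nonneg (by linarith) hη0.le
        · rw [Pm]
          have e2 : ((u - (q - η)) / η) * η = u - (q - η) := div_mul_cancel₀ _ hη0.ne'
          have e3 : (1 - (u - (q - η)) / η) • (y + (q - η) • (ee i : E n)) +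
              ((u - (q - η)) / η) • (y + (q - η) • (ee i : E n) + η • ee i) =
              y + ((q - η) + ((u - (q - η)) / η) * η) • (ee i : E n) := by module
          rw [e3, e2]
          congr 2
          ring
      rw [e1]
      refine lu4_norm_le i y hy _ q δ lam' ?_ ?_
      · rw [lu4_coord_ee i y hy]
        refine abs_le.2 ⟨by linarith, by linarith [hu.2]⟩
      · rw [lu4_nu_ee]; exact hlam'0.le
    · have e1 : (ψ : E n ≃ₜ E n) (y + u • ee i) ∈ segment ℝ (P (m - 1)) (P m) := by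
        rw [hpar]
        refine hC _ ⟨?_, ?_⟩
        · rw [le_div_iff₀ hL]; linarith [hu.1]
        · rw [div_le_one hL]; linarith
      obtain ⟨c1, c2⟩ := lu4_coord_convex i (P (m - 1)) (P m) (q - δ) (q - η) hPm1i
        (hPi (m - 1) (by omega)).2 (by rw [hPmi]; linarith) hPmi.le _ e1
      have c3 := lu4_nu_convex i y (P (m - 1)) (P m) lam' (hPnu (m - 1) (by omega)).le
        (hPnu m (by omega)).le _ e1
      refine lu4_norm_le i y hy _ q δ lam' (abs_le.2 ⟨by linarith, by linarith⟩) c3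

end Pool.Agent.Lib_helper11.PLM
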