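import Pool.Agent.Lib_helper11.PLM.F.WDefs
import Pool.Agent.Lib_helper11.PLM.F.CMB
import Pool.Agent.Lib_helper11.PLM.F.EXP
import Pool.Agent.Lib_helper11.PLM.F.GFL


open Set Filter Topology
open scoped Manifold

namespace Pool.Agent.Lib_helper11.PLM

theorem mtu_maps {n : ℕ} {R : ℝ} (h : HC n R) (S : Set (E n)) (hh : Supp h S) (x : E n)
    (hx : x ∈ S) : (h : E n ≃ₜ E n) x ∈ S := by
  by_contra hc
  have h1 := hh _ hc
  have h2 := (h : E n ≃ₜ E n).injective h1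
  rw [h2] at hc
  exact hc hx

theorem mtu_conj {n : ℕ} {R : ℝ} {ι : Type*} (S : ι → Set (E n))
    (ψ s g : ι → HC n R) (hψ : ∀ k, Supp (ψ k) (S k)) (hs : ∀ k, Supp (s k) (S k))
    (hg : ∀ k, g k = ψ k * s k * (ψ k)⁻¹) (Ψ s0 G : HC n R)
    (Ψ1 : ∀ k, ∀ x ∈ S k, (Ψ : E n ≃ₜ E n) x = (ψ k : E n ≃ₜ E n) x)
    (Ψ2 : ∀ x, (∀ k, x ∉ S k) → (Ψ : E n ≃ₜ E n) x = x)
    (s1 : ∀ k, ∀ x ∈ S k, (s0 : E n ≃ₜ E n) x = (s k : E n ≃ₜ E n) x)
    (s2 : ∀ x, (∀ k, x ∉ S k) → (s0 : E n ≃ₜ E n) x = x)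
    (G1 : ∀ k, ∀ x ∈ S k, (G : E n ≃ₜ E n) x = (g k : E n ≃ₜ E n) x)
    (G2 : ∀ x, (∀ k, x ∉ S k) → (G : E n ≃ₜ E n) x = x) : Ψ * s0 * Ψ⁻¹ = G := by
  rw [mul_inv_eq_iff_eq_mul]
  apply Subtype.ext
  apply Homeomorph.ext
  intro x
  show (Ψ : E n ≃ₜ E n) ((s0 : E n ≃ₜ E n) x) = (G : E n ≃ₜ E n) ((Ψ : E n ≃ₜ E n) x)
  by_cases hx : ∃ k, x ∈ S k
  · obtain ⟨k, hk⟩ := hx
    rw [s1 k x hk, Ψ1 k _ (mtu_maps (s k) (S k) (hs k) x hk), Ψ1 k x hk,
      G1 k _ (mtu_maps (ψ k) (S k) (hψ k) x hk), hg k]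
    show _ = (ψ k : E n ≃ₜ E n) ((s k : E n ≃ₜ E n) ((ψ k : E n ≃ₜ E n).symm
      ((ψ k : E n ≃ₜ E n) x)))
    rw [Homeomorph.symm_apply_apply]
  · push Not at hx
    rw [s2 x hx, Ψ2 x hx, G2 x hx]

theorem mtu_le_nu {n : ℕ} (i j : Fin n) (hj : j ≠ i) (x : E n) : |x j| ≤ nu i x := by
  have := norm_le_pi_norm (Function.update x i 0) j
  rw [Function.update_of_ne hj] at this
  simpa [nu] using this

theorem mtu_nu_le {n : ℕ} (i : Fin n) (x : E n) (b : ℝ) (hb : 0 ≤ b)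
    (h : ∀ j, j ≠ i → |x j| ≤ b) : nu i x ≤ b := by
  unfold nu
  refine (pi_norm_le_iff_of_nonneg hb).2 (fun j => ?_)
  by_cases hj : j = i
  · rw [hj, Function.update_self]
    simpa using hb
  · rw [Function.update_of_ne hj]
    simpa using h j hj

theorem mtu_exists_lb {ι : Type*} [Finite ι] (η : ι → ℝ) (h : ∀ k, 0 < η k) :
    ∃ e : ℝ, 0 < e ∧ ∀ k, e ≤ η k := by
  rcases isEmpty_or_nonempty ι with hι | hι
  · exact ⟨1, one_pos, fun k => (hι.false k).elim⟩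
  · obtain ⟨k0, hk0⟩ := Finite.exists_min η
    exact ⟨η k0, h k0, hk0⟩

theorem many_tubes {n : ℕ} {F : Filter (HC n 10)} (hF : GF _ F) (hs : SmallIn F) (i : Fin n)
    (a : ℝ) (ha : a = 2 ∨ a = -9) (hT : SingleTube F i a) : ManyTubes F i a := by
  classical
  intro N hN
  obtain ⟨N', hN', hN'N, hinv, hlist⟩ := gf_list hF N hN 5
  obtain ⟨ε, hε, hsm⟩ := hs N' hN'
  have hsp0 : 0 < min (ε / 4) (1 / 4 : ℝ) := lt_min (by linarith) (by norm_num)
  refine ⟨min (ε / 4) (1 / 4), hsp0, min_le_right _ _, fun o ho => ?_⟩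
  have hspε : min (ε / 4) (1 / 4 : ℝ) ≤ ε / 4 := min_le_left _ _
  have hsp1 : min (ε / 4) (1 / 4 : ℝ) ≤ 1 / 4 := min_le_right _ _
  generalize min (ε / 4) (1 / 4 : ℝ) = sp at hsp0 hspε hsp1 ho ⊢
  have hn : 0 < n := i.pos
  have hnr : (1 : ℝ) ≤ n := by exact_mod_cast hn
  -- index type
  obtain ⟨K0, hK0⟩ := exists_nat_ge (2 / sp)
  let Ks : Finset (Fin n → ℤ) := (Fintype.piFinset (fun _ => Finset.Icc (-(K0 : ℤ)) K0)).filter
    (fun k => k i = 0 ∧ ∀ j, j ≠ i → |o j + k j * sp| ≤ 1)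
  have hKs : ∀ k : Fin n → ℤ, k i = 0 → (∀ j, j ≠ i → |o j + k j * sp| ≤ 1) → k ∈ Ks := by
    intro k hk0 hk1
    refine Finset.mem_filter.2 ⟨?_, hk0, hk1⟩
    rw [Fintype.mem_piFinset]
    intro j
    rw [Finset.mem_Icc]
    by_cases hj : j = i
    · rw [hj, hk0]
      exact ⟨by omega, by omega⟩
    · have e1 := hk1 j hj
      have e2 := ho j
      have e3 : |(k j : ℝ) * sp| ≤ 2 := by
        have e4 : (k j : ℝ) * sp = (o j + k j * sp) - o j := by ring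
        rw [e4]
        have e5 := abs_sub (o j + k j * sp) (o j)
        linarith
      rw [abs_mul, abs_of_pos hsp0] at e3
      have e6 : |(k j : ℝ)| ≤ 2 / sp := by rw [le_div_iff₀ hsp0]; exact e3
      obtain ⟨e7, e8⟩ := abs_le.1 (e6.trans hK0)
      exact ⟨by exact_mod_cast e7, by exact_mod_cast e8⟩
  obtain ⟨N1, hN1, hN1N, hinv1, hlist1⟩ := gf_list hF N' hN' (Fintype.card {k // k ∈ Ks})
  let c : {k // k ∈ Ks} → E n := fun k j => if j = i then 0 else o j + k.1 j * sp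
  have hci : ∀ k, c k i = 0 := fun k => by simp [c]
  have hcj : ∀ k j, j ≠ i → c k j = o j + k.1 j * sp := fun k j hj => by simp [c, hj]
  have hc1 : ∀ k j, |c k j| ≤ 1 := by
    intro k j
    by_cases hj : j = i
    · rw [hj, hci]; simp
    · rw [hcj k j hj]
      exact (Finset.mem_filter.1 k.2).2.2 j hj
  choose ψ η hη0 hηl s hψs hψm hP hmem using fun k : {k // k ∈ Ks} =>
    hT N1 hN1 (ε / 8) (by linarith) (sp / 4) (by linarith) (by linarith) (c k) (hc1 k) (hci k)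
  let S : {k // k ∈ Ks} → Set (E n) := fun k => {x | a < x i ∧ x i < a + 7 ∧ nu i (x - c k) < sp / 4}
  have hSdef : ∀ k x, x ∈ S k ↔ (a < x i ∧ x i < a + 7 ∧ nu i (x - c k) < sp / 4) :=
    fun k x => Iff.rfl
  have hSd : Pairwise (Function.onFun Disjoint S) := by
    intro k k' hkk
    rw [Function.onFun, Set.disjoint_left]
    intro x hx hx'
    have hne : ∃ j, k.1 j ≠ k'.1 j := by
      by_contra hc
      push Not at hc
      exact hkk (Subtype.ext (funext hc))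
    obtain ⟨j, hj⟩ := hne
    have hji : j ≠ i := by
      rintro rfl
      exact hj (((Finset.mem_filter.1 k.2).2.1).trans ((Finset.mem_filter.1 k'.2).2.1).symm)
    have e1 := (mtu_le_nu i j hji (x - c k)).trans_lt ((hSdef k x).1 hx).2.2
    have e2 := (mtu_le_nu i j hji (x - c k')).trans_lt ((hSdef k' x).1 hx').2.2
    rw [Pi.sub_apply, hcj k j hji] at e1
    rw [Pi.sub_apply, hcj k' j hji] at e2
    have e3 : (1 : ℝ) ≤ |(k.1 j : ℝ) - k'.1 j| := by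
      have : (1 : ℤ) ≤ |k.1 j - k'.1 j| := Int.one_le_abs (sub_ne_zero.2 hj)
      exact_mod_cast this
    have e4 : |((k.1 j : ℝ) - k'.1 j) * sp| < sp / 2 := by
      have : ((k.1 j : ℝ) - k'.1 j) * sp = (x j - (o j + k'.1 j * sp)) - (x j - (o j + k.1 j * sp)) := by
        ring
      rw [this]
      have e5 := abs_sub (x j - (o j + k'.1 j * sp)) (x j - (o j + k.1 j * sp))
      linarith
    rw [abs_mul, abs_of_pos hsp0] at e4
    nlinarith
  have hsS : ∀ k, Supp (s k) (S k) := by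
    intro k x hx
    refine (hP k).supp x (fun hc => hx ?_)
    exact ⟨hc.1, hc.2.1, hc.2.2.trans_le (hηl k)⟩
  -- combine
  obtain ⟨lψ, -, hlψ, lψ1, lψ2⟩ := combine ψ S hSd hψs
  obtain ⟨ls, -, hls, ls1, ls2⟩ := combine s S hSd hsS
  have hgS : ∀ k, Supp (ψ k * s k * (ψ k)⁻¹) (S k) := by
    intro k x hx
    show (ψ k : E n ≃ₜ E n) ((s k : E n ≃ₜ E n) ((ψ k : E n ≃ₜ E n).symm x)) = x
    have e1 : (ψ k : E n ≃ₜ E n).symm x = x := by
      rw [Homeomorph.symm_apply_eq, hψs k x hx]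
    rw [e1, hsS k x hx, hψs k x hx]
  obtain ⟨lg, hlgl, hlg, lg1, lg2⟩ := combine (fun k => ψ k * s k * (ψ k)⁻¹) S hSd hgS
  have hG : lψ.prod * ls.prod * (lψ.prod)⁻¹ = lg.prod :=
    mtu_conj S ψ s _ hψs hsS (fun k => rfl) _ _ _ lψ1 lψ2 ls1 ls2 lg1 lg2
  set Ψ := lψ.prod with hΨ
  set s0 := ls.prod with hs0
  have hGN : lg.prod ∈ N' := by
    refine hlist1 lg hlgl.le (fun g hg => ?_)
    obtain ⟨k, rfl⟩ := hlg g hg
    exact hmem k
  have hΨN : Ψ ∈ N' := by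
    refine hsm Ψ (fun x => ?_)
    by_cases hx : ∃ k, x ∈ S k
    · obtain ⟨k, hk⟩ := hx
      rw [lψ1 k x hk]
      have := hψm k x
      linarith
    · push Not at hx
      rw [lψ2 x hx, sub_self, norm_zero]
      exact hε
  -- expansion
  obtain ⟨η0, hη00, hη0l⟩ := mtu_exists_lb η hη0
  have hκ : 0 < sp / (4 * n) := by positivity
  have hκ' : sp / (4 * n) < sp / 2 := by
    apply div_lt_div_of_pos_left hsp0 (by norm_num)
    linarith
  obtain ⟨e, he1, he2⟩ := exists_expand i sp hsp0 hsp1 o ho η0 hη00 (sp / (4 * n)) hκ hκ'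
  have heN : e ∈ N' := hsm e (fun x => (he1 x).trans_lt (by linarith))
  have hsN : e * s0 * e⁻¹ ∈ N := by
    have h5 : e * s0 * e⁻¹ = ([e, Ψ⁻¹, lg.prod, Ψ, e⁻¹] : List (HC n 10)).prod := by
      rw [← hG]
      simp only [List.prod_cons, List.prod_nil, mul_one]
      group
    rw [h5]
    refine hlist _ (by simp) (fun g hg => ?_)
    simp only [List.mem_cons, List.not_mem_nil, or_false] at hg
    rcases hg with rfl | rfl | rfl | rfl | rfl
    · exact heN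
    · exact hinv _ hΨN
    · exact hGN
    · exact hΨN
    · exact hinv _ heN
  refine ⟨e * s0 * e⁻¹, hsN, ?_⟩
  -- s0 moves
  have hmove : ∀ z : E n, z i ≤ a + 7 → ∃ τ : ℝ, 0 ≤ τ ∧ (s0 : E n ≃ₜ E n) z = z + τ • ee i ∧
      z i + τ ≤ a + 7 := by
    intro z hz
    by_cases hx : ∃ k, z ∈ S k
    · obtain ⟨k, hk⟩ := hx
      obtain ⟨τ, hτ, e1⟩ := (hP k).dir z
      refine ⟨τ, hτ, (ls1 k z hk).trans e1, ?_⟩
      have e2 := mtu_maps (s k) (S k) (hsS k) z hk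
      rw [e1] at e2
      have e3 := ((hSdef k _).1 e2).2.1
      have e4 : (z + τ • (ee i : E n)) i = z i + τ := by simp [ee]
      rw [e4] at e3
      exact e3.le
    · push Not at hx
      refine ⟨0, le_rfl, ?_, by linarith⟩
      rw [ls2 z hx, zero_smul, add_zero]
  have hval : ∀ x, ((e * s0 * e⁻¹ : HC n 10) : E n ≃ₜ E n) x =
      (e : E n ≃ₜ E n) ((s0 : E n ≃ₜ E n) (((e⁻¹ : HC n 10) : E n ≃ₜ E n) x)) := fun x => rfl
  have hab : ∀ u : ℝ, a ≤ u → u ≤ a + 7 → |u| ≤ 9 := by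
    intro u hu1 hu2
    rcases ha with rfl | rfl
    · exact abs_le.2 ⟨by linarith, by linarith⟩
    · exact abs_le.2 ⟨by linarith, by linarith⟩
  have hkey : ∀ x : E n, a ≤ x i → x i ≤ a + 7 → nu i x ≤ 1 / 2 →
      ∃ τ : ℝ, 0 ≤ τ ∧ ((e * s0 * e⁻¹ : HC n 10) : E n ≃ₜ E n) x = x + τ • ee i ∧
        x i + τ ≤ a + 7 ∧ (s0 : E n ≃ₜ E n) (((e⁻¹ : HC n 10) : E n ≃ₜ E n) x) =
          ((e⁻¹ : HC n 10) : E n ≃ₜ E n) x + τ • ee i := by
    intro x hx1 hx2 hx3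
    obtain ⟨z1, z2, -⟩ := he2 x (hab _ hx1 hx2) (by linarith)
    obtain ⟨τ, hτ, t1, t2⟩ := hmove (((e⁻¹ : HC n 10) : E n ≃ₜ E n) x) (by rw [z1]; exact hx2)
    rw [z1] at t2
    refine ⟨τ, hτ, ?_, t2, t1⟩
    rw [hval, t1]
    exact z2 τ (hab _ (by linarith) t2)
  refine ⟨fun x hx1 hx2 hx3 => ?_, fun x hx1 hx2 hx3 hgood => ?_⟩
  · obtain ⟨τ, hτ, t1, t2, -⟩ := hkey x hx1 hx2 hx3
    exact ⟨τ, hτ, t1, t2⟩
  · obtain ⟨τ, hτ, t1, t2, t3⟩ := hkey x (by linarith) hx2 hx3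
    obtain ⟨z1, -, z3⟩ := he2 x (hab _ (by linarith) hx2) (by linarith)
    have e4 : ((e * s0 * e⁻¹ : HC n 10) : E n ≃ₜ E n) x i = x i + τ := by
      rw [t1]; simp [ee]
    rw [e4]
    rcases eq_or_lt_of_le hx2 with h7 | h7
    · linarith
    · choose! kk hkk using hgood
      let k1 : Fin n → ℤ := fun j => if j = i then 0 else kk j
      have hk1j : ∀ j, j ≠ i → k1 j = kk j := fun j hj => by simp [k1, hj]
      have hk1 : k1 ∈ Ks := by
        refine hKs k1 (by simp [k1]) (fun j hj => ?_)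
        rw [hk1j j hj]
        have e5 := hkk j hj
        have e6 := (mtu_le_nu i j hj x).trans hx3
        have e7 : o j + kk j * sp = x j - (x j - (o j + kk j * sp)) := by ring
        rw [e7]
        have e8 := abs_sub (x j) (x j - (o j + kk j * sp))
        linarith
      set z := ((e⁻¹ : HC n 10) : E n ≃ₜ E n) x with hz
      have hnu : nu i (z - c ⟨k1, hk1⟩) ≤ η0 / 2 := by
        refine mtu_nu_le i _ _ (by linarith) (fun j hj => ?_)
        rw [Pi.sub_apply, hcj _ j hj]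
        show |z j - (o j + (k1 j : ℝ) * sp)| ≤ η0 / 2
        rw [hk1j j hj]
        exact z3 j hj (kk j) (hkk j hj)
      have hηk := hη0l ⟨k1, hk1⟩
      have hηk' := hηl ⟨k1, hk1⟩
      have hzS : z ∈ S ⟨k1, hk1⟩ := by
        refine ⟨by rw [z1]; linarith, by rw [z1]; exact h7, ?_⟩
        linarith
      have hpush := (hP ⟨k1, hk1⟩).push z (by linarith) (by rw [z1]; exact hx1)
      rw [← ls1 _ z hzS, t3] at hpush
      have e9 : (z + τ • (ee i : E n)) i = x i + τ := by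
        rw [← z1]; simp [ee]
      rw [e9] at hpush
      exact hpush

end Pool.Agent.Lib_helper11.PLM
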