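import Pool.Agent.Lib_helper11.PLM.F.WDefs
import Pool.Agent.Lib_helper11.PLM.F.SHR


open Set Filter Topology
open scoped Manifold

namespace Pool.Agent.Lib_helper11.PLM

theorem psh_nu_add {n : ℕ} (i : Fin n) (x c : E n) (t : ℝ) :
    nu i (x + t • ee i - c) = nu i (x - c) := by
  unfold nu
  congr 1
  funext j
  by_cases h : j = i
  · subst h; simp
  · simp [h, ee]

theorem psh_apply {n : ℕ} (i : Fin n) (x : E n) (t : ℝ) : (x + t • ee i) i = x i + t := by
  simp [ee]

theorem exists_push {n : ℕ} (i : Fin n) (c : E n) (hc : c i = 0) (η p q θ : ℝ) (hη : 0 < η)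
    (hθ : 0 < θ) (hpq : p + 2 * θ ≤ q)
    (hb : ∀ x : E n, p < x i → x i < q → nu i (x - c) < η → ‖x‖ < 10) :
    ∃ u : HC n 10, (∀ x, ∃ τ : ℝ, 0 ≤ τ ∧ (u : E n ≃ₜ E n) x = x + τ • ee i) ∧
      Supp u {x | p < x i ∧ x i < q ∧ nu i (x - c) < η} ∧
      (∀ x, nu i (x - c) ≤ η / 2 → p + θ ≤ x i → q - θ ≤ (u : E n ≃ₜ E n) x i) := by
  have hqp : 0 < q - p := by linarith
  obtain ⟨Q, hQ⟩ : ∃ Q : ℝ, Q = max 2 ((q - p) / θ) := ⟨_, rfl⟩
  obtain ⟨Q', hQ'⟩ : ∃ Q' : ℝ, Q' = 2 * (q - p) / η := ⟨_, rfl⟩
  have hQ2 : 2 ≤ Q := hQ ▸ le_max_left _ _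
  have hQθ : q - p ≤ Q * θ := by
    have : (q - p) / θ ≤ Q := hQ ▸ le_max_right _ _
    rwa [div_le_iff₀ hθ] at this
  have hQ'0 : 0 < Q' := by rw [hQ']; positivity
  have hQ'η : Q' * (η / 2) = q - p := by rw [hQ']; field_simp
  have hQi : 0 < 1 / Q := by positivity
  have hQi1 : 1 / Q ≤ 1 / 2 := one_div_le_one_div_of_le (by norm_num) hQ2
  obtain ⟨K, hK⟩ : ∃ K : ℝ, K = 1 - 1 / Q := ⟨_, rfl⟩
  have hK0 : 0 < K := by rw [hK]; linarith
  have hK1 : K < 1 := by rw [hK]; linarith
  let v : E n → ℝ := fun x => max 0 (min (min (Q * (x i - p)) (K * (q - x i)))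
    (Q' * (η - nu i (x - c))))
  have hv : PLL v := by
    refine (PLL.const 0).max (PLL.min (PLL.min ?_ ?_) ?_)
    · exact PLL.const_mul _ ((PLL.coord i).sub (PLL.const p))
    · exact PLL.const_mul _ ((PLL.const q).sub (PLL.coord i))
    · exact PLL.const_mul _ ((PLL.const η).sub (PLL.nu i c))
  have hpos : ∀ x, v x ≠ 0 → p < x i ∧ x i < q ∧ nu i (x - c) < η := by
    intro x hx
    by_contra hcon
    apply hx
    have hle : min (min (Q * (x i - p)) (K * (q - x i))) (Q' * (η - nu i (x - c))) ≤ 0 := by
      by_contra hpos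
      push Not at hpos
      rw [lt_min_iff, lt_min_iff] at hpos
      obtain ⟨⟨h1, h2⟩, h3⟩ := hpos
      apply hcon
      refine ⟨?_, ?_, ?_⟩
      · have := (mul_pos_iff_of_pos_left (by linarith : (0:ℝ) < Q)).1 h1
        linarith
      · have := (mul_pos_iff_of_pos_left hK0).1 h2
        linarith
      · have := (mul_pos_iff_of_pos_left hQ'0).1 h3
        linarith
    exact max_eq_left hle
  obtain ⟨u, hu⟩ := exists_shear (R := 10) v (ee i) hv K hK1 (by
    intro x t ht
    show max 0 _ - K * t ≤ max 0 _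
    rw [psh_nu_add, psh_apply]
    have h1 : Q * (x i - p) ≤ Q * (x i + t - p) := by
      apply mul_le_mul_of_nonneg_left _ (by linarith)
      linarith
    have h2 : K * (q - x i) - K * t = K * (q - (x i + t)) := by ring
    have h3 : 0 ≤ K * t := by positivity
    rw [sub_le_iff_le_add]
    apply max_le
    · have := le_max_left (0:ℝ) (min (min (Q * (x i + t - p)) (K * (q - (x i + t))))
        (Q' * (η - nu i (x - c))))
      linarith
    · have hm : min (min (Q * (x i - p)) (K * (q - x i))) (Q' * (η - nu i (x - c))) - K * t ≤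
          min (min (Q * (x i + t - p)) (K * (q - (x i + t)))) (Q' * (η - nu i (x - c))) := by
        apply le_min
        · apply le_min
          · have := (min_le_left (min (Q * (x i - p)) (K * (q - x i)))
              (Q' * (η - nu i (x - c)))).trans (min_le_left _ _)
            linarith
          · have := (min_le_left (min (Q * (x i - p)) (K * (q - x i)))
              (Q' * (η - nu i (x - c)))).trans (min_le_right _ _)
            linarith
        · have := (min_le_right (min (Q * (x i - p)) (K * (q - x i)))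
              (Q' * (η - nu i (x - c))))
          linarith
      have := le_max_right (0:ℝ) (min (min (Q * (x i + t - p)) (K * (q - (x i + t))))
        (Q' * (η - nu i (x - c))))
      linarith) (by
    intro x hx
    by_contra hne
    obtain ⟨h1, h2, h3⟩ := hpos x hne
    exact absurd (hb x h1 h2 h3) (not_lt.2 hx))
  have hv0 : ∀ x, 0 ≤ v x := fun x => le_max_left _ _
  refine ⟨u, fun x => ⟨v x, hv0 x, hu x⟩, ?_, ?_⟩
  · intro x hx
    rw [hu x]
    have : v x = 0 := by
      by_contra hne
      exact hx (hpos x hne)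
    simp [this]
  · intro x hx1 hx2
    rw [hu x, psh_apply]
    rcases le_or_gt q (x i) with hq | hq
    · have := hv0 x
      linarith
    · have h1 : v x = K * (q - x i) := by
        show max 0 _ = _
        have ha : K * (q - x i) ≤ q - p := by
          have : K * (q - x i) ≤ 1 * (q - x i) :=
            mul_le_mul_of_nonneg_right hK1.le (by linarith)
          linarith
        have hb1 : q - p ≤ Q * (x i - p) := by
          refine hQθ.trans (mul_le_mul_of_nonneg_left ?_ (by linarith))
          linarith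
        have hb2 : q - p ≤ Q' * (η - nu i (x - c)) := by
          rw [← hQ'η]
          apply mul_le_mul_of_nonneg_left _ hQ'0.le
          linarith
        rw [min_eq_right (ha.trans hb1), min_eq_left (ha.trans hb2)]
        exact max_eq_right (mul_nonneg hK0.le (by linarith))
      rw [h1, hK]
      have h2 : (q - x i) / Q ≤ θ := by
        rw [div_le_iff₀ (by linarith)]
        have : θ * Q = Q * θ := mul_comm _ _
        linarith
      have h3 : x i + (1 - 1 / Q) * (q - x i) = q - (q - x i) / Q := by
        field_simp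
        ring
      rw [h3]
      linarith

end Pool.Agent.Lib_helper11.PLM
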