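import Pool.Agent.Lib_helper11.PLM.F.WDefs
import Pool.Agent.Lib_helper11.PLM.F.CMB
import Pool.Agent.Lib_helper11.PLM.F.GFL
import Pool.Agent.Lib_helper11.PLM.F.PSH


open Set Filter Topology
open scoped Manifold

namespace Pool.Agent.Lib_helper11.PLM

theorem stl_nu_add {n : ℕ} (i : Fin n) (x c : E n) (t : ℝ) :
    nu i (x + t • ee i - c) = nu i (x - c) := by
  unfold nu
  congr 1
  funext j
  by_cases h : j = i
  · subst h; simp
  · simp [h, ee]

theorem stl_apply {n : ℕ} (i : Fin n) (x : E n) (t : ℝ) : (x + t • ee i) i = x i + t := by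
  simp [ee]

theorem stl_le_nu {n : ℕ} (i j : Fin n) (hj : j ≠ i) (x : E n) : |x j| ≤ nu i x := by
  unfold nu
  have := norm_le_pi_norm (Function.update x i 0) j
  rw [Function.update_of_ne hj] at this
  simpa using this

theorem stl_mapsTo {n : ℕ} {R : ℝ} (h : HC n R) (S : Set (E n)) (hh : Supp h S) (x : E n)
    (hx : x ∈ S) : (h : E n ≃ₜ E n) x ∈ S := by
  by_contra hc
  have h1 := hh _ hc
  have h2 := (h : E n ≃ₜ E n).injective h1
  rw [h2] at hc
  exact hc hx

theorem stl_mul_apply {n : ℕ} {R : ℝ} (g h : HC n R) (x : E n) :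
    ((g * h : HC n R) : E n ≃ₜ E n) x = (g : E n ≃ₜ E n) ((h : E n ≃ₜ E n) x) := rfl

/-- boxes -/
def stl_box {n : ℕ} (i : Fin n) (c : E n) (η p q : ℝ) : Set (E n) :=
  {x | p < x i ∧ x i < q ∧ nu i (x - c) < η}

/-- moving in direction `i` -/
def stl_Dir {n : ℕ} (i : Fin n) (u : HC n 10) : Prop :=
  ∀ x, ∃ τ : ℝ, 0 ≤ τ ∧ (u : E n ≃ₜ E n) x = x + τ • ee i

theorem stl_Dir_one {n : ℕ} (i : Fin n) : stl_Dir i (1 : HC n 10) := fun x =>
  ⟨0, le_rfl, by simp⟩

theorem stl_Dir_mul {n : ℕ} (i : Fin n) (u v : HC n 10) (hu : stl_Dir i u) (hv : stl_Dir i v) :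
    stl_Dir i (u * v) := by
  intro x
  obtain ⟨τ, h1, h2⟩ := hv x
  obtain ⟨σ, h3, h4⟩ := hu ((v : E n ≃ₜ E n) x)
  refine ⟨τ + σ, add_nonneg h1 h3, ?_⟩
  rw [stl_mul_apply, h4, h2, add_smul]
  abel

theorem stl_Dir_pow {n : ℕ} (i : Fin n) (u : HC n 10) (hu : stl_Dir i u) (k : ℕ) :
    stl_Dir i (u ^ k) := by
  induction k with
  | zero => rw [pow_zero]; exact stl_Dir_one i
  | succ k ih => rw [pow_succ]; exact stl_Dir_mul i _ _ ih hu

theorem stl_Dir_nu {n : ℕ} (i : Fin n) (u : HC n 10) (hu : stl_Dir i u) (x c : E n) :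
    nu i ((u : E n ≃ₜ E n) x - c) = nu i (x - c) := by
  obtain ⟨τ, -, h2⟩ := hu x
  rw [h2, stl_nu_add]

theorem stl_Dir_le {n : ℕ} (i : Fin n) (u : HC n 10) (hu : stl_Dir i u) (x : E n) :
    x i ≤ (u : E n ≃ₜ E n) x i := by
  obtain ⟨τ, h1, h2⟩ := hu x
  rw [h2, stl_apply]
  linarith

/-- a family of pushes in disjoint boxes -/
theorem stl_pushes {n : ℕ} (i : Fin n) (c : E n) (hc : c i = 0) (m : ℕ) (p q : Fin m → ℝ)
    (θ η : ℝ) (hθ : 0 < θ) (hη : 0 < η) (hpq : ∀ k, p k + 2 * θ ≤ q k)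
    (hd : ∀ k l, k < l → q k ≤ p l)
    (hb : ∀ k, ∀ x : E n, p k < x i → x i < q k → nu i (x - c) < η → ‖x‖ < 10) :
    ∃ u : HC n 10, stl_Dir i u ∧
      (∀ x, (∀ k, x ∉ stl_box i c η (p k) (q k)) → (u : E n ≃ₜ E n) x = x) ∧
      (∀ k, ∀ x ∈ stl_box i c η (p k) (q k),
        (u : E n ≃ₜ E n) x ∈ stl_box i c η (p k) (q k)) ∧
      (∀ k x, nu i (x - c) ≤ η / 2 → p k + θ ≤ x i → q k - θ ≤ (u : E n ≃ₜ E n) x i) := by
  choose v hv1 hv2 hv3 using fun k => exists_push i c hc η (p k) (q k) θ hη hθ (hpq k) (hb k)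
  have hdis : Pairwise (Function.onFun Disjoint fun k => stl_box i c η (p k) (q k)) := by
    intro k l hkl
    show Disjoint (stl_box i c η (p k) (q k)) (stl_box i c η (p l) (q l))
    rw [Set.disjoint_left]
    rintro x ⟨h1, h2, -⟩ ⟨h3, h4, -⟩
    rcases lt_or_gt_of_ne hkl with h | h
    · have := hd k l h
      linarith
    · have := hd l k h
      linarith
  obtain ⟨l, -, -, hin, hout⟩ := combine v (fun k => stl_box i c η (p k) (q k)) hdis hv2
  have hDir : stl_Dir i l.prod := by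
    intro x
    by_cases hx : ∃ k, x ∈ stl_box i c η (p k) (q k)
    · obtain ⟨k, hk⟩ := hx
      rw [hin k x hk]
      exact hv1 k x
    · push Not at hx
      rw [hout x hx]
      exact ⟨0, le_rfl, by simp⟩
  refine ⟨l.prod, hDir, hout, ?_, ?_⟩
  · intro k x hx
    rw [hin k x hx]
    exact stl_mapsTo _ _ (hv2 k) x hx
  · intro k x h1 h2
    by_cases hx : x ∈ stl_box i c η (p k) (q k)
    · rw [hin k x hx]
      exact hv3 k x h1 h2
    · have h3 : q k ≤ x i := by
        by_contra hcon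
        push Not at hcon
        exact hx ⟨by linarith, hcon, by linarith⟩
      have h4 := stl_Dir_le i _ hDir x
      linarith

theorem stl_sep (m : ℕ) (dm dp : ℕ → ℝ) (θ : ℝ) (hθ : 0 < θ) (h1 : ∀ j ≤ m, dm j < dp j)
    (h2 : ∀ j < m, dp j + 4 * θ ≤ dm (j + 1)) : ∀ k, k ≤ m → ∀ j, j < k →
    dp j + 4 * θ ≤ dm k := by
  intro k
  induction k with
  | zero => intro _ j hj; omega
  | succ k ih =>
    intro hk j hj
    rcases Nat.lt_succ_iff_lt_or_eq.1 hj with h | h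
    · have h3 := ih (by omega) j h
      have h4 := h1 k (by omega)
      have h5 := h2 k (by omega)
      linarith
    · subst h
      exact h2 j (by omega)

theorem stl_chain {n : ℕ} (i : Fin n) (c : E n) (hc : c i = 0) (a : ℝ) (m : ℕ) (dm dp : ℕ → ℝ)
    (θ η : ℝ) (hθ : 0 < θ) (hη : 0 < η) (h1 : ∀ j ≤ m, dm j < dp j)
    (h2 : ∀ j < m, dp j + 4 * θ ≤ dm (j + 1)) (h3 : a + 2 * θ ≤ dm 0) (h4 : dp m + 2 * θ ≤ a + 7)
    (hb : ∀ x : E n, a < x i → x i < a + 7 → nu i (x - c) < η → ‖x‖ < 10) :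
    ∃ uD uE : HC n 10, stl_Dir i uD ∧ stl_Dir i uE ∧
      (∀ x, (∀ j ≤ m, x ∉ stl_box i c η (dm j - 2 * θ) (dp j + 2 * θ)) →
        (uD : E n ≃ₜ E n) x = x) ∧
      (∀ x, (∀ j < m, x ∉ stl_box i c η (dp j) (dm (j + 1))) → (uE : E n ≃ₜ E n) x = x) ∧
      (∀ j < m, ∀ x ∈ stl_box i c η (dp j) (dm (j + 1)),
        (uE : E n ≃ₜ E n) x ∈ stl_box i c η (dp j) (dm (j + 1))) ∧
      (∀ x, x ∉ stl_box i c η a (a + 7) →
        (uD : E n ≃ₜ E n) x = x ∧ (uE : E n ≃ₜ E n) x = x) ∧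
      (∀ x, nu i (x - c) ≤ η / 2 → dm 0 - θ ≤ x i →
        dp m + θ ≤ (((uE * uD) ^ (m + 1) : HC n 10) : E n ≃ₜ E n) x i) := by
  have hsep := stl_sep m dm dp θ hθ h1 h2
  have hdm0 : ∀ j ≤ m, dm 0 ≤ dm j := by
    intro j hj
    rcases Nat.eq_zero_or_pos j with h | h
    · subst h; exact le_rfl
    · have h5 := hsep j hj 0 h
      have h6 := h1 0 (by omega)
      linarith
  have hdpm : ∀ j ≤ m, dp j ≤ dp m := by
    intro j hj
    rcases Nat.lt_or_ge j m with h | h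
    · have h5 := hsep m le_rfl j h
      have h6 := h1 m le_rfl
      linarith
    · have : j = m := by omega
      subst this; exact le_rfl
  obtain ⟨uD, hD1, hD2, -, hD4⟩ := stl_pushes i c hc (m + 1) (fun k => dm k - 2 * θ)
    (fun k => dp k + 2 * θ) θ η hθ hη (by
      intro k
      have := h1 k (by omega)
      linarith) (by
      intro k l hkl
      have := hsep l (by omega) k hkl
      linarith) (by
      intro k x hx1 hx2 hx3
      have h5 := hdm0 k (by omega)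
      have h6 := hdpm k (by omega)
      exact hb x (by linarith) (by linarith) hx3)
  obtain ⟨uE, hE1, hE2, hE3, hE4⟩ := stl_pushes i c hc m (fun k => dp k)
    (fun k => dm (k + 1)) θ η hθ hη (by
      intro k
      have := h2 k k.2
      linarith) (by
      intro k l hkl
      have h5 := h1 (k + 1) (by omega)
      rcases Nat.lt_or_ge (k + 1 : ℕ) l with h | h
      · have h6 := hsep l (by omega) (k + 1) h
        have h7 := h1 l (by omega)
        linarith
      · have h8 : (k + 1 : ℕ) = l := by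
          have : (k : ℕ) < l := hkl
          omega
        show dm (k + 1) ≤ dp l
        rw [← h8]
        exact h5.le) (by
      intro k x hx1 hx2 hx3
      have h5 := hdm0 k (by omega)
      have h6 := hdpm (k + 1) (by omega)
      have h7 := h1 k (by omega)
      have h8 := h1 (k + 1) (by omega)
      exact hb x (by linarith) (by linarith) hx3)
  have hP : stl_Dir i (uE * uD) := stl_Dir_mul i _ _ hE1 hD1
  refine ⟨uD, uE, hD1, hE1, ?_, ?_, ?_, ?_, ?_⟩
  · intro x hx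
    exact hD2 x fun k => hx k (by omega)
  · intro x hx
    exact hE2 x fun k => hx k k.2
  · intro j hj x hx
    exact hE3 ⟨j, hj⟩ x hx
  · intro x hx
    refine ⟨hD2 x ?_, hE2 x ?_⟩
    · rintro k ⟨h5, h6, h7⟩
      have h8 := hdm0 k (by omega)
      have h9 := hdpm k (by omega)
      exact hx ⟨by linarith, by linarith, h7⟩
    · rintro k ⟨h5, h6, h7⟩
      have h8 := hdm0 k (by omega)
      have h9 := hdpm (k + 1) (by omega)
      have h10 := h1 k (by omega)
      have h11 := h1 (k + 1) (by omega)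
      exact hx ⟨by linarith, by linarith, h7⟩
  · intro x hx1 hx2
    have key : ∀ k ≤ m, dm k - θ ≤ (((uE * uD) ^ k : HC n 10) : E n ≃ₜ E n) x i := by
      intro k
      induction k with
      | zero => intro _; rw [pow_zero]; exact hx2
      | succ k ih =>
        intro hk
        have h5 := ih (by omega)
        rw [pow_succ', stl_mul_apply, stl_mul_apply]
        have h6 := stl_Dir_nu i _ (stl_Dir_pow i _ hP k) x c
        generalize (((uE * uD) ^ k : HC n 10) : E n ≃ₜ E n) x = y at h5 h6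
        have h7 := hD4 ⟨k, by omega⟩ y (by rw [h6]; exact hx1) (by
          show dm k - 2 * θ + θ ≤ y i
          linarith)
        have h8 := stl_Dir_nu i _ hD1 y c
        generalize (uD : E n ≃ₜ E n) y = z at h7 h8
        have h9 := hE4 ⟨k, by omega⟩ z (by rw [h8, h6]; exact hx1) (by
          have h7' : dp k + 2 * θ - θ ≤ z i := h7
          show dp k + θ ≤ z i
          linarith)
        exact h9
    have h5 := key m le_rfl
    rw [pow_succ', stl_mul_apply, stl_mul_apply]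
    have h6 := stl_Dir_nu i _ (stl_Dir_pow i _ hP m) x c
    generalize (((uE * uD) ^ m : HC n 10) : E n ≃ₜ E n) x = y at h5 h6
    have h7 := hD4 ⟨m, by omega⟩ y (by rw [h6]; exact hx1) (by
      show dm m - 2 * θ + θ ≤ y i
      linarith)
    have h7' : dp m + 2 * θ - θ ≤ (uD : E n ≃ₜ E n) y i := h7
    have h8 := stl_Dir_le i _ hE1 ((uD : E n ≃ₜ E n) y)
    linarith

/-- thickening of a segment -/
theorem stl_tube {n : ℕ} (i : Fin n) (c : E n) (hc : c i = 0) (ψ : E n ≃ₜ E n) (W : Set (E n))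
    (hW : IsOpen W) (s t : ℝ) (hst : s ≤ t) (h : ∀ τ ∈ Icc s t, ψ (c + τ • ee i) ∈ W) :
    ∃ η > 0, ∀ x : E n, s - η < x i → x i < t + η → nu i (x - c) < η → ψ x ∈ W := by
  have hK : IsCompact ((fun τ : ℝ => c + τ • ee i) '' Icc s t) :=
    isCompact_Icc.image (by fun_prop)
  have hsub : (fun τ : ℝ => c + τ • ee i) '' Icc s t ⊆ ψ ⁻¹' W := by
    rintro _ ⟨τ, hτ, rfl⟩
    exact h τ hτ
  obtain ⟨η, hη, hth⟩ := hK.exists_thickening_subset_open (hW.preimage ψ.continuous) hsub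
  refine ⟨η, hη, fun x h1 h2 h3 => ?_⟩
  apply hth
  rw [Metric.mem_thickening_iff]
  refine ⟨c + (max s (min t (x i))) • ee i, ⟨_, ⟨le_max_left _ _, max_le hst (min_le_left _ _)⟩,
    rfl⟩, ?_⟩
  rw [dist_pi_lt_iff hη]
  intro j
  by_cases hj : j = i
  · subst hj
    rw [stl_apply, hc, zero_add, Real.dist_eq, abs_lt]
    rcases le_total (x j) t with h4 | h4
    · rw [min_eq_right h4]
      rcases le_total s (x j) with h5 | h5
      · rw [max_eq_right h5]
        constructor <;> linarith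
      · rw [max_eq_left h5]
        constructor <;> linarith
    · rw [min_eq_left h4, max_eq_right hst]
      constructor <;> linarith
  · have h4 : (c + (max s (min t (x i))) • ee i) j = c j := by simp [ee, hj]
    rw [h4, Real.dist_eq]
    exact lt_of_le_of_lt (stl_le_nu i j hj (x - c)) h3

theorem stl_unif (m : ℕ) (P : ℕ → ℝ → Prop) (h : ∀ j < m, ∃ η > 0, P j η)
    (hm : ∀ j η η', 0 < η' → η' ≤ η → P j η → P j η') : ∃ η > 0, ∀ j < m, P j η := by
  induction m with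
  | zero => exact ⟨1, one_pos, fun j hj => absurd hj (by omega)⟩
  | succ m ih =>
    obtain ⟨η, hη, h1⟩ := ih fun j hj => h j (by omega)
    obtain ⟨η', hη', h2⟩ := h m (by omega)
    refine ⟨min η η', lt_min hη hη', fun j hj => ?_⟩
    rcases Nat.lt_succ_iff_lt_or_eq.1 hj with h3 | h3
    · exact hm j η _ (lt_min hη hη') (min_le_left _ _) (h1 j h3)
    · subst h3
      exact hm j η' _ (lt_min hη hη') (min_le_right _ _) h2

theorem stl_list {G : Type*} [Group G] (A B : G) (k : ℕ) :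
    ∃ l : List G, l.length = 2 * k ∧ (∀ g ∈ l, g = A ∨ g = B) ∧ l.prod = (A * B) ^ k := by
  induction k with
  | zero => exact ⟨[], by simp, by simp, by simp⟩
  | succ k ih =>
    obtain ⟨l, h1, h2, h3⟩ := ih
    refine ⟨A :: B :: l, by simp; omega, ?_, ?_⟩
    · intro g hg
      rcases List.mem_cons.1 hg with h | hg
      · exact Or.inl h
      rcases List.mem_cons.1 hg with h | hg
      · exact Or.inr h
      exact h2 g hg
    · rw [List.prod_cons, List.prod_cons, h3, pow_succ', mul_assoc]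

theorem stl_box_ball {n : ℕ} (i : Fin n) (a : ℝ) (ha : a = 2 ∨ a = -9) (c : E n)
    (hc : ∀ j, |c j| ≤ 1) (x : E n) (h1 : a < x i) (h2 : x i < a + 7)
    (h3 : nu i (x - c) < 1 / 4) : ‖x‖ < 10 := by
  rw [pi_norm_lt_iff (by norm_num)]
  intro j
  rw [Real.norm_eq_abs]
  by_cases hj : j = i
  · subst hj
    rw [abs_lt]
    rcases ha with rfl | rfl <;> constructor <;> linarith
  · have h4 := lt_of_le_of_lt (stl_le_nu i j hj (x - c)) h3
    have h5 := hc j
    rw [Pi.sub_apply, abs_lt] at h4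
    rw [abs_le] at h5
    rw [abs_lt]
    constructor <;> linarith

theorem single_tube {n : ℕ} (hL : LUL n) {F : Filter (HC n 10)} (hF : GF _ F) (hs : SmallIn F)
    (i : Fin n) (a : ℝ) (ha : a = 2 ∨ a = -9) (hX : CrossTube F i a) : SingleTube F i a := by
  intro N hN ℓ hℓ lam hlam hlam4 c hc hci
  -- number of slabs
  obtain ⟨m, hm⟩ : ∃ m : ℕ, 7 / ((m:ℝ) + 1) ≤ min ℓ 1 := by
    obtain ⟨m, hm⟩ := exists_nat_ge (7 / min ℓ 1)
    refine ⟨m, ?_⟩
    have h0 : 0 < min ℓ 1 := by positivity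
    rw [div_le_iff₀ h0] at hm
    rw [div_le_iff₀ (by positivity)]
    nlinarith
  obtain ⟨w, hw⟩ : ∃ w : ℝ, w = 7 / ((m:ℝ) + 1) := ⟨_, rfl⟩
  rw [← hw] at hm
  have hw0 : 0 < w := by rw [hw]; positivity
  have hwl : w ≤ ℓ := hm.trans (min_le_left _ _)
  have hw1 : w ≤ 1 := hm.trans (min_le_right _ _)
  have hmw : ((m:ℝ) + 1) * w = 7 := by rw [hw]; field_simp
  obtain ⟨N2, hN2, -, -, hlist⟩ := gf_list hF N hN (2 * (m + 1))
  obtain ⟨ε, hε, hsm⟩ := hs N2 hN2
  obtain ⟨lam1, hlam1⟩ : ∃ l, l = min lam (ε / 16) := ⟨_, rfl⟩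
  have hl10 : 0 < lam1 := by rw [hlam1]; positivity
  have hl1l : lam1 ≤ lam := hlam1 ▸ min_le_left _ _
  have hl1e : lam1 ≤ ε / 16 := hlam1 ▸ min_le_right _ _
  obtain ⟨V, hV, ⟨γ, hγ, hγV, hγ0, hγ1⟩, hVN⟩ := hX N2 hN2 (lam1 / 2) (by positivity) c hc hci
  -- slabs
  have hslab0 : ∀ j : ℕ, a ≤ a + (j:ℝ) * w := by
    intro j
    have : 0 ≤ (j:ℝ) * w := by positivity
    linarith
  have hslab1 : ∀ j : ℕ, j ≤ m → a + ((j:ℝ) + 1) * w ≤ a + 7 := by
    intro j hj
    have h1 : (j:ℝ) ≤ m := by exact_mod_cast hj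
    have h2 : ((j:ℝ) + 1) * w ≤ ((m:ℝ) + 1) * w :=
      mul_le_mul_of_nonneg_right (by linarith) hw0.le
    linarith
  have hdata : ∀ j : ℕ, j ≤ m → ∃ ψ : HC n 10,
      Supp ψ (stl_box i c lam1 (a + (j:ℝ) * w) (a + ((j:ℝ) + 1) * w)) ∧
      ∃ dm dp : ℝ, a + (j:ℝ) * w < dm ∧ dm < dp ∧ dp < a + ((j:ℝ) + 1) * w ∧
        (∀ t ∈ Icc dm dp, (ψ : E n ≃ₜ E n) (c + t • ee i) ∈ V) ∧
        (∀ t ∈ Icc (a + (j:ℝ) * w) dm,
          ‖(ψ : E n ≃ₜ E n) (c + t • ee i) - (c + (a + (j:ℝ) * w) • ee i)‖ ≤ ε / 16 + lam1) ∧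
        (∀ t ∈ Icc dp (a + ((j:ℝ) + 1) * w),
          ‖(ψ : E n ≃ₜ E n) (c + t • ee i) - (c + (a + ((j:ℝ) + 1) * w) • ee i)‖ ≤
            ε / 16 + lam1) := by
    intro j hj
    have h1 := hslab0 j
    have h2 := hslab1 j hj
    exact hL i V c (a + (j:ℝ) * w) (a + ((j:ℝ) + 1) * w) (lam1 / 2) lam1 (ε / 16) γ hV hci
      (by linarith) (by positivity) (by linarith) hγ hγV (by linarith) (by linarith) (by
        intro x h3 h4 h5
        exact stl_box_ball i a ha c hc x (by linarith) (by linarith) (by linarith))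
  choose! ψ hψS dm dp hd1 hd2 hd3 hA hB hC using hdata
  obtain ⟨l, -, -, hin, hout⟩ := combine (fun k : Fin (m + 1) => ψ k)
    (fun k => stl_box i c lam1 (a + ((k:ℕ):ℝ) * w) (a + (((k:ℕ):ℝ) + 1) * w)) (by
      intro k l hkl
      show Disjoint (stl_box i c lam1 (a + ((k:ℕ):ℝ) * w) (a + (((k:ℕ):ℝ) + 1) * w))
        (stl_box i c lam1 (a + ((l:ℕ):ℝ) * w) (a + (((l:ℕ):ℝ) + 1) * w))
      rw [Set.disjoint_left]
      rintro x ⟨h1, h2, -⟩ ⟨h3, h4, -⟩
      rcases lt_or_gt_of_ne hkl with h | h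
      · have h5 : ((k:ℕ):ℝ) + 1 ≤ ((l:ℕ):ℝ) := by exact_mod_cast h
        have h6 := mul_le_mul_of_nonneg_right h5 hw0.le
        linarith
      · have h5 : ((l:ℕ):ℝ) + 1 ≤ ((k:ℕ):ℝ) := by exact_mod_cast h
        have h6 := mul_le_mul_of_nonneg_right h5 hw0.le
        linarith) (fun k => hψS k (by omega))
  obtain ⟨Ψ, hΨ⟩ : ∃ Ψ : HC n 10, Ψ = l.prod := ⟨_, rfl⟩
  rw [← hΨ] at hin hout
  have hΨj : ∀ j ≤ m, ∀ x : E n, a + (j:ℝ) * w ≤ x i → x i ≤ a + ((j:ℝ) + 1) * w →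
      (Ψ : E n ≃ₜ E n) x = (ψ j : E n ≃ₜ E n) x := by
    intro j hj x h1 h2
    by_cases hx : x ∈ stl_box i c lam1 (a + (j:ℝ) * w) (a + ((j:ℝ) + 1) * w)
    · exact hin ⟨j, by omega⟩ x hx
    · rw [hψS j hj x hx, hout]
      rintro k ⟨h3, h4, h5⟩
      rcases lt_trichotomy (k:ℕ) j with h | h | h
      · have h6 : ((k:ℕ):ℝ) + 1 ≤ (j:ℝ) := by exact_mod_cast h
        have h7 := mul_le_mul_of_nonneg_right h6 hw0.le
        linarith
      · apply hx
        rw [h] at h3 h4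
        exact ⟨h3, h4, h5⟩
      · have h6 : (j:ℝ) + 1 ≤ ((k:ℕ):ℝ) := by exact_mod_cast h
        have h7 := mul_le_mul_of_nonneg_right h6 hw0.le
        linarith
  have hΨS : ∀ x, ¬ (a < x i ∧ x i < a + 7 ∧ nu i (x - c) < lam) →
      (Ψ : E n ≃ₜ E n) x = x := by
    intro x hx
    apply hout
    rintro k ⟨h1, h2, h3⟩
    have h4 := hslab0 k
    have h5 := hslab1 k (by omega)
    exact hx ⟨by linarith, by linarith, by linarith⟩
  have hΨb : ∀ x, ‖(Ψ : E n ≃ₜ E n) x - x‖ ≤ ℓ + 2 * lam := by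
    intro x
    by_cases hx : ∃ k : Fin (m + 1),
        x ∈ stl_box i c lam1 (a + ((k:ℕ):ℝ) * w) (a + (((k:ℕ):ℝ) + 1) * w)
    · obtain ⟨k, hk⟩ := hx
      rw [hin k x hk]
      have h1 := stl_mapsTo _ _ (hψS k (by omega)) x hk
      obtain ⟨ha1, ha2, ha3⟩ := hk
      obtain ⟨hb1, hb2, hb3⟩ := h1
      rw [pi_norm_le_iff_of_nonneg (by positivity)]
      intro j
      by_cases hj : j = i
      · subst hj
        rw [Real.norm_eq_abs, Pi.sub_apply, abs_le]
        constructor <;> linarith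
      · have h2 := lt_of_le_of_lt (stl_le_nu i j hj _) hb3
        have h3 := lt_of_le_of_lt (stl_le_nu i j hj _) ha3
        rw [Pi.sub_apply, abs_lt] at h2 h3
        rw [Real.norm_eq_abs, Pi.sub_apply, abs_le]
        constructor <;> linarith
    · push Not at hx
      rw [hout x hx]
      simp
      positivity
  have hA' : ∀ j ≤ m, ∀ t ∈ Icc (dm j) (dp j), (Ψ : E n ≃ₜ E n) (c + t • ee i) ∈ V := by
    intro j hj t ht
    have h1 := hd1 j hj
    have h2 := hd3 j hj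
    rw [hΨj j hj _ (by rw [stl_apply, hci]; linarith [ht.1])
      (by rw [stl_apply, hci]; linarith [ht.2])]
    exact hA j hj t ht
  have hdd : ∀ j < m, dp j < dm (j + 1) := by
    intro j hj
    have h1 := hd3 j hj.le
    have h2 := hd1 (j + 1) hj
    push_cast at h2
    linarith
  have hB' : ∀ j < m, ∀ t ∈ Icc (dp j) (dm (j + 1)), (Ψ : E n ≃ₜ E n) (c + t • ee i) ∈
      Metric.ball (c + (a + ((j:ℝ) + 1) * w) • ee i) (ε / 4) := by
    intro j hj t ht
    rw [mem_ball_iff_norm]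
    have h0 := hd1 j hj.le
    have h1 := hd2 j hj.le
    have h2 := hd2 (j + 1) hj
    have h3 := hd3 (j + 1) hj
    rcases le_total t (a + ((j:ℝ) + 1) * w) with h | h
    · rw [hΨj j hj.le _ (by rw [stl_apply, hci]; linarith [ht.1])
        (by rw [stl_apply, hci]; linarith)]
      have := hC j hj.le t ⟨ht.1, h⟩
      linarith
    · rw [hΨj (j + 1) hj _ (by rw [stl_apply, hci]; push_cast; linarith)
        (by rw [stl_apply, hci]; linarith [ht.2])]
      have := hB (j + 1) hj t ⟨by push_cast; linarith, ht.2⟩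
      push_cast at this
      linarith
  obtain ⟨η1, hη1, hη1'⟩ := stl_unif (m + 1) (fun j η => ∀ x : E n, dm j - η < x i →
      x i < dp j + η → nu i (x - c) < η → (Ψ : E n ≃ₜ E n) x ∈ V)
    (fun j hj => stl_tube i c hci _ V hV (dm j) (dp j) (hd2 j (by omega)).le
      (hA' j (by omega)))
    (fun j η η' _ h1 h2 x h3 h4 h5 => h2 x (by linarith) (by linarith) (by linarith))
  obtain ⟨η2, hη2, hη2'⟩ := stl_unif m (fun j η => ∀ x : E n, dp j - η < x i →
      x i < dm (j + 1) + η → nu i (x - c) < η → (Ψ : E n ≃ₜ E n) x ∈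
        Metric.ball (c + (a + ((j:ℝ) + 1) * w) • ee i) (ε / 4))
    (fun j hj => stl_tube i c hci _ _ Metric.isOpen_ball (dp j) (dm (j + 1))
      (hdd j hj).le (hB' j hj))
    (fun j η η' _ h1 h2 x h3 h4 h5 => h2 x (by linarith) (by linarith) (by linarith))
  obtain ⟨θ1, hθ1, hθ1'⟩ := stl_unif m (fun j θ => dp j + 4 * θ ≤ dm (j + 1))
    (fun j hj => ⟨(dm (j + 1) - dp j) / 4, by have := hdd j hj; linarith, by linarith⟩)
    (fun j η η' _ h1 h2 => by linarith)
  have hdm0 : a < dm 0 := by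
    have := hd1 0 (by omega)
    simpa using this
  have hdpm : dp m < a + 7 := by
    have h1 := hd3 m le_rfl
    linarith
  obtain ⟨θ, hθ⟩ : ∃ θ, θ = min (min (η1 / 2) θ1) (min ((dm 0 - a) / 2) ((a + 7 - dp m) / 2)) :=
    ⟨_, rfl⟩
  have hθ0 : 0 < θ := by
    rw [hθ]
    refine lt_min (lt_min (by positivity) hθ1) (lt_min ?_ ?_) <;> linarith
  have hθa : θ ≤ η1 / 2 := hθ ▸ (min_le_left _ _).trans (min_le_left _ _)
  have hθb : θ ≤ θ1 := hθ ▸ (min_le_left _ _).trans (min_le_right _ _)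
  have hθc : θ ≤ (dm 0 - a) / 2 := hθ ▸ (min_le_right _ _).trans (min_le_left _ _)
  have hθd : θ ≤ (a + 7 - dp m) / 2 := hθ ▸ (min_le_right _ _).trans (min_le_right _ _)
  obtain ⟨η, hη⟩ : ∃ η, η = min (min η1 η2) lam := ⟨_, rfl⟩
  have hη0 : 0 < η := by
    rw [hη]
    exact lt_min (lt_min hη1 hη2) hlam
  have hηa : η ≤ η1 := hη ▸ (min_le_left _ _).trans (min_le_left _ _)
  have hηb : η ≤ η2 := hη ▸ (min_le_left _ _).trans (min_le_right _ _)
  have hηc : η ≤ lam := hη ▸ min_le_right _ _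
  obtain ⟨uD, uE, hD, hE, hDS, hES, hEm, hout2, hpush⟩ := stl_chain i c hci a m dm dp θ η hθ0 hη0
    (fun j hj => hd2 j hj) (fun j hj => by have := hθ1' j hj; linarith) (by linarith)
    (by linarith) (by
      intro x h1 h2 h3
      exact stl_box_ball i a ha c hc x h1 h2 (by linarith))
  refine ⟨Ψ, η, hη0, hηc, (uE * uD) ^ (m + 1), hΨS, hΨb, ⟨?_, ?_, ?_⟩, ?_⟩
  · exact stl_Dir_pow i _ (stl_Dir_mul i _ _ hE hD) _
  · intro x hx
    obtain ⟨h1, h2⟩ := hout2 x hx
    have key : ∀ k : ℕ, (((uE * uD) ^ k : HC n 10) : E n ≃ₜ E n) x = x := by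
      intro k
      induction k with
      | zero => rw [pow_zero]; rfl
      | succ k ih => rw [pow_succ, stl_mul_apply, stl_mul_apply, h1, h2, ih]
    exact key _
  · intro x h1 h2
    have h3 : dm 0 < a + w := by
      have h4 := hd2 0 (by omega)
      have h5 := hd3 0 (by omega)
      norm_num at h5
      linarith
    have h4 := hpush x h1 (by linarith)
    have h5 := hd1 m le_rfl
    have h6 := hd2 m le_rfl
    have h7 : (m:ℝ) * w = 7 - w := by linarith
    linarith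
  · have hDN : Ψ * uD * Ψ⁻¹ ∈ N2 := by
      apply hVN
      intro x hx
      show (Ψ : E n ≃ₜ E n) ((uD : E n ≃ₜ E n) ((Ψ : E n ≃ₜ E n).symm x)) = x
      rw [hDS, Homeomorph.apply_symm_apply]
      rintro j hj ⟨h1, h2, h3⟩
      apply hx
      have := hη1' j (by omega) _ (by linarith) (by linarith) (by linarith)
      rwa [Homeomorph.apply_symm_apply] at this
    have hEN : Ψ * uE * Ψ⁻¹ ∈ N2 := by
      apply hsm
      intro x
      show ‖(Ψ : E n ≃ₜ E n) ((uE : E n ≃ₜ E n) ((Ψ : E n ≃ₜ E n).symm x)) - x‖ < ε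
      obtain ⟨z, rfl⟩ := (Ψ : E n ≃ₜ E n).surjective x
      rw [Homeomorph.symm_apply_apply]
      by_cases hz : ∃ j < m, z ∈ stl_box i c η (dp j) (dm (j + 1))
      · obtain ⟨j, hj, hz⟩ := hz
        have hz' := hEm j hj z hz
        have h1 := hη2' j hj z (by linarith [hz.1]) (by linarith [hz.2.1])
          (by linarith [hz.2.2])
        have h2 := hη2' j hj ((uE : E n ≃ₜ E n) z) (by linarith [hz'.1]) (by linarith [hz'.2.1])
          (by linarith [hz'.2.2])
        rw [Metric.mem_ball] at h1 h2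
        rw [← dist_eq_norm]
        have h3 := dist_triangle_right ((Ψ : E n ≃ₜ E n) ((uE : E n ≃ₜ E n) z))
          ((Ψ : E n ≃ₜ E n) z) (c + (a + ((j:ℝ) + 1) * w) • ee i)
        linarith
      · push Not at hz
        rw [hES z hz]
        simpa using hε
    obtain ⟨l', h1, h2, h3⟩ := stl_list (Ψ * uE * Ψ⁻¹) (Ψ * uD * Ψ⁻¹) (m + 1)
    have h4 : Ψ * (uE * uD) ^ (m + 1) * Ψ⁻¹ = l'.prod := by
      rw [h3, ← conj_pow]
      congr 1
      group
    rw [h4]
    refine hlist l' h1.le (fun g hg => ?_)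
    rcases h2 g hg with rfl | rfl
    · exact hEN
    · exact hDN

end Pool.Agent.Lib_helper11.PLM
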