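import Pool.Agent.Lib_helper11.PLM.F.ARN
import Pool.Agent.Lib_helper11.PLM.F.BCH
import Pool.Agent.Lib_helper11.PLM.F.CHT
import Pool.Agent.Lib_helper11.PLM.F.CMB
import Pool.Agent.Lib_helper11.PLM.F.CRS
import Pool.Agent.Lib_helper11.PLM.F.CTB
import Pool.Agent.Lib_helper11.PLM.F.DIR
import Pool.Agent.Lib_helper11.PLM.F.EMV
import Pool.Agent.Lib_helper11.PLM.F.EXP
import Pool.Agent.Lib_helper11.PLM.F.EXP2
import Pool.Agent.Lib_helper11.PLM.F.EXT
import Pool.Agent.Lib_helper11.PLM.F.FA0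
import Pool.Agent.Lib_helper11.PLM.F.FIN
import Pool.Agent.Lib_helper11.PLM.F.GEN
import Pool.Agent.Lib_helper11.PLM.F.GFL
import Pool.Agent.Lib_helper11.PLM.F.INV
import Pool.Agent.Lib_helper11.PLM.F.LAT
import Pool.Agent.Lib_helper11.PLM.F.LU1
import Pool.Agent.Lib_helper11.PLM.F.LU2
import Pool.Agent.Lib_helper11.PLM.F.LU4
import Pool.Agent.Lib_helper11.PLM.F.LVR
import Pool.Agent.Lib_helper11.PLM.F.MTU
import Pool.Agent.Lib_helper11.PLM.F.NCM
import Pool.Agent.Lib_helper11.PLM.F.PSH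
import Pool.Agent.Lib_helper11.PLM.F.PTH
import Pool.Agent.Lib_helper11.PLM.F.SHR
import Pool.Agent.Lib_helper11.PLM.F.SML
import Pool.Agent.Lib_helper11.PLM.F.SQZ
import Pool.Agent.Lib_helper11.PLM.F.STL
import Pool.Agent.Lib_helper11.PLM.F.UMO
import Pool.Agent.Lib_helper11.PLM.F.UN2
import Pool.Agent.Lib_helper11.PLM.F.UN4


open Set Filter Topology
open scoped Manifold

namespace Pool.Agent.Lib_helper11.PLM

theorem lul_all {n : ℕ} (h0 : 0 < n) (h3 : n ≠ 3) : LUL n := by
  rcases Nat.lt_or_ge n 4 with h | h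
  · interval_cases n
    · exact lul_one
    · exact lul_two
    · exact absurd rfl h3
  · exact lul_four h

/-- the core theorem in `ℝ^n` -/
theorem core {n : ℕ} (h0 : 0 < n) (h3 : n ≠ 3) {F : Filter (HC n 10)} (hF : GF _ F)
    (hs : SmallIn F) (hc : Cross0 F) :
    ∃ U : Set (E n), IsOpen U ∧ U.Nonempty ∧ U ⊆ Metric.ball 0 10 ∧
      ∀ N ∈ F, ∃ g ∈ N, Disjoint (((g : HC n 10) : E n ≃ₜ E n) '' U) U := by
  obtain ⟨i, a, ha, hX⟩ := cross_dir hF hc
  exact displace hF i a ha (many_tubes hF hs i a ha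
    (single_tube (lul_all h0 h3) hF hs i a ha (cross_tube hF i a hX)))

/-- elements with disjoint supports commute -/
theorem comm_of_disjoint {n : ℕ} (a b g : HC n 10) (U : Set (E n)) (ha : Supp a U) (hb : Supp b U)
    (hg : Disjoint ((g : E n ≃ₜ E n) '' U) U) : g * a * g⁻¹ * b = b * (g * a * g⁻¹) := by
  have hb' : ∀ x ∈ U, (b : E n ≃ₜ E n) x ∈ U := by
    intro x hx
    by_contra h
    have h1 := hb _ h
    have h2 := (b : E n ≃ₜ E n).injective h1
    rw [h2] at h
    exact h hx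
  have ha' : ∀ x ∈ U, (a : E n ≃ₜ E n) x ∈ U := by
    intro x hx
    by_contra h
    have h1 := ha _ h
    have h2 := (a : E n ≃ₜ E n).injective h1
    rw [h2] at h
    exact h hx
  have hc1 : ∀ x, x ∉ (g : E n ≃ₜ E n) '' U → (g : E n ≃ₜ E n) ((a : E n ≃ₜ E n)
      ((g : E n ≃ₜ E n).symm x)) = x := by
    intro x hx
    rw [ha _ (fun h => hx ⟨_, h, (g : E n ≃ₜ E n).apply_symm_apply x⟩)]
    exact (g : E n ≃ₜ E n).apply_symm_apply x
  apply Subtype.ext
  apply Homeomorph.ext
  intro x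
  show (g : E n ≃ₜ E n) ((a : E n ≃ₜ E n) ((g : E n ≃ₜ E n).symm ((b : E n ≃ₜ E n) x))) =
    (b : E n ≃ₜ E n) ((g : E n ≃ₜ E n) ((a : E n ≃ₜ E n) ((g : E n ≃ₜ E n).symm x)))
  by_cases hx : x ∈ U
  · have h1 : x ∉ (g : E n ≃ₜ E n) '' U := fun h => (Set.disjoint_left.1 hg) h hx
    have h2 : (b : E n ≃ₜ E n) x ∉ (g : E n ≃ₜ E n) '' U :=
      fun h => (Set.disjoint_left.1 hg) h (hb' x hx)
    rw [hc1 _ h1, hc1 _ h2]
  · rw [hb x hx]
    by_cases hx2 : x ∈ (g : E n ≃ₜ E n) '' U
    · obtain ⟨z, hz, rfl⟩ := hx2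
      rw [Homeomorph.symm_apply_apply, hb]
      exact fun h => (Set.disjoint_left.1 hg) ⟨_, ha' z hz, rfl⟩ h
    · rw [hc1 _ hx2, hb x hx]

section manifold

variable {n : ℕ} {M : Type*} [TopologicalSpace M] [T2Space M] [ChartedSpace (E n) M]
  [HasGroupoid M (plGroupoid n)]

theorem minimal_pos (h0 : 0 < n) (h3 : n ≠ 3) (t : TopologicalSpace (PLHomeo n M))
    (ht : @IsTopologicalGroup (PLHomeo n M) t _) (ht2 : @T2Space (PLHomeo n M) t)
    (hle : coTop n M ≤ t) : t = coTop n M := by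
  by_contra hne
  obtain ⟨e, he, hb, hbad⟩ := exists_bad_chart t ht hle hne
  obtain ⟨φ, hinj, hφ, hφ'⟩ := exists_ext e he hb
  have hcr := cross0_of_bad h0 t ht ht2 hle e he hb hbad φ hinj hφ hφ'
  let tH : TopologicalSpace (HC n 10) := TopologicalSpace.induced φ t
  have hcont : @Continuous _ _ tH t φ := continuous_induced_dom
  have gH : IsTopologicalGroup (HC n 10) :=
    letI := t; haveI := ht; topologicalGroup_induced φ
  have t2H : T2Space (HC n 10) := @T2Space.of_injective_continuous _ _ tH t ht2 φ hinj hcont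
  have hnhds : 𝓝 (1 : HC n 10) = comap φ (@nhds _ t 1) := by
    rw [nhds_induced, map_one]
  have hGF : GF (HC n 10) (𝓝 1) := by
    refine ⟨fun N hN => mem_of_mem_nhds hN, ?_, ?_, ?_⟩
    · intro N hN
      have h1 : Tendsto (fun p : HC n 10 × HC n 10 => p.1 * p.2) (𝓝 (1, 1)) (𝓝 1) := by
        have := (continuous_mul (M := HC n 10)).tendsto (1, 1)
        simpa using this
      have h2 := h1 hN
      rw [Filter.mem_map, nhds_prod_eq, Filter.mem_prod_same_iff] at h2
      obtain ⟨N', hN', hsub⟩ := h2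
      exact ⟨N', hN', fun x hx y hy => hsub (mk_mem_prod hx hy)⟩
    · intro N hN
      have h1 : Tendsto (fun p : HC n 10 => p⁻¹) (𝓝 1) (𝓝 1) := by
        have := (continuous_inv (G := HC n 10)).tendsto 1
        simpa using this
      exact ⟨_, h1 hN, fun x hx => hx⟩
    · intro g N hN
      have h1 : Tendsto (fun p : HC n 10 => g * p * g⁻¹) (𝓝 1) (𝓝 1) := by
        have hc : Continuous (fun p : HC n 10 => g * p * g⁻¹) := by fun_prop
        have := hc.tendsto 1
        simpa using this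
      exact ⟨_, h1 hN, fun x hx => hx⟩
  have hsmall : SmallIn (𝓝 (1 : HC n 10)) := by
    intro N hN
    rw [hnhds, Filter.mem_comap] at hN
    obtain ⟨N1, hN1, hsub⟩ := hN
    have hN1' : N1 ∈ @nhds _ (coTop n M) 1 := nhds_mono hle hN1
    obtain ⟨ε, hε, hsm⟩ := small_mem e hb N1 hN1'
    refine ⟨ε, hε, fun h hh => hsub ?_⟩
    have hpres : ∀ y ∈ Metric.closedBall (0 : E n) 10,
        (h : E n ≃ₜ E n) y ∈ Metric.closedBall (0 : E n) 10 := by
      intro y hy
      by_contra hcon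
      rw [mem_closedBall_zero_iff, not_le] at hcon
      have h1 := h.2.2.2 _ hcon.le
      have h2 := (h : E n ≃ₜ E n).injective h1
      rw [h2] at hcon
      rw [mem_closedBall_zero_iff] at hy
      linarith
    apply hsm
    · intro x hx
      by_cases hxe : x ∈ e.source
      · rw [hφ h x hxe]
        have h1 : 10 ≤ ‖e x‖ := by
          by_contra hcon
          push Not at hcon
          exact hx ⟨e x, by rw [mem_closedBall_zero_iff]; exact hcon.le, e.left_inv hxe⟩
        rw [h.2.2.2 _ h1, e.left_inv hxe]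
      · exact hφ' h x hxe
    · rintro _ ⟨y, hy, rfl⟩
      have hyt := hb hy
      rw [hφ h _ (e.map_target hyt), e.right_inv hyt]
      refine ⟨⟨_, hpres y hy, rfl⟩, ?_⟩
      rw [e.right_inv (hb (hpres y hy))]
      exact hh y
  have hcross : Cross0 (𝓝 (1 : HC n 10)) := by
    intro N hN
    rw [hnhds, Filter.mem_comap] at hN
    obtain ⟨N1, hN1, hsub⟩ := hN
    obtain ⟨V, hV, hγ, hh⟩ := hcr N1 hN1
    exact ⟨V, hV, hγ, fun h hsupp => hsub (hh h hsupp)⟩
  obtain ⟨U, hU, hne', hUb, hdis⟩ := core h0 h3 hGF hsmall hcross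
  obtain ⟨a, b, ha, hb', hab⟩ := exists_noncomm h0 U hU hne' hUb
  obtain ⟨g, hg, hgd⟩ := hdis _ (fact0 a b hab)
  exact hg (comm_of_disjoint a b g U ha hb' hgd)

end manifold

theorem subsingleton_zero (M : Type*) [TopologicalSpace M] [ConnectedSpace M]
    [ChartedSpace (E 0) M] : Subsingleton M := by
  have hd : DiscreteTopology M := by
    rw [discreteTopology_iff_isOpen_singleton]
    intro x
    have h1 : (chartAt (E 0) x).source = {x} := by
      apply Set.Subset.antisymm
      · intro y hy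
        exact (chartAt (E 0) x).injOn hy (mem_chart_source _ x) (Subsingleton.elim _ _)
      · exact singleton_subset_iff.2 (mem_chart_source _ x)
    rw [← h1]
    exact (chartAt (E 0) x).open_source
  refine ⟨fun x y => ?_⟩
  have h := isClopen_discrete ({x} : Set M)
  have h2 := (isClopen_iff.1 h).resolve_left (singleton_ne_empty x)
  have : y ∈ ({x} : Set M) := by rw [h2]; trivial
  exact (mem_singleton_iff.1 this).symm

/-- MP_817937_gt, Q1: for every connected PL manifold `M` (without boundary) of dimension `n ≠ 3`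
the compact-open topology on `PL(M)` is a minimal group topology. -/
theorem main (n : ℕ) (h3 : n ≠ 3) (M : Type*) [TopologicalSpace M] [T2Space M] [ConnectedSpace M]
    [ChartedSpace (E n) M] [HasGroupoid M (plGroupoid n)] :
    @IsTopologicalGroup (PLHomeo n M) (coTop n M) _ ∧ @T2Space (PLHomeo n M) (coTop n M) ∧
      ∀ t : TopologicalSpace (PLHomeo n M), @IsTopologicalGroup (PLHomeo n M) t _ →
        @T2Space (PLHomeo n M) t → coTop n M ≤ t → t = coTop n M := by
  refine ⟨coTop_group, coTop_t2, fun t ht ht2 hle => ?_⟩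
  rcases Nat.eq_zero_or_pos n with h0 | h0
  · subst h0
    have := subsingleton_zero M
    have : Subsingleton (PLHomeo 0 M) :=
      ⟨fun f g => Subtype.ext (Homeomorph.ext fun x => Subsingleton.elim _ _)⟩
    exact Subsingleton.elim _ _
  · exact minimal_pos h0 h3 t ht ht2 hle

end Pool.Agent.Lib_helper11.PLM
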