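import Pool.Agent.Lib_helper11.PLM.Defs

open Set Filter Topology
open scoped Manifold

namespace Pool.Agent.Lib_helper11.PLM

/-- levelled polygons in the plane: `lv k` is the level of the `k`-th vertex, `ht k` its height -/
structure Lev (m : ℕ) (M : ℕ) (lv : ℕ → ℕ) (ht : ℕ → ℝ) : Prop where
  step : ∀ k, k < m → lv (k + 1) = lv k + 1 ∨ lv k = lv (k + 1) + 1
  inj : ∀ k l, k ≤ m → l ≤ m → lv k = lv l → ht k = ht l → k = l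
  zero : lv 0 = 0
  pos : ∀ k, 0 < k → k ≤ m → 0 < lv k
  top : lv m = M
  lt : ∀ k, k < m → lv k < M
  /-- edges in the same slab do not cross; both edges ascending -/
  nc1 : ∀ k l, k < m → l < m → lv k = lv l → lv (k + 1) = lv k + 1 → lv (l + 1) = lv l + 1 →
    0 ≤ (ht k - ht l) * (ht (k + 1) - ht (l + 1))
  /-- one ascending, one descending -/
  nc2 : ∀ k l, k < m → l < m → lv (k + 1) = lv k + 1 → lv l = lv (l + 1) + 1 →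
    lv k = lv (l + 1) → 0 ≤ (ht k - ht (l + 1)) * (ht (k + 1) - ht l)
  /-- both descending -/
  nc3 : ∀ k l, k < m → l < m → lv k = lv l → lv k = lv (k + 1) + 1 → lv l = lv (l + 1) + 1 →
    0 ≤ (ht k - ht l) * (ht (k + 1) - ht (l + 1))

/-- the point of level `l` and height `h` in the plane with first coordinate `i` -/
def lpt (i : Fin 2) (x0 r : ℝ) (l : ℕ) (h : ℝ) : E 2 :=
  fun j => if j = i then x0 + l * r else h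

/-- the local unknotting property in dimension `n` -/
def LUL (n : ℕ) : Prop :=
  ∀ (i : Fin n) (V : Set (E n)) (y : E n) (p q lam lam' δ : ℝ) (γ : ℝ → E n), IsOpen V →
    y i = 0 → p < q → 0 < δ → lam < lam' → ContinuousOn γ (Icc 0 1) →
    (∀ t ∈ Icc (0:ℝ) 1, γ t ∈ V ∧ nu i (γ t - y) ≤ lam) → γ 0 i ≤ p → q ≤ γ 1 i →
    (∀ x : E n, p < x i → x i < q → nu i (x - y) < lam' → ‖x‖ < 10) →
    ∃ ψ : HC n 10, Supp ψ {x | p < x i ∧ x i < q ∧ nu i (x - y) < lam'} ∧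
      ∃ dm dp : ℝ, p < dm ∧ dm < dp ∧ dp < q ∧
        (∀ t ∈ Icc dm dp, (ψ : E n ≃ₜ E n) (y + t • ee i) ∈ V) ∧
        (∀ t ∈ Icc p dm, ‖(ψ : E n ≃ₜ E n) (y + t • ee i) - (y + p • ee i)‖ ≤ δ + lam') ∧
        (∀ t ∈ Icc dp q, ‖(ψ : E n ≃ₜ E n) (y + t • ee i) - (y + q • ee i)‖ ≤ δ + lam')

/-- the single tube property -/
def SingleTube {n : ℕ} (F : Filter (HC n 10)) (i : Fin n) (a : ℝ) : Prop :=
  ∀ N ∈ F, ∀ ℓ > 0, ∀ lam > 0, lam ≤ 1 / 4 → ∀ c : E n, (∀ j, |c j| ≤ 1) → c i = 0 →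
    ∃ ψ : HC n 10, ∃ η : ℝ, 0 < η ∧ η ≤ lam ∧ ∃ s : HC n 10,
      Supp ψ {x | a < x i ∧ x i < a + 7 ∧ nu i (x - c) < lam} ∧
      (∀ x, ‖(ψ : E n ≃ₜ E n) x - x‖ ≤ ℓ + 2 * lam) ∧ Pusher i a c η s ∧ ψ * s * ψ⁻¹ ∈ N

/-- the many tubes property -/
def ManyTubes {n : ℕ} (F : Filter (HC n 10)) (i : Fin n) (a : ℝ) : Prop :=
  ∀ N ∈ F, ∃ sp : ℝ, 0 < sp ∧ sp ≤ 1 / 4 ∧ ∀ o : E n, (∀ j, |o j| ≤ sp) → ∃ s : HC n 10, s ∈ N ∧
    (∀ x : E n, a ≤ x i → x i ≤ a + 7 → nu i x ≤ 1 / 2 →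
      ∃ τ : ℝ, 0 ≤ τ ∧ (s : E n ≃ₜ E n) x = x + τ • ee i ∧ x i + τ ≤ a + 7) ∧
    (∀ x : E n, a + 1 ≤ x i → x i ≤ a + 7 → nu i x ≤ 1 / 2 →
      (∀ j, j ≠ i → ∃ k : ℤ, |x j - (o j + k * sp)| ≤ sp / 2 - sp / (4 * n)) →
      a + 6 ≤ (s : E n ≃ₜ E n) x i)

end Pool.Agent.Lib_helper11.PLM
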